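import Pool.Agent.COD.V1

/-! # Coding: old active levels in extensions, gaps

(problem MP_328cd5_lc, coding part, package V2; architect helper51; 1.0 h; other files are black boxes)

`ext_old` (7.2): let `p` be valid, `m` an active level, `p'` a condition with larger lengths and the same bits below the old lengths, and assume that
for all large `k ∈ S m` no new position of the form `f m x k` has the bit 1. Then every position of `p'` at `m` is decided, and new positions have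
the bit 0.
PROOF. Let `x` with `Pos p' m x`; `m` is `LL` (`Val.A_LL`). If `Pos p m x`: by `Val.dec` `Bit p m x` or `Zer p m x`, the same holds for `p'` (as in
`Bit.mono`, `Zer.mono`; only `l ≤ l'` and the agreement of the bits below `l` are used). If not `Pos p m x`: `not_fr` gives `p.l k ≤ f m x k` for all large
`k ∈ S m`; `Pos p' m x` gives unboundedly many `k` with `f m x k < p'.l k`; for such large `k` the position `f m x k` is new, so its bit is 0 by the
assumption `hn`: `Zer p' m x`, and then not `Bit p' m x` (`Bit.not_zer`).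
`gap_ext`: the club `E` of `p` for `l`, intersected with the tail beyond the `e` of `hW` (`Club.tail`).
`W_one`: let `l` be `InE`. If `m0 < l` take `e` with `m0 < e < l` (`lim_of_LL`): then `m ≥ c ≥ e > m0`. If `l ≤ m0`: `m ≤ h l c < l` (`CPP.C_h`), `e = ⊥`.
`W_S`: `a` is `LL`. `l < a`: by `CPP.S_E` there is `e < l` such that no element of `S a` lies in `[e, l)`; and `m ≤ h l c < l < a`, so `m ≠ a`. `a < l`: `e`
with `a < e < l`: all elements of `W` are `≤ a` (`CPP.S_lt`). `l = a`: `e = ⊥`; `m = a` is impossible, as `m ≤ h l c < l`; let `m ∈ S l`, `m = nx c'` with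
`c' ∈ C l` (`CPP.S_C`). `c' = c` is excluded. `c < c'`: `h l c < c' < nx c' = m`, contradiction. `c' < c`: `m = nx c' ≤ nx (nx c') ≤ h l c' < c ≤ m`,
contradiction (`CPP.C_gap`, `CPP.C_h`). -/

set_option autoImplicit false

universe u v

namespace COD

open WCal WM

variable {N : Type u} [WM N] {K : Type v} [WTy N K] [KTy N K] {D : CPD N K}

theorem ext_old (P : CPP D) {p p' : Pre N K} (hp : Val D p) (hl : ∀ m, p.2.1 m ≤ p'.2.1 m)
    (hs : ∀ m x, x < p.2.1 m → ((m, x) ∈ p.2.2.1 ↔ (m, x) ∈ p'.2.2.1)) {m : K} (hm : m ∈ p.1)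
    (hn : Ev N m (D.S m) (fun k => ∀ x, x < nx N m → p.2.1 k ≤ D.f m x k → D.f m x k < p'.2.1 k →
      (k, D.f m x k) ∉ p'.2.2.1)) :
    (∀ x, x < nx N m → Pos D p' m x → Bit D p' m x ∨ Zer D p' m x) ∧
      ∀ x, x < nx N m → Pos D p' m x → ¬ Pos D p m x → ¬ Bit D p' m x := by
  have hLL : LL N m := hp.A_LL m hm
  have key : ∀ x, x < nx N m → Pos D p' m x → ¬ Pos D p m x → Zer D p' m x := by
    intro x hx h1 h2
    have h3 : ¬ Fr N m (D.S m) (fun k => D.f m x k < p.2.1 k) := fun h => h2 (Or.inr ⟨hLL, h⟩)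
    have h4 : Fr N m (D.S m) (fun k => D.f m x k < p'.2.1 k) := by
      rcases h1 with h | h
      · exact absurd hLL (not_nl_ll h.1)
      · exact h.2
    have h5 := (h4.and_ev (not_fr.1 h3)).and_ev hn
    refine Fr.mono h5 ?_
    rintro k - - ⟨⟨h6, h7⟩, h8⟩
    exact ⟨h6, h8 x hx (not_lt.1 h7) h6⟩
  refine ⟨fun x hx h1 => ?_, fun x hx h1 h2 h3 => Bit.not_zer P hLL h3 (key x hx h1 h2)⟩
  by_cases h2 : Pos D p m x
  · rcases hp.dec m hm x hx h2 with h3 | h3
    · left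
      rcases h3 with h3 | h3
      · exact absurd hLL (not_nl_ll h3.1)
      · refine Or.inr ⟨hLL, Ev.mono h3.2 ?_⟩
        rintro k - - ⟨h4, h5⟩
        exact ⟨h4.trans_le (hl k), (hs k _ h4).1 h5⟩
    · right
      refine Fr.mono h3 ?_
      rintro k - - ⟨h4, h5⟩
      exact ⟨h4.trans_le (hl k), fun h6 => h5 ((hs k _ h4).2 h6)⟩
  · exact Or.inr (key x hx h1 h2)

theorem gap_ext (P : CPP D) {p p' : Pre N K} (hp : Val D p) (W : K → Prop)
    (hW : ∀ l, InE N l → ∃ e, e < l ∧ ∀ c, c ∈ D.C l → e ≤ c → ∀ m, Lv N m → c ≤ m → m ≤ D.h l c →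
      m ≠ nx N c → ¬ W m)
    (hi : ∀ m, Lv N m → ¬ W m → Idle p m → Idle p' m) :
    ∀ l, InE N l → ∃ E : St N K, Club N l E ∧ ∀ c, c ∈ D.C l → c ∈ E →
      ∀ m, Lv N m → c ≤ m → m ≤ D.h l c → m ≠ nx N c → Idle p' m := by
  intro l hl
  obtain ⟨E, hE, hE2⟩ := hp.gap l hl
  obtain ⟨e, he, hW'⟩ := hW l hl
  obtain ⟨E', hE', hE'2⟩ := Club.tail hE he
  refine ⟨E', hE', fun c hc hcE m hm h1 h2 h3 => ?_⟩
  exact hi m hm (hW' c hc (hE'2 c hcE).2 m hm h1 h2 h3) (hE2 c hc (hE'2 c hcE).1 m hm h1 h2 h3)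

theorem W_one (B : Bs N K) (P : CPP D) (m0 : K) : ∀ l, InE N l → ∃ e, e < l ∧ ∀ c, c ∈ D.C l → e ≤ c →
    ∀ m, Lv N m → c ≤ m → m ≤ D.h l c → m ≠ nx N c → ¬ m = m0 := by
  intro l hl
  have hlim : Lim N l := lim_of_LL B hl.1
  by_cases h0 : m0 < l
  · obtain ⟨e, h1, h2⟩ := hlim.2 m0 h0
    refine ⟨e, h2, ?_⟩
    rintro c - hec m - hcm - - rfl
    exact absurd (h1.trans_le (hec.trans hcm)) (lt_irrefl _)
  · refine ⟨⊥, bot_lt_iff_ne_bot.2 hlim.1, ?_⟩
    rintro c hc - m - - hmh - rfl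
    exact h0 (hmh.trans_lt (P.C_h l hl c hc).2)

theorem W_S (B : Bs N K) (P : CPP D) {a : K} (ha : LL N a) : ∀ l, InE N l → ∃ e, e < l ∧ ∀ c, c ∈ D.C l → e ≤ c →
    ∀ m, Lv N m → c ≤ m → m ≤ D.h l c → m ≠ nx N c → ¬ (m = a ∨ m ∈ D.S a) := by
  intro l hl
  have hlim : Lim N l := lim_of_LL B hl.1
  rcases lt_trichotomy l a with hla | rfl | hal
  · obtain ⟨e, h1, h2⟩ := P.S_E a l ha hl hla
    refine ⟨e, h1, ?_⟩
    rintro c hc hec m - hcm hmh - (rfl | hm)
    · exact lt_asymm hla (hmh.trans_lt (P.C_h l hl c hc).2)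
    · exact h2 m hm (hec.trans hcm) (hmh.trans_lt (P.C_h l hl c hc).2)
  · refine ⟨⊥, bot_lt_iff_ne_bot.2 hlim.1, ?_⟩
    rintro c hc - m - hcm hmh hne (rfl | hm)
    · exact lt_irrefl _ (hmh.trans_lt (P.C_h m hl c hc).2)
    · obtain ⟨c', hc', rfl⟩ := P.S_C l hl m hm
      rcases lt_trichotomy c' c with h | rfl | h
      · have h1 : D.h l c' < c := P.C_gap l hl c' c hc' hc h
        have h2 : nx N (nx N c') ≤ D.h l c' := (P.C_h l hl c' hc').1
        have h3 : nx N c' < nx N (nx N c') := lt_nx B _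
        exact lt_irrefl _ ((hcm.trans_lt h3).trans_le (h2.trans h1.le))
      · exact hne rfl
      · have h1 : D.h l c < c' := P.C_gap l hl c c' hc hc' h
        have h3 : c' < nx N c' := lt_nx B _
        exact lt_irrefl _ ((hmh.trans_lt h1).trans h3)
  · obtain ⟨e, h1, h2⟩ := hlim.2 a hal
    refine ⟨e, h2, ?_⟩
    rintro c - hec m - hcm - - (rfl | hm)
    · exact lt_irrefl _ (h1.trans_le (hec.trans hcm))
    · exact lt_asymm (P.S_lt a ha m hm).1 (h1.trans_le (hec.trans hcm))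

end COD
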