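import Pool.Agent.COD.Df
import Pool.Agent.COD.V2

/-! # Coding: data below and above `m0`

(problem MP_328cd5_lc, coding part, package Ca; architect helper51; 1.3 h; other files are black
boxes)

PROOFS. `Ag.pos`, `Ag.bit`, `Ag.zer`: case `NL m`: the clauses `LL` are impossible (`not_nl_ll`);
`LL m`: replace `Ev`, `Fr` of the one by the other on the
large elements (`Ev.and`, `Ev.mono`, `Fr.and_ev`, `Fr.mono`); if `m` is neither, both sides are
false. `ag_low`: for `LL m` and `k ∈ S m` we have `k < m < m0` (`CPP.S_lt`), take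
`e = ⊥` (`⊥ < m` by `cd_ne`). `ag_up`: `NL m`: `m0 ≤ m`. `LL m`: `m ≠ m0` (`not_nl_ll`), so
`m0 < m`, take `e = m0`. `mix_*`: by the rules `mix_A_lt`, ..., `mix_r_ge` of
`Df.lean`. `ext_pre`: `Prod.ext`, `St.ext`, `Set.ext`, `Fn.ext`, `funext`, cases `m < m0` and
`m0 ≤ m`. `EqS.of_EqB`: `nx m < m0` implies `m < m0` (`lt_nx`). `idle_one` is
in V1. `one_mix`: `mix one one = one` is `mix_self`. -/

set_option autoImplicit false
set_option linter.unusedVariables false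

universe u v

namespace COD

open WCal WM

variable {N : Type u} [WM N] {K : Type v} [WTy N K] [KTy N K] {D : CPD N K} {m0 m : K} {p q t t' : Pre N K}

theorem Ag.symm (h : Ag D m p q) : Ag D m q p := by
  exact ⟨fun hm => ⟨(h.1 hm).1.symm, fun x => ((h.1 hm).2 x).symm⟩,
    fun hm => (h.2 hm).mono fun k _ _ hk => ⟨hk.1.symm, fun x => (hk.2 x).symm⟩⟩

theorem Ag.trans (h : Ag D m p q) (h' : Ag D m q t) : Ag D m p t := by
  exact ⟨fun hm => ⟨(h.1 hm).1.trans (h'.1 hm).1, fun x => ((h.1 hm).2 x).trans ((h'.1 hm).2 x)⟩,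
    fun hm => ((h.2 hm).and (h'.2 hm)).mono fun k _ _ hk =>
      ⟨hk.1.1.trans hk.2.1, fun x => (hk.1.2 x).trans (hk.2.2 x)⟩⟩

private theorem pos1 (h : Ag D m p q) {x : K} : Pos D p m x → Pos D q m x := by
  rintro (⟨h1, h2⟩ | ⟨h1, h2⟩)
  · refine Or.inl ⟨h1, ?_⟩
    rw [← (h.1 h1).1]
    exact h2
  · refine Or.inr ⟨h1, (h2.and_ev (h.2 h1)).mono fun k _ _ hk => ?_⟩
    have h3 := hk.1
    rw [hk.2.1] at h3
    exact h3

private theorem bit1 (h : Ag D m p q) {x : K} : Bit D p m x → Bit D q m x := by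
  rintro (⟨h1, h2⟩ | ⟨h1, h2⟩)
  · exact Or.inl ⟨h1, ((h.1 h1).2 x).1 h2⟩
  · refine Or.inr ⟨h1, (h2.and (h.2 h1)).mono fun k _ _ hk => ?_⟩
    have h3 := hk.1
    rw [hk.2.1, hk.2.2] at h3
    exact h3

private theorem zer1 (hm : LL N m) (h : Ag D m p q) {x : K} : Zer D p m x → Zer D q m x := by
  intro h2
  refine Fr.mono (h2.and_ev (h.2 hm)) fun k _ _ hk => ?_
  have h3 := hk.1
  rw [hk.2.1, hk.2.2] at h3
  exact h3

theorem Ag.pos (h : Ag D m p q) (x : K) : Pos D p m x ↔ Pos D q m x := by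
  exact ⟨pos1 h, pos1 h.symm⟩

theorem Ag.bit (h : Ag D m p q) (x : K) : Bit D p m x ↔ Bit D q m x := by
  exact ⟨bit1 h, bit1 h.symm⟩

theorem Ag.zer (hm : LL N m) (h : Ag D m p q) (x : K) : Zer D p m x ↔ Zer D q m x := by
  exact ⟨zer1 hm h, zer1 hm h.symm⟩

theorem ag_low (P : CPP D) (hm : m < m0) (hl : ∀ k, k < m0 → p.2.1 k = q.2.1 k)
    (hs : ∀ k x, k < m0 → ((k, x) ∈ p.2.2.1 ↔ (k, x) ∈ q.2.2.1)) : Ag D m p q := by
  exact ⟨fun _ => ⟨hl m hm, fun x => hs m x hm⟩, fun h =>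
    ⟨⊥, bot_lt_iff_ne_bot.2 (cd_ne h.1), fun k _ _ hkm =>
      ⟨hl k (hkm.trans hm), fun x => hs k x (hkm.trans hm)⟩⟩⟩

theorem ag_up (P : CPP D) (h0 : NL N m0) (hm : m0 ≤ m) (hl : ∀ k, m0 ≤ k → p.2.1 k = q.2.1 k)
    (hs : ∀ k x, m0 ≤ k → ((k, x) ∈ p.2.2.1 ↔ (k, x) ∈ q.2.2.1)) : Ag D m p q := by
  refine ⟨fun _ => ⟨hl m hm, fun x => hs m x hm⟩, fun h =>
    ⟨m0, lt_of_le_of_ne hm ?_, fun k _ hmk _ => ⟨hl k hmk, fun x => hs k x hmk⟩⟩⟩
  rintro rfl
  exact not_nl_ll h0 h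

theorem EqB.refl (m0 : K) (p : Pre N K) : EqB m0 p p := by
  exact ⟨fun _ _ => Iff.rfl, fun _ _ => rfl, fun _ _ _ => Iff.rfl, fun _ _ _ => Iff.rfl⟩

theorem EqB.symm (h : EqB m0 p q) : EqB m0 q p := by
  exact ⟨fun m hm => (h.1 m hm).symm, fun m hm => (h.2.1 m hm).symm,
    fun m x hm => (h.2.2.1 m x hm).symm, fun m x hm => (h.2.2.2 m x hm).symm⟩

theorem EqB.trans (h : EqB m0 p q) (h' : EqB m0 q t) : EqB m0 p t := by
  exact ⟨fun m hm => (h.1 m hm).trans (h'.1 m hm), fun m hm => (h.2.1 m hm).trans (h'.2.1 m hm),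
    fun m x hm => (h.2.2.1 m x hm).trans (h'.2.2.1 m x hm),
    fun m x hm => (h.2.2.2 m x hm).trans (h'.2.2.2 m x hm)⟩

theorem EqU.refl (m0 : K) (p : Pre N K) : EqU m0 p p := by
  exact ⟨fun _ _ => Iff.rfl, fun _ _ => rfl, fun _ _ _ => Iff.rfl, fun _ _ _ => Iff.rfl⟩

theorem EqU.symm (h : EqU m0 p q) : EqU m0 q p := by
  exact ⟨fun m hm => (h.1 m hm).symm, fun m hm => (h.2.1 m hm).symm,
    fun m x hm => (h.2.2.1 m x hm).symm, fun m x hm => (h.2.2.2 m x hm).symm⟩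

theorem EqU.trans (h : EqU m0 p q) (h' : EqU m0 q t) : EqU m0 p t := by
  exact ⟨fun m hm => (h.1 m hm).trans (h'.1 m hm), fun m hm => (h.2.1 m hm).trans (h'.2.1 m hm),
    fun m x hm => (h.2.2.1 m x hm).trans (h'.2.2.1 m x hm),
    fun m x hm => (h.2.2.2 m x hm).trans (h'.2.2.2 m x hm)⟩

theorem EqS.symm (h : EqS m0 p q) : EqS m0 q p := by
  exact ⟨fun m hm => (h.1 m hm).symm, fun m hm => (h.2.1 m hm).symm,
    fun m x hm => (h.2.2.1 m x hm).symm, fun m x hm => (h.2.2.2 m x hm).symm⟩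

theorem EqS.trans (h : EqS m0 p q) (h' : EqS m0 q t) : EqS m0 p t := by
  exact ⟨fun m hm => (h.1 m hm).trans (h'.1 m hm), fun m hm => (h.2.1 m hm).trans (h'.2.1 m hm),
    fun m x hm => (h.2.2.1 m x hm).trans (h'.2.2.1 m x hm),
    fun m x hm => (h.2.2.2 m x hm).trans (h'.2.2.2 m x hm)⟩

theorem EqS.of_EqB (B : Bs N K) (h : EqB m0 p q) : EqS m0 p q := by
  exact ⟨h.1, h.2.1, h.2.2.1, fun m n hm => h.2.2.2 m n ((lt_nx B m).trans hm)⟩

theorem EqB.ag (P : CPP D) (h : EqB m0 p q) (hm : m < m0) : Ag D m p q := by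
  exact ag_low P hm h.2.1 fun k x hk => h.2.2.1 k x hk

theorem EqS.ag (P : CPP D) (h : EqS m0 p q) (hm : m < m0) : Ag D m p q := by
  exact ag_low P hm h.2.1 fun k x hk => h.2.2.1 k x hk

theorem EqU.ag (P : CPP D) (h0 : NL N m0) (h : EqU m0 p q) (hm : m0 ≤ m) : Ag D m p q := by
  exact ag_up P h0 hm h.2.1 fun k x hk => h.2.2.1 k x hk

theorem mix_EqB (m0 : K) (p q : Pre N K) : EqB m0 (mix m0 p q) p := by
  exact ⟨fun _ hm => mix_A_lt hm, fun _ hm => mix_l_lt hm, fun _ _ hm => mix_s_lt hm,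
    fun _ _ hm => mix_r_lt hm⟩

theorem mix_EqU (m0 : K) (p q : Pre N K) : EqU m0 (mix m0 p q) q := by
  exact ⟨fun _ hm => mix_A_ge hm, fun _ hm => mix_l_ge hm, fun _ _ hm => mix_s_ge hm,
    fun _ _ hm => mix_r_ge hm⟩

theorem mix_ag_low (P : CPP D) (hm : m < m0) (p q : Pre N K) : Ag D m (mix m0 p q) p := by
  exact (mix_EqB m0 p q).ag P hm

theorem mix_ag_up (P : CPP D) (h0 : NL N m0) (hm : m0 ≤ m) (p q : Pre N K) : Ag D m (mix m0 p q) q := by
  exact (mix_EqU m0 p q).ag P h0 hm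

theorem ext_pre (h : EqB m0 p q) (h' : EqU m0 p q) : p = q := by
  refine Prod.ext (St.ext (Set.ext fun m => ?_)) (Prod.ext (Fn.ext (funext fun m => ?_))
    (Prod.ext (St.ext (Set.ext fun z => ?_)) (St.ext (Set.ext fun z => ?_))))
  · rcases lt_or_ge m m0 with hm | hm
    · exact h.1 m hm
    · exact h'.1 m hm
  · rcases lt_or_ge m m0 with hm | hm
    · exact h.2.1 m hm
    · exact h'.2.1 m hm
  · rcases lt_or_ge z.1 m0 with hm | hm
    · exact h.2.2.1 z.1 z.2 hm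
    · exact h'.2.2.1 z.1 z.2 hm
  · rcases lt_or_ge z.1 m0 with hm | hm
    · exact h.2.2.2 z.1 z.2 hm
    · exact h'.2.2.2 z.1 z.2 hm

theorem mix_self (m0 : K) (p : Pre N K) : mix m0 p p = p := by
  exact ext_pre (mix_EqB m0 p p) (mix_EqU m0 p p)

theorem mix_eq (h : EqB m0 t p) (h' : EqU m0 t q) : mix m0 p q = t := by
  exact ext_pre ((mix_EqB m0 p q).trans h.symm) ((mix_EqU m0 p q).trans h'.symm)

theorem mix_mix (m0 : K) (t q t' : Pre N K) : mix m0 t (mix m0 q t') = mix m0 t t' := by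
  exact ext_pre ((mix_EqB m0 t _).trans (mix_EqB m0 t t').symm)
    ((mix_EqU m0 t _).trans ((mix_EqU m0 q t').trans (mix_EqU m0 t t').symm))

theorem mix_congr (h : EqB m0 p t) (h' : EqU m0 q t') : mix m0 p q = mix m0 t t' := by
  exact ext_pre ((mix_EqB m0 p q).trans (h.trans (mix_EqB m0 t t').symm))
    ((mix_EqU m0 p q).trans (h'.trans (mix_EqU m0 t t').symm))

theorem EqB.idle (h : EqB m0 p q) (hm : m < m0) : Idle p m ↔ Idle q m := by
  unfold Idle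
  rw [h.2.1 m hm]
  exact and_congr (not_congr (h.1 m hm))
    (and_congr Iff.rfl (forall_congr' fun n => not_congr (h.2.2.2 m n hm)))

theorem EqU.idle (h : EqU m0 p q) (hm : m0 ≤ m) : Idle p m ↔ Idle q m := by
  unfold Idle
  rw [h.2.1 m hm]
  exact and_congr (not_congr (h.1 m hm))
    (and_congr Iff.rfl (forall_congr' fun n => not_congr (h.2.2.2 m n hm)))

theorem LeU.refl (D : CPD N K) (m0 : K) (p : Pre N K) : LeU D m0 p p := by
  exact ⟨Le.refl p, EqB.refl m0 p⟩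

theorem LeU.trans (P : CPP D) (hq : Val D q) (ht : Val D t) (h : LeU D m0 p q) (h' : LeU D m0 q t) :
    LeU D m0 p t := by
  exact ⟨Le.trans P hq ht h.1 h'.1, h.2.trans h'.2⟩

/-- valid conditions are idle at non-levels -/
theorem Val.idle (B : Bs N K) (hp : Val D p) (hm : ¬ Lv N m) : Idle p m := by
  exact ⟨fun h => hm (Or.inr (hp.A_LL m h).1),
    by_contra fun h => hm (nl_lv B (hp.l_nl m h).1), fun n h => hm (hp.r_lt m n h).1⟩

end COD
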