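import Pool.Agent.COD.Df

/-! # Coding: families of conditions

(problem MP_328cd5_lc, coding part, package Qa; architect helper51; 1.3 h; other files are black boxes)

PROOFS. Everything is pointwise. `LeQ.trans`: `Le.trans`. `oneQ_val`: `one_val`, `idle_one`. `VQ.upd`: countable: `J ∪ {x}` (`Cnt.union`, `Cnt.finite`); `fin`:
subset of the old set and `{x}`. `VQ.glu`: union of both countable sets; `fin`: subset of the union. `supp`: `{x | q x ≠ one}` is internal
(`IP.not (IP.eq (IF.app ..) ..)`), contained in `J` (`Cnt.mono`). `cnt_bdd`: `cnt_iff_cov` (`K` is nonempty) and `Bs.cov` with `F = id`. `LeQ.eq_one`: `eq_one`.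
`Cpt.res`: restrict the common extension to `a`. `VQ.prm`: `countable`: the preimage of a countable set under `π` is the image under `σ` (`Cnt.image`); `fin`: the
preimage of a finite set under an injective function (`Set.Finite.preimage`). `prm_prm`: `Fn.ext`, `funext`. -/

set_option autoImplicit false

universe u v

namespace COD

open WCal WM

variable {N : Type u} [WM N] {K : Type v} [WTy N K] [KTy N K] {D : CPD N K}

theorem LeQ.refl (q : PQ N K) : LeQ D q q := by
  exact fun x => Le.refl (q x)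

theorem LeQ.trans (P : CPP D) {p q t : PQ N K} (hq : VQ D q) (ht : VQ D t) (h : LeQ D p q) (h' : LeQ D q t) :
    LeQ D p t := by
  exact fun x => Le.trans P (hq.val x) (ht.val x) (h x) (h' x)

theorem oneQ_val (B : Bs N K) : VQ D (oneQ : PQ N K) := by
  refine ⟨fun x => one_val B, ⟨⟨∅, IP.const False⟩, Or.inl fun a h => h, fun x _ => rfl⟩, ?_⟩
  have h : {x | ¬ Idle ((oneQ : PQ N K) x) ⊥} = ∅ :=
    Set.eq_empty_iff_forall_notMem.2 fun x hx => hx (idle_one _)
  rw [h]
  exact Set.finite_empty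

theorem LeQ.one (q : PQ N K) : LeQ D q oneQ := by
  exact fun x => le_one (q x)

theorem VQ.upd {q : PQ N K} (hq : VQ D q) {p : Pre N K} (hp : Val D p) (x : K) : VQ D (upd q x p) := by
  obtain ⟨J, hJ, hJ1⟩ := hq.cnt
  refine ⟨fun y => ?_, ?_, ?_⟩
  · by_cases h : y = x
    · rw [h, upd_same]
      exact hp
    · rw [upd_ne q h p]
      exact hq.val y
  · refine ⟨⟨{y | y ∈ J ∨ y = x}, IP.or (IP.mem IF.id (IF.const J)) (IP.eq IF.id (IF.const x))⟩,
      Cnt.union hJ (Cnt.finite (S := ⟨{y | y = x}, IP.eq IF.id (IF.const x)⟩) ?_) ?_, ?_⟩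
    · exact Set.finite_singleton x
    · exact fun a ha => ha
    · intro y hy
      have h1 : y ∉ J := fun h => hy (Or.inl h)
      have h2 : y ≠ x := fun h => hy (Or.inr h)
      rw [upd_ne q h2 p]
      exact hJ1 y h1
  · refine (hq.fin.insert x).subset ?_
    intro y hy
    by_cases h : y = x
    · exact Or.inl h
    · refine Or.inr ?_
      have h1 : ¬ Idle (COD.upd q x p y) ⊥ := hy
      rw [upd_ne q h p] at h1
      exact h1

theorem VI.upd {I : St N K} {q : PQ N K} (hq : VI D I q) {p : Pre N K} (hp : Val D p) {x : K} (hx : x ∈ I) :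
    VI D I (upd q x p) := by
  refine ⟨hq.1.upd hp x, fun y hy => ?_⟩
  have h : y ≠ x := fun h => hy (h ▸ hx)
  rw [upd_ne q h p]
  exact hq.2 y hy

theorem LeQ.upd {q : PQ N K} {x : K} {p : Pre N K} (h : Le D p (q x)) : LeQ D (upd q x p) q := by
  intro y
  by_cases hy : y = x
  · rw [hy, upd_same]
    exact h
  · rw [upd_ne q hy p]
    exact Le.refl _

theorem VQ.glu {a : St N K} {q q' : PQ N K} (hq : VQ D q) (hq' : VQ D q') : VQ D (glu a q q') := by
  obtain ⟨J, hJ, hJ1⟩ := hq.cnt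
  obtain ⟨J', hJ', hJ1'⟩ := hq'.cnt
  refine ⟨fun y => ?_, ?_, ?_⟩
  · by_cases h : y ∈ a
    · rw [glu_mem q q' h]
      exact hq.val y
    · rw [glu_not q q' h]
      exact hq'.val y
  · refine ⟨⟨{y | y ∈ J ∨ y ∈ J'}, IP.or (IP.mem IF.id (IF.const J)) (IP.mem IF.id (IF.const J'))⟩,
      Cnt.union hJ hJ' fun a ha => ha, ?_⟩
    intro y hy
    have h1 : y ∉ J := fun h => hy (Or.inl h)
    have h2 : y ∉ J' := fun h => hy (Or.inr h)
    by_cases h : y ∈ a
    · rw [glu_mem q q' h]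
      exact hJ1 y h1
    · rw [glu_not q q' h]
      exact hJ1' y h2
  · refine (hq.fin.union hq'.fin).subset ?_
    intro y hy
    have h1 : ¬ Idle (COD.glu a q q' y) ⊥ := hy
    by_cases h : y ∈ a
    · rw [glu_mem q q' h] at h1
      exact Or.inl h1
    · rw [glu_not q q' h] at h1
      exact Or.inr h1

theorem LeQ.glu {a : St N K} {p p' q q' : PQ N K} (h : LeQ D p q) (h' : LeQ D p' q') :
    LeQ D (glu a p p') (glu a q q') := by
  intro y
  by_cases hy : y ∈ a
  · rw [glu_mem p p' hy, glu_mem q q' hy]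
    exact h y
  · rw [glu_not p p' hy, glu_not q q' hy]
    exact h' y

theorem LeQ.glu_left {a : St N K} {p q : PQ N K} (hp : ∀ x, x ∉ a → p x = COD.one) : LeQ D (COD.glu a p q) p := by
  intro y
  by_cases hy : y ∈ a
  · rw [glu_mem p q hy]
    exact Le.refl _
  · rw [glu_not p q hy, hp y hy]
    exact le_one _

theorem LeQ.glu_right {a : St N K} {p q : PQ N K} (hq : ∀ x, x ∈ a → q x = COD.one) : LeQ D (COD.glu a p q) q := by
  intro y
  by_cases hy : y ∈ a
  · rw [glu_mem p q hy, hq y hy]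
    exact le_one _
  · rw [glu_not p q hy]
    exact Le.refl _

/-- restriction -/
theorem VQ.res (B : Bs N K) (a : St N K) {q : PQ N K} (hq : VQ D q) : VI D a (COD.glu a q oneQ) := by
  exact ⟨hq.glu (oneQ_val B), fun x hx => glu_not q oneQ hx⟩

theorem LeQ.res (a : St N K) (q : PQ N K) : LeQ D q (COD.glu a q oneQ) := by
  intro y
  by_cases hy : y ∈ a
  · rw [glu_mem q oneQ hy]
    exact Le.refl _
  · rw [glu_not q oneQ hy]
    exact le_one _

theorem LeQ.res_le {a : St N K} {q t : PQ N K} (hq : ∀ x, x ∉ a → q x = COD.one) (h : LeQ D t q) :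
    LeQ D (COD.glu a t oneQ) q := by
  intro y
  by_cases hy : y ∈ a
  · rw [glu_mem t oneQ hy]
    exact h y
  · rw [glu_not t oneQ hy, hq y hy]
    exact Le.refl _

theorem Cpt.res (B : Bs N K) {a : St N K} {p q : PQ N K} (hp : VI D a p) (hq : VI D a q) (h : Cpt D p q) :
    ∃ r, VI D a r ∧ LeQ D r p ∧ LeQ D r q := by
  obtain ⟨r, hr, h1, h2⟩ := h
  exact ⟨COD.glu a r oneQ, hr.res B a, LeQ.res_le hp.2 h1, LeQ.res_le hq.2 h2⟩

/-- the support -/
theorem VQ.supp {q : PQ N K} (hq : VQ D q) : ∃ J : St N K, Cnt J ∧ ∀ x, x ∈ J ↔ q x ≠ COD.one := by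
  obtain ⟨J, hJ, hJ1⟩ := hq.cnt
  have hi : IP N (fun x : K => q x ≠ COD.one) :=
    IP.not (IP.eq (IF.app (IF.const q) IF.id) (IF.const _))
  refine ⟨⟨{x | q x ≠ COD.one}, hi⟩, hJ.mono fun x hx => ?_, fun x => Iff.rfl⟩
  by_contra h
  exact hx (hJ1 x h)

theorem cnt_bdd (B : Bs N K) {J : St N K} (hJ : Cnt J) : ∃ c, ∀ x, x ∈ J → x < c := by
  exact B.cov ((cnt_iff_cov B).1 hJ) IF.id

theorem exists_not_mem (B : Bs N K) {J : St N K} (hJ : Cnt J) : ∃ x, x ∉ J := by
  obtain ⟨c, hc⟩ := cnt_bdd B hJ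
  exact ⟨c, fun h => lt_irrefl c (hc c h)⟩

theorem LeQ.eq_one {p q : PQ N K} (hq : VQ D q) (h : LeQ D p q) {x : K} (hx : p x = COD.one) : q x = COD.one := by
  have h1 := h x
  rw [hx] at h1
  exact COD.eq_one (hq.val x) h1

theorem VI_top {q : PQ N K} : VI D (⟨Set.univ, IP.const True⟩ : St N K) q ↔ VQ D q := by
  exact ⟨fun h => h.1, fun h => ⟨h, fun x hx => absurd (Set.mem_univ x) hx⟩⟩

/-! ## Permutations -/

theorem VQ.prm {π σ : Fn N K K} (h1 : ∀ x, σ (π x) = x) (h2 : ∀ x, π (σ x) = x) {q : PQ N K} (hq : VQ D q) :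
    VQ D (prm π q) := by
  obtain ⟨J, hJ, hJ1⟩ := hq.cnt
  refine ⟨fun x => hq.val (π x), ?_, ?_⟩
  · refine ⟨⟨{x | π x ∈ J}, IP.mem (IF.app (IF.const π) IF.id) (IF.const J)⟩,
      Cnt.image σ.int hJ ?_, fun x hx => hJ1 _ hx⟩
    intro x hx
    exact ⟨π x, hx, h1 x⟩
  · have hinj : Function.Injective π.f := fun x y h => by
      rw [← h1 x, ← h1 y]
      exact congrArg σ.f h
    exact hq.fin.preimage hinj.injOn

theorem LeQ.prm {π : Fn N K K} {p q : PQ N K} (h : LeQ D p q) : LeQ D (prm π p) (prm π q) := by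
  exact fun x => h (π x)

theorem prm_prm {π σ : Fn N K K} (h : ∀ x, σ (π x) = x) (q : PQ N K) : prm π (prm σ q) = q := by
  apply Fn.ext
  funext x
  exact congrArg q.f (h x)

end COD
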