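import Pool.Agent.COD.Ca
import Pool.Agent.COD.Qa

/-! # Coding: mixing two conditions

(problem MP_328cd5_lc, coding part, package Cb; architect helper51; 1.4 h; other files are black boxes)

PROOFS. `mix_val`: let `w = mix m0 p q` (rules `mix_A_lt`, ..., `mix_r_ge` in Df.lean; `mix_ag_low`, `mix_ag_up` in Ca.lean). `l_nl`, `s_lt`, `A_LL`, `r_A`: cases `m < m0`, `m0 ≤ m`.
`r_lt`: `(m, n) ∈ w.r`. `m0 ≤ m`: then `m0 ≤ m < nx m` (`lt_nx`), from `q`. `m < m0`: `nx m ≤ m0` (`nx_le`; `m0` is an infinite cardinal: `NL N m0`, `m0 ≠ ⊥`, `cd_nx`); if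
`nx m < m0` from `p`; if `nx m = m0` by `hr`. `r_fin`: `⊥ < m0`. `r_sz`: cases. `bdd`: maximum. `A_pos`: `m < m0`: for `k ∈ S m`: `k < m < m0` (`CPP.S_lt`), from `p`; `m0 ≤ m`: `m ≠ m0`
(`not_nl_ll`), for `k ≥ m0` from `q` (`Ev` with the maximum of both bounds, `< m`). `dec`: `Ag.pos`, `Ag.bit`, `Ag.zer` with `mix_ag_low`, `mix_ag_up`. `gap`: `l` is `InE`, so `l ≠ m0`. `l < m0`:
all `m ≤ h l c < l < m0` (`CPP.C_h`), the club of `p` (`EqB.idle`, `mix_EqB`). `m0 < l`: the club of `q` with the tail from `m0` on (`Club.tail`): `m ≥ c ≥ m0`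
(`EqU.idle`, `mix_EqU`).
`mixQ_val`: countable: union of both sets (`mix_self` for `one`); `fin`: `Idle (w x) ⊥ ↔ Idle (p x) ⊥` since `⊥ < m0`. `mixQ_VI`: outside of `I` both are `one`, `mix_self`. -/

set_option autoImplicit false

universe u v

namespace COD

open WCal WM

variable {N : Type u} [WM N] {K : Type v} [WTy N K] [KTy N K] {D : CPD N K} {m0 : K}

theorem mix_val (B : Bs N K) (P : CPP D) (h0 : NL N m0) (h1 : m0 ≠ ⊥) {p q : Pre N K} (hp : Val D p) (hq : Val D q)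
    (hr : ∀ m n, m < m0 → nx N m = m0 → (m, n) ∈ p.2.2.2 → n < q.2.1 m0) : Val D (mix m0 p q) := by
  have hcd : Cd N m0 := by
    rcases h0 with h | ⟨b, -, h⟩
    · exact absurd h h1
    · rw [h]
      exact cd_nx B b
  have hpos : (⊥ : K) < m0 := bot_lt_iff_ne_bot.2 h1
  have hgt : ∀ m, m0 ≤ m → LL N m → m0 < m := by
    intro m hm hL
    refine lt_of_le_of_ne hm ?_
    rintro rfl
    exact not_nl_ll h0 hL
  refine ⟨?_, ?_, ?_, ?_, ?_, ?_, ?_, ?_, ?_, ?_, ?_⟩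
  · intro m hm
    rcases lt_or_ge m m0 with h | h
    · rw [mix_l_lt h] at hm ⊢
      exact hp.l_nl m hm
    · rw [mix_l_ge h] at hm ⊢
      exact hq.l_nl m hm
  · intro m x hm
    rcases lt_or_ge m m0 with h | h
    · rw [mix_l_lt h]
      exact hp.s_lt m x ((mix_s_lt h).1 hm)
    · rw [mix_l_ge h]
      exact hq.s_lt m x ((mix_s_ge h).1 hm)
  · intro m n hm
    rcases lt_or_ge m m0 with h | h
    · have h2 := (mix_r_lt h).1 hm
      refine ⟨(hp.r_lt m n h2).1, ?_⟩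
      rcases (nx_le B h hcd).lt_or_eq with h3 | h3
      · rw [mix_l_lt h3]
        exact (hp.r_lt m n h2).2
      · rw [mix_l_ge h3.ge, h3]
        exact hr m n h h3 h2
    · have h2 := (mix_r_ge h).1 hm
      refine ⟨(hq.r_lt m n h2).1, ?_⟩
      rw [mix_l_ge (h.trans (lt_nx B m).le)]
      exact (hq.r_lt m n h2).2
  · intro m n hm hL
    rcases lt_or_ge m m0 with h | h
    · exact (mix_A_lt h).2 (hp.r_A m n ((mix_r_lt h).1 hm) hL)
    · exact (mix_A_ge h).2 (hq.r_A m n ((mix_r_ge h).1 hm) hL)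
  · exact hp.r_fin.subset fun n hn => (mix_r_lt hpos).1 hn
  · intro m hm
    rcases lt_or_ge m m0 with h | h
    · exact (hp.r_sz m hm).mono fun n hn => (mix_r_lt h).1 hn
    · exact (hq.r_sz m hm).mono fun n hn => (mix_r_ge h).1 hn
  · intro m hm
    rcases lt_or_ge m m0 with h | h
    · exact hp.A_LL m ((mix_A_lt h).1 hm)
    · exact hq.A_LL m ((mix_A_ge h).1 hm)
  · obtain ⟨e, he⟩ := hq.bdd
    exact ⟨max e m0, fun m hm => ((mix_EqU m0 p q).idle ((le_max_right _ _).trans hm)).2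
      (he m ((le_max_left _ _).trans hm))⟩
  · intro m hm
    rcases lt_or_ge m m0 with h | h
    · refine (hp.A_pos m ((mix_A_lt h).1 hm)).mono fun k _ hk h2 => ?_
      rw [mix_l_lt (hk.trans h)]
      exact h2
    · have h2 := (mix_A_ge h).1 hm
      have h3 : Ev N m (D.S m) (fun k => m0 ≤ k) :=
        ⟨m0, hgt m h (hq.A_LL m h2), fun k _ hk _ => hk⟩
      refine ((hq.A_pos m h2).and h3).mono fun k _ _ hk => ?_
      rw [mix_l_ge hk.2]
      exact hk.1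
  · intro m hm x hx hpx
    rcases lt_or_ge m m0 with h | h
    · have h2 := (mix_A_lt h).1 hm
      have hag := mix_ag_low P h p q
      exact (hp.dec m h2 x hx ((hag.pos x).1 hpx)).imp (hag.bit x).2
        (Ag.zer (hp.A_LL m h2) hag x).2
    · have h2 := (mix_A_ge h).1 hm
      have hag := mix_ag_up P h0 h p q
      exact (hq.dec m h2 x hx ((hag.pos x).1 hpx)).imp (hag.bit x).2
        (Ag.zer (hq.A_LL m h2) hag x).2
  · intro l hl
    rcases lt_or_ge l m0 with h | h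
    · obtain ⟨E, hE, hE2⟩ := hp.gap l hl
      refine ⟨E, hE, fun c hc hcE m hm hcm hmh hne => ?_⟩
      have hmm : m < m0 := (hmh.trans_lt (P.C_h l hl c hc).2).trans h
      exact ((mix_EqB m0 p q).idle hmm).2 (hE2 c hc hcE m hm hcm hmh hne)
    · obtain ⟨E, hE, hE2⟩ := hq.gap l hl
      obtain ⟨E', hE', hE3⟩ := hE.tail (hgt l h hl.1)
      refine ⟨E', hE', fun c hc hcE m hm hcm hmh hne => ?_⟩
      obtain ⟨h4, h5⟩ := hE3 c hcE
      exact ((mix_EqU m0 p q).idle (h5.trans hcm)).2 (hE2 c hc h4 m hm hcm hmh hne)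

theorem mixQ_val (B : Bs N K) (P : CPP D) (h0 : NL N m0) (h1 : m0 ≠ ⊥) {p q : PQ N K} (hp : VQ D p) (hq : VQ D q)
    (hr : ∀ x m n, m < m0 → nx N m = m0 → (m, n) ∈ (p x).2.2.2 → n < (q x).2.1 m0) : VQ D (mixQ m0 p q) := by
  refine ⟨fun x => mix_val B P h0 h1 (hp.val x) (hq.val x) (hr x), ?_, ?_⟩
  · obtain ⟨J, hJ, hJ2⟩ := hp.cnt
    obtain ⟨J', hJ', hJ2'⟩ := hq.cnt
    refine ⟨⟨{x | x ∈ J ∨ x ∈ J'}, IP.or J.int J'.int⟩, Cnt.union hJ hJ' fun a ha => ha, ?_⟩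
    intro x hx
    have hx1 : ¬ (x ∈ J ∨ x ∈ J') := hx
    show mix m0 (p x) (q x) = one
    rw [hJ2 x fun h => hx1 (Or.inl h), hJ2' x fun h => hx1 (Or.inr h), mix_self]
  · refine hp.fin.subset fun x hx h2 => hx ?_
    exact ((mix_EqB m0 (p x) (q x)).idle (bot_lt_iff_ne_bot.2 h1)).2 h2

theorem mixQ_VI (B : Bs N K) (P : CPP D) (h0 : NL N m0) (h1 : m0 ≠ ⊥) {I : St N K} {p q : PQ N K} (hp : VI D I p)
    (hq : VI D I q) (hr : ∀ x m n, m < m0 → nx N m = m0 → (m, n) ∈ (p x).2.2.2 → n < (q x).2.1 m0) :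
    VI D I (mixQ m0 p q) := by
  refine ⟨mixQ_val B P h0 h1 hp.1 hq.1 hr, fun x hx => ?_⟩
  show mix m0 (p x) (q x) = one
  rw [hp.2 x hx, hq.2 x hx, mix_self]

/-- the promises of `p` fit to every condition with larger lengths -/
theorem r_fit {p q : Pre N K} (hp : Val D p) (hl : p.2.1 m0 ≤ q.2.1 m0) :
    ∀ m n, m < m0 → nx N m = m0 → (m, n) ∈ p.2.2.2 → n < q.2.1 m0 := by
  intro m n _ hm hmn
  have h := (hp.r_lt m n hmn).2
  rw [hm] at h
  exact h.trans_le hl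

end COD
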