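import Pool.Agent.COD.Ca
import Pool.Agent.COD.Qa

/-! # Coding: monotonicity of mixing, the lower part of a condition

(problem MP_328cd5_lc, coding part, package Cc; architect helper51; 1.4 h; other files are black boxes)

PROOFS. `mix_mono`: `A, l, s, r`: cases `m < m0` (both sides are the data of `t`), `m0 ≤ m` (`Le D q u`). `pro`: let `(m, n) ∈ (mix m0 t u).r`, `x ∈ b m n v`, `Pos (mix m0 t q) m x`, not
`Pos (mix m0 t u) m x`. If `m < m0` both agree with `t` at `m` (`mix_ag_low`, `Ag.pos`), contradiction. If `m0 ≤ m`: `(m, n) ∈ u.r`, `m0 ≤ m < nx m`, so `v = [(nx m, n) ∈ u.s]`; by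
`mix_ag_up` `Pos q m x`, not `Pos u m x`, so not `Bit q m x` (`Le.pro`), not `Bit (mix m0 t q) m x`.
`mix_le_left`: `mix_mono` with `t := q`, `u := q`, `mix_self`. `mix_LeU`: `mix_le_left` and `mix_EqB`.
`le_right`: if `w = mix m0 t q` and `Le D q u`, `u = mix m0 s t` (so `mix m0 t u = t` by `mix_mix`, `mix_self`) then `Le D w t`: `mix_mono`.
`low_le` (8.5): `h ≤ g`, `h ≤ q`, `w` has the lower data of `g` and the upper data of `q`. `A`: `m < m0`: `m ∈ w.A ↔ m ∈ g.A`; `m0 ≤ m`: `m ∈ q.A`. `l, s, r`: same. `pro`: let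
`(m, n) ∈ w.r`, `x ∈ b m n v`, `v = [(nx m, n) ∈ w.s]`, `Pos h m x`, not `Pos w m x`. CASE `m0 ≤ m`: `(m, n) ∈ q.r`, `m0 ≤ nx m`, so `v = [(nx m, n) ∈ q.s]`, `Pos w m x ↔ Pos q m x` (`EqU.ag`), use
`pro` of `h ≤ q`. CASE `m < m0`: `(m, n) ∈ g.r`, `Pos w m x ↔ Pos g m x` (`EqB.ag`); `nx m ≤ m0` (`nx_le`). If `nx m < m0`: `v = [(nx m, n) ∈ g.s]`, use `pro` of `h ≤ g`. If `nx m = m0`:
`n < w.l m0` (`Val.r_lt` for `w`) `= q.l m0`, so `(m0, n) ∈ w.s ↔ (m0, n) ∈ q.s ↔ (m0, n) ∈ h.s` (`Le.s`), and `n < g.l m0` (`Val.r_lt` for `g`), so `(m0, n) ∈ g.s ↔ (m0, n) ∈ h.s`: again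
`v = [(nx m, n) ∈ g.s]`.
`lowQ_le`: coordinatewise; `mixQ m0 w oneQ = mixQ m0 g oneQ` gives `EqB m0 (g x) (w x)` (`mix_EqB`). -/

set_option autoImplicit false

universe u v

namespace COD

open WCal WM

variable {N : Type u} [WM N] {K : Type v} [WTy N K] [KTy N K] {D : CPD N K} {m0 : K}

theorem mix_mono (B : Bs N K) (P : CPP D) (h0 : NL N m0) {t q u : Pre N K} (h : Le D q u) :
    Le D (mix m0 t q) (mix m0 t u) := by
  refine ⟨fun m hm => ?_, fun m => ?_, fun m x hx => ?_, fun m n hn => ?_,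
    fun m n hn x hx hp hnp => ?_⟩
  · rcases lt_or_ge m m0 with h1 | h1
    · exact (mix_A_lt h1).2 ((mix_A_lt h1).1 hm)
    · exact (mix_A_ge h1).2 (h.A m ((mix_A_ge h1).1 hm))
  · rcases lt_or_ge m m0 with h1 | h1
    · rw [mix_l_lt h1, mix_l_lt h1]
    · rw [mix_l_ge h1, mix_l_ge h1]
      exact h.l m
  · rcases lt_or_ge m m0 with h1 | h1
    · rw [mix_s_lt h1, mix_s_lt h1]
    · rw [mix_l_ge h1] at hx
      rw [mix_s_ge h1, mix_s_ge h1]
      exact h.s m x hx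
  · rcases lt_or_ge m m0 with h1 | h1
    · exact (mix_r_lt h1).2 ((mix_r_lt h1).1 hn)
    · exact (mix_r_ge h1).2 (h.r m n ((mix_r_ge h1).1 hn))
  · rcases lt_or_ge m m0 with h1 | h1
    · exact absurd (((mix_ag_low P h1 t u).pos x).2 (((mix_ag_low P h1 t q).pos x).1 hp)) hnp
    · have h2 : m0 ≤ nx N m := h1.trans (lt_nx B m).le
      have e : ((nx N m, n) ∈ (mix m0 t u).2.2.1) = ((nx N m, n) ∈ u.2.2.1) :=
        propext (mix_s_ge h2)
      rw [e] at hx
      have h3 : Pos D q m x := ((mix_ag_up P h0 h1 t q).pos x).1 hp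
      have h4 : ¬ Pos D u m x := fun hc => hnp (((mix_ag_up P h0 h1 t u).pos x).2 hc)
      intro hb
      exact h.pro m n ((mix_r_ge h1).1 hn) x hx h3 h4 (((mix_ag_up P h0 h1 t q).bit x).1 hb)

theorem mix_le_left (B : Bs N K) (P : CPP D) (h0 : NL N m0) {q t : Pre N K} (h : Le D t q) :
    Le D (mix m0 q t) q := by
  have h1 := mix_mono B P h0 (t := q) h
  rw [mix_self m0 q] at h1
  exact h1

theorem mix_LeU (B : Bs N K) (P : CPP D) (h0 : NL N m0) {q t : Pre N K} (h : Le D (mix m0 q t) q) :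
    LeU D m0 (mix m0 q t) q := by
  exact ⟨h, mix_EqB m0 q t⟩

theorem le_right (B : Bs N K) (P : CPP D) (h0 : NL N m0) {s t q : Pre N K} (h : Le D q (mix m0 s t)) :
    Le D (mix m0 t q) t := by
  have h1 := mix_mono B P h0 (t := t) h
  rw [mix_mix m0 t s t, mix_self m0 t] at h1
  exact h1

theorem low_le (B : Bs N K) (P : CPP D) (h0 : NL N m0) (h1 : m0 ≠ ⊥) {w g q h : Pre N K} (hw : Val D w)
    (hg : Val D g) (hq : Val D q) (e1 : Le D h g) (e2 : Le D h q) (hB : EqB m0 g w) (hU : EqU m0 w q) : Le D h w := by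
  have hcd : Cd N m0 := by
    rcases h0 with h2 | ⟨b, _, h2⟩
    · exact absurd h2 h1
    · rw [h2]
      exact cd_nx B b
  refine ⟨fun m hm => ?_, fun m => ?_, fun m x hx => ?_, fun m n hn => ?_,
    fun m n hn x hx hp hnp => ?_⟩
  · rcases lt_or_ge m m0 with h2 | h2
    · exact e1.A m ((hB.1 m h2).2 hm)
    · exact e2.A m ((hU.1 m h2).1 hm)
  · rcases lt_or_ge m m0 with h2 | h2
    · rw [← hB.2.1 m h2]
      exact e1.l m
    · rw [hU.2.1 m h2]
      exact e2.l m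
  · rcases lt_or_ge m m0 with h2 | h2
    · rw [← hB.2.1 m h2] at hx
      exact (hB.2.2.1 m x h2).symm.trans (e1.s m x hx)
    · rw [hU.2.1 m h2] at hx
      exact (hU.2.2.1 m x h2).trans (e2.s m x hx)
  · rcases lt_or_ge m m0 with h2 | h2
    · exact e1.r m n ((hB.2.2.2 m n h2).2 hn)
    · exact e2.r m n ((hU.2.2.2 m n h2).1 hn)
  · rcases lt_or_ge m m0 with h2 | h2
    · have hgr : (m, n) ∈ g.2.2.2 := (hB.2.2.2 m n h2).2 hn
      have e : ((nx N m, n) ∈ w.2.2.1) = ((nx N m, n) ∈ g.2.2.1) := by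
        apply propext
        rcases lt_or_ge (nx N m) m0 with h3 | h3
        · exact (hB.2.2.1 (nx N m) n h3).symm
        · have h4 : n < q.2.1 (nx N m) := by
            rw [← hU.2.1 (nx N m) h3]
            exact (hw.r_lt m n hn).2
          exact ((hU.2.2.1 (nx N m) n h3).trans (e2.s (nx N m) n h4)).trans
            (e1.s (nx N m) n (hg.r_lt m n hgr).2).symm
      rw [e] at hx
      have h4 : ¬ Pos D g m x := fun hc => hnp (((hB.ag P h2).pos x).1 hc)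
      exact e1.pro m n hgr x hx hp h4
    · have h3 : m0 ≤ nx N m := h2.trans (lt_nx B m).le
      have e : ((nx N m, n) ∈ w.2.2.1) = ((nx N m, n) ∈ q.2.2.1) :=
        propext (hU.2.2.1 (nx N m) n h3)
      rw [e] at hx
      have h4 : ¬ Pos D q m x := fun hc => hnp (((hU.ag P h0 h2).pos x).2 hc)
      exact e2.pro m n ((hU.2.2.2 m n h2).1 hn) x hx hp h4

theorem lowQ_le (B : Bs N K) (P : CPP D) (h0 : NL N m0) (h1 : m0 ≠ ⊥) {w g q h : PQ N K} (hw : VQ D w)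
    (hg : VQ D g) (hq : VQ D q) (e1 : LeQ D h g) (e2 : LeQ D h q) (hB : mixQ m0 g oneQ = mixQ m0 w oneQ)
    (hU : EqUQ m0 w q) : LeQ D h w := by
  intro x
  have h2 : mix m0 (g x) (oneQ x) = mix m0 (w x) (oneQ x) := congrFun (congrArg Fn.f hB) x
  have h3 : EqB m0 (g x) (w x) := by
    have h4 := mix_EqB m0 (g x) ((oneQ : PQ N K) x)
    rw [h2] at h4
    exact h4.symm.trans (mix_EqB m0 (w x) ((oneQ : PQ N K) x))
  exact low_le B P h0 h1 (hw.val x) (hg.val x) (hq.val x) (e1 x) (e2 x) h3 (hU x)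

end COD
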