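import Pool.Agent.COD.Cb
import Pool.Agent.COD.Cc

/-! # Coding: the join of two conditions with compatible lower parts

(problem MP_328cd5_lc, coding part, package Cj; architect helper51; 1.6 h; other files are black boxes)

PROOFS. `join`, `w = mix m0 t q`. THREE CASES of `hc`.
(i) `EqS m0 t r`: `u = (r.A, r.l, r.s, r.r ∪ {(m, n) ∈ t.r | m < m0})`. `u` is valid: all fields except those for `r` are the ones of `r` (`Pos`, `Bit`, `Zer` do not depend on `r`; they are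
definitionally equal); `r_lt` for `(m, n) ∈ t.r`, `m < m0`: `Lv m`; `nx m ≤ m0` (`nx_le`); if `nx m < m0`: `n < t.l (nx m) = r.l (nx m)`; if `nx m = m0`: `n < q.l m0 ≤ r.l m0` by `hw` and `Le.l`. `r_A`: `m ∈ t.A`,
so `m ∈ r.A` (`m < m0`). `r_fin`: union of two finite sets. `r_sz`: union of two sets (`Cov.iUnion` over `Prop` or `Bool`, or `Cov.union`-like; for `m ≥ m0` there is nothing new). `bdd`: maximum of the bounds of `r` and `t`. `gap`:
for `l`: the intersection of the clubs of `r` and `t` (`Club.inter` with `I` covering two elements, or the club of `r` and for `l ≥ m0` the tail from `m0` on, for `l < m0` both clubs): `Idle u m` follows from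
`Idle r m` and `Idle t m`, and for `m ≥ m0` from `Idle r m`. `u ≤ r`: no new positions. `u ≤ w`: `A`: `m < m0`: `m ∈ t.A ↔ m ∈ r.A`; `m0 ≤ m`: `m ∈ q.A → m ∈ r.A`. `l`, `s`: same. `r`: `m < m0`: in `u.r` by definition. `m0 ≤ m`: `Le.r`.
`pro`: `(m, n) ∈ w.r`, `Pos u m x`, not `Pos w m x`: `m < m0`: `Pos u m x ↔ Pos r m x ↔ Pos t m x ↔ Pos w m x` (`EqS.ag`, `mix_ag_low`), contradiction; `m0 ≤ m`: `(m, n) ∈ q.r`, the bit of `(nx m, n)` is the one of `q`,
`Pos r m x`, not `Pos q m x` (`mix_ag_up`), `Le.pro` of `r ≤ q`. `u = one` if `w = one`, `r = one`: then `t` has no promises below `m0` (`mix_EqB`).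
(ii) `r` idle below `m0`: `u = mix m0 t r`, valid by `mix_val` (`hw`, `Le.l`). `u ≤ w`: `mix_mono`. `u ≤ r`: below `m0` all data of `r` are trivial (for `s` use `Val.s_lt`; `Idle` for all `m < m0`); above they are equal; `pro`: `(m, n) ∈ r.r` implies
`m0 ≤ m`, `Pos u m x ↔ Pos r m x` (`mix_ag_up`). `u = one`: `mix m0 t q = one` and `r = one`: `mix_congr`, `mix_eq`.
(iii) `t` idle below `m0`: `u = r`. `u ≤ w`: below `m0` all data of `w` are trivial; `A, l, s, r` for `m0 ≤ m` by `r ≤ q`; `pro`: `(m, n) ∈ w.r` implies `m0 ≤ m`, `(m, n) ∈ q.r`, `Pos w m x ↔ Pos q m x`.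
`Idle u ⊥`: `⊥ < m0`.
`joinQ`: `join` for every coordinate and `WCal.choice` for the internal relation between `x` and `u`: `Val D u ∧ Le D u (mix m0 (t x) (q x)) ∧ Le D u (r x) ∧ (mix m0 (t x) (q x) = one → r x = one → u = one) ∧
(Idle (t x) ⊥ → Idle (r x) ⊥ → Idle u ⊥)`; the support is contained in the union of the supports of `t, q, r` (`mix_self` for `one`), the level `⊥` is idle for all but finitely many `x` (`VQ.fin` of `t` and `r`). -/

set_option autoImplicit false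

universe u v

namespace COD

open WCal WM

variable {N : Type u} [WM N] {K : Type v} [WTy N K] [KTy N K] {D : CPD N K} {m0 : K}

private theorem cov_or (B : Bs N K) {m : K} (hm : Cd N m) {A A' : K → Prop} (hA : IP N A)
    (hA' : IP N A') (h : Cov N m A) (h' : Cov N m A') : Cov N m (fun a => A a ∨ A' a) := by
  have h1 : IP N (fun p : Prop × K => (p.1 ∧ A p.2) ∨ (¬ p.1 ∧ A' p.2)) :=
    IP.or (IP.and (IF.prop.1 IF.fst) (hA.comp IF.snd))
      (IP.and (IP.not (IF.prop.1 IF.fst)) (hA'.comp IF.snd))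
  have h2 : Cov N m (fun _ : Prop => True) := Cov.finite B hm (Set.toFinite _)
  refine Cov.mono ?_ (Cov.iUnion B hm h2 (A := fun (b : Prop) (a : K) => (b ∧ A a) ∨ (¬ b ∧ A' a))
    h1 fun b _ => ?_)
  · rintro a (ha | ha)
    · exact ⟨True, trivial, Or.inl ⟨trivial, ha⟩⟩
    · exact ⟨False, trivial, Or.inr ⟨fun h => h, ha⟩⟩
  · by_cases hb : b
    · exact Cov.mono (fun a ha => ha.elim (fun h => h.2) fun h => absurd hb h.1) h
    · exact Cov.mono (fun a ha => ha.elim (fun h => absurd h.1 hb) fun h => h.2) h'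

private theorem pro_up (B : Bs N K) (P : CPP D) (h0 : NL N m0) {t q r : Pre N K} (hrq : Le D r q)
    {m n x : K} (hm : m0 ≤ m) (h : (m, n) ∈ (mix m0 t q).2.2.2)
    (hx : x ∈ D.b m n ((nx N m, n) ∈ (mix m0 t q).2.2.1)) (hp : Pos D r m x)
    (hn : ¬ Pos D (mix m0 t q) m x) : ¬ Bit D r m x := by
  have h2 : ((nx N m, n) ∈ (mix m0 t q).2.2.1) = ((nx N m, n) ∈ q.2.2.1) :=
    propext (mix_s_ge (hm.trans (lt_nx B m).le))
  rw [h2] at hx
  exact hrq.pro m n ((mix_r_ge hm).1 h) x hx hp fun h3 =>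
    hn (((mix_ag_up P h0 hm t q).pos x).2 h3)

private theorem jR_int (m0 : K) (t r : Pre N K) :
    IP N (fun z : K × K => z ∈ r.2.2.2 ∨ (z.1 < m0 ∧ z ∈ t.2.2.2)) :=
  IP.or (IP.mem IF.id (IF.const _)) (IP.and (ip_ltK IF.fst (IF.const m0))
    (IP.mem IF.id (IF.const _)))

/-- `r` with the promises of `t` below `m0` -/
private def jU (m0 : K) (t r : Pre N K) : Pre N K :=
  (r.1, r.2.1, r.2.2.1, ⟨{z | z ∈ r.2.2.2 ∨ (z.1 < m0 ∧ z ∈ t.2.2.2)}, jR_int m0 t r⟩)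

private theorem mem_jU {t r : Pre N K} {m n : K} : (m, n) ∈ (jU m0 t r).2.2.2 ↔
    (m, n) ∈ r.2.2.2 ∨ (m < m0 ∧ (m, n) ∈ t.2.2.2) := Iff.rfl

private theorem jU_idle {t r : Pre N K} {m : K} (h : Idle r m)
    (h' : m < m0 → ∀ n, (m, n) ∉ t.2.2.2) : Idle (jU m0 t r) m :=
  ⟨h.1, h.2.1, fun n hn => hn.elim (h.2.2 n) fun hn => h' hn.1 n hn.2⟩

private theorem join1 (B : Bs N K) (P : CPP D) (h0 : NL N m0) (h1 : m0 ≠ ⊥) {t q r : Pre N K}
    (ht : Val D t) (hr : Val D r)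
    (hw : ∀ m n, m < m0 → nx N m = m0 → (m, n) ∈ t.2.2.2 → n < q.2.1 m0) (hrq : Le D r q)
    (hc : EqS m0 t r) :
    ∃ u, Val D u ∧ Le D u (mix m0 t q) ∧ Le D u r ∧ (mix m0 t q = one → r = one → u = one) ∧
      (Idle t ⊥ → Idle r ⊥ → Idle u ⊥) := by
  have hcd : Cd N m0 := by
    rcases h0 with h | ⟨b, -, rfl⟩
    · exact absurd h h1
    · exact cd_nx B b
  have hu : Val D (jU m0 t r) := by
    refine ⟨hr.l_nl, hr.s_lt, ?_, ?_, ?_, ?_, hr.A_LL, ?_, hr.A_pos, hr.dec, ?_⟩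
    · rintro m n (h | ⟨hm, h⟩)
      · exact hr.r_lt m n h
      · obtain ⟨h2, h3⟩ := ht.r_lt m n h
        refine ⟨h2, ?_⟩
        change n < r.2.1 (nx N m)
        rcases lt_or_eq_of_le (nx_le B hm hcd) with h4 | h4
        · rw [← hc.2.1 _ h4]
          exact h3
        · rw [h4]
          exact (hw m n hm h4 h).trans_le (hrq.l m0)
    · rintro m n (h | ⟨hm, h⟩) hl
      · exact hr.r_A m n h hl
      · exact (hc.1 m hm).1 (ht.r_A m n h hl)
    · exact (hr.r_fin.union ht.r_fin).subset fun n hn =>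
        hn.elim (fun h => Or.inl h) fun h => Or.inr h.2
    · intro m hm
      refine Cov.mono (fun n hn => ?_) (cov_or B hm
        (IP.mem (IF.pair (IF.const m) IF.id) (IF.const r.2.2.2))
        (IP.mem (IF.pair (IF.const m) IF.id) (IF.const t.2.2.2)) (hr.r_sz m hm) (ht.r_sz m hm))
      exact hn.elim (fun h => Or.inl h) fun h => Or.inr h.2
    · obtain ⟨e, he⟩ := hr.bdd
      obtain ⟨e', he'⟩ := ht.bdd
      exact ⟨max e e', fun m hm => jU_idle (he m ((le_max_left _ _).trans hm)) fun _ =>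
        (he' m ((le_max_right _ _).trans hm)).2.2⟩
    · refine gap_ext P hr (fun m => m < m0 ∧ ¬ nx N m < m0) ?_ ?_
      · intro l hl
        rcases lt_or_ge m0 l with h2 | h2
        · exact ⟨m0, h2, fun c _ hec m _ hcm _ _ hW => absurd hW.1 (not_lt.2 (hec.trans hcm))⟩
        · refine ⟨⊥, bot_lt_iff_ne_bot.2 (cd_ne hl.1.1), fun c hcl _ m _ _ hmh _ hW => hW.2 ?_⟩
          exact (nx_lt_of_LL B hl.1 (hmh.trans_lt (P.C_h l hl c hcl).2)).trans_le h2
      · intro m _ hW hi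
        refine jU_idle hi fun hm n hn => ?_
        have h2 : nx N m < m0 := by
          by_contra h3
          exact hW ⟨hm, h3⟩
        exact hi.2.2 n ((hc.2.2.2 m n h2).1 hn)
  refine ⟨jU m0 t r, hu, ⟨?_, ?_, ?_, ?_, ?_⟩, ⟨fun _ h => h, fun _ => le_rfl,
    fun _ _ _ => Iff.rfl, fun _ _ h => Or.inl h, fun _ _ _ _ _ h h' => absurd h h'⟩, ?_, ?_⟩
  · intro m hm
    rcases lt_or_ge m m0 with h2 | h2
    · exact (hc.1 m h2).1 ((mix_A_lt h2).1 hm)
    · exact hrq.A m ((mix_A_ge h2).1 hm)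
  · intro m
    change _ ≤ r.2.1 m
    rcases lt_or_ge m m0 with h2 | h2
    · rw [mix_l_lt h2, hc.2.1 m h2]
    · rw [mix_l_ge h2]
      exact hrq.l m
  · intro m x hx
    change _ ↔ (m, x) ∈ r.2.2.1
    rcases lt_or_ge m m0 with h2 | h2
    · exact (mix_s_lt h2).trans (hc.2.2.1 m x h2)
    · rw [mix_l_ge h2] at hx
      exact (mix_s_ge h2).trans (hrq.s m x hx)
  · intro m n hmn
    rcases lt_or_ge m m0 with h2 | h2
    · exact Or.inr ⟨h2, (mix_r_lt h2).1 hmn⟩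
    · exact Or.inl (hrq.r m n ((mix_r_ge h2).1 hmn))
  · intro m n hmn x hx hp hn
    rcases lt_or_ge m m0 with h2 | h2
    · exact absurd (((mix_ag_low P h2 t q).pos x).2 (((hc.ag P h2).pos x).2 hp)) hn
    · exact pro_up B P h0 hrq h2 hmn hx hp hn
  · intro h2 h3
    refine idle_eq B hu fun m _ => jU_idle (by rw [h3]; exact idle_one m) fun hm => ?_
    have h4 : Idle t m := ((mix_EqB m0 t q).idle hm).1 (by rw [h2]; exact idle_one m)
    exact h4.2.2
  · exact fun h2 h3 => jU_idle h3 fun _ => h2.2.2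

private theorem join2 (B : Bs N K) (P : CPP D) (h0 : NL N m0) (h1 : m0 ≠ ⊥) {t q r : Pre N K}
    (ht : Val D t) (hr : Val D r)
    (hw : ∀ m n, m < m0 → nx N m = m0 → (m, n) ∈ t.2.2.2 → n < q.2.1 m0) (hrq : Le D r q)
    (hc : ∀ m, m < m0 → Idle r m) :
    ∃ u, Val D u ∧ Le D u (mix m0 t q) ∧ Le D u r ∧ (mix m0 t q = one → r = one → u = one) ∧
      (Idle t ⊥ → Idle r ⊥ → Idle u ⊥) := by
  refine ⟨mix m0 t r, mix_val B P h0 h1 ht hr fun m n hm hm' h =>
    (hw m n hm hm' h).trans_le (hrq.l m0), mix_mono B P h0 hrq, ⟨?_, ?_, ?_, ?_, ?_⟩, ?_, ?_⟩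
  · intro m hm
    rcases lt_or_ge m m0 with h2 | h2
    · exact absurd hm (hc m h2).1
    · exact (mix_A_ge h2).2 hm
  · intro m
    rcases lt_or_ge m m0 with h2 | h2
    · rw [(hc m h2).2.1]
      exact bot_le
    · rw [mix_l_ge h2]
  · intro m x hx
    rcases lt_or_ge m m0 with h2 | h2
    · rw [(hc m h2).2.1] at hx
      exact absurd hx not_lt_bot
    · exact (mix_s_ge h2).symm
  · intro m n hmn
    rcases lt_or_ge m m0 with h2 | h2
    · exact absurd hmn ((hc m h2).2.2 n)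
    · exact (mix_r_ge h2).2 hmn
  · intro m n hmn x _ hp hn
    rcases lt_or_ge m m0 with h2 | h2
    · exact absurd hmn ((hc m h2).2.2 n)
    · exact absurd (((mix_ag_up P h0 h2 t r).pos x).1 hp) hn
  · intro h2 h3
    subst h3
    have h4 := mix_EqB m0 t q
    rw [h2] at h4
    exact mix_eq h4 (EqU.refl m0 _)
  · exact fun h2 _ => ((mix_EqB m0 t r).idle (bot_lt_iff_ne_bot.2 h1)).2 h2

private theorem join3 (B : Bs N K) (P : CPP D) (h0 : NL N m0) {t q r : Pre N K}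
    (hr : Val D r) (hrq : Le D r q) (hc : ∀ m, m < m0 → Idle t m) :
    ∃ u, Val D u ∧ Le D u (mix m0 t q) ∧ Le D u r ∧ (mix m0 t q = one → r = one → u = one) ∧
      (Idle t ⊥ → Idle r ⊥ → Idle u ⊥) := by
  refine ⟨r, hr, ⟨?_, ?_, ?_, ?_, ?_⟩, Le.refl r, fun _ h => h, fun _ h => h⟩
  · intro m hm
    rcases lt_or_ge m m0 with h2 | h2
    · exact absurd ((mix_A_lt h2).1 hm) (hc m h2).1
    · exact hrq.A m ((mix_A_ge h2).1 hm)
  · intro m
    rcases lt_or_ge m m0 with h2 | h2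
    · rw [mix_l_lt h2, (hc m h2).2.1]
      exact bot_le
    · rw [mix_l_ge h2]
      exact hrq.l m
  · intro m x hx
    rcases lt_or_ge m m0 with h2 | h2
    · rw [mix_l_lt h2, (hc m h2).2.1] at hx
      exact absurd hx not_lt_bot
    · rw [mix_l_ge h2] at hx
      exact (mix_s_ge h2).trans (hrq.s m x hx)
  · intro m n hmn
    rcases lt_or_ge m m0 with h2 | h2
    · exact absurd ((mix_r_lt h2).1 hmn) ((hc m h2).2.2 n)
    · exact hrq.r m n ((mix_r_ge h2).1 hmn)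
  · intro m n hmn x hx hp hn
    rcases lt_or_ge m m0 with h2 | h2
    · exact absurd ((mix_r_lt h2).1 hmn) ((hc m h2).2.2 n)
    · exact pro_up B P h0 hrq h2 hmn hx hp hn

theorem join (B : Bs N K) (P : CPP D) (h0 : NL N m0) (h1 : m0 ≠ ⊥) {t q r : Pre N K} (ht : Val D t) (hq : Val D q)
    (hr : Val D r) (hw : ∀ m n, m < m0 → nx N m = m0 → (m, n) ∈ t.2.2.2 → n < q.2.1 m0) (hrq : Le D r q)
    (hc : EqS m0 t r ∨ (∀ m, m < m0 → Idle r m) ∨ ∀ m, m < m0 → Idle t m) :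
    ∃ u, Val D u ∧ Le D u (mix m0 t q) ∧ Le D u r ∧ (mix m0 t q = one → r = one → u = one) ∧
      (Idle t ⊥ → Idle r ⊥ → Idle u ⊥) := by
  rcases hc with h | h | h
  · exact join1 B P h0 h1 ht hr hw hrq h
  · exact join2 B P h0 h1 ht hr hw hrq h
  · exact join3 B P h0 hr hrq h

theorem joinQ (B : Bs N K) (P : CPP D) (h0 : NL N m0) (h1 : m0 ≠ ⊥) {t q r : PQ N K} (ht : VQ D t) (hq : VQ D q)
    (hr : VQ D r) (hw : ∀ x m n, m < m0 → nx N m = m0 → (m, n) ∈ (t x).2.2.2 → n < (q x).2.1 m0) (hrq : LeQ D r q)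
    (hc : ∀ x, EqS m0 (t x) (r x) ∨ (∀ m, m < m0 → Idle (r x) m) ∨ ∀ m, m < m0 → Idle (t x) m) :
    Cpt D (mixQ m0 t q) r := by
  have : Fact (Bs N K) := ⟨B⟩
  have : Fact (CPP D) := ⟨P⟩
  have hI : IP N (fun p : K × Pre N K => Val D p.2 ∧ Le D p.2 (mix m0 (t p.1) (q p.1)) ∧
      Le D p.2 (r p.1) ∧ (mix m0 (t p.1) (q p.1) = one → r p.1 = one → p.2 = one) ∧
      (Idle (t p.1) ⊥ → Idle (r p.1) ⊥ → Idle p.2 ⊥)) := by
    have i1 : IF N (fun p : K × Pre N K => t p.1) := t.int.comp IF.fst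
    have i2 : IF N (fun p : K × Pre N K => q p.1) := q.int.comp IF.fst
    have i3 : IF N (fun p : K × Pre N K => r p.1) := r.int.comp IF.fst
    have i4 : IF N (fun p : K × Pre N K => mix m0 (t p.1) (q p.1)) := if_mix (IF.const m0) i1 i2
    exact IP.and (ip_Val IF.snd) (IP.and (ip_Le IF.snd i4) (IP.and (ip_Le IF.snd i3)
      (IP.and (IP.imp (IP.eq i4 (IF.const _)) (IP.imp (IP.eq i3 (IF.const _))
        (IP.eq IF.snd (IF.const _)))) (IP.imp (ip_Idle i1 (IF.const ⊥))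
          (IP.imp (ip_Idle i3 (IF.const ⊥)) (ip_Idle IF.snd (IF.const ⊥)))))))
  obtain ⟨f, hf, hf'⟩ := choice (P := fun (x : K) (u : Pre N K) => Val D u ∧
      Le D u (mix m0 (t x) (q x)) ∧ Le D u (r x) ∧
      (mix m0 (t x) (q x) = one → r x = one → u = one) ∧
      (Idle (t x) ⊥ → Idle (r x) ⊥ → Idle u ⊥)) hI fun x =>
    join B P h0 h1 (ht.val x) (hq.val x) (hr.val x) (hw x) (hrq x) (hc x)
  refine ⟨⟨f, hf⟩, ⟨fun x => (hf' x).1, ?_, ?_⟩, fun x => (hf' x).2.1, fun x => (hf' x).2.2.1⟩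
  · obtain ⟨J1, hJ1, hJ1'⟩ := ht.cnt
    obtain ⟨J2, hJ2, hJ2'⟩ := hq.cnt
    obtain ⟨J3, hJ3, hJ3'⟩ := hr.cnt
    have i1 : IP N (fun x : K => x ∈ J1 ∨ x ∈ J2) :=
      IP.or (IP.mem IF.id (IF.const J1)) (IP.mem IF.id (IF.const J2))
    have i2 : IP N (fun x : K => (x ∈ J1 ∨ x ∈ J2) ∨ x ∈ J3) :=
      IP.or i1 (IP.mem IF.id (IF.const J3))
    refine ⟨⟨{x | (x ∈ J1 ∨ x ∈ J2) ∨ x ∈ J3}, i2⟩, Cnt.union (Cnt.union (T := ⟨{x | x ∈ J1 ∨
      x ∈ J2}, i1⟩) hJ1 hJ2 fun x hx => hx) hJ3 fun x hx => hx, fun x hx => ?_⟩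
    have h2 : x ∉ J1 := fun h => hx (Or.inl (Or.inl h))
    have h3 : x ∉ J2 := fun h => hx (Or.inl (Or.inr h))
    have h4 : x ∉ J3 := fun h => hx (Or.inr h)
    refine (hf' x).2.2.2.1 ?_ (hJ3' x h4)
    rw [hJ1' x h2, hJ2' x h3, mix_self]
  · refine (ht.fin.union hr.fin).subset fun x hx => ?_
    by_contra h2
    have h3 : Idle (t x) ⊥ := by
      by_contra h4
      exact h2 (Or.inl h4)
    have h5 : Idle (r x) ⊥ := by
      by_contra h4
      exact h2 (Or.inr h4)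
    exact hx ((hf' x).2.2.2.2 h3 h5)

end COD
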