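import Pool.Agent.COD.Cb

/-! # Coding: merging two conditions (kappa-c.c., one coordinate)

(problem MP_328cd5_lc, coding part, package Ck; architect helper51; 1.3 h; other files are black boxes)

PROOFS. `cut`: a promise `(m, n) ∈ p.r` with `nx m = m0` has `n < p.l m0 = ⊥` (`Val.r_lt`, `hi`), impossible. `mix m0 p one` is valid: `mix_val`, `one_val`. `p ≤ mix m0 p one =: p'`: `A, l, s, r`: for `m < m0` equal, for
`m0 ≤ m` trivial. `pro`: `(m, n) ∈ p'.r` gives `m < m0`; then `Pos p m x ↔ Pos p' m x` (`mix_ag_low`), contradiction.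
`merge`: `u = mix m2 t p`; valid: `mix_val`; a promise `(m, n) ∈ t.r` with `nx m = m2` has `n < t.l m2 = ⊥`. `u ≤ t`: all data of `t` are below `m2` (`ht'`; for `s`: `Val.s_lt`); for `m < m2` equal; `pro`: `(m, n) ∈ t.r` gives `m < m2`,
`Pos u m x ↔ Pos t m x` (`mix_ag_low`). `u ≤ p`: let `p' = mix m1 p one`. For `m2 ≤ m` the data of `u` and `p` are equal. Let `m < m2`. If `p` has nontrivial data at `m` then `m` is a level (`Val.idle`) and by `hp'` `m < m1`; there the data of `p` are those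
of `p'`, and `t ≤ p'`. So `A, l, s, r` follow (`s`: `x < p.l m`, so `p.l m ≠ ⊥`). `pro`: let `(m, n) ∈ p.r`, `x ∈ b m n [(nx m, n) ∈ p.s]`, `Pos u m x`, not `Pos p m x`. `m2 ≤ m`: `Pos u m x ↔ Pos p m x` (`mix_ag_up`), contradiction. `m < m2`: `m < m1`
(as above), `nx m ≤ m1` (`nx_le`); `nx m = m1` is impossible: `n < p.l m1` but `p` is idle at `m1` (`m1 < m2`). So `nx m < m1`, the bit of `(nx m, n)` is the same in `p'`, `(m, n) ∈ p'.r`, `Pos u m x ↔ Pos t m x`, `Pos p m x ↔ Pos p' m x`; `Le.pro` of `t ≤ p'` gives not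
`Bit t m x`, so not `Bit u m x` (`Ag.bit`). -/

set_option autoImplicit false

universe u v

namespace COD

open WCal WM

variable {N : Type u} [WM N] {K : Type v} [WTy N K] [KTy N K] {D : CPD N K}

private theorem cd_of_nl (B : Bs N K) {m : K} (h : NL N m) (h' : m ≠ ⊥) : Cd N m := by
  rcases h with h | ⟨b, -, rfl⟩
  · exact absurd h h'
  · exact cd_nx B b

theorem cut (B : Bs N K) (P : CPP D) {m0 : K} (h0 : NL N m0) (h1 : m0 ≠ ⊥) {p : Pre N K} (hp : Val D p)
    (hi : Idle p m0) : Val D (mix m0 p one) ∧ Le D p (mix m0 p one) := by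
  have hone : ∀ m : K, (one : Pre N K).2.1 m = ⊥ := fun m => (idle_one m).2.1
  refine ⟨mix_val B P h0 h1 hp (one_val B) ?_, ?_, ?_, ?_, ?_, ?_⟩
  · intro m n _ hnx hr
    have h2 := (hp.r_lt m n hr).2
    rw [hnx, hi.2.1] at h2
    exact absurd h2 not_lt_bot
  · intro m hm
    rcases lt_or_ge m m0 with h | h
    · exact (mix_A_lt h).1 hm
    · exact absurd ((mix_A_ge h).1 hm) (idle_one m).1
  · intro m
    rcases lt_or_ge m m0 with h | h
    · rw [mix_l_lt h]
    · rw [mix_l_ge h, hone]
      exact bot_le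
  · intro m x hx
    rcases lt_or_ge m m0 with h | h
    · exact mix_s_lt h
    · rw [mix_l_ge h, hone] at hx
      exact absurd hx not_lt_bot
  · intro m n hr
    rcases lt_or_ge m m0 with h | h
    · exact (mix_r_lt h).1 hr
    · exact absurd ((mix_r_ge h).1 hr) ((idle_one m).2.2 n)
  · intro m n hr x _ hpos hnpos
    rcases lt_or_ge m m0 with h | h
    · exact absurd (((mix_ag_low P h p one).pos x).2 hpos) hnpos
    · exact absurd ((mix_r_ge h).1 hr) ((idle_one m).2.2 n)

theorem merge (B : Bs N K) (P : CPP D) {m1 m2 : K} (h1 : NL N m1) (h1' : m1 ≠ ⊥) (h2 : NL N m2) (h12 : m1 < m2)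
    {t p : Pre N K} (ht : Val D t) (hp : Val D p) (ht' : ∀ m, m2 ≤ m → Idle t m)
    (hp' : ∀ m, Lv N m → m1 ≤ m → m < m2 → Idle p m) (hle : Le D t (mix m1 p one)) :
    Val D (mix m2 t p) ∧ Le D (mix m2 t p) t ∧ Le D (mix m2 t p) p := by
  have h2' : m2 ≠ ⊥ := ne_of_gt (lt_of_le_of_lt bot_le h12)
  -- nontrivial data of `p` below `m2` are below `m1`
  have key : ∀ m, m < m2 → ¬ Idle p m → m < m1 := by
    intro m hm hni
    by_contra hcon
    have hlv : Lv N m := by
      by_contra hlv
      exact hni (hp.idle B hlv)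
    exact hni (hp' m hlv (not_lt.1 hcon) hm)
  refine ⟨mix_val B P h2 h2' ht hp ?_, ⟨?_, ?_, ?_, ?_, ?_⟩, ⟨?_, ?_, ?_, ?_, ?_⟩⟩
  · intro m n _ hnx hr
    have h3 := (ht.r_lt m n hr).2
    rw [hnx, (ht' m2 le_rfl).2.1] at h3
    exact absurd h3 not_lt_bot
  · intro m hm
    rcases lt_or_ge m m2 with h | h
    · exact (mix_A_lt h).2 hm
    · exact absurd hm (ht' m h).1
  · intro m
    rcases lt_or_ge m m2 with h | h
    · rw [mix_l_lt h]
    · rw [(ht' m h).2.1]
      exact bot_le
  · intro m x hx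
    rcases lt_or_ge m m2 with h | h
    · exact (mix_s_lt h).symm
    · rw [(ht' m h).2.1] at hx
      exact absurd hx not_lt_bot
  · intro m n hr
    rcases lt_or_ge m m2 with h | h
    · exact (mix_r_lt h).2 hr
    · exact absurd hr ((ht' m h).2.2 n)
  · intro m n hr x _ hpos hnpos
    rcases lt_or_ge m m2 with h | h
    · exact absurd (((mix_ag_low P h t p).pos x).1 hpos) hnpos
    · exact absurd hr ((ht' m h).2.2 n)
  · intro m hm
    rcases lt_or_ge m m2 with h | h
    · have h3 : m < m1 := key m h fun hi => hi.1 hm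
      exact (mix_A_lt h).2 (hle.A m ((mix_A_lt h3).2 hm))
    · exact (mix_A_ge h).2 hm
  · intro m
    rcases lt_or_ge m m2 with h | h
    · by_cases hl : p.2.1 m = ⊥
      · rw [hl]
        exact bot_le
      · have h3 : m < m1 := key m h fun hi => hl hi.2.1
        have h4 := hle.l m
        rw [mix_l_lt h3] at h4
        rw [mix_l_lt h]
        exact h4
    · rw [mix_l_ge h]
  · intro m x hx
    rcases lt_or_ge m m2 with h | h
    · have hl : p.2.1 m ≠ ⊥ := fun hl => by
        rw [hl] at hx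
        exact absurd hx not_lt_bot
      have h3 : m < m1 := key m h fun hi => hl hi.2.1
      have hx' : x < (mix m1 p one).2.1 m := by
        rw [mix_l_lt h3]
        exact hx
      exact ((mix_s_lt h3).symm.trans (hle.s m x hx')).trans (mix_s_lt h).symm
    · exact (mix_s_ge h).symm
  · intro m n hr
    rcases lt_or_ge m m2 with h | h
    · have h3 : m < m1 := key m h fun hi => hi.2.2 n hr
      exact (mix_r_lt h).2 (hle.r m n ((mix_r_lt h3).2 hr))
    · exact (mix_r_ge h).2 hr
  · intro m n hr x hx hpos hnpos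
    rcases lt_or_ge m m2 with h | h
    · have h3 : m < m1 := key m h fun hi => hi.2.2 n hr
      have h4 : nx N m ≤ m1 := nx_le B h3 (cd_of_nl B h1 h1')
      have h5 : nx N m < m1 := by
        refine lt_of_le_of_ne h4 fun he => ?_
        have h6 := (hp.r_lt m n hr).2
        rw [he, (hp' m1 (nl_lv B h1) le_rfl h12).2.1] at h6
        exact absurd h6 not_lt_bot
      have h6 : ((nx N m, n) ∈ (mix m1 p one).2.2.1) = ((nx N m, n) ∈ p.2.2.1) :=
        propext (mix_s_lt h5)
      have h7 := hle.pro m n ((mix_r_lt h3).2 hr) x (by rw [h6]; exact hx)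
        (((mix_ag_low P h t p).pos x).1 hpos)
        (fun h8 => hnpos (((mix_ag_low P h3 p one).pos x).1 h8))
      exact fun h8 => h7 (((mix_ag_low P h t p).bit x).1 h8)
    · exact absurd (((mix_ag_up P h2 h t p).pos x).1 hpos) hnpos

end COD
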