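import Pool.Agent.WCal.Simp

/-! # Coding over the constructible universe: definitions

(problem MP_328cd5_lc; architect helper51; definitions, no sorry in this file; text: /team-store/COD_h51.md)

`N` is a well-founded model of ZFC, `K` a type of the model with an internal well-order: the ordinals below `κ`. All notions
are those of `N`: they quantify over internal functions and internal sets `St N K`.

* `Cov N m A`: the predicate `A` is covered by an internal function on `Iio m` (`A` has at most `m` elements); `Cd a`: `a` is an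
  infinite cardinal; `nx a`: the next infinite cardinal (`nx ⊥ = ω`); `Lv`: levels (`⊥` and the infinite cardinals); `NL`:
  nonlimit levels (`⊥`, `ω`, successor cardinals); `LL`: limit levels (uncountable limit cardinals); `Reg`: regular; `InE`:
  regular limit levels; `Club a D`; `Ev a S P`: `P` for all large elements of `S ∩ a`; `Fr`: for unboundedly many.
* `Bs N K`: `κ` is a regular limit cardinal, GCH below `κ`.
* `CPD`, `CPP`: the data of the coding and their properties; `ACL`: the chain lemma (section 6 of the text).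
* `Pre`: a condition `(A, l, s, r)` for one coordinate: `A` active limit levels, `l` lengths, `(m, x) ∈ s`: the bit of the level
  `m` at the position `x` is 1, `(m, n) ∈ r`: promise of the level `m` for the position `n` of the level `nx m`. `Val`: valid,
  `Le p q`: `p` is stronger than `q`. `PQ`: families of conditions, `VQ`: valid with countable support. -/

set_option autoImplicit false

universe u v w

namespace COD

open WCal WM

/-- a type of the model with an internal well-order -/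
class KTy (N : Type u) [WM N] (K : Type v) [WTy N K] extends LinearOrder K, WellFoundedLT K, OrderBot K where
  ip_lt : IP N (fun p : K × K => p.1 < p.2)

section

variable (N : Type u) [WM N] {K : Type v} [WTy N K] [KTy N K]

/-- the predicate `A` has at most `m` elements -/
def Cov {α : Type w} [WTy N α] (m : K) (A : α → Prop) : Prop :=
  ∃ f : K → α, IF N f ∧ ∀ a, A a → ∃ x, x < m ∧ f x = a

/-- infinite cardinals -/
def Cd (a : K) : Prop := (Set.Iio a).Infinite ∧ ∀ b, b < a → ¬ Cov N b (fun x : K => x < a)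

/-- the next infinite cardinal -/
noncomputable def nx (a : K) : K :=
  open Classical in
  if h : {b | a < b ∧ Cd N b}.Nonempty then (wellFounded_lt (α := K)).min _ h else a

/-- levels -/
def Lv (a : K) : Prop := a = ⊥ ∨ Cd N a

/-- nonlimit levels -/
def NL (a : K) : Prop := a = ⊥ ∨ ∃ b, Lv N b ∧ a = nx N b

/-- limit levels -/
def LL (a : K) : Prop := Cd N a ∧ ∀ b, Lv N b → a ≠ nx N b

/-- regular cardinals -/
def Reg (a : K) : Prop := Cd N a ∧ ∀ b, b < a → ∀ F : Fn N K K, (∀ x, x < b → F x < a) →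
  ∃ c, c < a ∧ ∀ x, x < b → F x < c

/-- regular limit levels -/
def InE (a : K) : Prop := LL N a ∧ Reg N a

/-- limit points -/
def Lim (i : K) : Prop := i ≠ ⊥ ∧ ∀ x, x < i → ∃ y, x < y ∧ y < i

/-- `P` holds for all large elements of `S` below `a` -/
def Ev (a : K) (S : St N K) (P : K → Prop) : Prop :=
  ∃ e, e < a ∧ ∀ m, m ∈ S → e ≤ m → m < a → P m

/-- `P` holds for unboundedly many elements of `S` below `a` -/
def Fr (a : K) (S : St N K) (P : K → Prop) : Prop :=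
  ∀ e, e < a → ∃ m, m ∈ S ∧ e ≤ m ∧ m < a ∧ P m

/-- `D` is closed and unbounded in `a` -/
def Club (a : K) (D : St N K) : Prop :=
  (∀ x, x < a → ∃ y, y ∈ D ∧ x < y ∧ y < a) ∧
    ∀ y, y < a → y ≠ ⊥ → (∀ x, x < y → ∃ z, z ∈ D ∧ x < z ∧ z < y) → y ∈ D

end

section

variable (N : Type u) [WM N] (K : Type v) [WTy N K] [KTy N K]

/-- `κ` is a regular limit cardinal and GCH holds below `κ` -/
structure Bs : Prop where
  unb : ∀ a : K, ∃ b, a < b ∧ Cd N b
  reg : ∀ (b : K) (F : Fn N K K), ∃ c, ∀ x, x < b → F x < c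
  gch : ∀ a : K, Cd N a → Cov N (nx N a) (fun A : St N K => ∀ x, x ∈ A → x < a)

/-- the data of the coding: cofinal sets `S`, clubs `C`, scales `f l y m`, gaps `h l c`, almost disjoint sets `b m n v` -/
structure CPD where
  S : K → St N K
  C : K → St N K
  f : K → K → K → K
  h : K → K → K
  b : K → K → Prop → St N K

end

section

variable {N : Type u} [WM N] {K : Type v} [WTy N K] [KTy N K]

/-- the properties of the data of the coding -/
structure CPP (D : CPD N K) : Prop where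
  iS : IF N D.S
  iC : IF N D.C
  if' : IF N (fun p : K × K × K => D.f p.1 p.2.1 p.2.2)
  ih : IF N (fun p : K × K => D.h p.1 p.2)
  ib : IF N (fun p : K × K × Prop => D.b p.1 p.2.1 p.2.2)
  S_lt : ∀ l, LL N l → ∀ m, m ∈ D.S l → m < l ∧ NL N m ∧ m ≠ ⊥
  S_unb : ∀ l, LL N l → ∀ e, e < l → ∃ m, m ∈ D.S l ∧ e ≤ m
  /-- (S1) -/
  S_sep : ∀ l l', LL N l → LL N l' → l' < l → Fr N l' (D.S l) (fun m => m ∈ D.S l') →
    ∀ m, m ∈ D.S l → m ∈ D.S l' → ∀ y z, D.f l y m ≠ D.f l' z m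
  /-- (S2) -/
  S_E : ∀ l l', LL N l → InE N l' → l' < l → Ev N l' (D.S l) (fun _ => False)
  f_lt : ∀ l, LL N l → ∀ y, y < nx N l → ∀ m, m ∈ D.S l → D.f l y m < nx N m
  f_b : ∀ l, LL N l → ∀ y, y < nx N l → ∀ m, m ∈ D.S l → ∀ n v, D.f l y m ∉ D.b m n v
  F1 : ∀ l, LL N l → ∀ y z, y < z → z < nx N l → Ev N l (D.S l) (fun m => D.f l y m < D.f l z m)
  F2 : ∀ l, LL N l → ∀ g : Fn N K K, (∀ m, m ∈ D.S l → g m < nx N m) →
    ∃ z, z < nx N l ∧ Ev N l (D.S l) (fun m => g m ≤ D.f l z m)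
  C_club : ∀ l, InE N l → Club N l (D.C l)
  C_LL : ∀ l, InE N l → ∀ c, c ∈ D.C l → LL N c ∧ c < l
  C_gap : ∀ l, InE N l → ∀ c c', c ∈ D.C l → c' ∈ D.C l → c < c' → D.h l c < c'
  C_h : ∀ l, InE N l → ∀ c, c ∈ D.C l → nx N (nx N c) ≤ D.h l c ∧ D.h l c < l
  S_C : ∀ l, InE N l → ∀ m, m ∈ D.S l → ∃ c, c ∈ D.C l ∧ m = nx N c
  /-- (G) -/
  guess : ∀ H : Fn N K K, ∃ l, InE N l ∧ (∀ x, x < l → H x < l) ∧ Ev N l (D.C l) (fun c => H c ≤ D.h l c)
  b_lt : ∀ m n v, Lv N m → n < nx N (nx N m) → ∀ x, x ∈ D.b m n v → x < nx N m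
  b_unb : ∀ m n v, Lv N m → n < nx N (nx N m) → ∀ e, e < nx N m → ∃ x, x ∈ D.b m n v ∧ e < x
  b_ad : ∀ m n v n' v', Lv N m → n < nx N (nx N m) → n' < nx N (nx N m) → (n ≠ n' ∨ v ≠ v') →
    ∃ e, e < nx N m ∧ ∀ x, x ∈ D.b m n v → x ∈ D.b m n' v' → x < e

/-- **the chain lemma** (section 6) for the set `T` of states: `H j` is the history before `j` -/
def ACL (D : CPD N K) (T : Type w) [WTy N T] : Prop :=
  ∀ m0 : K, NL N m0 → m0 ≠ ⊥ →
  ∀ (d : T × Fn N K K) (step aux : K → Fn N K (T × Fn N K K) → T),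
    IF N (fun p : K × Fn N K (T × Fn N K K) => step p.1 p.2) →
    IF N (fun p : K × Fn N K (T × Fn N K K) => aux p.1 p.2) →
  ∀ lg : T → K → K, IF N (fun p : T × K => lg p.1 p.2) →
    (∀ q m, Lv N m → m ≠ ⊥ → lg q m < nx N m) →
  ∀ Dc : T → K → St N K, IF N (fun p : T × K => Dc p.1 p.2) → (∀ q l, InE N l → Club N l (Dc q l)) →
  ∀ bd : T → K, IF N bd →
  ∃ (q : K → T) (g : K → Fn N K K) (H : K → Fn N K (T × Fn N K K)), IF N q ∧ IF N g ∧ IF N H ∧
    (∀ j l, l < j → H j l = (q l, g l)) ∧ (∀ j l, ¬ l < j → H j l = d) ∧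
    (∀ j, j ≤ m0 → q j = step j (H j)) ∧
    (∀ j, j ≤ m0 → ∀ m, Lv N m → m0 ≤ m → g j m < nx N m ∧ lg (q j) m < g j m ∧
      lg (aux j (H j)) m < g j m ∧ ∀ l, l < j → g l m < g j m) ∧
    ∀ i, i ≤ m0 → Lim N i → ∀ l, LL N l → m0 < l →
      (∃ z, z < nx N l ∧ (∀ y, y < z → ∃ j, j < i ∧ Ev N l (D.S l) (fun m => D.f l y m < g j m)) ∧
        Ev N l (D.S l) (fun m => ∀ j, j < i → g j m ≤ D.f l z m)) ∨
      (∀ j, j < i → bd (q j) ≤ l) ∨
      ∃ l', InE N l' ∧ l < l' ∧ l ∈ D.C l' ∧ ∀ j, j < i → l ∈ Dc (q j) l'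

end

/-! ## The poset -/

/-- a condition for one coordinate: `(A, l, s, r)` -/
abbrev Pre (N : Type u) [WM N] (K : Type v) [WTy N K] : Type v :=
  St N K × Fn N K K × St N (K × K) × St N (K × K)

/-- families of conditions -/
abbrev PQ (N : Type u) [WM N] (K : Type v) [WTy N K] : Type v := Fn N K (Pre N K)

section

variable {N : Type u} [WM N] {K : Type v} [WTy N K] [KTy N K]

/-- the condition `p` is idle at the level `m` -/
def Idle (p : Pre N K) (m : K) : Prop := m ∉ p.1 ∧ p.2.1 m = ⊥ ∧ ∀ n, (m, n) ∉ p.2.2.2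

variable (D : CPD N K)

/-- `x` is below the length of the level `m` -/
def Pos (p : Pre N K) (m x : K) : Prop :=
  (NL N m ∧ x < p.2.1 m) ∨ (LL N m ∧ Fr N m (D.S m) (fun k => D.f m x k < p.2.1 k))

/-- the bit of the level `m` at `x` is 1 -/
def Bit (p : Pre N K) (m x : K) : Prop :=
  (NL N m ∧ (m, x) ∈ p.2.2.1) ∨
    (LL N m ∧ Ev N m (D.S m) (fun k => D.f m x k < p.2.1 k ∧ (k, D.f m x k) ∈ p.2.2.1))

/-- the bit of the limit level `m` at `x` is 0 forever -/
def Zer (p : Pre N K) (m x : K) : Prop :=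
  Fr N m (D.S m) (fun k => D.f m x k < p.2.1 k ∧ (k, D.f m x k) ∉ p.2.2.1)

/-- valid conditions for one coordinate -/
structure Val (p : Pre N K) : Prop where
  l_nl : ∀ m, p.2.1 m ≠ ⊥ → NL N m ∧ p.2.1 m < nx N m
  s_lt : ∀ m x, (m, x) ∈ p.2.2.1 → x < p.2.1 m
  r_lt : ∀ m n, (m, n) ∈ p.2.2.2 → Lv N m ∧ n < p.2.1 (nx N m)
  r_A : ∀ m n, (m, n) ∈ p.2.2.2 → LL N m → m ∈ p.1
  r_fin : {n | (⊥, n) ∈ p.2.2.2}.Finite
  r_sz : ∀ m, Cd N m → Cov N m (fun n : K => (m, n) ∈ p.2.2.2)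
  A_LL : ∀ m, m ∈ p.1 → LL N m
  bdd : ∃ e, ∀ m, e ≤ m → Idle p m
  A_pos : ∀ m, m ∈ p.1 → Ev N m (D.S m) (fun k => ⊥ < p.2.1 k)
  dec : ∀ m, m ∈ p.1 → ∀ x, x < nx N m → Pos D p m x → Bit D p m x ∨ Zer D p m x
  gap : ∀ l, InE N l → ∃ E : St N K, Club N l E ∧ ∀ c, c ∈ D.C l → c ∈ E →
    ∀ m, Lv N m → c ≤ m → m ≤ D.h l c → m ≠ nx N c → Idle p m

/-- `p` is stronger than `q` -/
structure Le (p q : Pre N K) : Prop where
  A : ∀ m, m ∈ q.1 → m ∈ p.1
  l : ∀ m, q.2.1 m ≤ p.2.1 m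
  s : ∀ m x, x < q.2.1 m → ((m, x) ∈ q.2.2.1 ↔ (m, x) ∈ p.2.2.1)
  r : ∀ m n, (m, n) ∈ q.2.2.2 → (m, n) ∈ p.2.2.2
  pro : ∀ m n, (m, n) ∈ q.2.2.2 → ∀ x, x ∈ D.b m n ((nx N m, n) ∈ q.2.2.1) → Pos D p m x →
    ¬ Pos D q m x → ¬ Bit D p m x

/-- the trivial condition -/
noncomputable def one : Pre N K :=
  (⟨∅, IP.const False⟩, ⟨fun _ => ⊥, IF.const ⊥⟩, ⟨∅, IP.const False⟩, ⟨∅, IP.const False⟩)

/-- valid families with countable support, the level `⊥` is idle at all but finitely many coordinates -/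
structure VQ (q : PQ N K) : Prop where
  val : ∀ x, Val D (q x)
  cnt : ∃ J : St N K, Cnt J ∧ ∀ x, x ∉ J → q x = one
  fin : {x | ¬ Idle (q x) ⊥}.Finite

/-- `p` is stronger than `q` -/
def LeQ (p q : PQ N K) : Prop := ∀ x, Le D (p x) (q x)

end

/-! ## Rules for internal predicates -/

section

variable {N : Type u} [WM N] {K : Type v} [WTy N K] [KTy N K] {α : Type w} [WTy N α]

@[simp] theorem ip_ltK {f g : α → K} (hf : IF N f) (hg : IF N g) : IP N (fun a => f a < g a) :=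
  IP.comp2 (P := fun a b : K => a < b) KTy.ip_lt hf hg

@[simp] theorem ip_leK {f g : α → K} (hf : IF N f) (hg : IF N g) : IP N (fun a => f a ≤ g a) :=
  IP.congr (fun _ => not_lt) (IP.not (ip_ltK hg hf))

theorem nx_spec (B : Bs N K) (a : K) : a < nx N a ∧ Cd N (nx N a) := by
  have h : {b | a < b ∧ Cd N b}.Nonempty := B.unb a
  unfold nx
  rw [dif_pos h]
  exact (wellFounded_lt (α := K)).min_mem _ h

theorem nx_le (B : Bs N K) {a b : K} (h : a < b) (hb : Cd N b) : nx N a ≤ b := by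
  have h' : {b | a < b ∧ Cd N b}.Nonempty := B.unb a
  unfold nx
  rw [dif_pos h']
  exact not_lt.1 ((wellFounded_lt (α := K)).not_lt_min _ (Set.mem_ofPred.2 ⟨h, hb⟩))

end

end COD
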