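import Pool.Agent.COD.V0

/-! # Coding: the order of the conditions for one coordinate

(problem MP_328cd5_lc, coding part, package V1; architect helper51; 0.8 h; other files are black
  boxes)

PROOFS. `Le.refl`: a position cannot be new. `Le.trans` (`p ≤ q ≤ t`): the parts `A, l, s, r` are
  immediate (`s`: `x < t.l m ≤ q.l m`). `pro`: let
`(m, n) ∈ t.r`, `x ∈ b m n v` with `v = [(nx m, n) ∈ t.s]`, `Pos p m x`, not `Pos t m x`. By
  `Val.r_lt` for `t`: `n < t.l (nx m)`, so `v` is the same for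
`q` (`Le.s`). If `Pos q m x` then not `Bit q m x` by `pro` of `q ≤ t`, and `Bit p m x ↔ Bit q m
  x` (`Le.bit`; `(m, n) ∈ q.r`, so `m` is `NL` or active in
`q`: `Val.r_lt`, `lv_cases`, `Val.r_A`; `x < nx m`: `CPP.b_lt`, where `n < q.l (nx m) < nx (nx
  m)` by `Val.l_nl`, as `q.l (nx m) ≠ ⊥`). If not
`Pos q m x` use `pro` of `p ≤ q`. `one_val`: all sets are empty, all lengths `⊥`; `Cov` of the
  empty predicate: any internal function; `gap`: the club
`Iio l` of all ordinals below `l` (`Iio' l`; `l` is a limit by `lim_of_LL`). `le_one`: `one` has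
  empty sets. `eq_one`: if `one ≤ p` then `p = one` for
valid `p`: all components are determined (`Val.s_lt`; extensionality `St.ext`, `Fn.ext`).
  `idle_eq`: a valid condition which is idle at all levels is
`one` (`Val.l_nl`: the length is `⊥` outside of `NL` levels; `Val.A_LL`, `Val.r_lt`, `Val.s_lt`). -/

set_option autoImplicit false

universe u v

namespace COD

open WCal WM

variable {N : Type u} [WM N] {K : Type v} [WTy N K] [KTy N K] {D : CPD N K}

theorem Le.refl (p : Pre N K) : Le D p p :=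
  ⟨fun _ h => h, fun _ => le_rfl, fun _ _ _ => Iff.rfl, fun _ _ h => h,
    fun _ _ _ _ _ h h' => absurd h h'⟩

theorem Le.trans (P : CPP D) {p q t : Pre N K} (hq : Val D q) (ht : Val D t) (h : Le D p q)
    (h' : Le D q t) : Le D p t := by
  refine ⟨fun m hm => h.A m (h'.A m hm), fun m => le_trans (h'.l m) (h.l m),
    fun m x hx => (h'.s m x hx).trans (h.s m x (lt_of_lt_of_le hx (h'.l m))),
    fun m n hmn => h.r m n (h'.r m n hmn), ?_⟩
  intro m n hmn x hx hpp htt
  obtain ⟨hLv, hn⟩ := ht.r_lt m n hmn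
  by_cases hqq : Pos D q m x
  · have h1 := h'.pro m n hmn x hx hqq htt
    have hm : NL N m ∨ m ∈ q.1 := by
      rcases lv_cases hLv with h2 | h2
      · exact Or.inl h2
      · exact Or.inr (h'.A m (ht.r_A m n hmn h2))
    have hne : t.2.1 (nx N m) ≠ ⊥ := fun h2 => by
      rw [h2] at hn
      exact not_lt_bot hn
    have hxm : x < nx N m := P.b_lt m n _ hLv (lt_trans hn (ht.l_nl _ hne).2) x hx
    exact fun h2 => h1 ((Le.bit P hq h hm hxm hqq).1 h2)
  · have h2 : ((nx N m, n) ∈ t.2.2.1) = ((nx N m, n) ∈ q.2.2.1) := propext (h'.s _ _ hn)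
    rw [h2] at hx
    exact h.pro m n (h'.r m n hmn) x hx hpp hqq

private theorem not_mem_one1 (m : K) : m ∉ (one : Pre N K).1 := fun h => h

private theorem not_mem_one3 (m : K × K) : m ∉ (one : Pre N K).2.2.1 := fun h => h

private theorem not_mem_one4 (m : K × K) : m ∉ (one : Pre N K).2.2.2 := fun h => h

private theorem one_len (m : K) : (one : Pre N K).2.1 m = ⊥ := rfl

private theorem idle_one' (m : K) : Idle (one : Pre N K) m :=
  ⟨not_mem_one1 m, one_len m, fun _ => not_mem_one4 _⟩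

theorem one_val (B : Bs N K) : Val D (one : Pre N K) := by
  refine ⟨fun m h => absurd (one_len m) h, fun m x h => absurd h (not_mem_one3 _),
    fun m n h => absurd h (not_mem_one4 _), fun m n h => absurd h (not_mem_one4 _), ?_,
    fun m _ => ⟨fun _ => ⊥, IF.const ⊥, fun n h => absurd h (not_mem_one4 _)⟩,
    fun m h => absurd h (not_mem_one1 m), ⟨⊥, fun m _ => idle_one' m⟩,
    fun m h => absurd h (not_mem_one1 m), fun m h => absurd h (not_mem_one1 m), ?_⟩
  · have h : {n | ((⊥ : K), n) ∈ (one : Pre N K).2.2.2} = ∅ :=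
      Set.eq_empty_iff_forall_notMem.2 fun n h => not_mem_one4 (N := N) ((⊥ : K), n) h
    rw [h]
    exact Set.finite_empty
  · intro l hl
    refine ⟨Iio' l, ⟨fun x hx => ?_, fun y hy _ _ => mem_Iio'.2 hy⟩,
      fun c _ _ m _ _ _ _ => idle_one' m⟩
    obtain ⟨y, h1, h2⟩ := (lim_of_LL B hl.1).2 x hx
    exact ⟨y, mem_Iio'.2 h2, h1, h2⟩

theorem le_one (p : Pre N K) : Le D p one :=
  ⟨fun m h => absurd h (not_mem_one1 m), fun _ => bot_le,
    fun _ _ h => absurd h not_lt_bot, fun _ _ h => absurd h (not_mem_one4 _),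
    fun _ _ h => absurd h (not_mem_one4 _)⟩

private theorem eq_one_of {p : Pre N K} (hp : Val D p) (h1 : ∀ m, m ∉ p.1) (h2 : ∀ m, p.2.1 m = ⊥)
    (h3 : ∀ m n, (m, n) ∉ p.2.2.2) : p = one := by
  refine Prod.ext (St.ext (Set.ext fun m =>
      ⟨fun h => absurd h (h1 m), fun h => absurd h (not_mem_one1 m)⟩))
    (Prod.ext (Fn.ext (funext fun m => h2 m))
      (Prod.ext (St.ext (Set.ext fun m => ⟨fun h => ?_, fun h => absurd h (not_mem_one3 m)⟩))
        (St.ext (Set.ext fun m =>
          ⟨fun h => absurd h (h3 m.1 m.2), fun h => absurd h (not_mem_one4 m)⟩))))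
  have h4 := hp.s_lt m.1 m.2 h
  rw [h2 m.1] at h4
  exact absurd h4 not_lt_bot

theorem eq_one {p : Pre N K} (hp : Val D p) (h : Le D one p) : p = one :=
  eq_one_of hp (fun m hm => not_mem_one1 m (h.A m hm)) (fun m => le_bot_iff.1 (h.l m))
    (fun m n hmn => not_mem_one4 _ (h.r m n hmn))

theorem idle_one (m : K) : Idle (one : Pre N K) m := idle_one' m

theorem idle_eq (B : Bs N K) {p : Pre N K} (hp : Val D p) (h : ∀ m, Lv N m → Idle p m) :
    p = one := by
  refine eq_one_of hp (fun m hm => (h m (Or.inr (hp.A_LL m hm).1)).1 hm) (fun m => ?_)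
    (fun m n hmn => (h m (hp.r_lt m n hmn).1).2.2 n hmn)
  by_contra hne
  exact hne (h m (nl_lv B (hp.l_nl m hne).1)).2.1

/-- idleness is inherited by weaker conditions -/
theorem Idle.le {p q : Pre N K} (h : Le D p q) {m : K} (hm : Idle p m) : Idle q m :=
  ⟨fun h1 => hm.1 (h.A m h1), le_bot_iff.1 (hm.2.1 ▸ h.l m), fun n h1 => hm.2.2 n (h.r m n h1)⟩

end COD
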