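import Pool.Agent.COD.Kf
import Pool.Agent.COD.V1

/-! # Coding: definitions for sections 7 to 9 (families, generic sets, fusion, counting)

(problem MP_328cd5_lc; architect helper51; definitions and rules for internal functions, no sorry in this file)

* `VI D I q`: `q` is a valid family with support in `I`; `oneQ`: the trivial family; `upd q x p`: `q` with the value `p` at `x`;
  `glu a q q'`: `q` on `a`, `q'` elsewhere; `prm π q`: the family `x ↦ q (π x)`.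
* `TGen N V le G`: generic filters for the poset `{p | V p}`, `le`. `Dg D G x m y`: `y` is in the generic subset `D_m^x` of `nx m`.
* `EqB`, `EqU`, `EqS` (`m0`): the same data below `m0`, at and above `m0`, the same stem (below `m0`, promises only for
  `nx m < m0`); `mix m0 p q`: data below `m0` from `p`, the others from `q`; `LeU`: stronger with the same data below `m0`.
* `Zr m0 g p`: all nonzero lengths at levels `≥ m0` are raised to at least `g`. `lsp S`: the least strict upper bound of `S`.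
  `Lm p v j`: the union of `p` and of the `v l`, `l < j`.
* `Cpt D p q`: `p` and `q` are compatible (in the poset of valid families). -/

set_option autoImplicit false
set_option linter.unusedSectionVars false

universe u v w

namespace COD

open WCal WM

/-- generic filters (typed) -/
structure TGen (N : Type u) [WM N] {T : Type w} [WTy N T] (V : T → Prop) (le : T → T → Prop) (G : Set T) : Prop where
  val : ∀ p, p ∈ G → V p
  up : ∀ p q, p ∈ G → V q → le p q → q ∈ G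
  dir : ∀ p q, p ∈ G → q ∈ G → ∃ r, r ∈ G ∧ le r p ∧ le r q
  gen : ∀ S : St N T, (∀ p, V p → ∃ q, q ∈ S ∧ V q ∧ le q p) → ∃ p, p ∈ G ∧ p ∈ S

variable {N : Type u} [WM N] {K : Type v} [WTy N K] [KTy N K]

/-- if-then-else with classical decidability -/
noncomputable def cit {β : Type w} (P : Prop) (a b : β) : β := @ite β P (Classical.propDecidable P) a b

theorem cit_pos {β : Type w} {P : Prop} (h : P) (a b : β) : cit P a b = a := by
  unfold cit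
  exact if_pos h

theorem cit_neg {β : Type w} {P : Prop} (h : ¬ P) (a b : β) : cit P a b = b := by
  unfold cit
  exact if_neg h

theorem if_cit {α : Type*} {β : Type*} [WTy N α] [WTy N β] {P : α → Prop} {f g : α → β} (hP : IP N P) (hf : IF N f)
    (hg : IF N g) : IF N (fun a => cit (P a) (f a) (g a)) := IF.ite hP hf hg

attribute [simp] if_cit

/-! ## Families -/

/-- the trivial family -/
noncomputable def oneQ : PQ N K := ⟨fun _ => one, IF.const one⟩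

/-- `q` with the value `p` at `x` -/
noncomputable def upd (q : PQ N K) (x : K) (p : Pre N K) : PQ N K :=
  ⟨fun y => cit (y = x) p (q y), if_cit (IP.eq IF.id (IF.const x)) (IF.const p) q.int⟩

/-- `q` on `a`, `q'` elsewhere -/
noncomputable def glu (a : St N K) (q q' : PQ N K) : PQ N K :=
  ⟨fun x => cit (x ∈ a) (q x) (q' x), if_cit a.int q.int q'.int⟩

/-- the family `x ↦ q (π x)` -/
noncomputable def prm (π : Fn N K K) (q : PQ N K) : PQ N K :=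
  ⟨fun x => q (π x), IF.app (IF.const q) π.int⟩

theorem upd_same (q : PQ N K) (x : K) (p : Pre N K) : upd q x p x = p := cit_pos rfl _ _

theorem upd_ne (q : PQ N K) {x y : K} (h : y ≠ x) (p : Pre N K) : upd q x p y = q y := cit_neg h _ _

theorem glu_mem {a : St N K} (q q' : PQ N K) {x : K} (h : x ∈ a) : glu a q q' x = q x := cit_pos h _ _

theorem glu_not {a : St N K} (q q' : PQ N K) {x : K} (h : x ∉ a) : glu a q q' x = q' x := cit_neg h _ _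

section

variable (D : CPD N K)

/-- valid families with support in `I` -/
def VI (I : St N K) (q : PQ N K) : Prop := VQ D q ∧ ∀ x, x ∉ I → q x = one

/-- compatible families -/
def Cpt (p q : PQ N K) : Prop := ∃ r, VQ D r ∧ LeQ D r p ∧ LeQ D r q

/-- the generic subset of `nx m` -/
def Dg (G : Set (PQ N K)) (x m y : K) : Prop :=
  y < nx N m ∧ ∃ q, q ∈ G ∧ (LL N m → m ∈ (q x).1) ∧ Bit D (q x) m y

end

/-! ## Data below and above `m0` -/

/-- the same data below `m0` -/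
def EqB (m0 : K) (p q : Pre N K) : Prop :=
  (∀ m, m < m0 → (m ∈ p.1 ↔ m ∈ q.1)) ∧ (∀ m, m < m0 → p.2.1 m = q.2.1 m) ∧
    (∀ m x, m < m0 → ((m, x) ∈ p.2.2.1 ↔ (m, x) ∈ q.2.2.1)) ∧
    (∀ m n, m < m0 → ((m, n) ∈ p.2.2.2 ↔ (m, n) ∈ q.2.2.2))

/-- the same data at and above `m0` -/
def EqU (m0 : K) (p q : Pre N K) : Prop :=
  (∀ m, m0 ≤ m → (m ∈ p.1 ↔ m ∈ q.1)) ∧ (∀ m, m0 ≤ m → p.2.1 m = q.2.1 m) ∧
    (∀ m x, m0 ≤ m → ((m, x) ∈ p.2.2.1 ↔ (m, x) ∈ q.2.2.1)) ∧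
    (∀ m n, m0 ≤ m → ((m, n) ∈ p.2.2.2 ↔ (m, n) ∈ q.2.2.2))

/-- the same stem -/
def EqS (m0 : K) (p q : Pre N K) : Prop :=
  (∀ m, m < m0 → (m ∈ p.1 ↔ m ∈ q.1)) ∧ (∀ m, m < m0 → p.2.1 m = q.2.1 m) ∧
    (∀ m x, m < m0 → ((m, x) ∈ p.2.2.1 ↔ (m, x) ∈ q.2.2.1)) ∧
    (∀ m n, nx N m < m0 → ((m, n) ∈ p.2.2.2 ↔ (m, n) ∈ q.2.2.2))

/-- the same lengths and bits at `m` (`NL`), at almost all elements of `S m` (`LL`) -/
def Ag (D : CPD N K) (m : K) (p q : Pre N K) : Prop :=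
  (NL N m → p.2.1 m = q.2.1 m ∧ ∀ x, ((m, x) ∈ p.2.2.1 ↔ (m, x) ∈ q.2.2.1)) ∧
    (LL N m → Ev N m (D.S m) (fun k => p.2.1 k = q.2.1 k ∧ ∀ x, ((k, x) ∈ p.2.2.1 ↔ (k, x) ∈ q.2.2.1)))

theorem mixA_int (m0 : K) (p q : Pre N K) : IP N (fun m : K => (m < m0 ∧ m ∈ p.1) ∨ (m0 ≤ m ∧ m ∈ q.1)) :=
  IP.or (IP.and (ip_ltK IF.id (IF.const m0)) (IP.mem IF.id (IF.const p.1)))
    (IP.and (ip_leK (IF.const m0) IF.id) (IP.mem IF.id (IF.const q.1)))

theorem mixS_int (m0 : K) (a b : St N (K × K)) : IP N (fun z : K × K => (z.1 < m0 ∧ z ∈ a) ∨ (m0 ≤ z.1 ∧ z ∈ b)) :=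
  IP.or (IP.and (ip_ltK IF.fst (IF.const m0)) (IP.mem IF.id (IF.const a)))
    (IP.and (ip_leK (IF.const m0) IF.fst) (IP.mem IF.id (IF.const b)))

/-- data below `m0` from `p`, the others from `q` -/
noncomputable def mix (m0 : K) (p q : Pre N K) : Pre N K :=
  (⟨{m | (m < m0 ∧ m ∈ p.1) ∨ (m0 ≤ m ∧ m ∈ q.1)}, mixA_int m0 p q⟩,
    ⟨fun m => cit (m < m0) (p.2.1 m) (q.2.1 m), if_cit (ip_ltK IF.id (IF.const m0)) p.2.1.int q.2.1.int⟩,
    ⟨{z | (z.1 < m0 ∧ z ∈ p.2.2.1) ∨ (m0 ≤ z.1 ∧ z ∈ q.2.2.1)}, mixS_int m0 p.2.2.1 q.2.2.1⟩,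
    ⟨{z | (z.1 < m0 ∧ z ∈ p.2.2.2) ∨ (m0 ≤ z.1 ∧ z ∈ q.2.2.2)}, mixS_int m0 p.2.2.2 q.2.2.2⟩)

section

variable {m0 : K} {p q : Pre N K}

theorem mix_A_lt {m : K} (h : m < m0) : m ∈ (mix m0 p q).1 ↔ m ∈ p.1 := by
  show (m < m0 ∧ m ∈ p.1) ∨ (m0 ≤ m ∧ m ∈ q.1) ↔ _
  simp [h]

theorem mix_A_ge {m : K} (h : m0 ≤ m) : m ∈ (mix m0 p q).1 ↔ m ∈ q.1 := by
  show (m < m0 ∧ m ∈ p.1) ∨ (m0 ≤ m ∧ m ∈ q.1) ↔ _
  simp [h, not_lt.2 h]

theorem mix_l_lt {m : K} (h : m < m0) : (mix m0 p q).2.1 m = p.2.1 m := cit_pos h _ _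

theorem mix_l_ge {m : K} (h : m0 ≤ m) : (mix m0 p q).2.1 m = q.2.1 m := cit_neg (not_lt.2 h) _ _

theorem mix_s_lt {m x : K} (h : m < m0) : (m, x) ∈ (mix m0 p q).2.2.1 ↔ (m, x) ∈ p.2.2.1 := by
  show (m < m0 ∧ (m, x) ∈ p.2.2.1) ∨ (m0 ≤ m ∧ (m, x) ∈ q.2.2.1) ↔ _
  simp [h]

theorem mix_s_ge {m x : K} (h : m0 ≤ m) : (m, x) ∈ (mix m0 p q).2.2.1 ↔ (m, x) ∈ q.2.2.1 := by
  show (m < m0 ∧ (m, x) ∈ p.2.2.1) ∨ (m0 ≤ m ∧ (m, x) ∈ q.2.2.1) ↔ _
  simp [h, not_lt.2 h]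

theorem mix_r_lt {m x : K} (h : m < m0) : (m, x) ∈ (mix m0 p q).2.2.2 ↔ (m, x) ∈ p.2.2.2 := by
  show (m < m0 ∧ (m, x) ∈ p.2.2.2) ∨ (m0 ≤ m ∧ (m, x) ∈ q.2.2.2) ↔ _
  simp [h]

theorem mix_r_ge {m x : K} (h : m0 ≤ m) : (m, x) ∈ (mix m0 p q).2.2.2 ↔ (m, x) ∈ q.2.2.2 := by
  show (m < m0 ∧ (m, x) ∈ p.2.2.2) ∨ (m0 ≤ m ∧ (m, x) ∈ q.2.2.2) ↔ _
  simp [h, not_lt.2 h]

end

/-- stronger, with the same data below `m0` -/
def LeU (D : CPD N K) (m0 : K) (p q : Pre N K) : Prop := Le D p q ∧ EqB m0 p q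

def EqUQ (m0 : K) (p q : PQ N K) : Prop := ∀ x, EqU m0 (p x) (q x)

def LeUQ (D : CPD N K) (m0 : K) (p q : PQ N K) : Prop := ∀ x, LeU D m0 (p x) (q x)

/-! ## Raising, unions -/

/-- all nonzero lengths at levels `≥ m0` are raised to at least `g` -/
noncomputable def Zr (m0 : K) (g : Fn N K K) (p : Pre N K) : Pre N K :=
  (p.1, ⟨fun m => cit (m0 ≤ m ∧ p.2.1 m ≠ ⊥ ∧ p.2.1 m < g m) (g m) (p.2.1 m),
    if_cit (IP.and (ip_leK (IF.const m0) IF.id) (IP.and (IP.not (IP.eq p.2.1.int (IF.const ⊥)))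
      (ip_ltK p.2.1.int g.int))) g.int p.2.1.int⟩, p.2.2.1, p.2.2.2)

theorem Zr_l_pos {m0 : K} {g : Fn N K K} {p : Pre N K} {m : K} (h : m0 ≤ m) (h' : p.2.1 m ≠ ⊥) (h'' : p.2.1 m < g m) :
    (Zr m0 g p).2.1 m = g m := cit_pos ⟨h, h', h''⟩ _ _

theorem Zr_l_neg {m0 : K} {g : Fn N K K} {p : Pre N K} {m : K} (h : ¬ (m0 ≤ m ∧ p.2.1 m ≠ ⊥ ∧ p.2.1 m < g m)) :
    (Zr m0 g p).2.1 m = p.2.1 m := cit_neg h _ _

open Classical in
/-- the least strict upper bound (`⊥` if `S` is unbounded) -/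
noncomputable def lsp (S : St N K) : K :=
  if h : {c | ∀ y, y ∈ S → y < c}.Nonempty then (wellFounded_lt (α := K)).min _ h else ⊥

theorem lsp_spec {S : St N K} (h : ∃ c, ∀ y, y ∈ S → y < c) :
    (∀ y, y ∈ S → y < lsp S) ∧ ∀ c, (∀ y, y ∈ S → y < c) → lsp S ≤ c := by
  have h' : {c | ∀ y, y ∈ S → y < c}.Nonempty := h
  unfold lsp
  rw [dif_pos h']
  exact ⟨(wellFounded_lt (α := K)).min_mem _ h', fun c hc =>
    not_lt.1 ((wellFounded_lt (α := K)).not_lt_min _ (Set.mem_ofPred.2 hc))⟩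

/-- for bounded initial segments `lsp S` is the length -/
theorem lt_lsp {S : St N K} (h : ∃ c, ∀ y, y ∈ S → y < c) (hi : ∀ y z, z ∈ S → y < z → y ∈ S) (y : K) :
    y < lsp S ↔ y ∈ S := by
  constructor
  · intro hy
    by_contra hn
    refine absurd ((lsp_spec h).2 y fun z hz => ?_) (not_le.2 hy)
    by_contra hc
    rcases lt_or_eq_of_le (not_lt.1 hc) with h1 | h1
    · exact hn (hi y z hz h1)
    · exact hn (h1 ▸ hz)
  · exact (lsp_spec h).1 y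

theorem if_lsp0 : IF N (fun S : St N K => lsp S) := by
  refine IF.ofP (Q := fun (S : St N K) (b : K) => ((∀ y, y ∈ S → y < b) ∧ ∀ c, (∀ y, y ∈ S → y < c) → b ≤ c) ∨
    ((∀ c, ∃ y, y ∈ S ∧ ¬ y < c) ∧ b = ⊥)) ?_ ?_
  · simp (maxDischargeDepth := 99)
  · intro S b
    constructor
    · rintro (⟨h1, h2⟩ | ⟨h1, h2⟩)
      · exact le_antisymm ((lsp_spec ⟨b, h1⟩).2 b h1) (h2 _ (lsp_spec ⟨b, h1⟩).1)
      · have h' : ¬ {c | ∀ y, y ∈ S → y < c}.Nonempty := by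
          rintro ⟨c, hc⟩
          obtain ⟨y, hy, hy'⟩ := h1 c
          exact hy' (hc y hy)
        unfold lsp
        rw [dif_neg h', h2]
    · rintro rfl
      by_cases h : ∃ c, ∀ y, y ∈ S → y < c
      · exact Or.inl (lsp_spec h)
      · refine Or.inr ⟨fun c => ?_, ?_⟩
        · by_contra hc
          push Not at hc
          exact h ⟨c, hc⟩
        · unfold lsp
          exact dif_neg h

section

variable {α : Type w} [WTy N α]

@[simp] theorem if_lsp {S : α → St N K} (hS : IF N S) : IF N (fun a => lsp (S a)) := if_lsp0.comp hS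

theorem LmA_int (p : Pre N K) (v : Fn N K (Pre N K)) (j : K) : IP N (fun m : K => m ∈ p.1 ∨ ∃ l, l < j ∧ m ∈ (v l).1) :=
  IP.or (IP.mem IF.id (IF.const p.1)) (IP.ex (IP.and (ip_ltK IF.snd (IF.const j))
    (IP.mem IF.fst (IF.fst' (IF.app (IF.const v) IF.snd)))))

theorem LmS_int (p : Pre N K) (v : Fn N K (Pre N K)) (j : K) :
    IP N (fun z : K × K => z ∈ p.2.2.1 ∨ ∃ l, l < j ∧ z ∈ (v l).2.2.1) :=
  IP.or (IP.mem IF.id (IF.const p.2.2.1)) (IP.ex (IP.and (ip_ltK IF.snd (IF.const j))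
    (IP.mem IF.fst (IF.fst' (IF.snd' (IF.snd' (IF.app (IF.const v) IF.snd)))))))

theorem LmR_int (p : Pre N K) (v : Fn N K (Pre N K)) (j : K) :
    IP N (fun z : K × K => z ∈ p.2.2.2 ∨ ∃ l, l < j ∧ z ∈ (v l).2.2.2) :=
  IP.or (IP.mem IF.id (IF.const p.2.2.2)) (IP.ex (IP.and (ip_ltK IF.snd (IF.const j))
    (IP.mem IF.fst (IF.snd' (IF.snd' (IF.snd' (IF.app (IF.const v) IF.snd)))))))

theorem LmL_int (p : Pre N K) (v : Fn N K (Pre N K)) (j : K) :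
    IP N (fun z : K × K => z.2 < p.2.1 z.1 ∨ ∃ l, l < j ∧ z.2 < (v l).2.1 z.1) :=
  IP.or (ip_ltK IF.snd (IF.app (IF.const p.2.1) IF.fst)) (IP.ex (IP.and (ip_ltK IF.snd (IF.const j))
    (ip_ltK (IF.snd.comp IF.fst) (IF.app (IF.fst' (IF.snd' (IF.app (IF.const v) IF.snd))) (IF.fst.comp IF.fst)))))

/-- the positions below the union of the lengths -/
def LmL (p : Pre N K) (v : Fn N K (Pre N K)) (j m : K) : St N K :=
  ⟨{y | y < p.2.1 m ∨ ∃ l, l < j ∧ y < (v l).2.1 m}, IP.sec (LmL_int p v j) m⟩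

theorem if_LmL (p : Pre N K) (v : Fn N K (Pre N K)) (j : K) : IF N (fun m => LmL p v j m) :=
  IF.compr' (LmL_int p v j)

/-- the union of `p` and of the `v l`, `l < j` -/
noncomputable def Lm (p : Pre N K) (v : Fn N K (Pre N K)) (j : K) : Pre N K :=
  (⟨{m | m ∈ p.1 ∨ ∃ l, l < j ∧ m ∈ (v l).1}, LmA_int p v j⟩, ⟨fun m => lsp (LmL p v j m), if_lsp (if_LmL p v j)⟩,
    ⟨{z | z ∈ p.2.2.1 ∨ ∃ l, l < j ∧ z ∈ (v l).2.2.1}, LmS_int p v j⟩,
    ⟨{z | z ∈ p.2.2.2 ∨ ∃ l, l < j ∧ z ∈ (v l).2.2.2}, LmR_int p v j⟩)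

theorem Lm_l {p : Pre N K} {v : Fn N K (Pre N K)} {j m : K}
    (h : ∃ c, p.2.1 m ≤ c ∧ ∀ l, l < j → (v l).2.1 m ≤ c) (y : K) :
    y < (Lm p v j).2.1 m ↔ y < p.2.1 m ∨ ∃ l, l < j ∧ y < (v l).2.1 m := by
  obtain ⟨c, h1, h2⟩ := h
  refine lt_lsp (S := LmL p v j m) ⟨c, ?_⟩ ?_ y
  · rintro y (hy | ⟨l, hl, hy⟩)
    · exact lt_of_lt_of_le hy h1
    · exact lt_of_lt_of_le hy (h2 l hl)
  · rintro y z (hz | ⟨l, hl, hz⟩) hyz
    · exact Or.inl (hyz.trans hz)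
    · exact Or.inr ⟨l, hl, hyz.trans hz⟩

end

/-! ## Rules -/

section

variable {α : Type w} [WTy N α]

@[simp] theorem ip_EqB {m : α → K} {p q : α → Pre N K} (hm : IF N m) (hp : IF N p) (hq : IF N q) :
    IP N (fun a => EqB (m a) (p a) (q a)) := by
  unfold EqB
  refine IP.and ?_ (IP.and ?_ (IP.and ?_ ?_))
  · exact IP.all (IP.imp (ip_ltK IF.snd (hm.comp IF.fst)) (IP.iff (IP.mem IF.snd (IF.fst' (hp.comp IF.fst)))
      (IP.mem IF.snd (IF.fst' (hq.comp IF.fst)))))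
  · exact IP.all (IP.imp (ip_ltK IF.snd (hm.comp IF.fst)) (IP.eq (IF.app (IF.fst' (IF.snd' (hp.comp IF.fst))) IF.snd)
      (IF.app (IF.fst' (IF.snd' (hq.comp IF.fst))) IF.snd)))
  · exact IP.all (IP.all (IP.imp (ip_ltK (IF.snd.comp IF.fst) (hm.comp (IF.fst.comp IF.fst)))
      (IP.iff (IP.mem (IF.pair (IF.snd.comp IF.fst) IF.snd) (IF.fst' (IF.snd' (IF.snd' (hp.comp (IF.fst.comp IF.fst))))))
      (IP.mem (IF.pair (IF.snd.comp IF.fst) IF.snd) (IF.fst' (IF.snd' (IF.snd' (hq.comp (IF.fst.comp IF.fst)))))))))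
  · exact IP.all (IP.all (IP.imp (ip_ltK (IF.snd.comp IF.fst) (hm.comp (IF.fst.comp IF.fst)))
      (IP.iff (IP.mem (IF.pair (IF.snd.comp IF.fst) IF.snd) (IF.snd' (IF.snd' (IF.snd' (hp.comp (IF.fst.comp IF.fst))))))
      (IP.mem (IF.pair (IF.snd.comp IF.fst) IF.snd) (IF.snd' (IF.snd' (IF.snd' (hq.comp (IF.fst.comp IF.fst)))))))))

@[simp] theorem ip_EqU {m : α → K} {p q : α → Pre N K} (hm : IF N m) (hp : IF N p) (hq : IF N q) :
    IP N (fun a => EqU (m a) (p a) (q a)) := by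
  unfold EqU
  refine IP.and ?_ (IP.and ?_ (IP.and ?_ ?_))
  · exact IP.all (IP.imp (ip_leK (hm.comp IF.fst) IF.snd) (IP.iff (IP.mem IF.snd (IF.fst' (hp.comp IF.fst)))
      (IP.mem IF.snd (IF.fst' (hq.comp IF.fst)))))
  · exact IP.all (IP.imp (ip_leK (hm.comp IF.fst) IF.snd) (IP.eq (IF.app (IF.fst' (IF.snd' (hp.comp IF.fst))) IF.snd)
      (IF.app (IF.fst' (IF.snd' (hq.comp IF.fst))) IF.snd)))
  · exact IP.all (IP.all (IP.imp (ip_leK (hm.comp (IF.fst.comp IF.fst)) (IF.snd.comp IF.fst))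
      (IP.iff (IP.mem (IF.pair (IF.snd.comp IF.fst) IF.snd) (IF.fst' (IF.snd' (IF.snd' (hp.comp (IF.fst.comp IF.fst))))))
      (IP.mem (IF.pair (IF.snd.comp IF.fst) IF.snd) (IF.fst' (IF.snd' (IF.snd' (hq.comp (IF.fst.comp IF.fst)))))))))
  · exact IP.all (IP.all (IP.imp (ip_leK (hm.comp (IF.fst.comp IF.fst)) (IF.snd.comp IF.fst))
      (IP.iff (IP.mem (IF.pair (IF.snd.comp IF.fst) IF.snd) (IF.snd' (IF.snd' (IF.snd' (hp.comp (IF.fst.comp IF.fst))))))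
      (IP.mem (IF.pair (IF.snd.comp IF.fst) IF.snd) (IF.snd' (IF.snd' (IF.snd' (hq.comp (IF.fst.comp IF.fst)))))))))

@[simp] theorem ip_EqS [B : Fact (Bs N K)] {m : α → K} {p q : α → Pre N K} (hm : IF N m) (hp : IF N p) (hq : IF N q) :
    IP N (fun a => EqS (m a) (p a) (q a)) := by
  unfold EqS
  refine IP.and ?_ (IP.and ?_ (IP.and ?_ ?_))
  · exact IP.all (IP.imp (ip_ltK IF.snd (hm.comp IF.fst)) (IP.iff (IP.mem IF.snd (IF.fst' (hp.comp IF.fst)))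
      (IP.mem IF.snd (IF.fst' (hq.comp IF.fst)))))
  · exact IP.all (IP.imp (ip_ltK IF.snd (hm.comp IF.fst)) (IP.eq (IF.app (IF.fst' (IF.snd' (hp.comp IF.fst))) IF.snd)
      (IF.app (IF.fst' (IF.snd' (hq.comp IF.fst))) IF.snd)))
  · exact IP.all (IP.all (IP.imp (ip_ltK (IF.snd.comp IF.fst) (hm.comp (IF.fst.comp IF.fst)))
      (IP.iff (IP.mem (IF.pair (IF.snd.comp IF.fst) IF.snd) (IF.fst' (IF.snd' (IF.snd' (hp.comp (IF.fst.comp IF.fst))))))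
      (IP.mem (IF.pair (IF.snd.comp IF.fst) IF.snd) (IF.fst' (IF.snd' (IF.snd' (hq.comp (IF.fst.comp IF.fst)))))))))
  · exact IP.all (IP.all (IP.imp (ip_ltK (if_nx (IF.snd.comp IF.fst)) (hm.comp (IF.fst.comp IF.fst)))
      (IP.iff (IP.mem (IF.pair (IF.snd.comp IF.fst) IF.snd) (IF.snd' (IF.snd' (IF.snd' (hp.comp (IF.fst.comp IF.fst))))))
      (IP.mem (IF.pair (IF.snd.comp IF.fst) IF.snd) (IF.snd' (IF.snd' (IF.snd' (hq.comp (IF.fst.comp IF.fst)))))))))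

@[simp] theorem if_mix {m : α → K} {p q : α → Pre N K} (hm : IF N m) (hp : IF N p) (hq : IF N q) :
    IF N (fun a => mix (m a) (p a) (q a)) := by
  refine IF.pair ?_ (IF.pair ?_ (IF.pair ?_ ?_))
  · apply IF.compr'
    show IP N (fun z : α × K => (z.2 < m z.1 ∧ z.2 ∈ (p z.1).1) ∨ (m z.1 ≤ z.2 ∧ z.2 ∈ (q z.1).1))
    exact IP.or (IP.and (ip_ltK IF.snd (hm.comp IF.fst)) (IP.mem IF.snd (IF.fst' (hp.comp IF.fst))))
      (IP.and (ip_leK (hm.comp IF.fst) IF.snd) (IP.mem IF.snd (IF.fst' (hq.comp IF.fst))))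
  · apply IF.lam'
    show IF N (fun z : α × K => cit (z.2 < m z.1) ((p z.1).2.1 z.2) ((q z.1).2.1 z.2))
    exact if_cit (ip_ltK IF.snd (hm.comp IF.fst)) (IF.app (IF.fst' (IF.snd' (hp.comp IF.fst))) IF.snd)
      (IF.app (IF.fst' (IF.snd' (hq.comp IF.fst))) IF.snd)
  · apply IF.compr'
    show IP N (fun z : α × K × K => (z.2.1 < m z.1 ∧ z.2 ∈ (p z.1).2.2.1) ∨ (m z.1 ≤ z.2.1 ∧ z.2 ∈ (q z.1).2.2.1))
    exact IP.or (IP.and (ip_ltK (IF.fst' IF.snd) (hm.comp IF.fst)) (IP.mem IF.snd (IF.fst' (IF.snd' (IF.snd' (hp.comp IF.fst))))))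
      (IP.and (ip_leK (hm.comp IF.fst) (IF.fst' IF.snd)) (IP.mem IF.snd (IF.fst' (IF.snd' (IF.snd' (hq.comp IF.fst))))))
  · apply IF.compr'
    show IP N (fun z : α × K × K => (z.2.1 < m z.1 ∧ z.2 ∈ (p z.1).2.2.2) ∨ (m z.1 ≤ z.2.1 ∧ z.2 ∈ (q z.1).2.2.2))
    exact IP.or (IP.and (ip_ltK (IF.fst' IF.snd) (hm.comp IF.fst)) (IP.mem IF.snd (IF.snd' (IF.snd' (IF.snd' (hp.comp IF.fst))))))
      (IP.and (ip_leK (hm.comp IF.fst) (IF.fst' IF.snd)) (IP.mem IF.snd (IF.snd' (IF.snd' (IF.snd' (hq.comp IF.fst))))))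

@[simp] theorem if_upd {q : α → PQ N K} {x : α → K} {p : α → Pre N K} (hq : IF N q) (hx : IF N x) (hp : IF N p) :
    IF N (fun a => upd (q a) (x a) (p a)) := by
  apply IF.lam'
  show IF N (fun z : α × K => cit (z.2 = x z.1) (p z.1) (q z.1 z.2))
  exact if_cit (IP.eq IF.snd (hx.comp IF.fst)) (hp.comp IF.fst) (IF.app (hq.comp IF.fst) IF.snd)

@[simp] theorem if_glu {a : α → St N K} {q q' : α → PQ N K} (ha : IF N a) (hq : IF N q) (hq' : IF N q') :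
    IF N (fun z => glu (a z) (q z) (q' z)) := by
  apply IF.lam'
  show IF N (fun z : α × K => cit (z.2 ∈ a z.1) (q z.1 z.2) (q' z.1 z.2))
  exact if_cit (IP.mem IF.snd (ha.comp IF.fst)) (IF.app (hq.comp IF.fst) IF.snd) (IF.app (hq'.comp IF.fst) IF.snd)

@[simp] theorem if_prm {π : α → Fn N K K} {q : α → PQ N K} (hπ : IF N π) (hq : IF N q) :
    IF N (fun z => prm (π z) (q z)) := by
  apply IF.lam'
  show IF N (fun z : α × K => q z.1 (π z.1 z.2))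
  exact IF.app (hq.comp IF.fst) (IF.app (hπ.comp IF.fst) IF.snd)

@[simp] theorem if_Zr {m : α → K} {g : α → Fn N K K} {p : α → Pre N K} (hm : IF N m) (hg : IF N g) (hp : IF N p) :
    IF N (fun a => Zr (m a) (g a) (p a)) := by
  refine IF.pair (IF.fst' hp) (IF.pair ?_ (IF.pair (IF.fst' (IF.snd' (IF.snd' hp))) (IF.snd' (IF.snd' (IF.snd' hp)))))
  apply IF.lam'
  show IF N (fun z : α × K => cit (m z.1 ≤ z.2 ∧ (p z.1).2.1 z.2 ≠ ⊥ ∧ (p z.1).2.1 z.2 < g z.1 z.2) (g z.1 z.2)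
    ((p z.1).2.1 z.2))
  have h1 : IF N (fun z : α × K => (p z.1).2.1 z.2) := IF.app (IF.fst' (IF.snd' (hp.comp IF.fst))) IF.snd
  have h2 : IF N (fun z : α × K => g z.1 z.2) := IF.app (hg.comp IF.fst) IF.snd
  exact if_cit (IP.and (ip_leK (hm.comp IF.fst) IF.snd) (IP.and (IP.not (IP.eq h1 (IF.const ⊥))) (ip_ltK h1 h2))) h2 h1

@[simp] theorem if_Lm {p : α → Pre N K} {v : α → Fn N K (Pre N K)} {j : α → K} (hp : IF N p) (hv : IF N v)
    (hj : IF N j) : IF N (fun a => Lm (p a) (v a) (j a)) := by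
  refine IF.pair ?_ (IF.pair ?_ (IF.pair ?_ ?_))
  · apply IF.compr'
    show IP N (fun z : α × K => z.2 ∈ (p z.1).1 ∨ ∃ l, l < j z.1 ∧ z.2 ∈ (v z.1 l).1)
    exact IP.or (IP.mem IF.snd (IF.fst' (hp.comp IF.fst))) (IP.ex (IP.and (ip_ltK IF.snd (hj.comp (IF.fst.comp IF.fst)))
      (IP.mem (IF.snd.comp IF.fst) (IF.fst' (IF.app (hv.comp (IF.fst.comp IF.fst)) IF.snd)))))
  · apply IF.lam'
    show IF N (fun z : α × K => lsp (LmL (p z.1) (v z.1) (j z.1) z.2))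
    apply if_lsp
    apply IF.compr'
    show IP N (fun z : (α × K) × K => z.2 < (p z.1.1).2.1 z.1.2 ∨ ∃ l, l < j z.1.1 ∧ z.2 < (v z.1.1 l).2.1 z.1.2)
    refine IP.or (ip_ltK IF.snd (IF.app (IF.fst' (IF.snd' (hp.comp (IF.fst.comp IF.fst)))) (IF.snd.comp IF.fst))) ?_
    exact IP.ex (IP.and (ip_ltK IF.snd (hj.comp (IF.fst.comp (IF.fst.comp IF.fst)))) (ip_ltK (IF.snd.comp IF.fst)
      (IF.app (IF.fst' (IF.snd' (IF.app (hv.comp (IF.fst.comp (IF.fst.comp IF.fst))) IF.snd)))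
        (IF.snd.comp (IF.fst.comp IF.fst)))))
  · apply IF.compr'
    show IP N (fun z : α × K × K => z.2 ∈ (p z.1).2.2.1 ∨ ∃ l, l < j z.1 ∧ z.2 ∈ (v z.1 l).2.2.1)
    exact IP.or (IP.mem IF.snd (IF.fst' (IF.snd' (IF.snd' (hp.comp IF.fst))))) (IP.ex (IP.and
      (ip_ltK IF.snd (hj.comp (IF.fst.comp IF.fst))) (IP.mem (IF.snd.comp IF.fst) (IF.fst' (IF.snd' (IF.snd'
        (IF.app (hv.comp (IF.fst.comp IF.fst)) IF.snd)))))))
  · apply IF.compr'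
    show IP N (fun z : α × K × K => z.2 ∈ (p z.1).2.2.2 ∨ ∃ l, l < j z.1 ∧ z.2 ∈ (v z.1 l).2.2.2)
    exact IP.or (IP.mem IF.snd (IF.snd' (IF.snd' (IF.snd' (hp.comp IF.fst))))) (IP.ex (IP.and
      (ip_ltK IF.snd (hj.comp (IF.fst.comp IF.fst))) (IP.mem (IF.snd.comp IF.fst) (IF.snd' (IF.snd' (IF.snd'
        (IF.app (hv.comp (IF.fst.comp IF.fst)) IF.snd)))))))

end

/-- data below `m0` from `p`, the others from `q` (families) -/
noncomputable def mixQ (m0 : K) (p q : PQ N K) : PQ N K :=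
  ⟨fun x => mix m0 (p x) (q x), if_mix (IF.const m0) p.int q.int⟩

theorem sl_int (V : Fn N K (PQ N K)) (x : K) : IF N (fun l => V l x) := IF.app V.int (IF.const x)

/-- the values at `x` -/
noncomputable def sl (V : Fn N K (PQ N K)) (x : K) : Fn N K (Pre N K) := ⟨fun l => V l x, sl_int V x⟩

theorem if_sl {α : Type w} [WTy N α] {V : α → Fn N K (PQ N K)} {x : α → K} (hV : IF N V) (hx : IF N x) :
    IF N (fun a => sl (V a) (x a)) := by
  apply IF.lam'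
  show IF N (fun z : α × K => V z.1 z.2 (x z.1))
  exact IF.app (IF.app (hV.comp IF.fst) IF.snd) (hx.comp IF.fst)

attribute [simp] if_sl

/-- the union of `p` and of the `V l`, `l < j` (families) -/
noncomputable def LmQ (p : PQ N K) (V : Fn N K (PQ N K)) (j : K) : PQ N K :=
  ⟨fun x => Lm (p x) (sl V x) j, if_Lm p.int (if_sl (IF.const V) IF.id) (IF.const j)⟩

noncomputable def ZrQ (m0 : K) (g : Fn N K K) (q : PQ N K) : PQ N K :=
  ⟨fun x => Zr m0 g (q x), if_Zr (IF.const m0) (IF.const g) q.int⟩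

section

variable {α : Type w} [WTy N α]

@[simp] theorem if_mixQ {m : α → K} {p q : α → PQ N K} (hm : IF N m) (hp : IF N p) (hq : IF N q) :
    IF N (fun a => mixQ (m a) (p a) (q a)) := by
  apply IF.lam'
  show IF N (fun z : α × K => mix (m z.1) (p z.1 z.2) (q z.1 z.2))
  exact if_mix (hm.comp IF.fst) (IF.app (hp.comp IF.fst) IF.snd) (IF.app (hq.comp IF.fst) IF.snd)

@[simp] theorem if_ZrQ {m : α → K} {g : α → Fn N K K} {q : α → PQ N K} (hm : IF N m) (hg : IF N g) (hq : IF N q) :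
    IF N (fun a => ZrQ (m a) (g a) (q a)) := by
  apply IF.lam'
  show IF N (fun z : α × K => Zr (m z.1) (g z.1) (q z.1 z.2))
  exact if_Zr (hm.comp IF.fst) (hg.comp IF.fst) (IF.app (hq.comp IF.fst) IF.snd)

@[simp] theorem if_LmQ {p : α → PQ N K} {V : α → Fn N K (PQ N K)} {j : α → K} (hp : IF N p) (hV : IF N V)
    (hj : IF N j) : IF N (fun a => LmQ (p a) (V a) (j a)) := by
  apply IF.lam'
  show IF N (fun z : α × K => Lm (p z.1 z.2) (sl (V z.1) z.2) (j z.1))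
  exact if_Lm (IF.app (hp.comp IF.fst) IF.snd) (if_sl (hV.comp IF.fst) IF.snd) (hj.comp IF.fst)

@[simp] theorem ip_EqUQ {m : α → K} {p q : α → PQ N K} (hm : IF N m) (hp : IF N p) (hq : IF N q) :
    IP N (fun a => EqUQ (m a) (p a) (q a)) := by
  unfold EqUQ
  exact IP.all (ip_EqU (hm.comp IF.fst) (IF.app (hp.comp IF.fst) IF.snd) (IF.app (hq.comp IF.fst) IF.snd))

section

variable {D : CPD N K} [P : Fact (CPP D)] [B : Fact (Bs N K)]

@[simp] theorem ip_VI {I : α → St N K} {q : α → PQ N K} (hI : IF N I) (hq : IF N q) :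
    IP N (fun a => VI D (I a) (q a)) := by
  unfold VI
  exact IP.and (ip_VQ hq) (IP.all (IP.imp (IP.not (IP.mem IF.snd (hI.comp IF.fst)))
    (IP.eq (IF.app (hq.comp IF.fst) IF.snd) (IF.const one))))

@[simp] theorem ip_Cpt {p q : α → PQ N K} (hp : IF N p) (hq : IF N q) : IP N (fun a => Cpt D (p a) (q a)) := by
  unfold Cpt
  exact IP.ex (IP.and (ip_VQ IF.snd) (IP.and (ip_LeQ IF.snd (hp.comp IF.fst)) (ip_LeQ IF.snd (hq.comp IF.fst))))

@[simp] theorem ip_LeU {m : α → K} {p q : α → Pre N K} (hm : IF N m) (hp : IF N p) (hq : IF N q) :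
    IP N (fun a => LeU D (m a) (p a) (q a)) := IP.and (ip_Le hp hq) (ip_EqB hm hp hq)

@[simp] theorem ip_LeUQ {m : α → K} {p q : α → PQ N K} (hm : IF N m) (hp : IF N p) (hq : IF N q) :
    IP N (fun a => LeUQ D (m a) (p a) (q a)) := by
  unfold LeUQ
  exact IP.all (ip_LeU (hm.comp IF.fst) (IF.app (hp.comp IF.fst) IF.snd) (IF.app (hq.comp IF.fst) IF.snd))

end

end

end COD
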