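import Pool.Agent.COD.Na

/-! # Coding: a uniform enumeration of the stems

(problem MP_328cd5_lc, coding part, package Nb; helper69; 1.0 h; other files are black boxes)

PROOF. `have : Fact (Bs N K) := ⟨B⟩`, `have : Fact (CPP D) := ⟨P⟩` (for the rules `ip_VQ`, `if_nx`, ...). `m0 = nx m1`, `Lv m1` (`NL`, `m0 ≠ ⊥`). `Z := {k | nx k < m0}` (internal set). For countable `J` the codes
`{c | ∃ t, VQ D t ∧ cod J m0 Z t = c}` have at most `m0` elements: if `m1 = ⊥`: `cov_cod0`, `nx k < nx ⊥` is impossible (`om_le`, `cd_nx`); if `Cd m1`: `cov_cod` with `m = m1`, `a = m0`; `nx k < m0 = nx m1` gives `nx k ≤ m1`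
(else `m1 < nx k`, so `nx m1 ≤ nx k` by `nx_le`, `cd_nx`).
`LCA.cov_choose` with `β := St N K` (the sets `J`), `m := fun _ => m0`, `A J c := ∃ t, VQ D t ∧ cod J m0 Z t = c` gives an internal `f J a` enumerating the codes: `∀ c, A J c → ∃ a < m0, f J a = c` for countable `J`. (`Nonempty` of the
type of codes: `cod J m0 Z oneQ`.)
`R (J, a) t := VQ D t ∧ (∀ x, x ∉ J → t x = one) ∧ cod J m0 Z t = f J a` is internal; `choice'` (with `oneQ`) gives an internal `G : St N K × K → PQ N K` with `R (J, a) (G (J, a))` if there is such a `t`. Put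
`En J a := cit (R (J, a) (G (J, a))) (G (J, a)) oneQ` (`if_cit`). Then `En J a` is valid (`oneQ_val`) and trivial outside of `J` (`oneQ x = one` is `rfl`). Let `t` be valid, `J` countable, `t1 := glu J t oneQ` (`VQ.res`): the code of `t1` is the
code of `t` (`cod_iff`, `glu_mem`), `= f J a` for some `a < m0`; so `R (J, a) t1`, hence `R (J, a) (En J a)` and `cod J m0 Z (En J a) = cod J m0 Z t`; `cod_iff` gives `EqS m0 (t x) (En J a x)` for `x ∈ J`. -/

set_option autoImplicit false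

universe u v

namespace COD

open WCal WM

variable {N : Type u} [WM N] {K : Type v} [WTy N K] [KTy N K] {D : CPD N K}

theorem exists_En (B : Bs N K) (P : CPP D) {m0 : K} (h0 : NL N m0) (h1 : m0 ≠ ⊥) :
    ∃ En : St N K → K → PQ N K, IF N (fun z : St N K × K => En z.1 z.2) ∧ (∀ J a, VQ D (En J a)) ∧
      (∀ J a x, x ∉ J → En J a x = one) ∧
      ∀ J, Cnt J → ∀ t, VQ D t → ∃ a, a < m0 ∧ ∀ x, x ∈ J → EqS m0 (t x) (En J a x) := by
  have hB : Fact (Bs N K) := ⟨B⟩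
  have hP : Fact (CPP D) := ⟨P⟩
  obtain ⟨m1, hm1, rfl⟩ : ∃ b, Lv N b ∧ m0 = nx N b := by
    rcases h0 with h | h
    · exact absurd h h1
    · exact h
  have hZi : IP N (fun k : K => nx N k < nx N m1) := ip_ltK (if_nx IF.id) (IF.const _)
  obtain ⟨Z, hZ⟩ : ∃ Z : St N K, ∀ k, k ∈ Z ↔ nx N k < nx N m1 :=
    ⟨⟨{k | nx N k < nx N m1}, hZi⟩, fun _ => Iff.rfl⟩
  have hcov : ∀ J : St N K, Cnt J → Cov N (nx N m1)
      (fun c : Cde N K => ∃ t, VQ D t ∧ cod J (nx N m1) Z t = c) := by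
    intro J hJ
    rcases hm1 with rfl | hm1
    · exact cov_cod0 B P hJ fun k hk => absurd ((hZ k).1 hk) (not_lt.2 (om_le B (cd_nx B k)))
    · refine cov_cod B P hm1 hJ le_rfl fun k hk => ?_
      by_contra hc
      exact absurd (nx_le B (not_le.1 hc) (cd_nx B k)) (not_le.2 ((hZ k).1 hk))
  have hA : IP N (fun p : St N K × Cde N K => ∃ t : PQ N K, VQ D t ∧ cod p.1 (nx N m1) Z t = p.2) :=
    IP.ex (IP.and (ip_VQ IF.snd) (IP.eq (if_cod (IF.fst.comp IF.fst) (IF.const _) (IF.const _) IF.snd)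
      (IF.snd.comp IF.fst)))
  obtain ⟨a0⟩ : Nonempty (St N K) := ⟨Z⟩
  have : Nonempty (Cde N K) := ⟨cod a0 (nx N m1) Z oneQ⟩
  obtain ⟨f, hf, hf'⟩ := LCA.cov_choose (m := fun _ : St N K => nx N m1)
    (A := fun (J : St N K) (c : Cde N K) => ∃ t : PQ N K, VQ D t ∧ cod J (nx N m1) Z t = c) (IF.const _) hA
  have hR : IP N (fun p : (St N K × K) × PQ N K => VQ D p.2 ∧ (∀ x, x ∉ p.1.1 → p.2 x = one) ∧
      cod p.1.1 (nx N m1) Z p.2 = f p.1.1 p.1.2) := by
    refine IP.and (ip_VQ IF.snd) (IP.and (IP.all (IP.imp (IP.not (IP.mem IF.snd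
      (IF.fst.comp (IF.fst.comp IF.fst)))) (IP.eq (IF.app (IF.snd.comp IF.fst) IF.snd) (IF.const one)))) ?_)
    exact IP.eq (if_cod (IF.fst.comp IF.fst) (IF.const _) (IF.const _) IF.snd)
      (hf.comp IF.fst)
  obtain ⟨G, hG, hG'⟩ := choice' (P := fun (z : St N K × K) (t : PQ N K) =>
    VQ D t ∧ (∀ x, x ∉ z.1 → t x = one) ∧ cod z.1 (nx N m1) Z t = f z.1 z.2) hR oneQ
  refine ⟨fun J a => cit (VQ D (G (J, a)) ∧ (∀ x, x ∉ J → G (J, a) x = one) ∧
    cod J (nx N m1) Z (G (J, a)) = f J a) (G (J, a)) oneQ, ?_, ?_, ?_, ?_⟩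
  · have h2 : IP N (fun z : St N K × K => VQ D (G z) ∧ (∀ x, x ∉ z.1 → G z x = one) ∧
        cod z.1 (nx N m1) Z (G z) = f z.1 z.2) := by
      refine IP.and (ip_VQ hG) (IP.and (IP.all (IP.imp (IP.not (IP.mem IF.snd
        (IF.fst.comp IF.fst))) (IP.eq (IF.app (hG.comp IF.fst) IF.snd) (IF.const one)))) ?_)
      exact IP.eq (if_cod IF.fst (IF.const _) (IF.const _) hG) hf
    exact if_cit h2 hG (IF.const oneQ)
  · intro J a
    by_cases h : VQ D (G (J, a)) ∧ (∀ x, x ∉ J → G (J, a) x = one) ∧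
      cod J (nx N m1) Z (G (J, a)) = f J a
    · show VQ D (cit _ _ _)
      rw [cit_pos h]
      exact h.1
    · show VQ D (cit _ _ _)
      rw [cit_neg h]
      exact oneQ_val B
  · intro J a x hx
    by_cases h : VQ D (G (J, a)) ∧ (∀ x, x ∉ J → G (J, a) x = one) ∧
      cod J (nx N m1) Z (G (J, a)) = f J a
    · show (cit _ _ _ : PQ N K) x = one
      rw [cit_pos h]
      exact h.2.1 x hx
    · show (cit _ _ _ : PQ N K) x = one
      rw [cit_neg h]
      rfl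
  · intro J hJ t ht
    have ht1 := VQ.res B J ht
    obtain ⟨a, ha, hfa⟩ := hf' J (hcov J hJ) _ ⟨glu J t oneQ, ht1.1, rfl⟩
    have h : VQ D (G (J, a)) ∧ (∀ x, x ∉ J → G (J, a) x = one) ∧
        cod J (nx N m1) Z (G (J, a)) = f J a := hG' (J, a) ⟨glu J t oneQ, ht1.1, ht1.2, hfa.symm⟩
    refine ⟨a, ha, fun x hx => ?_⟩
    show EqS (nx N m1) (t x) ((cit _ _ _ : PQ N K) x)
    rw [cit_pos h]
    have h3 := cod_iff.1 (hfa.symm.trans h.2.2.symm) x hx
    rw [glu_mem t oneQ hx] at h3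
    exact ⟨h3.1, h3.2.1, h3.2.2.1, fun m n hm => h3.2.2.2 m n ((hZ m).2 hm)⟩

end COD
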