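import Pool.Agent.COD.Fi
import Pool.Agent.COD.Cj
import Pool.Agent.COD.Nb

/-! # Coding: definitions for the fusion lemma FL (8.2)

(problem MP_328cd5_lc, coding part; definitions and rules, no sorry in this file)

* `HQ N K`: histories; `Jf J0 k h`: the coordinates in `J0` and the ones where some `(h l).2`, `l < k`, is nontrivial.
* `Gd D m0 I J0 Dn En bk j h q t`: at the stage `j` with the triple `bk j = (k, n, a)`, history `h`, condition `q`: `t` is a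
  condition in `Dn n`, the upper part of `t` extends `q`, and `t` has the stem `En (Jf k) a` on `Jf j`.
* `FLP`: the parameters of the construction. `FLR`: the result of the fusion. -/

set_option autoImplicit false

universe u v w

namespace COD

open WCal WM

/-- histories -/
abbrev HQ (N : Type u) [WM N] (K : Type v) [WTy N K] : Type v := Fn N K (PQ N K × PQ N K)

variable {N : Type u} [WM N] {K : Type v} [WTy N K] [KTy N K]

theorem Jf_int (J0 : St N K) (k : K) (h : HQ N K) : IP N (fun x : K => x ∈ J0 ∨ ∃ l, l < k ∧ (h l).2 x ≠ one) :=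
  IP.or (IP.mem IF.id (IF.const J0)) (IP.ex (IP.and (ip_ltK IF.snd (IF.const k))
    (IP.not (IP.eq (IF.app (IF.snd' (IF.app (IF.const h) IF.snd)) IF.fst) (IF.const one)))))

/-- the coordinates in `J0` and the ones where some `(h l).2`, `l < k`, is nontrivial -/
def Jf (J0 : St N K) (k : K) (h : HQ N K) : St N K := ⟨{x | x ∈ J0 ∨ ∃ l, l < k ∧ (h l).2 x ≠ one}, Jf_int J0 k h⟩

theorem mem_Jf {J0 : St N K} {k : K} {h : HQ N K} {x : K} :
    x ∈ Jf J0 k h ↔ x ∈ J0 ∨ ∃ l, l < k ∧ (h l).2 x ≠ one := Iff.rfl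

/-- `t` is good at the stage `j` -/
def Gd (D : CPD N K) (m0 : K) (I J0 : St N K) (Dn : K → St N (PQ N K)) (En : St N K → K → PQ N K)
    (bk : K → K × K × K) (j : K) (h : HQ N K) (q t : PQ N K) : Prop :=
  VI D I t ∧ t ∈ Dn (bk j).2.1 ∧ (∀ x, Le D (mix m0 (q x) (t x)) (q x)) ∧
    ∀ x, x ∈ Jf J0 j h → EqS m0 (t x) (En (Jf J0 (bk j).1 h) (bk j).2.2 x)

section

variable {α : Type w} [WTy N α]

@[simp] theorem if_Jf {J0 : α → St N K} {k : α → K} {h : α → HQ N K} (hJ : IF N J0) (hk : IF N k) (hh : IF N h) :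
    IF N (fun a => Jf (J0 a) (k a) (h a)) := by
  apply IF.compr'
  show IP N (fun z : α × K => z.2 ∈ J0 z.1 ∨ ∃ l, l < k z.1 ∧ (h z.1 l).2 z.2 ≠ one)
  exact IP.or (IP.mem IF.snd (hJ.comp IF.fst)) (IP.ex (IP.and (ip_ltK IF.snd (hk.comp (IF.fst.comp IF.fst)))
    (IP.not (IP.eq (IF.app (IF.snd' (IF.app (hh.comp (IF.fst.comp IF.fst)) IF.snd)) (IF.snd.comp IF.fst))
      (IF.const one)))))

variable {D : CPD N K} [P : Fact (CPP D)] [B : Fact (Bs N K)] {m0 : K} {I J0 : St N K} {Dn : K → St N (PQ N K)}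
  {En : St N K → K → PQ N K} {bk : K → K × K × K}

theorem ip_Gd (hD : IF N Dn) (hE : IF N (fun z : St N K × K => En z.1 z.2)) (hb : IF N bk) {j : α → K}
    {h : α → HQ N K} {q t : α → PQ N K} (hj : IF N j) (hh : IF N h) (hq : IF N q) (ht : IF N t) :
    IP N (fun a => Gd D m0 I J0 Dn En bk (j a) (h a) (q a) (t a)) := by
  unfold Gd
  have hbj : IF N (fun a => bk (j a)) := hb.comp hj
  refine IP.and (ip_VI (IF.const I) ht) (IP.and ?_ (IP.and ?_ ?_))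
  · exact IP.mem ht (hD.comp (IF.fst' (IF.snd' hbj)))
  · exact IP.all (ip_Le (if_mix (IF.const m0) (IF.app (hq.comp IF.fst) IF.snd) (IF.app (ht.comp IF.fst) IF.snd))
      (IF.app (hq.comp IF.fst) IF.snd))
  · refine IP.all (IP.imp (IP.mem IF.snd ((if_Jf (IF.const J0) hj hh).comp IF.fst)) ?_)
    refine ip_EqS (IF.const m0) (IF.app (ht.comp IF.fst) IF.snd) (IF.app (IF.comp (g := fun a =>
      En (Jf J0 (bk (j a)).1 (h a)) (bk (j a)).2.2) ?_ IF.fst) IF.snd)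
    exact IF.comp2 (h := En) hE (if_Jf (IF.const J0) (IF.fst' hbj) hh) (IF.snd' (IF.snd' hbj))

end

/-- the parameters of the construction -/
structure FLP (D : CPD N K) (m0 : K) (I J0 : St N K) (p : PQ N K) (Dn : K → St N (PQ N K))
    (En : St N K → K → PQ N K) (bk : K → K × K × K) : Prop where
  h0 : NL N m0
  h1 : m0 ≠ ⊥
  cJ : Cnt J0
  sJ : ∀ x, x ∈ J0 → x ∈ I
  aJ : (∀ x, x ∈ I → x ∈ J0) ∨ m0 = nx N (⊥ : K)
  hp : VI D I p
  pJ : ∀ x, x ∉ J0 → p x = one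
  iD : IF N Dn
  iE : IF N (fun z : St N K × K => En z.1 z.2)
  E0 : ∀ J a, VQ D (En J a)
  E1 : ∀ J a x, x ∉ J → En J a x = one
  E2 : ∀ J, Cnt J → ∀ t, VQ D t → ∃ a, a < m0 ∧ ∀ x, x ∈ J → EqS m0 (t x) (En J a x)
  ib : IF N bk
  b1 : ∀ x y z, x < m0 → y < m0 → z < m0 → ∃ j, j < m0 ∧ x ≤ j ∧ bk j = (x, y, z)
  opn : ∀ n, n < m0 → ∀ w t, VI D I w → t ∈ Dn n → LeQ D w t → w ∈ Dn n
  den : ∀ n, n < m0 → ∀ r, VI D I r → ∃ r', VI D I r' ∧ LeQ D r' r ∧ r' ∈ Dn n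

/-- the result of the fusion -/
structure FLR (D : CPD N K) (m0 : K) (I J0 : St N K) (p : PQ N K) (Dn : K → St N (PQ N K))
    (En : St N K → K → PQ N K) (bk : K → K × K × K) (Q ρ : K → PQ N K) (H : K → HQ N K) : Prop where
  iQ : IF N Q
  iR : IF N ρ
  iH : IF N H
  hist : ∀ j l, l < j → H j l = (Q l, ρ l)
  hist' : ∀ j l, ¬ l < j → H j l = (oneQ, oneQ)
  val : ∀ j, j ≤ m0 → VI D I (Q j) ∧ LeUQ D m0 (Q j) p
  top : ∀ j, j ≤ m0 → LeUQ D m0 (Q m0) (Q j)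
  dich : ∀ j, j < m0 → (Gd D m0 I J0 Dn En bk j (H j) (Q j) (ρ j) ∧ LeUQ D m0 (Q m0) (mixQ m0 (Q j) (ρ j))) ∨
    ((∀ t, ¬ Gd D m0 I J0 Dn En bk j (H j) (Q j) t) ∧ ρ j = oneQ)
  supQ : ∀ j, j ≤ m0 → ∀ x, Q j x ≠ one → x ∈ J0 ∨ ∃ l, l < j ∧ ρ l x ≠ one

end COD
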