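import Pool.Agent.COD.FLa

/-! # Coding: the fusion of the lemma FL

(problem MP_328cd5_lc, coding part, package FLb; 1.3 h; other files are black boxes)

PROOF. `haveI := Fact.mk B; haveI := Fact.mk P`. Write `G z t := Gd D m0 I J0 Dn En bk z.1 z.2.1 z.2.2 t` for
`z : K × HQ N K × PQ N K`. By `choice'` (with `oneQ`; internality: `ip_Gd` with `hj := IF.fst.comp IF.fst` etc.) there is an
internal `c : K × HQ N K × PQ N K → PQ N K` with `G z (c z)` if there is `t` with `G z t`. Put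
`e j h q := cit (G (j,h,q) (c (j,h,q))) (mixQ m0 q (c (j,h,q)), c (j,h,q)) (q, oneQ)`. It is internal (`if_cit`, `ip_Gd`,
`IF.pair`, `if_mixQ`).
`good`: let `VI D I q`. If `G z t`, `t := c z`: `(q x).2.1 m0 ≤ (t x).2.1 m0` by `Le.l` for `Le D (mix m0 (q x) (t x)) (q x)` at
`m0` and `mix_l_ge le_rfl`; so `mixQ_VI` (with `r_fit (hq.1.val x) ..`) gives `VI D I (mixQ m0 q t)`; `LeUQ`: `mix_LeU` for
every `x` (`mixQ m0 q t x = mix m0 (q x) (t x)` is `rfl`). Otherwise `(e j h q).1 = q`: `LeU.refl`.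
`fusion B P hA h.h0 h.h1 hI h.hp (oneQ, oneQ) he hgood` with `hI : Cnt I ∨ m0 = nx N ⊥` (if `I ⊆ J0`: `Cnt.mono`) gives
`Q, ρ, H`. `FLR`: `top`: for `j < m0`: `Q m0 ≤ (e j (H j) (Q j)).1 ≤ Q j` (`LeU.trans` for every `x`; validity of the values:
`(h.val ..).1`, good); `j = m0`: `LeU.refl`. `dich`: let `j < m0`, `z = (j, H j, Q j)`. If `G z (c z)`: `e .. = (mixQ m0 (Q j) (c z), c z)`
(`cit_pos`), `ρ j = c z`: first alternative. Otherwise there is no `t` with `G z t` (property of `c`), `ρ j = oneQ` (`cit_neg`).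
`supQ`: strong induction on `j` (`WellFoundedLT.induction`). `Q j x ≠ one`: the last clause of `fusion`: `p x ≠ one`, so `x ∈ J0`
(`h.pJ`), or `(e l (H l) (Q l)).1 x ≠ one` for some `l < j`: if `G`: `mix m0 (Q l x) (ρ l x) ≠ one`, so `Q l x ≠ one` (induction;
`l' < l < j`) or `ρ l x ≠ one` (`mix_self`); otherwise `Q l x ≠ one` (induction). -/

set_option autoImplicit false

universe u v w

namespace COD

open WCal WM

variable {N : Type u} [WM N] {K : Type v} [WTy N K] [KTy N K] {D : CPD N K} {m0 : K} {I J0 : St N K}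
  {p : PQ N K} {Dn : K → St N (PQ N K)} {En : St N K → K → PQ N K} {bk : K → K × K × K}

theorem exists_FLR (B : Bs N K) (P : CPP D) (hA : ACL D (PQ N K × PQ N K)) (h : FLP D m0 I J0 p Dn En bk) :
    ∃ (Q ρ : K → PQ N K) (H : K → HQ N K), FLR D m0 I J0 p Dn En bk Q ρ H := by
  have hB : Fact (Bs N K) := ⟨B⟩
  have hP : Fact (CPP D) := ⟨P⟩
  have hG : IP N (fun z : (K × HQ N K × PQ N K) × PQ N K =>
      Gd D m0 I J0 Dn En bk z.1.1 z.1.2.1 z.1.2.2 z.2) :=
    ip_Gd h.iD h.iE h.ib (IF.fst.comp IF.fst) (IF.fst.comp (IF.snd.comp IF.fst))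
      (IF.snd.comp (IF.snd.comp IF.fst)) IF.snd
  obtain ⟨c, hc, hc'⟩ := choice' (P := fun (z : K × HQ N K × PQ N K) (t : PQ N K) =>
    Gd D m0 I J0 Dn En bk z.1 z.2.1 z.2.2 t) hG oneQ
  obtain ⟨e, hedef⟩ : ∃ e : K → HQ N K → PQ N K → PQ N K × PQ N K, e = fun j h' q =>
      cit (Gd D m0 I J0 Dn En bk j h' q (c (j, h', q))) (mixQ m0 q (c (j, h', q)), c (j, h', q))
        (q, oneQ) := ⟨_, rfl⟩
  have hpos : ∀ j h' q, Gd D m0 I J0 Dn En bk j h' q (c (j, h', q)) →
      e j h' q = (mixQ m0 q (c (j, h', q)), c (j, h', q)) := by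
    intro j h' q hg
    rw [hedef]
    exact cit_pos hg _ _
  have hneg : ∀ j h' q, ¬ Gd D m0 I J0 Dn En bk j h' q (c (j, h', q)) → e j h' q = (q, oneQ) := by
    intro j h' q hg
    rw [hedef]
    exact cit_neg hg _ _
  have he : IF N (fun z : K × HQ N K × PQ N K => e z.1 z.2.1 z.2.2) := by
    rw [hedef]
    show IF N (fun z : K × HQ N K × PQ N K =>
      cit (Gd D m0 I J0 Dn En bk z.1 z.2.1 z.2.2 (c z)) (mixQ m0 z.2.2 (c z), c z) (z.2.2, oneQ))
    exact if_cit (ip_Gd h.iD h.iE h.ib IF.fst (IF.fst.comp IF.snd) (IF.snd.comp IF.snd) hc)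
      (IF.pair (if_mixQ (IF.const m0) (IF.snd.comp IF.snd) hc) hc)
      (IF.pair (IF.snd.comp IF.snd) (IF.const oneQ))
  have hgood : ∀ j h' q, VI D I q → VI D I (e j h' q).1 ∧ LeUQ D m0 (e j h' q).1 q := by
    intro j h' q hq
    by_cases hg : Gd D m0 I J0 Dn En bk j h' q (c (j, h', q))
    · rw [hpos j h' q hg]
      refine ⟨mixQ_VI B P h.h0 h.h1 hq hg.1 fun x => r_fit (hq.1.val x) ?_, fun x =>
        mix_LeU B P h.h0 (hg.2.2.1 x)⟩
      have h1 := (hg.2.2.1 x).l m0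
      rwa [mix_l_ge le_rfl] at h1
    · rw [hneg j h' q hg]
      exact ⟨hq, fun x => LeU.refl D m0 _⟩
  have hI : Cnt I ∨ m0 = nx N (⊥ : K) := h.aJ.imp_left fun h' => Cnt.mono h' h.cJ
  obtain ⟨Q, ρ, H, hQ, hρ, hH, hist, hist', hval, htop, hsup⟩ :=
    fusion B P hA h.h0 h.h1 hI h.hp (oneQ, oneQ) he hgood
  have htop' : ∀ j, j ≤ m0 → LeUQ D m0 (Q m0) (Q j) := by
    intro j hj
    rcases hj.lt_or_eq with h1 | h1
    · intro x
      have h2 := hgood j (H j) (Q j) (hval j hj).1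
      exact LeU.trans P (h2.1.1.val x) ((hval j hj).1.1.val x) (htop m0 j le_rfl h1 x) (h2.2 x)
    · rw [h1]
      exact fun x => LeU.refl D m0 _
  refine ⟨Q, ρ, H, hQ, hρ, hH, hist, hist', fun j hj => ⟨(hval j hj).1, (hval j hj).2.1⟩, htop',
    ?_, ?_⟩
  · intro j hj
    have hr := (hval j hj.le).2.2
    by_cases hg : Gd D m0 I J0 Dn En bk j (H j) (Q j) (c (j, H j, Q j))
    · left
      have h1 := htop m0 j le_rfl hj
      rw [hpos j _ _ hg] at hr h1
      rw [hr]
      exact ⟨hg, h1⟩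
    · right
      rw [hneg j _ _ hg] at hr
      exact ⟨fun t ht => hg (hc' (j, H j, Q j) ⟨t, ht⟩), hr⟩
  · intro j
    induction j using WellFoundedLT.induction with
    | ind j ih =>
      intro hj x hne
      have hih : ∀ l, l < j → Q l x ≠ one → x ∈ J0 ∨ ∃ l, l < j ∧ ρ l x ≠ one := by
        intro l hl h1
        rcases ih l hl (hl.le.trans hj) x h1 with h2 | ⟨l', h2, h3⟩
        · exact Or.inl h2
        · exact Or.inr ⟨l', h2.trans hl, h3⟩
      rcases hsup j x hj hne with h1 | ⟨l, hl, h1⟩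
      · left
        by_contra hx
        exact h1 (h.pJ x hx)
      · have hr := (hval l (hl.le.trans hj)).2.2
        by_cases hg : Gd D m0 I J0 Dn En bk l (H l) (Q l) (c (l, H l, Q l))
        · rw [hpos l _ _ hg] at hr h1
          change mix m0 (Q l x) (c (l, H l, Q l) x) ≠ one at h1
          change ρ l = c (l, H l, Q l) at hr
          rw [← hr] at h1
          by_cases h2 : Q l x = one
          · right
            refine ⟨l, hl, fun h3 => h1 ?_⟩
            rw [h2, h3, mix_self]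
          · exact hih l hl h2
        · rw [hneg l _ _ hg] at h1
          exact hih l hl h1

end COD
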