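import Pool.Agent.COD.FLa

/-! # Coding: the sets `W n` of the lemma FL

(problem MP_328cd5_lc, coding part, package FLc; 1.3 h; other files are black boxes)

PROOFS. `J := Jf J0 m0 (H m0)`; by `hist` `(H m0 l).2 = ρ l` for `l < m0`.
`Jf_hist`: `St.ext`, `Set.ext`, `mem_Jf`, `hist` for `l < k ≤ j` and `l < k ≤ j'` (both are `(Q l, ρ l)`).
`rho_VI`: `dich`: `ρ j` is `VI` by `Gd` or `ρ j = oneQ` (`oneQ_val B`, `oneQ x = one` is `rfl`).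
`rho_J`: `j < m0`, `ρ j x ≠ one`: `mem_Jf`, `hist m0 j`. `Q_J`: `supQ` for `m0`, `hist`.
`J_sub`: `x ∈ J0` gives `x ∈ I` (`sJ`); `(H m0 l).2 x = ρ l x ≠ one` gives `x ∈ I` by `rho_VI` (contraposition).
`J_cnt`: if `I ⊆ J0`: `J ⊆ I ⊆ J0` (`J_sub`), `Cnt.mono`. If `m0 = nx ⊥`: `J` is contained in the union of `J0` and of
`T := {x | ∃ l < m0, ρ l x ≠ one}`; `Cnt.union`; `T` is countable by `Cnt.biUnion` with the index set `{l | l < m0}` (countable: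
`cnt_iff_cov B`, `⟨fun x => x, IF.id, fun a ha => ⟨a, ha, rfl⟩⟩`; `Nonempty K` by `⟨⊥⟩`) and the internal family
`S l := {x | ρ l x ≠ one}` (`IF.compr'`), which is countable by `(rho_VI ..).1.cnt` (`Cnt.mono`).
`exists_W`: `haveI := Fact.mk B; haveI := Fact.mk P`; `IF.compr'` for the internal predicate
`fun z : K × PQ N K => ∃ j, j < m0 ∧ (bk j).2.1 = z.1 ∧ Gd .. j (H j) (Q j) (ρ j) ∧ z.2 = mixQ m0 (ρ j) (Q m0)` (`IP.ex`, `ip_Gd`).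
`W_cov`: the image of `{j | j < m0}` under the internal function `j ↦ mixQ m0 (ρ j) (Q m0)`: the covering function itself.
`W_fit`: `Gd` at `j < m0` excludes the second alternative of `dich`, so `Le D (Q m0 x) (mix m0 (Q j x) (ρ j x))`, `Le.l` at `m0`
and `mix_l_ge le_rfl` give `(ρ j x).2.1 m0 ≤ (Q m0 x).2.1 m0`; `r_fit`.
`W_mem`: let `w = mixQ m0 (ρ j) (Q m0)`, `Gd` at `j`. `VI`: `mixQ_VI` with `W_fit`. `w ≤ ρ j`: for every `x` `le_right` with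
`s := Q j x`, `t := ρ j x`, `q := Q m0 x`. `w ∈ Dn n`: `opn`, `ρ j ∈ Dn (bk j).2.1 = Dn n`. Outside of `J`: `rho_J`, `Q_J`,
`mix_self` for `one`. `EqUQ`: `mix_EqU`. -/

set_option autoImplicit false

universe u v w

namespace COD

open WCal WM

variable {N : Type u} [WM N] {K : Type v} [WTy N K] [KTy N K] {D : CPD N K} {m0 : K} {I J0 : St N K}
  {p : PQ N K} {Dn : K → St N (PQ N K)} {En : St N K → K → PQ N K} {bk : K → K × K × K}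
  {Q ρ : K → PQ N K} {H : K → HQ N K}

theorem Jf_hist (hR : FLR D m0 I J0 p Dn En bk Q ρ H) {k j j' : K} (h : k ≤ j) (h' : k ≤ j') :
    Jf J0 k (H j) = Jf J0 k (H j') := by
  refine St.ext (Set.ext fun x => ?_)
  show (x ∈ J0 ∨ ∃ l, l < k ∧ (H j l).2 x ≠ one) ↔ (x ∈ J0 ∨ ∃ l, l < k ∧ (H j' l).2 x ≠ one)
  refine or_congr Iff.rfl (exists_congr fun l => and_congr_right fun hl => ?_)
  rw [hR.hist j l (hl.trans_le h), hR.hist j' l (hl.trans_le h')]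

theorem rho_VI (B : Bs N K) (hR : FLR D m0 I J0 p Dn En bk Q ρ H) {j : K} (hj : j < m0) : VI D I (ρ j) := by
  rcases hR.dich j hj with ⟨h, -⟩ | ⟨-, h⟩
  · exact h.1
  · rw [h]
    exact ⟨oneQ_val B, fun x _ => rfl⟩

theorem rho_J (hR : FLR D m0 I J0 p Dn En bk Q ρ H) {j : K} (hj : j < m0) {x : K} (hx : x ∉ Jf J0 m0 (H m0)) :
    ρ j x = one := by
  by_contra h
  refine hx (Or.inr ⟨j, hj, ?_⟩)
  rw [hR.hist m0 j hj]
  exact h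

theorem Q_J (hR : FLR D m0 I J0 p Dn En bk Q ρ H) {x : K} (hx : x ∉ Jf J0 m0 (H m0)) : Q m0 x = one := by
  by_contra h
  rcases hR.supQ m0 le_rfl x h with h1 | ⟨l, hl, h2⟩
  · exact hx (Or.inl h1)
  · exact h2 (rho_J hR hl hx)

theorem J_sub (B : Bs N K) (h : FLP D m0 I J0 p Dn En bk) (hR : FLR D m0 I J0 p Dn En bk Q ρ H) {x : K}
    (hx : x ∈ Jf J0 m0 (H m0)) : x ∈ I := by
  rcases hx with h1 | ⟨l, hl, h2⟩
  · exact h.sJ x h1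
  · rw [hR.hist m0 l hl] at h2
    by_contra hI
    exact h2 ((rho_VI B hR hl).2 x hI)

theorem J_cnt (B : Bs N K) (h : FLP D m0 I J0 p Dn En bk) (hR : FLR D m0 I J0 p Dn En bk Q ρ H) :
    Cnt (Jf J0 m0 (H m0)) := by
  rcases h.aJ with h1 | h1
  · exact Cnt.mono (fun x hx => h1 x (J_sub B h hR hx)) h.cJ
  · have : Nonempty K := ⟨⊥⟩
    have iS : IP N (fun z : K × K => ρ z.1 z.2 ≠ one) :=
      IP.not (IP.eq (IF.app (hR.iR.comp IF.fst) IF.snd) (IF.const one))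
    have iT : IP N (fun x : K => ∃ l, l < m0 ∧ ρ l x ≠ one) :=
      IP.ex (IP.and (ip_ltK IF.snd (IF.const m0))
        (IP.not (IP.eq (IF.app (hR.iR.comp IF.snd) IF.fst) (IF.const one))))
    have hS : IF N (fun l : K => (⟨{x | ρ l x ≠ one}, IP.sec iS l⟩ : St N K)) := IF.compr' iS
    have hI : Cnt (⟨{l | l < m0}, ip_ltK IF.id (IF.const m0)⟩ : St N K) :=
      (cnt_iff_cov B).2 ⟨fun x => x, IF.id, fun a ha => ⟨a, h1 ▸ ha, rfl⟩⟩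
    have hT : Cnt (⟨{x | ∃ l, l < m0 ∧ ρ l x ≠ one}, iT⟩ : St N K) := by
      refine Cnt.biUnion hI hS (fun l hl => ?_) fun x hx => hx
      obtain ⟨J1, hJ1, h2⟩ := (rho_VI B hR hl).1.cnt
      refine Cnt.mono (fun x hx => ?_) hJ1
      by_contra hn
      exact hx (h2 x hn)
    refine Cnt.union h.cJ hT fun x hx => ?_
    rcases hx with h3 | ⟨l, hl, h3⟩
    · exact Or.inl h3
    · rw [hR.hist m0 l hl] at h3
      exact Or.inr ⟨l, hl, h3⟩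

theorem exists_W (B : Bs N K) (P : CPP D) (h : FLP D m0 I J0 p Dn En bk) (hR : FLR D m0 I J0 p Dn En bk Q ρ H) :
    ∃ W : K → St N (PQ N K), IF N W ∧ ∀ n w, w ∈ W n ↔ ∃ j, j < m0 ∧ (bk j).2.1 = n ∧
      Gd D m0 I J0 Dn En bk j (H j) (Q j) (ρ j) ∧ w = mixQ m0 (ρ j) (Q m0) := by
  have : Fact (Bs N K) := ⟨B⟩
  have : Fact (CPP D) := ⟨P⟩
  have hZ : IP N (fun z : K × PQ N K => ∃ j, j < m0 ∧ (bk j).2.1 = z.1 ∧
      Gd D m0 I J0 Dn En bk j (H j) (Q j) (ρ j) ∧ z.2 = mixQ m0 (ρ j) (Q m0)) :=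
    IP.ex (IP.and (ip_ltK IF.snd (IF.const m0)) (IP.and
      (IP.eq (IF.fst' (IF.snd' (h.ib.comp IF.snd))) (IF.fst.comp IF.fst))
      (IP.and (ip_Gd h.iD h.iE h.ib IF.snd (hR.iH.comp IF.snd) (hR.iQ.comp IF.snd)
        (hR.iR.comp IF.snd)) (IP.eq (IF.snd.comp IF.fst)
        (if_mixQ (IF.const m0) (hR.iR.comp IF.snd) (IF.const (Q m0)))))))
  exact ⟨fun n => ⟨{w | ∃ j, j < m0 ∧ (bk j).2.1 = n ∧
    Gd D m0 I J0 Dn En bk j (H j) (Q j) (ρ j) ∧ w = mixQ m0 (ρ j) (Q m0)}, IP.sec hZ n⟩,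
    IF.compr' hZ, fun n w => Iff.rfl⟩

theorem W_cov (hR : FLR D m0 I J0 p Dn En bk Q ρ H) {W : K → St N (PQ N K)} (hW : ∀ n w, w ∈ W n ↔
    ∃ j, j < m0 ∧ (bk j).2.1 = n ∧ Gd D m0 I J0 Dn En bk j (H j) (Q j) (ρ j) ∧ w = mixQ m0 (ρ j) (Q m0)) (n : K) :
    Cov N m0 (fun w => w ∈ W n) := by
  refine ⟨fun j => mixQ m0 (ρ j) (Q m0), if_mixQ (IF.const m0) hR.iR (IF.const (Q m0)),
    fun w hw => ?_⟩
  obtain ⟨j, hj, -, -, rfl⟩ := (hW n w).1 hw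
  exact ⟨j, hj, rfl⟩

private theorem gd_le (hR : FLR D m0 I J0 p Dn En bk Q ρ H) {j : K} (hj : j < m0)
    (hg : Gd D m0 I J0 Dn En bk j (H j) (Q j) (ρ j)) (x : K) :
    Le D (Q m0 x) (mix m0 (Q j x) (ρ j x)) := by
  rcases hR.dich j hj with ⟨-, h1⟩ | ⟨h1, -⟩
  · exact (h1 x).1
  · exact absurd hg (h1 _)

theorem W_fit (B : Bs N K) (P : CPP D) (hR : FLR D m0 I J0 p Dn En bk Q ρ H) {j : K} (hj : j < m0)
    (hg : Gd D m0 I J0 Dn En bk j (H j) (Q j) (ρ j)) :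
    ∀ x m n, m < m0 → nx N m = m0 → (m, n) ∈ (ρ j x).2.2.2 → n < (Q m0 x).2.1 m0 := by
  intro x m n hm hm' hmn
  refine r_fit (hg.1.1.val x) ?_ m n hm hm' hmn
  have h1 := (gd_le hR hj hg x).l m0
  rwa [mix_l_ge le_rfl] at h1

theorem W_mem (B : Bs N K) (P : CPP D) (h : FLP D m0 I J0 p Dn En bk) (hR : FLR D m0 I J0 p Dn En bk Q ρ H)
    {W : K → St N (PQ N K)} (hW : ∀ n w, w ∈ W n ↔
    ∃ j, j < m0 ∧ (bk j).2.1 = n ∧ Gd D m0 I J0 Dn En bk j (H j) (Q j) (ρ j) ∧ w = mixQ m0 (ρ j) (Q m0)) {n : K}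
    (hn : n < m0) {w : PQ N K} (hw : w ∈ W n) :
    w ∈ Dn n ∧ VI D I w ∧ (∀ x, x ∉ Jf J0 m0 (H m0) → w x = one) ∧ EqUQ m0 w (Q m0) := by
  obtain ⟨j, hj, hn', hg, rfl⟩ := (hW n w).1 hw
  have hVI : VI D I (mixQ m0 (ρ j) (Q m0)) :=
    mixQ_VI B P h.h0 h.h1 hg.1 (hR.val m0 le_rfl).1 (W_fit B P hR hj hg)
  refine ⟨?_, hVI, fun x hx => ?_, fun x => mix_EqU m0 (ρ j x) (Q m0 x)⟩
  · refine h.opn n hn _ (ρ j) hVI (hn' ▸ hg.2.1) fun x => ?_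
    exact le_right B P h.h0 (gd_le hR hj hg x)
  · show mix m0 (ρ j x) (Q m0 x) = one
    rw [rho_J hR hj hx, Q_J hR hx, mix_self]

end COD
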