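import Pool.Agent.COD.FLc

/-! # Coding: every extension is compatible with an element of `W n`

(problem MP_328cd5_lc, coding part, package FLd; 1.5 h; other files are black boxes)

PROOFS. `J := Jf J0 m0 (H m0)`.
`exists_k` (`r` valid, `VI D I r`). CASE `I ⊆ J0` (`h.aJ`): `k = ⊥` (`< m0` by `h1`): `x ∈ J` gives `x ∈ I` (`J_sub`), `x ∈ J0`,
so `x ∈ Jf J0 ⊥ ..`. CASE `m0 = nx ⊥`: let `F := {x | ¬ Idle (r x) ⊥}`, finite (`VQ.fin`). For every `x ∈ F ∩ J` there is `k < m0`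
with `x ∈ Jf J0 k (H m0)`: if `x ∈ J0` any `k`, else `l < m0` with `(H m0 l).2 x ≠ one` and `k` with `l < k < m0` (`lim_cd B (cd_nx B ⊥)`).
`Jf J0 k h` is monotone in `k`; by induction over the finite set (`Set.Finite.induction_on` or maximum) there is one `k < m0` for
all `x ∈ F ∩ J`. If `x ∈ J - Jf J0 k (H m0)` then `x ∉ F`, `Idle (r x) ⊥`; for `m < m0 = nx ⊥` with `Lv N m`: `m = ⊥` (`om_le`),
if not `Lv N m`: `Val.idle`.
`EqS_of_idle`: `one` has no data (all four clauses are of the form `x ∈ ∅`, `⊥`), `Idle r m`: `m ∉ r.1`, `r.2.1 m = ⊥`, no promise; bits: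
`Val.s_lt` and `r.2.1 m = ⊥` (`not_lt_bot`). For the last clause: `nx m < m0` gives `m < m0` (`lt_nx`).
`exists_j`: let `r'` be `VI`, `r' ∈ Dn n`, `LeQ D r' (Q m0)`. Take `k` from `exists_k`, `a < m0` from `E2` for the countable set
`Jf J0 k (H m0)` (`Cnt.mono` from `J_cnt`, `k ≤ m0`) and `t := r'`, `j < m0` with `k ≤ j`, `bk j = (k, n, a)` from `b1`. Then
`Gd D m0 I J0 Dn En bk j (H j) (Q j) r'`: `r' ≤ Q m0 ≤ Q j` (`top`; `Le.trans`), so `mix_le_left` gives the third clause; fourth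
clause: let `x ∈ Jf J0 j (H j)`, `Jf J0 (bk j).1 (H j) = Jf J0 k (H m0) =: Jk` (`Jf_hist`, `k ≤ j`, `k ≤ m0`). If `x ∈ Jk`: `E2`. If not: `x ∈ J`
(`Jf J0 j (H j) = Jf J0 j (H m0) ⊆ J`), so `r' x` is idle below `m0` (`exists_k`) and `En Jk a x = one` (`E1`): `EqS_of_idle`.
Hence the second alternative of `dich` is impossible and `Gd .. j (H j) (Q j) (ρ j)`; for `x ∈ Jf J0 j (H m0)` `EqS m0 (ρ j x) (r' x)` by
`EqS.trans`, `EqS.symm` (both have the stem `En Jk a x`). `j ≥ k` so `x ∈ J - Jf J0 j (H m0)` is not in `Jk` and `r' x` is idle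
below `m0`.
`compat`: let `r' ≤ r` be in `Dn n` (`den`), `j` from `exists_j`, `t := ρ j`, `w := mixQ m0 t (Q m0) ∈ W n`. `joinQ B P h0 h1`
(`ht := (rho_VI ..).1`, `hq := (val m0).1.1`, `hr`, `hw := W_fit`, `hrq`, `hc`: for `x ∈ Jf J0 j (H m0)`: first; for
`x ∈ J` not in it: second; `x ∉ J`: `ρ j x = one` (`rho_J`), third by `idle_one`) gives `Cpt D w r'`; `Cpt.res B` (`w` is `VI` by `W_mem`) gives
`s` with `VI D I s`, `s ≤ w`, `s ≤ r' ≤ r` (`LeQ.trans`). -/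

set_option autoImplicit false

universe u v w

namespace COD

open WCal WM

variable {N : Type u} [WM N] {K : Type v} [WTy N K] [KTy N K] {D : CPD N K} {m0 : K} {I J0 : St N K}
  {p : PQ N K} {Dn : K → St N (PQ N K)} {En : St N K → K → PQ N K} {bk : K → K × K × K}
  {Q ρ : K → PQ N K} {H : K → HQ N K}

private theorem Jf_le {J0 : St N K} {k k' : K} {h : HQ N K} (hk : k ≤ k') {x : K}
    (hx : x ∈ Jf J0 k h) : x ∈ Jf J0 k' h := by
  rcases hx with h1 | ⟨l, hl, h2⟩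
  · exact Or.inl h1
  · exact Or.inr ⟨l, hl.trans_le hk, h2⟩

theorem exists_k (B : Bs N K) (h : FLP D m0 I J0 p Dn En bk) (hR : FLR D m0 I J0 p Dn En bk Q ρ H) {r : PQ N K}
    (hr : VI D I r) : ∃ k, k < m0 ∧ ∀ x, x ∈ Jf J0 m0 (H m0) → x ∉ Jf J0 k (H m0) → ∀ m, m < m0 → Idle (r x) m := by
  have hb : (⊥ : K) < m0 := bot_lt_iff_ne_bot.2 h.h1
  rcases h.aJ with h1 | h1
  · refine ⟨⊥, hb, fun x hx hnx => ?_⟩
    exact absurd (Or.inl (h1 x (J_sub B h hR hx))) hnx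
  · have hlim : Lim N m0 := h1 ▸ lim_cd B (cd_nx B ⊥)
    have c1 : ∀ x, x ∈ Jf J0 m0 (H m0) → ∃ k, k < m0 ∧ x ∈ Jf J0 k (H m0) := by
      intro x hx
      rcases hx with h2 | ⟨l, hl, h2⟩
      · exact ⟨⊥, hb, Or.inl h2⟩
      · obtain ⟨k, hk, hk'⟩ := hlim.2 l hl
        exact ⟨k, hk', Or.inr ⟨l, hk, h2⟩⟩
    have c2 : ∀ S : Set K, S.Finite → ∃ k, k < m0 ∧ ∀ x, x ∈ S → x ∈ Jf J0 m0 (H m0) →
        x ∈ Jf J0 k (H m0) := by
      intro S hS
      induction S, hS using Set.Finite.induction_on with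
      | empty => exact ⟨⊥, hb, fun x hx => absurd hx (Set.notMem_empty x)⟩
      | insert _ _ ih =>
        rename_i a S _ _
        obtain ⟨k, hk, h2⟩ := ih
        by_cases ha : a ∈ Jf J0 m0 (H m0)
        · obtain ⟨k', hk', h3⟩ := c1 a ha
          refine ⟨max k k', max_lt hk hk', fun x hx hxJ => ?_⟩
          rcases hx with rfl | hx
          · exact Jf_le (le_max_right _ _) h3
          · exact Jf_le (le_max_left _ _) (h2 x hx hxJ)
        · refine ⟨k, hk, fun x hx hxJ => ?_⟩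
          rcases hx with rfl | hx
          · exact absurd hxJ ha
          · exact h2 x hx hxJ
    obtain ⟨k, hk, h2⟩ := c2 _ hr.1.fin
    refine ⟨k, hk, fun x hx hnx m hm => ?_⟩
    have h3 : Idle (r x) ⊥ := by
      by_contra hc
      exact hnx (h2 x hc hx)
    by_cases hlv : Lv N m
    · rcases hlv with rfl | hcd
      · exact h3
      · exact absurd hm (not_lt.2 (h1 ▸ om_le B hcd))
    · exact (hr.1.val x).idle B hlv

theorem EqS_of_idle (B : Bs N K) {r : Pre N K} (hr : Val D r) (h : ∀ m, m < m0 → Idle r m) :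
    EqS m0 r (one : Pre N K) := by
  refine ⟨fun m hm => ?_, fun m hm => ?_, fun m x hm => ?_, fun m n hm => ?_⟩
  · exact iff_of_false (h m hm).1 (idle_one m).1
  · exact (h m hm).2.1.trans (idle_one m).2.1.symm
  · refine iff_of_false (fun hx => ?_) (fun hx => ?_)
    · have h1 := hr.s_lt m x hx
      rw [(h m hm).2.1] at h1
      exact not_lt_bot h1
    · have h1 := (one_val B (D := D)).s_lt m x hx
      rw [(idle_one m).2.1] at h1
      exact not_lt_bot h1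
  · exact iff_of_false ((h m ((lt_nx B m).trans hm)).2.2 n) ((idle_one m).2.2 n)

theorem exists_j (B : Bs N K) (P : CPP D) (h : FLP D m0 I J0 p Dn En bk) (hR : FLR D m0 I J0 p Dn En bk Q ρ H)
    {n : K} (hn : n < m0) {r : PQ N K} (hr : VI D I r) (hrn : r ∈ Dn n) (hrq : LeQ D r (Q m0)) :
    ∃ j, j < m0 ∧ (bk j).2.1 = n ∧ Gd D m0 I J0 Dn En bk j (H j) (Q j) (ρ j) ∧
      ∀ x, x ∈ Jf J0 m0 (H m0) → EqS m0 (ρ j x) (r x) ∨ ∀ m, m < m0 → Idle (r x) m := by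
  obtain ⟨k, hk, hidle⟩ := exists_k B h hR hr
  obtain ⟨a, ha, hE⟩ := h.E2 (Jf J0 k (H m0))
    (Cnt.mono (fun x hx => Jf_le hk.le hx) (J_cnt B h hR)) r hr.1
  obtain ⟨j, hj, hkj, hb⟩ := h.b1 k n a hk hn ha
  have hG : Gd D m0 I J0 Dn En bk j (H j) (Q j) r := by
    refine ⟨hr, ?_, fun x => ?_, fun x hx => ?_⟩
    · rw [hb]
      exact hrn
    · refine mix_le_left B P h.h0 ?_
      exact Le.trans P ((hR.val m0 le_rfl).1.1.val x) ((hR.val j hj.le).1.1.val x) (hrq x)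
        (hR.top j hj.le x).1
    · rw [hb]
      show EqS m0 (r x) (En (Jf J0 k (H j)) a x)
      rw [Jf_hist hR hkj hk.le]
      by_cases hxk : x ∈ Jf J0 k (H m0)
      · exact hE x hxk
      · rw [h.E1 _ a x hxk]
        rw [Jf_hist hR le_rfl hj.le] at hx
        exact EqS_of_idle B (hr.1.val x) (hidle x (Jf_le hj.le hx) hxk)
  rcases hR.dich j hj with ⟨hg, -⟩ | ⟨hg, -⟩
  · refine ⟨j, hj, by rw [hb], hg, fun x hx => ?_⟩
    by_cases hxj : x ∈ Jf J0 j (H m0)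
    · rw [← Jf_hist hR le_rfl hj.le] at hxj
      exact Or.inl ((hg.2.2.2 x hxj).trans (hG.2.2.2 x hxj).symm)
    · exact Or.inr (hidle x hx fun hxk => hxj (Jf_le hkj hxk))
  · exact absurd hG (hg r)

theorem compat (B : Bs N K) (P : CPP D) (h : FLP D m0 I J0 p Dn En bk) (hR : FLR D m0 I J0 p Dn En bk Q ρ H)
    {W : K → St N (PQ N K)} (hW : ∀ n w, w ∈ W n ↔
    ∃ j, j < m0 ∧ (bk j).2.1 = n ∧ Gd D m0 I J0 Dn En bk j (H j) (Q j) (ρ j) ∧ w = mixQ m0 (ρ j) (Q m0)) {n : K}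
    (hn : n < m0) {r : PQ N K} (hr : VI D I r) (hrq : LeQ D r (Q m0)) :
    ∃ w, w ∈ W n ∧ ∃ s, VI D I s ∧ LeQ D s w ∧ LeQ D s r := by
  obtain ⟨r', hr', hle, hrn⟩ := h.den n hn r hr
  have hrq' : LeQ D r' (Q m0) := LeQ.trans P hr.1 (hR.val m0 le_rfl).1.1 hle hrq
  obtain ⟨j, hj, hb, hg, hc⟩ := exists_j B P h hR hn hr' hrn hrq'
  have hw : mixQ m0 (ρ j) (Q m0) ∈ W n := (hW n _).2 ⟨j, hj, hb, hg, rfl⟩
  have hC : Cpt D (mixQ m0 (ρ j) (Q m0)) r' := by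
    refine joinQ B P h.h0 h.h1 (rho_VI B hR hj).1 (hR.val m0 le_rfl).1.1 hr'.1
      (W_fit B P hR hj hg) hrq' fun x => ?_
    by_cases hx : x ∈ Jf J0 m0 (H m0)
    · rcases hc x hx with h1 | h1
      · exact Or.inl h1
      · exact Or.inr (Or.inl h1)
    · refine Or.inr (Or.inr fun m _ => ?_)
      rw [rho_J hR hj hx]
      exact idle_one m
  obtain ⟨s, hs, h1, h2⟩ := Cpt.res B (W_mem B P h hR hW hn hw).2.1 hr' hC
  exact ⟨_, hw, s, hs, h1, LeQ.trans P hr'.1 hr.1 h2 hle⟩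

end COD
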