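import Pool.Agent.COD.V3

/-! # Coding: activation of a limit level

(problem MP_328cd5_lc, coding part, package V4; architect helper51; 1.3 h; other files are black boxes)

PROOF (7.5). `CPP.F2` for the function `p.2.1` (its values at `m ∈ S a` are `< nx m`: `Val.l_nl` or `⊥`) gives `z1 < nx a` with `p.l m ≤ f a z1 m` for all
large `m ∈ S a`. Choose `z2 < nx a` with `z, z1, ⊥ < z2` (`lim_cd`). By `CPP.F1` there is `e < a` such that for all `m ∈ S a`, `e ≤ m`:
`p.l m ≤ f a z1 m < f a z2 m` and `⊥ ≤ f a ⊥ m < f a z2 m`. Put `l' m := if m ∈ S a ∧ e ≤ m then f a z2 m else p.l m`, `A' := p.1 ∪ {a}`,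
`p' := (A', l', p.2.2.1, p.2.2.2)`. All are internal (`IF.ite`, `simp`, with `Fact B`, `Fact P`). `l_nl`: `CPP.S_lt`, `CPP.f_lt`. `s_lt`, `r_lt`, `r_A`, `r_fin`,
`r_sz`: as `p.l ≤ l'`. `bdd`: beyond the bound of `p` and beyond some `e'` with `a < e'` (`Bs.unb`). `A_pos`: for `a`: `⊥ < f a z2 m`; else `Ev.mono`.
`dec` at `m ∈ p.1`: `ext_old` (the bits are the old ones, so `hn` holds for all `k`: `(k, y) ∈ p.s → y < p.l k`). `dec` at `a`: let `y < nx a`, `Pos p' a y`. If
`z2 ≤ y` then `l' m = f a z2 m ≤ f a y m` for large `m ∈ S a` (`F1` or equality), contradicting `Fr (f a y m < l' m)`. So `y < z2`,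
`f a y m < f a z2 m = l' m` for all large `m`. If `(m, f a y m) ∈ p.s` for all large `m ∈ S a` then `Bit`, otherwise (`not_fr`) unboundedly often not, and
`Fr.and_ev` gives `Zer`. `gap`: `gap_ext` with `W m := m = a ∨ m ∈ S a` (`W_S`). `Le.pro`: as in `zero_ext` (`NL`: a new position is not in
`p.s`; `LL`: `ext_old`, second part). `Pos p' a y` for `y < z < z2`: `CPP.fr`. -/

set_option autoImplicit false

universe u v

namespace COD

open WCal WM

variable {N : Type u} [WM N] {K : Type v} [WTy N K] [KTy N K] {D : CPD N K}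

theorem act (B : Bs N K) (P : CPP D) {p : Pre N K} (hp : Val D p) {a : K} (ha : LL N a) {z : K}
    (hz : z < nx N a) : ∃ p' : Pre N K, Val D p' ∧ Le D p' p ∧ a ∈ p'.1 ∧ ∀ y, y < z → Pos D p' a y := by
  classical
  have hB : Fact (Bs N K) := ⟨B⟩
  have hP : Fact (CPP D) := ⟨P⟩
  obtain ⟨z1, hz1, h1⟩ := P.F2 a ha p.2.1 (by
    intro m hm
    by_cases h : p.2.1 m = ⊥
    · rw [h]
      exact bot_le.trans_lt (lt_nx B m)
    · exact (hp.l_nl m h).2)
  obtain ⟨z2, hzz2, hz2⟩ := (lim_cd B (cd_nx B a)).2 (max z z1) (max_lt hz hz1)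
  have hz_z2 : z < z2 := (le_max_left _ _).trans_lt hzz2
  have hz1_z2 : z1 < z2 := (le_max_right _ _).trans_lt hzz2
  have hb_z2 : ⊥ < z2 := bot_le.trans_lt hz_z2
  obtain ⟨e, he, hE⟩ := (h1.and (P.F1 a ha z1 z2 hz1_z2 hz2)).and (P.F1 a ha ⊥ z2 hb_z2 hz2)
  have hee : Ev N a (D.S a) (fun m => e ≤ m) := ⟨e, he, fun m _ h _ => h⟩
  obtain ⟨l', hnew', hold⟩ : ∃ l' : Fn N K K,
      (∀ m, m ∈ D.S a ∧ e ≤ m → l' m = D.f a z2 m) ∧
      (∀ m, ¬ (m ∈ D.S a ∧ e ≤ m) → l' m = p.2.1 m) :=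
    ⟨⟨_, IF.ite (P := fun m : K => m ∈ D.S a ∧ e ≤ m) (f := fun m => D.f a z2 m)
      (g := fun m => p.2.1 m)
      (IP.and (IP.mem IF.id (if_S (IF.const a))) (ip_leK (IF.const e) IF.id))
      (if_f (IF.const a) (IF.const z2) IF.id) (IF.app (IF.const _) IF.id)⟩,
      fun m h => if_pos h, fun m h => if_neg h⟩
  obtain ⟨A', hA'⟩ : ∃ A' : St N K, ∀ m, m ∈ A' ↔ m ∈ p.1 ∨ m = a :=
    ⟨⟨{x | x ∈ p.1 ∨ x = a}, IP.or (IP.mem IF.id (IF.const _)) (IP.eq IF.id (IF.const a))⟩,
      fun _ => Iff.rfl⟩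
  have hnew : ∀ m, m ∈ D.S a → e ≤ m → l' m = D.f a z2 m := fun m hm hem => hnew' m ⟨hm, hem⟩
  have hle : ∀ m, p.2.1 m ≤ l' m := by
    intro m
    by_cases h : m ∈ D.S a ∧ e ≤ m
    · rw [hnew m h.1 h.2]
      have h2 := hE m h.1 h.2 (P.S_lt a ha m h.1).1
      exact h2.1.1.trans h2.1.2.le
    · rw [hold m h]
  have hnn : ∀ m, LL N m → Ev N m (D.S m) (fun k => ∀ x, x < nx N m → p.2.1 k ≤ D.f m x k →
      D.f m x k < l' k → (k, D.f m x k) ∉ p.2.2.1) := fun m hm =>
    ⟨⊥, bot_lt_iff_ne_bot.2 (lim_of_LL B hm).1, fun k _ _ _ x _ h1 _ h3 =>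
      absurd (hp.s_lt _ _ h3) (not_lt.2 h1)⟩
  have hss : ∀ m x, x < p.2.1 m → ((m, x) ∈ p.2.2.1 ↔
      (m, x) ∈ ((A', l', p.2.2.1, p.2.2.2) : Pre N K).2.2.1) := fun _ _ _ => Iff.rfl
  refine ⟨(A', l', p.2.2.1, p.2.2.2), ?_, ?_, (hA' a).2 (Or.inr rfl), ?_⟩
  · refine ⟨?_, ?_, ?_, ?_, hp.r_fin, hp.r_sz, ?_, ?_, ?_, ?_, ?_⟩
    · intro m hm
      show NL N m ∧ l' m < nx N m
      have hm' : l' m ≠ ⊥ := hm
      by_cases h : m ∈ D.S a ∧ e ≤ m
      · rw [hnew m h.1 h.2]
        exact ⟨(P.S_lt a ha m h.1).2.1, P.f_lt a ha z2 hz2 m h.1⟩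
      · rw [hold m h] at hm' ⊢
        exact hp.l_nl m hm'
    · intro m x h
      exact (hp.s_lt m x h).trans_le (hle m)
    · intro m n h
      exact ⟨(hp.r_lt m n h).1, (hp.r_lt m n h).2.trans_le (hle _)⟩
    · intro m n h hm
      exact (hA' m).2 (Or.inl (hp.r_A m n h hm))
    · intro m hm
      rcases (hA' m).1 hm with h | rfl
      · exact hp.A_LL m h
      · exact ha
    · obtain ⟨e0, he0⟩ := hp.bdd
      obtain ⟨e1, he1, -⟩ := B.unb a
      refine ⟨max e0 e1, fun m hm => ?_⟩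
      have h0 := he0 m ((le_max_left _ _).trans hm)
      have h2 : a < m := he1.trans_le ((le_max_right _ _).trans hm)
      refine ⟨fun h => ?_, ?_, h0.2.2⟩
      · rcases (hA' m).1 h with h | h
        · exact h0.1 h
        · exact h2.ne' h
      · show l' m = ⊥
        rw [hold m (fun h => lt_asymm h2 (P.S_lt a ha m h.1).1)]
        exact h0.2.1
    · intro m hm
      rcases (hA' m).1 hm with h | rfl
      · exact Ev.mono (hp.A_pos m h) (fun k _ _ hk => hk.trans_le (hle k))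
      · refine ⟨e, he, fun k hk hek hka => ?_⟩
        show ⊥ < l' k
        rw [hnew k hk hek]
        exact bot_le.trans_lt (hE k hk hek hka).2
    · intro m hm y hy hpos
      rcases (hA' m).1 hm with h | rfl
      · exact (ext_old P hp (p' := (A', l', p.2.2.1, p.2.2.2)) hle hss h
          (hnn m (hp.A_LL m h))).1 y hy hpos
      · rcases hpos with hpos | hpos
        · exact absurd ha (not_nl_ll hpos.1)
        · have hpos2 : Fr N m (D.S m) (fun k => D.f m y k < l' k) := hpos.2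
          have hyz2 : y < z2 := by
            by_contra hcon
            have hcon' : z2 ≤ y := not_lt.1 hcon
            have h3 : Ev N m (D.S m) (fun k => D.f m z2 k ≤ D.f m y k) := by
              rcases hcon'.eq_or_lt with h | h
              · rw [h]
                exact ⟨e, he, fun _ _ _ _ => le_rfl⟩
              · exact Ev.mono (P.F1 m ha z2 y h hy) (fun k _ _ hk => hk.le)
            obtain ⟨k, hk, -, -, ⟨hk1, hk2⟩, hk3⟩ := ((hpos2.and_ev hee).and_ev h3) e he
            rw [hnew k hk hk2] at hk1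
            exact absurd hk1 (not_lt.2 hk3)
          have h4 := (P.F1 m ha y z2 hyz2 hz2).and hee
          by_cases hEv : Ev N m (D.S m) (fun k => (k, D.f m y k) ∈ p.2.2.1)
          · left
            refine Or.inr ⟨ha, Ev.mono (h4.and hEv) ?_⟩
            rintro k hk - ⟨⟨h5, h6⟩, h7⟩
            refine ⟨?_, h7⟩
            show D.f m y k < l' k
            rw [hnew k hk h6]
            exact h5
          · right
            have hfr : Fr N m (D.S m) (fun k => (k, D.f m y k) ∉ p.2.2.1) := by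
              by_contra hcon
              exact hEv (Ev.mono (not_fr.1 hcon) (fun k _ _ hk => not_not.1 hk))
            refine Fr.mono (hfr.and_ev h4) ?_
            rintro k hk - ⟨h7, h5, h6⟩
            refine ⟨?_, h7⟩
            show D.f m y k < l' k
            rw [hnew k hk h6]
            exact h5
    · refine gap_ext P hp (fun m => m = a ∨ m ∈ D.S a) (W_S B P ha) ?_
      rintro m - hW hi
      refine ⟨fun h => ?_, ?_, hi.2.2⟩
      · rcases (hA' m).1 h with h | h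
        · exact hi.1 h
        · exact hW (Or.inl h)
      · show l' m = ⊥
        rw [hold m (fun h => hW (Or.inr h.1))]
        exact hi.2.1
  · refine ⟨fun m hm => (hA' m).2 (Or.inl hm), hle, hss, fun _ _ h => h, ?_⟩
    intro m n hmn x hx hpos hnpos hbit
    obtain ⟨hLv, hn⟩ := hp.r_lt m n hmn
    have hne : p.2.1 (nx N m) ≠ ⊥ := fun h => by
      rw [h] at hn
      exact not_lt_bot hn
    have hn' : n < nx N (nx N m) := hn.trans (hp.l_nl _ hne).2
    have hxm : x < nx N m := P.b_lt m n _ hLv hn' x hx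
    rcases lv_cases hLv with hNL | hLL
    · rcases hbit with h | h
      · exact hnpos (Or.inl ⟨hNL, hp.s_lt m x h.2⟩)
      · exact not_nl_ll hNL h.1
    · exact (ext_old P hp (p' := (A', l', p.2.2.1, p.2.2.2)) hle hss (hp.r_A m n hmn hLL)
        (hnn m hLL)).2 x hxm hpos hnpos hbit
  · intro y hy
    refine Or.inr ⟨ha, P.fr ha (Ev.mono ((P.F1 a ha y z2 (hy.trans hz_z2) hz2).and hee) ?_)⟩
    rintro k hk - ⟨h5, h6⟩
    show D.f a y k < l' k
    rw [hnew k hk h6]
    exact h5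

end COD
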