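import Pool.Agent.COD.V3

/-! # Coding: one bit at a limit level

(problem MP_328cd5_lc, coding part, package V6; architect helper51; 1.5 h; other files are black boxes)

PROOF (7.7, `LL`). `a` is `LL` (`Val.A_LL`). Choose `z2` with `y < z2 < nx a` (`lim_cd`). By `h` and `not_fr`, and by `CPP.F1`, there is `e < a` such that for all
`k ∈ S a`, `e ≤ k`: `p.l k ≤ f a y k < f a z2 k`. Put `l' k := if k ∈ S a ∧ e ≤ k then f a z2 k else p.l k`,
`s' := p.s ∪ {(k, x) | k ∈ S a ∧ e ≤ k ∧ x = f a y k}`, `p' := (p.1, l', s', p.r)`. Then `Bit p' a y`. `l_nl`: `CPP.S_lt`, `CPP.f_lt`. `s_lt`: clear. `r_lt`: `p.l ≤ l'`.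
`bdd`: beyond the bound of `p` and beyond `a`. `A_pos`: `Ev.mono`. `Le.s`: the new pairs have `f a y k ≥ p.l k`.
`dec` at `m ∈ p.1`, `m ≠ a`: `ext_old`. `hn`: for large `k ∈ S m` let `p.l k ≤ f m x k < l' k` and `(k, f m x k) ∈ s'`; as `(k, f m x k) ∉ p.s` (`s_lt`) we have `k ∈ S a` and
`f m x k = f a y k`. If `m < a` and `Fr m (S a) (· ∈ S m)`: contradiction by `CPP.S_sep`. If `m < a` and not `Fr`: by `not_fr` for all large `k < m`: `k ∈ S a → k ∉ S m`,
contradiction. If `a < m`: `k < a` for `k ∈ S a` (`CPP.S_lt`), contradiction for `k > a`.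
`dec` at `a`: let `x < nx a`, `Pos p' a x`. If `z2 ≤ x` then `l' k = f a z2 k ≤ f a x k` for large `k ∈ S a`, contradiction; so `x < z2` and `f a x k < l' k` for all large
`k`; if `(k, f a x k) ∈ s'` for all large `k` then `Bit`, otherwise `Zer` (`not_fr`, `Fr.and_ev`).
`gap`: `gap_ext`, `W k := k = a ∨ k ∈ S a` (`W_S`).
`Le.pro`: let `(m, n) ∈ p.r`, `x ∈ b m n v`, `Pos p' m x`, not `Pos p m x`; `x < nx m` (`CPP.b_lt`). `NL m`: `(m, x) ∈ s'` is impossible: `(m, x) ∈ p.s` gives `x < p.l m`;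
`x = f a y m`, `m ∈ S a` contradicts `CPP.f_b`. `LL m`, `m ≠ a`: `ext_old`, second part. `m = a`: `x ≠ y` by `hr`; not `Pos p a x` gives `p.l k ≤ f a x k` for large `k`; by
`CPP.F1` `f a x k ≠ f a y k` for large `k`; so `(k, f a x k) ∉ s'` for all large `k`, and `Bit p' a x` is impossible (`CPP.fr`, `Bit.not_zer`-like). -/

set_option autoImplicit false

universe u v

namespace COD

open WCal WM

variable {N : Type u} [WM N] {K : Type v} [WTy N K] [KTy N K] {D : CPD N K}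

private theorem v6_l {l : Fn N K K} {a z2 e : K} [Fact (Bs N K)] [Fact (CPP D)] :
    ∃ l' : Fn N K K, (∀ k, k ∈ D.S a → e ≤ k → l' k = D.f a z2 k) ∧
      ∀ k, ¬ (k ∈ D.S a ∧ e ≤ k) → l' k = l k := by
  have hC : IP N (fun k : K => k ∈ D.S a ∧ e ≤ k) :=
    IP.and (IP.mem IF.id (IF.const _)) (ip_leK (IF.const _) IF.id)
  have hF : IF N (fun k : K => D.f a z2 k) := if_f (IF.const _) (IF.const _) IF.id
  refine ⟨⟨_, IF.ite hC hF l.int⟩, fun k h1 h2 => ?_, fun k h1 => ?_⟩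
  · exact if_pos ⟨h1, h2⟩
  · exact if_neg h1

private theorem v6_s {s : St N (K × K)} {a y e : K} [Fact (Bs N K)] [Fact (CPP D)] :
    ∃ s' : St N (K × K), ∀ k x, (k, x) ∈ s' ↔
      ((k, x) ∈ s ∨ (k ∈ D.S a ∧ e ≤ k ∧ x = D.f a y k)) := by
  have h1 : IP N (fun q : K × K => q ∈ s ∨ (q.1 ∈ D.S a ∧ e ≤ q.1 ∧ q.2 = D.f a y q.1)) :=
    IP.or (IP.mem IF.id (IF.const _)) (IP.and (IP.mem IF.fst (IF.const _))
      (IP.and (ip_leK (IF.const _) IF.fst)
        (IP.eq IF.snd (if_f (IF.const _) (IF.const _) IF.fst))))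
  exact ⟨⟨{q | q ∈ s ∨ (q.1 ∈ D.S a ∧ e ≤ q.1 ∧ q.2 = D.f a y q.1)}, h1⟩, fun k x => Iff.rfl⟩

theorem bitL (B : Bs N K) (P : CPP D) {p : Pre N K} (hp : Val D p) {a : K} (ha : a ∈ p.1) {y : K}
    (hy : y < nx N a) (h : ¬ Pos D p a y)
    (hr : ∀ n, (a, n) ∈ p.2.2.2 → y ∉ D.b a n ((nx N a, n) ∈ p.2.2.1)) :
    ∃ p' : Pre N K, Val D p' ∧ Le D p' p ∧ Bit D p' a y := by
  have iB : Fact (Bs N K) := ⟨B⟩
  have iP : Fact (CPP D) := ⟨P⟩
  have haL : LL N a := hp.A_LL a ha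
  obtain ⟨z2, hyz, hz2⟩ := (lim_cd B (cd_nx B a)).2 y hy
  have hnf : ¬ Fr N a (D.S a) (fun k => D.f a y k < p.2.1 k) := fun hf => h (Or.inr ⟨haL, hf⟩)
  obtain ⟨e, hea, he⟩ := (not_fr.1 hnf).and (P.F1 a haL y z2 hyz hz2)
  obtain ⟨l', hl1, hl2⟩ := v6_l (D := D) (l := p.2.1) (a := a) (z2 := z2) (e := e)
  obtain ⟨s', hs'⟩ := v6_s (D := D) (s := p.2.2.1) (a := a) (y := y) (e := e)
  have hSa : ∀ k, k ∈ D.S a → k < a := fun k hk => (P.S_lt a haL k hk).1
  have hle : ∀ m, p.2.1 m ≤ l' m := by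
    intro m
    by_cases hm : m ∈ D.S a ∧ e ≤ m
    · rw [hl1 m hm.1 hm.2]
      have h1 := he m hm.1 hm.2 (hSa m hm.1)
      exact le_of_lt (lt_of_le_of_lt (not_lt.1 h1.1) h1.2)
    · rw [hl2 m hm]
  have hnew : ∀ k x, (k, x) ∈ s' → p.2.1 k ≤ x → k ∈ D.S a ∧ e ≤ k ∧ x = D.f a y k := by
    intro k x h1 h2
    rcases (hs' k x).1 h1 with h3 | h3
    · exact absurd (hp.s_lt k x h3) (not_lt.2 h2)
    · exact h3
  have hold : ∀ m x, x < p.2.1 m → ((m, x) ∈ p.2.2.1 ↔ (m, x) ∈ s') := by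
    intro m x hx
    constructor
    · exact fun h1 => (hs' m x).2 (Or.inl h1)
    · intro h1
      rcases (hs' m x).1 h1 with h3 | ⟨h3, h4, h5⟩
      · exact h3
      · have h6 : ¬ D.f a y m < p.2.1 m := (he m h3 h4 (hSa m h3)).1
        rw [← h5] at h6
        exact absurd hx h6
  have hno : ∀ m, m ∈ p.1 → m ≠ a → Ev N m (D.S m) (fun k => ∀ x, x < nx N m →
      p.2.1 k ≤ D.f m x k → D.f m x k < l' k → (k, D.f m x k) ∉ s') := by
    intro m hm hne
    have hmL : LL N m := hp.A_LL m hm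
    rcases lt_or_gt_of_ne hne with hlt | hlt
    · by_cases hF : Fr N m (D.S a) (fun k => k ∈ D.S m)
      · refine ⟨⊥, bot_lt_iff_ne_bot.2 (cd_ne hmL.1), fun k hk _ _ x _ h1 _ h3 => ?_⟩
        obtain ⟨h4, -, h5⟩ := hnew k _ h3 h1
        exact P.S_sep a m haL hmL hlt hF k h4 hk y x h5.symm
      · obtain ⟨e1, he1, h1⟩ := not_fr.1 hF
        refine ⟨e1, he1, fun k hk hk1 hk2 x _ h2 _ h3 => ?_⟩
        obtain ⟨h4, -, -⟩ := hnew k _ h3 h2
        exact h1 k h4 hk1 hk2 hk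
    · refine ⟨a, hlt, fun k _ hk1 _ x _ h2 _ h3 => ?_⟩
      obtain ⟨h4, -, -⟩ := hnew k _ h3 h2
      exact absurd (hSa k h4) (not_lt.2 hk1)
  have hEl : Ev N a (D.S a) (fun k => l' k = D.f a z2 k) := ⟨e, hea, fun k hk h1 _ => hl1 k hk h1⟩
  have hext : ∀ m, m ∈ p.1 → m ≠ a →
      (∀ x, x < nx N m → Pos D ((p.1, l', s', p.2.2.2) : Pre N K) m x →
        Bit D ((p.1, l', s', p.2.2.2) : Pre N K) m x ∨
          Zer D ((p.1, l', s', p.2.2.2) : Pre N K) m x) ∧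
      ∀ x, x < nx N m → Pos D ((p.1, l', s', p.2.2.2) : Pre N K) m x → ¬ Pos D p m x →
        ¬ Bit D ((p.1, l', s', p.2.2.2) : Pre N K) m x := fun m hm hne =>
    ext_old (p' := ((p.1, l', s', p.2.2.2) : Pre N K)) P hp hle hold hm (hno m hm hne)
  have hdeca : ∀ x, x < nx N a → Pos D ((p.1, l', s', p.2.2.2) : Pre N K) a x →
      Bit D ((p.1, l', s', p.2.2.2) : Pre N K) a x ∨
        Zer D ((p.1, l', s', p.2.2.2) : Pre N K) a x := by
    intro x hx hpos
    have hfr : Fr N a (D.S a) (fun k => D.f a x k < l' k) := by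
      rcases hpos with ⟨h1, -⟩ | ⟨-, h1⟩
      · exact absurd haL (fun h2 => not_nl_ll h1 h2)
      · exact h1
    have hxz : x < z2 := by
      by_contra hcon
      have hzx : z2 ≤ x := not_lt.1 hcon
      have hE : Ev N a (D.S a) (fun k => D.f a z2 k ≤ D.f a x k) := by
        rcases eq_or_lt_of_le hzx with h1 | h1
        · subst h1
          exact ⟨e, hea, fun k _ _ _ => le_refl _⟩
        · exact (P.F1 a haL z2 x h1 hx).mono (fun k _ _ h2 => le_of_lt h2)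
      obtain ⟨k, -, -, -, h1, h2, h3⟩ := (hfr.and_ev (hE.and hEl)) e hea
      rw [h3] at h1
      exact absurd h1 (not_lt.2 h2)
    have hE1 : Ev N a (D.S a) (fun k => D.f a x k < l' k) :=
      ((P.F1 a haL x z2 hxz hz2).and hEl).mono (fun k _ _ h2 => by rw [h2.2]; exact h2.1)
    by_cases hB : Ev N a (D.S a) (fun k => (k, D.f a x k) ∈ s')
    · exact Or.inl (Or.inr ⟨haL, hE1.and hB⟩)
    · have hF : Fr N a (D.S a) (fun k => (k, D.f a x k) ∉ s') := by
        by_contra hcon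
        exact hB ((not_fr.1 hcon).mono (fun k _ _ h2 => not_not.1 h2))
      exact Or.inr ((hF.and_ev hE1).mono (fun k _ _ h2 => ⟨h2.2, h2.1⟩))
  refine ⟨(p.1, l', s', p.2.2.2), ?_, ?_, ?_⟩
  · refine ⟨?_, ?_, ?_, hp.r_A, hp.r_fin, hp.r_sz, hp.A_LL, ?_, ?_, ?_, ?_⟩
    · intro m hm
      by_cases hm1 : m ∈ D.S a ∧ e ≤ m
      · refine ⟨(P.S_lt a haL m hm1.1).2.1, ?_⟩
        show l' m < nx N m
        rw [hl1 m hm1.1 hm1.2]
        exact P.f_lt a haL z2 hz2 m hm1.1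
      · have h1 : l' m = p.2.1 m := hl2 m hm1
        have h2 : p.2.1 m ≠ ⊥ := fun h3 => hm (h1.trans h3)
        refine ⟨(hp.l_nl m h2).1, ?_⟩
        show l' m < nx N m
        rw [h1]
        exact (hp.l_nl m h2).2
    · intro m x hmx
      show x < l' m
      rcases (hs' m x).1 hmx with h1 | ⟨h1, h2, h3⟩
      · exact lt_of_lt_of_le (hp.s_lt m x h1) (hle m)
      · rw [hl1 m h1 h2, h3]
        exact (he m h1 h2 (hSa m h1)).2
    · intro m n hmn
      exact ⟨(hp.r_lt m n hmn).1, lt_of_lt_of_le (hp.r_lt m n hmn).2 (hle _)⟩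
    · obtain ⟨e0, he0⟩ := hp.bdd
      refine ⟨max e0 a, fun m hm => ?_⟩
      have h1 := he0 m (le_trans (le_max_left _ _) hm)
      refine ⟨h1.1, ?_, h1.2.2⟩
      show l' m = ⊥
      rw [hl2 m (fun h2 => absurd (hSa m h2.1) (not_lt.2 (le_trans (le_max_right _ _) hm)))]
      exact h1.2.1
    · intro m hm
      exact (hp.A_pos m hm).mono (fun k _ _ h1 => lt_of_lt_of_le h1 (hle k))
    · intro m hm
      by_cases hma : m = a
      · subst hma
        exact hdeca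
      · exact (hext m hm hma).1
    · refine gap_ext P hp (fun m => m = a ∨ m ∈ D.S a) (W_S B P haL) ?_
      intro m _ hW hid
      refine ⟨hid.1, ?_, hid.2.2⟩
      show l' m = ⊥
      rw [hl2 m (fun h2 => hW (Or.inr h2.1))]
      exact hid.2.1
  · refine ⟨fun m hm => hm, hle, hold, fun m n hmn => hmn, ?_⟩
    intro m n hmn x hx hpos hnp hb
    have hLv : Lv N m := (hp.r_lt m n hmn).1
    have hn : n < nx N (nx N m) := by
      have h1 := (hp.r_lt m n hmn).2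
      exact lt_trans h1 (hp.l_nl (nx N m) (fun h2 => by rw [h2] at h1; exact not_lt_bot h1)).2
    have hxm : x < nx N m := P.b_lt m n _ hLv hn x hx
    rcases lv_cases hLv with hm | hm
    · rcases hb with ⟨-, h1⟩ | ⟨h1, -⟩
      · rcases (hs' m x).1 h1 with h2 | ⟨h2, -, h4⟩
        · exact hnp (Or.inl ⟨hm, hp.s_lt m x h2⟩)
        · rw [h4] at hx
          exact P.f_b a haL y hy m h2 n _ hx
      · exact not_nl_ll hm h1
    · have hmA : m ∈ p.1 := hp.r_A m n hmn hm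
      by_cases hma : m = a
      · subst hma
        have hxy : x ≠ y := by
          rintro rfl
          exact hr n hmn hx
        have hne : Ev N m (D.S m) (fun k => D.f m x k ≠ D.f m y k) := by
          rcases lt_or_gt_of_ne hxy with h1 | h1
          · exact (P.F1 m hm x y h1 hy).mono (fun k _ _ h2 => ne_of_lt h2)
          · exact (P.F1 m hm y x h1 hxm).mono (fun k _ _ h2 => ne_of_gt h2)
        have hnf' : ¬ Fr N m (D.S m) (fun k => D.f m x k < p.2.1 k) :=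
          fun hf => hnp (Or.inr ⟨hm, hf⟩)
        have hbE : Ev N m (D.S m) (fun k => D.f m x k < l' k ∧ (k, D.f m x k) ∈ s') := by
          rcases hb with ⟨h1, -⟩ | ⟨-, h1⟩
          · exact absurd hm (fun h2 => not_nl_ll h1 h2)
          · exact h1
        obtain ⟨k, -, -, -, h1, h2, h3⟩ := P.fr hm (hne.and ((not_fr.1 hnf').and hbE)) e hea
        exact h1 (hnew k _ h3.2 (not_lt.1 h2)).2.2
      · exact (hext m hmA hma).2 x hxm hpos hnp hb
  · refine Or.inr ⟨haL, e, hea, fun k hk h1 h2 => ⟨?_, (hs' _ _).2 (Or.inr ⟨hk, h1, rfl⟩)⟩⟩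
    show D.f a y k < l' k
    rw [hl1 k hk h1]
    exact (he k hk h1 h2).2

end COD
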