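import Pool.Agent.COD.V5
import Pool.Agent.COD.V6

/-! # Coding: a wrong value meets its coding set

(problem MP_328cd5_lc, coding part, package V7; architect helper51; 1.0 h; other files are black boxes)

PROOF (7.7). `m` is a level (`nl_lv`, `Val.A_LL`), `n < p.l (nx m) < nx (nx m)` (`Val.l_nl`). BOUND OF THE POSITIONS: there is `e2 < nx m` with `¬ Pos p m x` for all
`x ≥ e2`: `NL m`: `e2 = p.l m` (`Val.l_nl`, or `⊥`); `LL m`: `CPP.F2` for `p.2.1` gives `z < nx m` with `p.l k ≤ f m z k` for large `k ∈ S m`; for `x ≥ z` also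
`p.l k ≤ f m x k` for large `k` (`F1`), so not `Pos` (`not_fr`). BOUND OF THE PROMISES: there is `e1 < nx m` such that `x ∈ b m n v`, `(m, n') ∈ p.r`,
`x ∈ b m n' [(nx m, n') ∈ p.s]` imply `x < e1`: for every `n'` with `(m, n') ∈ p.r` the sets `b m n v`, `b m n' v'` are different (`n' ≠ n`, or `n' = n` and
`v' = [(nx m, n) ∈ p.s] ≠ v`), so by `CPP.b_ad` there is a least bound `F n' < nx m` (`F` internal: `IF.ofP` / `IF.unique` or `WCal.choice'`); if `m = ⊥` there are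
finitely many `n'` (`Val.r_fin`), otherwise at most `m` many (`Val.r_sz`), `nx m` is regular (`reg_nx`, `Reg.cov`; for `m = ⊥` take a maximum). By
`CPP.b_unb` choose `x ∈ b m n v` above `e`, `e1`, `e2`. Then `bitN` or `bitL`. -/

set_option autoImplicit false

universe u v

namespace COD

open WCal WM

variable {N : Type u} [WM N] {K : Type v} [WTy N K] [KTy N K] {D : CPD N K}

private theorem l_lt (B : Bs N K) {p : Pre N K} (hp : Val D p) (m : K) : p.2.1 m < nx N m := by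
  by_cases h : p.2.1 m = ⊥
  · rw [h]
    exact lt_of_le_of_lt bot_le (lt_nx B m)
  · exact (hp.l_nl m h).2

/-- positions of a valid condition are bounded -/
theorem pos_bdd (B : Bs N K) (P : CPP D) {p : Pre N K} (hp : Val D p) {m : K} (hm : Lv N m) :
    ∃ e, e < nx N m ∧ ∀ x, Pos D p m x → x < nx N m → x < e := by
  rcases lv_cases hm with h | h
  · refine ⟨p.2.1 m, l_lt B hp m, fun x hx _ => ?_⟩
    rcases hx with ⟨-, hx⟩ | ⟨h', -⟩
    · exact hx
    · exact (not_nl_ll h h').elim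
  · obtain ⟨z, hz, hE⟩ := P.F2 m h p.2.1 fun k _ => l_lt B hp k
    refine ⟨z, hz, fun x hx hxm => ?_⟩
    by_contra hzx
    have hzx' : z ≤ x := not_lt.1 hzx
    have hE' : Ev N m (D.S m) (fun k => ¬ D.f m x k < p.2.1 k) := by
      rcases hzx'.eq_or_lt with rfl | hlt
      · exact hE.mono fun k _ _ hk => not_lt.2 hk
      · exact (hE.and (P.F1 m h z x hlt hxm)).mono fun k _ _ hk =>
          not_lt.2 (hk.1.trans hk.2.le)
    rcases hx with ⟨h', -⟩ | ⟨-, hx⟩
    · exact not_nl_ll h' h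
    · exact not_fr.2 hE' hx

private theorem fin_bdd (B : Bs N K) {A : Set K} (hA : A.Finite) {F : K → K}
    (h : ∀ x, x ∈ A → F x < nx N (⊥ : K)) : ∃ c, c < nx N (⊥ : K) ∧ ∀ x, x ∈ A → F x < c := by
  rcases A.eq_empty_or_nonempty with h0 | h0
  · refine ⟨⊥, lt_nx B ⊥, fun x hx => ?_⟩
    rw [h0] at hx
    exact hx.elim
  · obtain ⟨a, ha, ha'⟩ := Set.exists_max_image A F hA h0
    obtain ⟨c, hc, hc'⟩ := (lim_cd B (cd_nx B (⊥ : K))).2 (F a) (h a ha)
    exact ⟨c, hc', fun x hx => lt_of_le_of_lt (ha' x hx) hc⟩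

theorem bit (B : Bs N K) (P : CPP D) {p : Pre N K} (hp : Val D p) {m : K} (hm : NL N m ∨ m ∈ p.1) {n : K}
    (hn : n < p.2.1 (nx N m)) {v : Prop} (hv : v ≠ ((nx N m, n) ∈ p.2.2.1)) {e : K} (he : e < nx N m) :
    ∃ p' : Pre N K, Val D p' ∧ Le D p' p ∧ ∃ x, e < x ∧ x ∈ D.b m n v ∧ Bit D p' m x := by
  have hlv : Lv N m := by
    rcases hm with hm | hm
    · exact nl_lv B hm
    · exact Or.inr (hp.A_LL m hm).1
  have hn2 : ∀ k, k < p.2.1 (nx N m) → k < nx N (nx N m) := fun k hk =>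
    hk.trans (l_lt B hp (nx N m))
  obtain ⟨e2, he2, hpos⟩ := pos_bdd B P hp hlv
  have hQ : IP N (fun q : K × K => q.2 < nx N m ∧ ∀ x, x ∈ D.b m n v →
      x ∈ D.b m q.1 ((nx N m, q.1) ∈ p.2.2.1) → x < q.2) := by
    have : Fact (Bs N K) := ⟨B⟩
    have : Fact (CPP D) := ⟨P⟩
    simp (maxDischargeDepth := 99)
  obtain ⟨F, hF, hF'⟩ := choice' (P := fun k y : K => y < nx N m ∧ ∀ x, x ∈ D.b m n v →
      x ∈ D.b m k ((nx N m, k) ∈ p.2.2.1) → x < y) hQ (⊥ : K)
  have hF2 : ∀ k, (m, k) ∈ p.2.2.2 → F k < nx N m ∧ ∀ x, x ∈ D.b m n v →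
      x ∈ D.b m k ((nx N m, k) ∈ p.2.2.1) → x < F k := by
    intro k hk
    refine hF' k ?_
    refine P.b_ad m n v k _ hlv (hn2 n hn) (hn2 k (hp.r_lt m k hk).2) ?_
    by_cases hkn : n = k
    · right
      rw [← hkn]
      exact hv
    · exact Or.inl hkn
  obtain ⟨e1, he1, hpr⟩ : ∃ c, c < nx N m ∧ ∀ k, (m, k) ∈ p.2.2.2 → F k < c := by
    rcases hlv with h0 | h0
    · have h1 := hp.r_fin
      rw [← h0] at h1
      have h2 := fin_bdd B (A := {k | (m, k) ∈ p.2.2.2}) (F := F) (N := N) (by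
        exact h1) (fun k hk => by
          rw [← h0]
          exact (hF2 k hk).1)
      rw [← h0] at h2
      exact h2
    · exact (reg_nx B (Or.inr h0)).cov (lt_nx B m) (hp.r_sz m h0) hF fun k hk => (hF2 k hk).1
  obtain ⟨x, hx, hex⟩ := P.b_unb m n v hlv (hn2 n hn) (max e (max e1 e2))
    (max_lt he (max_lt he1 he2))
  have hx1 : e < x := lt_of_le_of_lt (le_max_left _ _) hex
  have hx2 : e1 < x := lt_of_le_of_lt ((le_max_left _ _).trans (le_max_right _ _)) hex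
  have hx3 : e2 < x := lt_of_le_of_lt ((le_max_right _ _).trans (le_max_right _ _)) hex
  have hxm : x < nx N m := P.b_lt m n v hlv (hn2 n hn) x hx
  have hnp : ¬ Pos D p m x := fun h => lt_asymm hx3 (hpos x h hxm)
  have hr : ∀ k, (m, k) ∈ p.2.2.2 → x ∉ D.b m k ((nx N m, k) ∈ p.2.2.1) := fun k hk h =>
    lt_asymm hx2 (((hF2 k hk).2 x hx h).trans (hpr k hk))
  rcases hm with hm | hm
  · obtain ⟨p', h1, h2, h3⟩ := bitN B P hp hm hxm (fun h => hnp (Or.inl ⟨hm, h⟩)) hr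
    exact ⟨p', h1, h2, x, hx1, hx, h3⟩
  · obtain ⟨p', h1, h2, h3⟩ := bitL B P hp hm hxm hnp hr
    exact ⟨p', h1, h2, x, hx1, hx, h3⟩

end COD
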