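import Pool.Agent.COD.Qa
import Pool.Agent.COD.V4
import Pool.Agent.COD.V7

/-! # Coding: generic sets, first part

(problem MP_328cd5_lc, coding part, package Gna; architect helper51; 1.4 h; other files are black boxes)

PROOFS. `TGen.below`: apply `gen` to the internal set `S` of all `q` with `(V q ∧ le q q0 ∧ Q q) ∨ ¬ ∃ r, V r ∧ le r q ∧ le r q0` (rules `IP.comp2` for `le`).
Density: let `V p`; if there is `r` with `V r`, `r ≤ p`, `r ≤ q0` take `q'` for `r` (`hd`), it is below `p` and `q0` by `htr`; otherwise `p` itself (`hrefl`). An element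
of `G ∩ S` of the second kind contradicts `dir` with `q0` (elements of `G` are in `V`).
`dens`: `TGen.below` with `V = VI D I`, `LeQ.trans`, `LeQ.refl` (`haveI := Fact.mk B`, `Fact.mk P`; `ip_VI`, `ip_LeQ`). `dens1`: `dens` with `q' = upd q x p'`
(`VI.upd`, `LeQ.upd`, `upd_same`). `gen_pos`: `dens1`: `NL m`: `raise`; `LL m`: `act` for some `z` with `y < z < nx m` (`lim_cd`, `cd_nx`); the predicate
`fun p => (NL N m ∨ m ∈ p.1) ∧ Pos D p m y` is internal.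
`gen_two`: two elements of `G` have a common extension in `G` (`dir`), `VI` by `val`.
`Dg_iff`: `←`: clear (`LL m` implies `m ∈ (q x).1`: `not_nl_ll`). `→`: let `q' ∈ G` with `(LL m → m ∈ (q' x).1)`, `Bit D (q' x) m y`; take `r ∈ G` below `q`, `q'`;
`Bit D (r x) m y` by `Bit.mono`, hence `Bit D (q x) m y` by `Le.bit`. -/

set_option autoImplicit false

universe u v w

namespace COD

open WCal WM

theorem TGen.below {N : Type u} [WM N] {T : Type w} [WTy N T] {V : T → Prop} {le : T → T → Prop} {G : Set T}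
    (hG : TGen N V le G) (hV : IP N V) (hle : IP N (fun p : T × T => le p.1 p.2)) (hrefl : ∀ p, V p → le p p)
    (htr : ∀ p q r, V p → V q → V r → le p q → le q r → le p r) {q0 : T} (h0 : q0 ∈ G) {Q : T → Prop}
    (hQ : IP N Q) (hd : ∀ q, V q → le q q0 → ∃ q', V q' ∧ le q' q ∧ Q q') : ∃ q, q ∈ G ∧ le q q0 ∧ Q q := by
  have hS : IP N (fun q : T => (V q ∧ le q q0 ∧ Q q) ∨ ¬ ∃ r, V r ∧ le r q ∧ le r q0) :=
    IP.or (IP.and hV (IP.and (IP.comp2 (P := fun a b : T => le a b) hle IF.id (IF.const q0)) hQ))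
      (IP.not (IP.ex (IP.and (IP.comp hV IF.snd)
        (IP.and (IP.comp2 (P := fun a b : T => le a b) hle IF.snd IF.fst)
          (IP.comp2 (P := fun a b : T => le a b) hle IF.snd (IF.const q0))))))
  obtain ⟨p, hp, hpS⟩ := hG.gen ⟨{q | (V q ∧ le q q0 ∧ Q q) ∨ ¬ ∃ r, V r ∧ le r q ∧ le r q0}, hS⟩ (by
    intro p hp
    by_cases h : ∃ r, V r ∧ le r p ∧ le r q0
    · obtain ⟨r, hr, hrp, hr0⟩ := h
      obtain ⟨q', hq', h1, h2⟩ := hd r hr hr0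
      exact ⟨q', Or.inl ⟨hq', htr q' r q0 hq' hr (hG.val q0 h0) h1 hr0, h2⟩, hq',
        htr q' r p hq' hr hp h1 hrp⟩
    · exact ⟨p, Or.inr h, hp, hrefl p hp⟩)
  rcases hpS with h | h
  · exact ⟨p, hp, h.2.1, h.2.2⟩
  · obtain ⟨r, hr, h1, h2⟩ := hG.dir p q0 hp h0
    exact absurd ⟨r, hG.val r hr, h1, h2⟩ h

variable {N : Type u} [WM N] {K : Type v} [WTy N K] [KTy N K] {D : CPD N K} {I : St N K} {G : Set (PQ N K)}

theorem dens (B : Bs N K) (P : CPP D) (hG : TGen N (VI D I) (LeQ D) G) {q0 : PQ N K} (h0 : q0 ∈ G)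
    {Q : PQ N K → Prop} (hQ : IP N Q) (hd : ∀ q, VI D I q → LeQ D q q0 → ∃ q', VI D I q' ∧ LeQ D q' q ∧ Q q') :
    ∃ q, q ∈ G ∧ LeQ D q q0 ∧ Q q := by
  have iB : Fact (Bs N K) := ⟨B⟩
  have iP : Fact (CPP D) := ⟨P⟩
  exact TGen.below hG (ip_VI (IF.const I) IF.id) (ip_LeQ IF.fst IF.snd) (fun p _ => LeQ.refl p)
    (fun p q r _ hq hr h h' => LeQ.trans P hq.1 hr.1 h h') h0 hQ hd

theorem dens1 (B : Bs N K) (P : CPP D) (hG : TGen N (VI D I) (LeQ D) G) {x : K} (hx : x ∈ I) {q0 : PQ N K}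
    (h0 : q0 ∈ G) {Q : Pre N K → Prop} (hQ : IP N Q)
    (hd : ∀ p, Val D p → Le D p (q0 x) → ∃ p', Val D p' ∧ Le D p' p ∧ Q p') :
    ∃ q, q ∈ G ∧ LeQ D q q0 ∧ Q (q x) := by
  refine dens B P hG h0 (Q := fun q => Q (q x)) (IP.comp hQ (IF.app IF.id (IF.const x))) ?_
  intro q hq hq0
  obtain ⟨p', h1, h2, h3⟩ := hd (q x) (hq.1.val x) (hq0 x)
  exact ⟨upd q x p', VI.upd hq h1 hx, LeQ.upd h2, by rw [upd_same]; exact h3⟩

theorem gen_ne (B : Bs N K) (hG : TGen N (VI D I) (LeQ D) G) : ∃ q, q ∈ G := by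
  obtain ⟨p, hp, -⟩ := hG.gen ⟨Set.univ, IP.const True⟩ (fun p hp => ⟨p, trivial, hp, LeQ.refl p⟩)
  exact ⟨p, hp⟩

theorem gen_two (hG : TGen N (VI D I) (LeQ D) G) {p q : PQ N K} (hp : p ∈ G) (hq : q ∈ G) :
    ∃ r, r ∈ G ∧ VI D I r ∧ LeQ D r p ∧ LeQ D r q := by
  obtain ⟨r, hr, h1, h2⟩ := hG.dir p q hp hq
  exact ⟨r, hr, hG.val r hr, h1, h2⟩

theorem gen_pos (B : Bs N K) (P : CPP D) (hG : TGen N (VI D I) (LeQ D) G) {x : K} (hx : x ∈ I) {q0 : PQ N K}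
    (h0 : q0 ∈ G) {m y : K} (hm : Lv N m) (hy : y < nx N m) :
    ∃ q, q ∈ G ∧ LeQ D q q0 ∧ (NL N m ∨ m ∈ (q x).1) ∧ Pos D (q x) m y := by
  have iB : Fact (Bs N K) := ⟨B⟩
  have iP : Fact (CPP D) := ⟨P⟩
  refine dens1 B P hG hx h0 (Q := fun p => (NL N m ∨ m ∈ p.1) ∧ Pos D p m y)
    (IP.and (IP.or (IP.const _) (IP.mem (IF.const m) (IF.fst' IF.id)))
      (ip_Pos IF.id (IF.const m) (IF.const y))) ?_
  intro p hp _
  rcases lv_cases hm with h | h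
  · obtain ⟨p', h1, h2, h3, -⟩ := raise B P hp h hy
    exact ⟨p', h1, h2, Or.inl h, Or.inl ⟨h, h3⟩⟩
  · obtain ⟨z, hyz, hz⟩ := (lim_cd B (cd_nx B m)).2 y hy
    obtain ⟨p', h1, h2, h3, h4⟩ := act B P hp h hz
    exact ⟨p', h1, h2, Or.inr h3, h4 y hyz⟩

theorem Dg_iff (P : CPP D) (hG : TGen N (VI D I) (LeQ D) G) {x : K} {q : PQ N K} (hq : q ∈ G) {m y : K}
    (hm : NL N m ∨ m ∈ (q x).1) (hy : y < nx N m) (hpos : Pos D (q x) m y) : Dg D G x m y ↔ Bit D (q x) m y := by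
  constructor
  · rintro ⟨-, q', hq', -, hb⟩
    obtain ⟨r, hr, hrV, h1, h2⟩ := gen_two hG hq hq'
    have hb' : Bit D (r x) m y := Bit.mono ((hG.val q' hq').1.val x) (h2 x) hb
    exact (Le.bit P ((hG.val q hq).1.val x) (h1 x) hm hy hpos).1 hb'
  · intro hb
    exact ⟨hy, q, hq, fun hl => hm.resolve_left fun h => not_nl_ll h hl, hb⟩

end COD
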