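import Pool.Agent.COD.Na

/-! # Coding: counting the sequences of sets of lower parts

(problem MP_328cd5_lc, coding part, package Nc; helper69; 1.0 h; other files are black boxes)

PROOF. `have : Fact (Bs N K) := ⟨B⟩`, `have : Fact (CPP D) := ⟨P⟩`. `m0 = nx m1` is an infinite cardinal (`cd_nx`). Let `U u := ∃ w, VI D I w ∧ u = mixQ m0 w oneQ` (internal: `ip_VI`, `if_mixQ`).
STEP 1: `Cov N (nx m0) U`. `Cov.of_inj` with `F u := cod I m0 Z u`, `Z := Iio' m0` (`Ip.lean`; `mem_Iio'`). Injective on `U`: let `u, u' ∈ U` have the same code. For `x ∉ I`: `w x = one`, so `u x = mix m0 one one = one` (`mix_self`), same for `u'`.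
For `x ∈ I`: `cod_iff` gives `EqB m0 (u x) (u' x)`; `EqU m0 (u x) (u' x)` since both have the upper part of `one` (`mix_EqU`, `EqU.symm`, `EqU.trans`; `oneQ x = one` is `rfl`); `ext_pre`; `Fn.ext`, `funext`. Image: `cod I m0 Z (mixQ m0 w oneQ) = cod I m0 Z w` (`cod_iff`, `mix_A_lt`, ..., `mix_r_lt`)
and `w` is valid: contained in the codes of `cov_cod` with `m = a = m0` (`m0 ≤ nx m0`; `k < m0 → nx k ≤ m0` by `nx_le`), so `Cov N (nx m0)`.
STEP 2: the pairs `(n, u)` with `n < m0`, `U u` are `Cov N (nx m0)` (`Cov.prod`, `cd_nx`, `Cov.le` for `n < m0 < nx m0`, the identity). By `cov_pow'` at `nx m0` the internal subsets `X : St N (K × PQ N K)` of it are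
`Cov N (nx (nx m0))`, say by `f : K → St N (K × PQ N K)`. Put `e x n := {u | (n, u) ∈ f x}`: `e x : Fn N K (St N (PQ N K))` (`IF.compr'`), internal in `x` (`IF.lam'`, `IF.compr'`). For `F` as given let `X := {(n, u) | n < m0 ∧ u ∈ F n}`, there is
`x < nx (nx m0)` with `f x = X`. -/

set_option autoImplicit false

universe u v

namespace COD

open WCal WM

variable {N : Type u} [WM N] {K : Type v} [WTy N K] [KTy N K] {D : CPD N K}

/-- the lower parts -/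
private theorem cov_low (B : Bs N K) (P : CPP D) {m0 : K} (hcd : Cd N m0) {I : St N K} (hI : Cnt I) :
    Cov N (nx N m0) (fun u : PQ N K => ∃ w, VI D I w ∧ u = mixQ m0 w oneQ) := by
  have fB : Fact (Bs N K) := ⟨B⟩
  have fP : Fact (CPP D) := ⟨P⟩
  have hne : Nonempty (PQ N K) := ⟨oneQ⟩
  have hA : IP N (fun u : PQ N K => ∃ w, VI D I w ∧ u = mixQ m0 w oneQ) :=
    IP.ex (IP.and (ip_VI (IF.const I) IF.snd)
      (IP.eq IF.fst (if_mixQ (IF.const m0) IF.snd (IF.const oneQ))))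
  have hcod : ∀ w : PQ N K, cod I m0 (Iio' m0) (mixQ m0 w oneQ) = cod I m0 (Iio' m0) w := by
    intro w
    rw [cod_iff]
    intro x _
    refine ⟨fun k hk => ?_, fun k hk => ?_, fun k y hk => ?_, fun k n hk => ?_⟩
    · exact mix_A_lt hk
    · exact mix_l_lt hk
    · exact mix_s_lt hk
    · exact mix_r_lt (mem_Iio'.1 hk)
  refine Cov.of_inj hA (F := fun u => cod I m0 (Iio' m0) u)
    (if_cod (IF.const I) (IF.const m0) (IF.const _) IF.id) ?_ ?_
  · rintro u u' ⟨w, hw, rfl⟩ ⟨w', hw', rfl⟩ h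
    have h : cod I m0 (Iio' m0) (mixQ m0 w oneQ) = cod I m0 (Iio' m0) (mixQ m0 w' oneQ) := h
    rw [hcod, hcod, cod_iff] at h
    apply Fn.ext
    funext x
    show mix m0 (w x) (oneQ x) = mix m0 (w' x) (oneQ x)
    by_cases hx : x ∈ I
    · obtain ⟨a1, a2, a3, a4⟩ := h x hx
      exact mix_congr ⟨a1, a2, a3, fun k n hk => a4 k n (mem_Iio'.2 hk)⟩ (EqU.refl m0 _)
    · rw [hw.2 x hx, hw'.2 x hx]
  · refine Cov.mono ?_ (cov_cod (a := m0) (J := I) (Z := Iio' m0) B P hcd hI (lt_nx B m0).le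
      fun k hk => nx_le B (mem_Iio'.1 hk) hcd)
    rintro b ⟨u, ⟨w, hw, rfl⟩, hb⟩
    exact ⟨w, hw.1, (hcod w).symm.trans hb⟩

theorem exists_low (B : Bs N K) (P : CPP D) {m0 : K} (h0 : NL N m0) (h1 : m0 ≠ ⊥) {I : St N K} (hI : Cnt I) :
    ∃ e : K → Fn N K (St N (PQ N K)), IF N e ∧ ∀ F : Fn N K (St N (PQ N K)),
      (∀ n u, u ∈ F n → ∃ w, VI D I w ∧ u = mixQ m0 w oneQ) →
      ∃ x, x < nx N (nx N m0) ∧ ∀ n, n < m0 → ∀ u, (u ∈ e x n ↔ u ∈ F n) := by
  have hcd : Cd N m0 := by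
    rcases h0 with h0 | ⟨b, hb, h0⟩
    · exact absurd h0 h1
    · rw [h0]
      exact cd_nx B b
  have hne : Nonempty (K × PQ N K) := ⟨(⊥, oneQ)⟩
  have hK : Cov N (nx N m0) (fun n : K => n < m0) :=
    ⟨fun x => x, IF.id, fun a ha => ⟨a, lt_trans ha (lt_nx B m0), rfl⟩⟩
  obtain ⟨f, hf, hf'⟩ := cov_pow' B (cd_nx B m0) (Cov.prod B (cd_nx B m0) hK (cov_low B P hcd hI))
  have hs : ∀ (x n : K), IP N (fun u : PQ N K => (n, u) ∈ f x) := fun x n =>
    IP.mem (IF.pair (IF.const n) IF.id) (IF.const (f x))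
  have hc : ∀ x : K, IF N (fun n : K => (⟨{u | (n, u) ∈ f x}, hs x n⟩ : St N (PQ N K))) := fun x => by
    apply IF.compr'
    show IP N (fun z : K × PQ N K => (z.1, z.2) ∈ f x)
    exact IP.mem (IF.pair IF.fst IF.snd) (IF.const (f x))
  refine ⟨fun x => ⟨fun n => ⟨{u | (n, u) ∈ f x}, hs x n⟩, hc x⟩, ?_, fun F hF => ?_⟩
  · apply IF.lam'
    apply IF.compr'
    show IP N (fun z : (K × K) × PQ N K => (z.1.2, z.2) ∈ f z.1.1)
    exact IP.mem (IF.pair (IF.snd.comp IF.fst) IF.snd) (hf.comp (IF.fst.comp IF.fst))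
  · have hX : IP N (fun p : K × PQ N K => p.1 < m0 ∧ p.2 ∈ F p.1) :=
      IP.and (ip_ltK IF.fst (IF.const m0)) (IP.mem IF.snd (IF.app (IF.const F) IF.fst))
    obtain ⟨x, hx, hfx⟩ := hf' ⟨{p | p.1 < m0 ∧ p.2 ∈ F p.1}, hX⟩
      (fun p hp => ⟨hp.1, hF p.1 p.2 hp.2⟩)
    refine ⟨x, hx, fun n hn u => ?_⟩
    show (n, u) ∈ f x ↔ u ∈ F n
    rw [hfx]
    show (n < m0 ∧ u ∈ F n) ↔ u ∈ F n
    exact and_iff_right hn

end COD
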