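import Pool.Agent.COD.FLb
import Pool.Agent.COD.FLd
import Pool.Agent.COD.Gna
import Pool.Agent.COD.Nc

/-! # Coding: the fusion lemma FL (8.2), generic version, counting (8.5)

(problem MP_328cd5_lc, coding part, package FLe; 1.5 h; other files are black boxes)

`FLQ D m0 I Dn q J W`: the conclusion of (8.2).
PROOFS. `FL`: the countable support `J1` of `p` (`VQ.cnt`), `J1 ∩ I` contains all `x` with `p x ≠ one`. If `Cnt I` let `J0 := I`, otherwise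
`J0 := J1 ∩ I` (an internal set, `Cnt.mono`). `exists_En`, `exists_bk` (at `m0`, an infinite cardinal: `h0` and `h1` give `m0 = nx b`, `cd_nx`) give
`FLP`. `exists_FLR`, `exists_W`; `q := Q m0`, `J := Jf J0 m0 (H m0)`; `FLQ` by `(hR.val m0 le_rfl)`, `J_cnt`, `J_sub`, `Q_J`, `W_cov`, `W_mem`, `compat`.
`W` as `Fn N K (St N (PQ N K))`: `⟨W, hW⟩`.
`ip_FLQ`: all clauses are internal: `ip_VI`, `IP.cnt`, `ip_Cov`, `ip_LeQ`, `ip_EqUQ`, `IP.mem`, `IP.all`, `IP.imp`, `IP.ex` (`haveI := Fact.mk B` etc.; `Dn` is a fixed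
internal family: `hD.comp`).
`FLG`: the internal set `{q | ∃ J W, FLQ D m0 I Dn q J W}` is dense by `FL` (for `p` with `VI D I p` take `q` with `LeUQ D m0 q p`, so `LeQ D q p`); `hG.gen`
gives `q ∈ G`. For `n < m0`: `dens B P hG` for `q ∈ G` and the internal predicate `fun s => ∃ w, w ∈ W n ∧ LeQ D s w` gives `s ∈ G`, `w ∈ W n`, `s ≤ w`,
so `w ∈ G` (`hG.up`).
`low`: Let `e` be from `exists_low B P h0 h1 hI`. Let `A1, A0` be given. `Dn n := A1 n ∪ A0 n` (internal family). `FLG` gives `q, J, W`. Let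
`F n := {u | ∃ w, w ∈ W n ∧ w ∈ A1 n ∧ n < m0 ∧ u = mixQ m0 w oneQ}` (internal `Fn`), `y` from the property of `e` (for `u ∈ F n`: `w` is `VI` by `FLQ`).
Let `n < m0`. (→) `g ∈ G`, `g ∈ A1 n`. Take `w ∈ W n`, `w ∈ G`; `w ∈ A1 n` or `w ∈ A0 n`; the latter is impossible: a common extension `r ∈ G` of `g`, `w` (`hG.dir`) is in
`A1 n` and in `A0 n` (`o1`, `o0`; `hG.val`), contradiction to `dis`. So `mixQ m0 w oneQ ∈ F n`, `∈ e y n`; take `w`. (←) `g ∈ G`, `mixQ m0 g oneQ ∈ e y n`, so there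
is `w ∈ W n`, `w ∈ A1 n` with `mixQ m0 g oneQ = mixQ m0 w oneQ`. Let `r ∈ G` be below `g` and `q`. By `lowQ_le B P h0 h1` (`EqUQ m0 w q`) `r ≤ w`, so `w ∈ G` (`hG.up`). -/

set_option autoImplicit false

universe u v w

namespace COD

open WCal WM

variable {N : Type u} [WM N] {K : Type v} [WTy N K] [KTy N K] {D : CPD N K} {m0 : K} {I : St N K}
  {Dn : K → St N (PQ N K)} {G : Set (PQ N K)}

/-- the conclusion of (8.2) -/
def FLQ (D : CPD N K) (m0 : K) (I : St N K) (Dn : K → St N (PQ N K)) (q : PQ N K) (J : St N K)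
    (W : Fn N K (St N (PQ N K))) : Prop :=
  VI D I q ∧ Cnt J ∧ (∀ x, x ∈ J → x ∈ I) ∧ (∀ x, x ∉ J → q x = one) ∧ (∀ n, Cov N m0 (fun w => w ∈ W n)) ∧
    (∀ n, n < m0 → ∀ w, w ∈ W n → w ∈ Dn n ∧ VI D I w ∧ (∀ x, x ∉ J → w x = one) ∧ EqUQ m0 w q) ∧
    ∀ n, n < m0 → ∀ r, VI D I r → LeQ D r q → ∃ w, w ∈ W n ∧ ∃ s, VI D I s ∧ LeQ D s w ∧ LeQ D s r

private theorem fLe_cd (B : Bs N K) (h0 : NL N m0) (h1 : m0 ≠ ⊥) : Cd N m0 := by
  rcases h0 with h0 | ⟨b, hb, h0⟩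
  · exact absurd h0 h1
  · rw [h0]
    exact cd_nx B b

private theorem fLe_aux (B : Bs N K) (P : CPP D) (hA : ACL D (PQ N K × PQ N K)) (h0 : NL N m0)
    (h1 : m0 ≠ ⊥) (hD : IF N Dn)
    (opn : ∀ n, n < m0 → ∀ w t, VI D I w → t ∈ Dn n → LeQ D w t → w ∈ Dn n)
    (den : ∀ n, n < m0 → ∀ r, VI D I r → ∃ r', VI D I r' ∧ LeQ D r' r ∧ r' ∈ Dn n) {p : PQ N K}
    (hp : VI D I p) {J0 : St N K} (cJ : Cnt J0) (sJ : ∀ x, x ∈ J0 → x ∈ I)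
    (aJ : (∀ x, x ∈ I → x ∈ J0) ∨ m0 = nx N (⊥ : K)) (pJ : ∀ x, x ∉ J0 → p x = one) :
    ∃ (q : PQ N K) (J : St N K) (W : Fn N K (St N (PQ N K))),
      LeUQ D m0 q p ∧ FLQ D m0 I Dn q J W := by
  obtain ⟨En, iE, E0, E1, E2⟩ := exists_En B P h0 h1 (D := D)
  obtain ⟨bk, ib, b1⟩ := exists_bk B (fLe_cd B h0 h1)
  have hF : FLP D m0 I J0 p Dn En bk :=
    { h0 := h0, h1 := h1, cJ := cJ, sJ := sJ, aJ := aJ, hp := hp, pJ := pJ, iD := hD, iE := iE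
      E0 := E0, E1 := E1, E2 := E2, ib := ib, b1 := b1, opn := opn, den := den }
  obtain ⟨Q, ρ, H, hR⟩ := exists_FLR B P hA hF
  obtain ⟨W, hW, hW'⟩ := exists_W B P hF hR
  refine ⟨Q m0, Jf J0 m0 (H m0), ⟨W, hW⟩, (hR.val m0 le_rfl).2, (hR.val m0 le_rfl).1,
    J_cnt B hF hR, fun x hx => J_sub B hF hR hx, fun x hx => Q_J hR hx,
    fun n => W_cov hR hW' n, fun n hn w hw => W_mem B P hF hR hW' hn hw,
    fun n hn r hr hrq => compat B P hF hR hW' hn hr hrq⟩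

theorem FL (B : Bs N K) (P : CPP D) (hA : ACL D (PQ N K × PQ N K)) (h0 : NL N m0) (h1 : m0 ≠ ⊥)
    (hI : Cnt I ∨ m0 = nx N (⊥ : K)) (hD : IF N Dn)
    (opn : ∀ n, n < m0 → ∀ w t, VI D I w → t ∈ Dn n → LeQ D w t → w ∈ Dn n)
    (den : ∀ n, n < m0 → ∀ r, VI D I r → ∃ r', VI D I r' ∧ LeQ D r' r ∧ r' ∈ Dn n) {p : PQ N K} (hp : VI D I p) :
    ∃ (q : PQ N K) (J : St N K) (W : Fn N K (St N (PQ N K))), LeUQ D m0 q p ∧ FLQ D m0 I Dn q J W := by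
  by_cases hI' : Cnt I
  · exact fLe_aux B P hA h0 h1 hD opn den hp hI' (fun x h => h) (Or.inl fun x h => h) hp.2
  · have hm : m0 = nx N (⊥ : K) := hI.resolve_left hI'
    obtain ⟨J1, hJ1, hJ1'⟩ := hp.1.cnt
    have hint : IP N (fun x : K => x ∈ J1 ∧ x ∈ I) :=
      IP.and (IP.mem IF.id (IF.const J1)) (IP.mem IF.id (IF.const I))
    refine fLe_aux B P hA h0 h1 hD opn den hp (J0 := ⟨{x | x ∈ J1 ∧ x ∈ I}, hint⟩)
      (Cnt.mono (fun a ha => ha.1) hJ1) (fun x hx => hx.2) (Or.inr hm) (fun x hx => ?_)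
    by_cases hxI : x ∈ I
    · exact hJ1' x fun h => hx ⟨h, hxI⟩
    · exact hp.2 x hxI

theorem ip_FLQ (B : Bs N K) (P : CPP D) (hD : IF N Dn) :
    IP N (fun z : PQ N K × St N K × Fn N K (St N (PQ N K)) => FLQ D m0 I Dn z.1 z.2.1 z.2.2) := by
  have fB : Fact (Bs N K) := ⟨B⟩
  have fP : Fact (CPP D) := ⟨P⟩
  unfold FLQ
  have hq : IF N (fun z : PQ N K × St N K × Fn N K (St N (PQ N K)) => z.1) := IF.fst
  have hJ : IF N (fun z : PQ N K × St N K × Fn N K (St N (PQ N K)) => z.2.1) := IF.fst' IF.snd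
  have hW : IF N (fun z : PQ N K × St N K × Fn N K (St N (PQ N K)) => z.2.2) := IF.snd' IF.snd
  refine IP.and (ip_VI (IF.const I) hq) (IP.and (IP.cnt hJ) (IP.and ?_ (IP.and ?_ (IP.and ?_
    (IP.and ?_ ?_)))))
  · exact IP.all (IP.imp (IP.mem IF.snd (hJ.comp IF.fst)) (IP.mem IF.snd (IF.const I)))
  · exact IP.all (IP.imp (IP.not (IP.mem IF.snd (hJ.comp IF.fst)))
      (IP.eq (IF.app (hq.comp IF.fst) IF.snd) (IF.const one)))
  · exact IP.all (ip_Cov (IF.const m0) (IP.mem IF.snd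
      (IF.app (hW.comp (IF.fst.comp IF.fst)) (IF.snd.comp IF.fst))))
  · refine IP.all (IP.imp (ip_ltK IF.snd (IF.const m0)) (IP.all (IP.imp (IP.mem IF.snd
      (IF.app (hW.comp (IF.fst.comp IF.fst)) (IF.snd.comp IF.fst))) (IP.and
        (IP.mem IF.snd (hD.comp (IF.snd.comp IF.fst))) (IP.and (ip_VI (IF.const I) IF.snd)
        (IP.and ?_ (ip_EqUQ (IF.const m0) IF.snd (hq.comp (IF.fst.comp IF.fst)))))))))
    exact IP.all (IP.imp (IP.not (IP.mem IF.snd (hJ.comp (IF.fst.comp (IF.fst.comp IF.fst)))))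
      (IP.eq (IF.app (IF.snd.comp IF.fst) IF.snd) (IF.const one)))
  · refine IP.all (IP.imp (ip_ltK IF.snd (IF.const m0)) (IP.all (IP.imp
      (ip_VI (IF.const I) IF.snd) (IP.imp (ip_LeQ IF.snd (hq.comp (IF.fst.comp IF.fst)))
        (IP.ex (IP.and (IP.mem IF.snd (IF.app (hW.comp (IF.fst.comp (IF.fst.comp IF.fst)))
          (IF.snd.comp (IF.fst.comp IF.fst)))) (IP.ex (IP.and (ip_VI (IF.const I) IF.snd)
            (IP.and (ip_LeQ IF.snd (IF.snd.comp IF.fst))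
              (ip_LeQ IF.snd (IF.snd.comp (IF.fst.comp IF.fst))))))))))))

theorem FLG (B : Bs N K) (P : CPP D) (hA : ACL D (PQ N K × PQ N K)) (h0 : NL N m0) (h1 : m0 ≠ ⊥)
    (hI : Cnt I ∨ m0 = nx N (⊥ : K)) (hD : IF N Dn)
    (opn : ∀ n, n < m0 → ∀ w t, VI D I w → t ∈ Dn n → LeQ D w t → w ∈ Dn n)
    (den : ∀ n, n < m0 → ∀ r, VI D I r → ∃ r', VI D I r' ∧ LeQ D r' r ∧ r' ∈ Dn n)
    (hG : TGen N (VI D I) (LeQ D) G) :
    ∃ (q : PQ N K) (J : St N K) (W : Fn N K (St N (PQ N K))), q ∈ G ∧ FLQ D m0 I Dn q J W ∧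
      ∀ n, n < m0 → ∃ w, w ∈ W n ∧ w ∈ G := by
  have fB : Fact (Bs N K) := ⟨B⟩
  have fP : Fact (CPP D) := ⟨P⟩
  have hS : IP N (fun q : PQ N K => ∃ (J : St N K) (W : Fn N K (St N (PQ N K))),
      FLQ D m0 I Dn q J W) := by
    refine IP.ex (P := fun (q : PQ N K) (J : St N K) => ∃ W : Fn N K (St N (PQ N K)),
      FLQ D m0 I Dn q J W) (IP.ex (P := fun (p : PQ N K × St N K)
        (W : Fn N K (St N (PQ N K))) => FLQ D m0 I Dn p.1 p.2 W) ?_)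
    exact IP.comp (ip_FLQ B P hD) (IF.pair (IF.fst.comp IF.fst)
      (IF.pair (IF.snd.comp IF.fst) IF.snd))
  obtain ⟨q, hq, J, W, hF⟩ := hG.gen ⟨{q | ∃ (J : St N K) (W : Fn N K (St N (PQ N K))),
      FLQ D m0 I Dn q J W}, hS⟩ (by
    intro p hp
    obtain ⟨q, J, W, h, hF⟩ := FL B P hA h0 h1 hI hD opn den hp
    exact ⟨q, ⟨J, W, hF⟩, hF.1, fun x => (h x).1⟩)
  refine ⟨q, J, W, hq, hF, fun n hn => ?_⟩
  obtain ⟨-, -, -, -, -, F6, F7⟩ := hF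
  obtain ⟨s, hs, -, w, hw, hsw⟩ := dens B P hG hq (Q := fun s => ∃ w, w ∈ W n ∧ LeQ D s w)
    (IP.ex (IP.and (IP.mem IF.snd (IF.const (W n))) (ip_LeQ IF.fst IF.snd)))
    (fun r hr hrq => by
      obtain ⟨w, hw, s, hs, hsw, hsr⟩ := F7 n hn r hr hrq
      exact ⟨s, hs, hsr, w, hw, hsw⟩)
  exact ⟨w, hw, hG.up s w hs (F6 n hn w hw).2.1 hsw⟩

/-- (8.5): a subset of `m0` in the extension by a countable product is determined by an ordinal `y < nx (nx m0)` and `G` -/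
theorem low (B : Bs N K) (P : CPP D) (hA : ACL D (PQ N K × PQ N K)) (h0 : NL N m0) (h1 : m0 ≠ ⊥) (hI : Cnt I) :
    ∃ e : K → Fn N K (St N (PQ N K)), IF N e ∧ ∀ G : Set (PQ N K), TGen N (VI D I) (LeQ D) G →
      ∀ A1 A0 : K → St N (PQ N K), IF N A1 → IF N A0 →
      (∀ n, n < m0 → ∀ w t, VI D I w → t ∈ A1 n → LeQ D w t → w ∈ A1 n) →
      (∀ n, n < m0 → ∀ w t, VI D I w → t ∈ A0 n → LeQ D w t → w ∈ A0 n) →
      (∀ n, n < m0 → ∀ w, VI D I w → w ∈ A1 n → w ∈ A0 n → False) →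
      (∀ n, n < m0 → ∀ r, VI D I r → ∃ r', VI D I r' ∧ LeQ D r' r ∧ (r' ∈ A1 n ∨ r' ∈ A0 n)) →
      ∃ y, y < nx N (nx N m0) ∧ ∀ n, n < m0 →
        ((∃ g, g ∈ G ∧ g ∈ A1 n) ↔ ∃ g, g ∈ G ∧ mixQ m0 g oneQ ∈ e y n) := by
  have fB : Fact (Bs N K) := ⟨B⟩
  have fP : Fact (CPP D) := ⟨P⟩
  obtain ⟨e, he, hlow⟩ := exists_low B P h0 h1 hI (D := D)
  refine ⟨e, he, fun G hG A1 A0 hA1 hA0 o1 o0 dis den => ?_⟩
  have hDn : ∀ n : K, IP N (fun u : PQ N K => u ∈ A1 n ∨ u ∈ A0 n) := fun n =>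
    IP.or (IP.mem IF.id (IF.const (A1 n))) (IP.mem IF.id (IF.const (A0 n)))
  have hD : IF N (fun n : K => (⟨{u | u ∈ A1 n ∨ u ∈ A0 n}, hDn n⟩ : St N (PQ N K))) := by
    apply IF.compr'
    show IP N (fun z : K × PQ N K => z.2 ∈ A1 z.1 ∨ z.2 ∈ A0 z.1)
    exact IP.or (IP.mem IF.snd (hA1.comp IF.fst)) (IP.mem IF.snd (hA0.comp IF.fst))
  obtain ⟨q, J, W, hqG, hF, hWG⟩ := FLG B P hA h0 h1 (Or.inl hI) hD (by
    rintro n hn w t hw (ht | ht) hwt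
    · exact Or.inl (o1 n hn w t hw ht hwt)
    · exact Or.inr (o0 n hn w t hw ht hwt)) den hG
  obtain ⟨F1, -, -, -, -, F6, -⟩ := hF
  have hFi : ∀ n : K, IP N (fun u : PQ N K => ∃ w, w ∈ W n ∧ w ∈ A1 n ∧ n < m0 ∧
      u = mixQ m0 w oneQ) := fun n =>
    IP.ex (IP.and (IP.mem IF.snd (IF.const (W n))) (IP.and (IP.mem IF.snd (IF.const (A1 n)))
      (IP.and (IP.const _) (IP.eq IF.fst (if_mixQ (IF.const m0) IF.snd (IF.const oneQ))))))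
  have hFf : IF N (fun n : K => (⟨{u | ∃ w, w ∈ W n ∧ w ∈ A1 n ∧ n < m0 ∧
      u = mixQ m0 w oneQ}, hFi n⟩ : St N (PQ N K))) := by
    apply IF.compr'
    show IP N (fun z : K × PQ N K => ∃ w, w ∈ W z.1 ∧ w ∈ A1 z.1 ∧ z.1 < m0 ∧
      z.2 = mixQ m0 w oneQ)
    exact IP.ex (IP.and (IP.mem IF.snd (IF.app (IF.const W) (IF.fst.comp IF.fst)))
      (IP.and (IP.mem IF.snd (hA1.comp (IF.fst.comp IF.fst)))
        (IP.and (ip_ltK (IF.fst.comp IF.fst) (IF.const m0))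
          (IP.eq (IF.snd.comp IF.fst) (if_mixQ (IF.const m0) IF.snd (IF.const oneQ))))))
  obtain ⟨y, hy, hyF⟩ := hlow ⟨_, hFf⟩ (by
    rintro n u ⟨w, hw, -, hn, hu⟩
    exact ⟨w, (F6 n hn w hw).2.1, hu⟩)
  refine ⟨y, hy, fun n hn => ⟨?_, ?_⟩⟩
  · rintro ⟨g, hg, hgA⟩
    obtain ⟨w, hw, hwG⟩ := hWG n hn
    rcases (F6 n hn w hw).1 with h | h
    · exact ⟨w, hwG, (hyF n hn _).2 ⟨w, hw, h, hn, rfl⟩⟩
    · obtain ⟨r, hr, hrg, hrw⟩ := hG.dir g w hg hwG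
      have hrV := hG.val r hr
      exact absurd (o0 n hn r w hrV h hrw) fun h' =>
        dis n hn r hrV (o1 n hn r g hrV hgA hrg) h'
  · rintro ⟨g, hg, hgy⟩
    obtain ⟨w, hw, hwA, -, hgw⟩ := (hyF n hn _).1 hgy
    obtain ⟨r, hr, hrg, hrq⟩ := hG.dir g q hg hqG
    obtain ⟨-, hwV, -, hwU⟩ := F6 n hn w hw
    have hrw : LeQ D r w := lowQ_le B P h0 h1 hwV.1 (hG.val g hg).1 F1.1 hrg hrq hgw hwU
    exact ⟨w, hG.up r w hr hwV hrw, hwA⟩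

end COD
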