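import Pool.Agent.COD.V2

/-! # Coding: zero extensions

(problem MP_328cd5_lc, coding part, package V3; architect helper51; 1.0 h; other files are black boxes)

PROOFS (7.2). `zero_ext`, `p' = (p.1, l', p.2.2.1, p.2.2.2)`. `l_nl`: if `l' m = p.l m` from `p`, otherwise `h1`. `s_lt`: `x < p.l m ≤ l' m`. `r_lt`:
`n < p.l (nx m) ≤ l' (nx m)`. `bdd`: maximum of the bound of `p` and of `hb`. `A_pos`: `Ev.mono`. `dec`: `ext_old`, first part (with the same bits:
`hn` holds for all `k`, since `(k, y) ∈ p.s` implies `y < p.l k`). `gap`: `gap_ext` for `W`; for `¬ W m` the length is unchanged (`hi`). `Le.pro`: let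
`(m, n) ∈ p.r`, `x ∈ b m n v`; then `Lv m`, `n < nx (nx m)` (`Val.r_lt`, `Val.l_nl`), `x < nx m` (`CPP.b_lt`). `NL m`: a new position is not in `p.s`. `LL m`:
`m ∈ p.1` (`Val.r_A`), `ext_old`, second part.
`raise`: choose `y'` with `y < y' < nx m` (`lim_cd`, `cd_nx`) and `l' = p.l` updated at `m` to `max (p.l m) y'` (an internal function: `IF.ite`), `W = (· = m)`,
`W_one`. -/

set_option autoImplicit false

universe u v

namespace COD

open WCal WM

variable {N : Type u} [WM N] {K : Type v} [WTy N K] [KTy N K] {D : CPD N K}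

/-- zero extensions, the gap property of the extension is assumed -/
private theorem zero_aux (P : CPP D) {p : Pre N K} (hp : Val D p) (l' : Fn N K K)
    (hl : ∀ m, p.2.1 m ≤ l' m) (h1 : ∀ m, l' m ≠ p.2.1 m → NL N m ∧ l' m < nx N m)
    (hb : ∃ e, ∀ m, e ≤ m → l' m = ⊥)
    (hg : ∀ l, InE N l → ∃ E : St N K, Club N l E ∧ ∀ c, c ∈ D.C l → c ∈ E →
      ∀ m, Lv N m → c ≤ m → m ≤ D.h l c → m ≠ nx N c →
        Idle ((p.1, l', p.2.2.1, p.2.2.2) : Pre N K) m) :
    Val D ((p.1, l', p.2.2.1, p.2.2.2) : Pre N K) ∧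
      Le D ((p.1, l', p.2.2.1, p.2.2.2) : Pre N K) p := by
  have hext : ∀ m, m ∈ p.1 → _ := fun m (hm : m ∈ p.1) =>
    ext_old (p' := ((p.1, l', p.2.2.1, p.2.2.2) : Pre N K)) P hp hl (fun m x _ => Iff.rfl) hm
      ⟨⊥, bot_lt_iff_ne_bot.2 (cd_ne (hp.A_LL m hm).1), fun k _ _ _ x _ h2 _ h4 =>
        absurd (hp.s_lt k _ h4) (not_lt.2 h2)⟩
  constructor
  · exact
      { l_nl := fun m hm => by
          by_cases h : l' m = p.2.1 m
          · have hm' : p.2.1 m ≠ ⊥ := fun h0 => hm (h.trans h0)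
            have h2 := hp.l_nl m hm'
            exact ⟨h2.1, lt_of_eq_of_lt h h2.2⟩
          · exact h1 m h
        s_lt := fun m x hx => (hp.s_lt m x hx).trans_le (hl m)
        r_lt := fun m n h => ⟨(hp.r_lt m n h).1, (hp.r_lt m n h).2.trans_le (hl _)⟩
        r_A := hp.r_A
        r_fin := hp.r_fin
        r_sz := hp.r_sz
        A_LL := hp.A_LL
        bdd := by
          obtain ⟨e1, he1⟩ := hp.bdd
          obtain ⟨e2, he2⟩ := hb
          refine ⟨max e1 e2, fun m hm => ?_⟩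
          have h2 := he1 m ((le_max_left _ _).trans hm)
          exact ⟨h2.1, he2 m ((le_max_right _ _).trans hm), h2.2.2⟩
        A_pos := fun m hm => (hp.A_pos m hm).mono (fun k _ _ h => h.trans_le (hl k))
        dec := fun m hm => (hext m hm).1
        gap := hg }
  · exact
      { A := fun m hm => hm
        l := hl
        s := fun m x _ => Iff.rfl
        r := fun m n h => h
        pro := fun m n hn x hx hpos hnpos hbit => by
          have h2 := hp.r_lt m n hn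
          have h3 : p.2.1 (nx N m) ≠ ⊥ := fun h0 => by
            have h4 := h2.2
            rw [h0] at h4
            exact not_lt_bot h4
          have hnx : n < nx N (nx N m) := h2.2.trans (hp.l_nl _ h3).2
          have hx2 : x < nx N m := P.b_lt m n _ h2.1 hnx x hx
          rcases lv_cases h2.1 with h | h
          · rcases hbit with hbit | hbit
            · exact hnpos (Or.inl ⟨h, hp.s_lt m x hbit.2⟩)
            · exact not_nl_ll h hbit.1
          · exact (hext m (hp.r_A m n hn h)).2 x hx2 hpos hnpos hbit }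

theorem zero_ext (B : Bs N K) (P : CPP D) {p : Pre N K} (hp : Val D p) (l' : Fn N K K)
    (hl : ∀ m, p.2.1 m ≤ l' m) (h1 : ∀ m, l' m ≠ p.2.1 m → NL N m ∧ l' m < nx N m)
    (hb : ∃ e, ∀ m, e ≤ m → l' m = ⊥) (W : K → Prop)
    (hW : ∀ l, InE N l → ∃ e, e < l ∧ ∀ c, c ∈ D.C l → e ≤ c → ∀ m, Lv N m → c ≤ m → m ≤ D.h l c →
      m ≠ nx N c → ¬ W m)
    (hi : ∀ m, ¬ W m → l' m = p.2.1 m) :
    Val D ((p.1, l', p.2.2.1, p.2.2.2) : Pre N K) ∧ Le D ((p.1, l', p.2.2.1, p.2.2.2) : Pre N K) p :=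
  zero_aux P hp l' hl h1 hb (gap_ext P hp W hW (fun m _ hnW hid =>
    ⟨hid.1, (hi m hnW).trans hid.2.1, hid.2.2⟩))

/-- zero extensions which do not touch idle levels -/
theorem zero_ext' (B : Bs N K) (P : CPP D) {p : Pre N K} (hp : Val D p) (l' : Fn N K K)
    (hl : ∀ m, p.2.1 m ≤ l' m) (h1 : ∀ m, l' m ≠ p.2.1 m → NL N m ∧ l' m < nx N m)
    (hi : ∀ m, p.2.1 m = ⊥ → l' m = ⊥) :
    Val D ((p.1, l', p.2.2.1, p.2.2.2) : Pre N K) ∧ Le D ((p.1, l', p.2.2.1, p.2.2.2) : Pre N K) p := by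
  refine zero_aux P hp l' hl h1 ?_ ?_
  · obtain ⟨e, he⟩ := hp.bdd
    exact ⟨e, fun m hm => hi m (he m hm).2.1⟩
  · intro l hl2
    obtain ⟨E, hE, hE2⟩ := hp.gap l hl2
    refine ⟨E, hE, fun c hc hcE m hm h3 h4 h5 => ?_⟩
    have h6 := hE2 c hc hcE m hm h3 h4 h5
    exact ⟨h6.1, hi m h6.2.1, h6.2.2⟩

theorem raise (B : Bs N K) (P : CPP D) {p : Pre N K} (hp : Val D p) {m : K} (hm : NL N m) {y : K}
    (hy : y < nx N m) : ∃ p' : Pre N K, Val D p' ∧ Le D p' p ∧ y < p'.2.1 m ∧ p'.1 = p.1 := by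
  obtain ⟨y', hy1, hy2⟩ := (lim_cd B (cd_nx B m)).2 y hy
  obtain ⟨z, hz1, hz2, hz3⟩ : ∃ z, y < z ∧ p.2.1 m ≤ z ∧ z < nx N m := by
    refine ⟨max (p.2.1 m) y', hy1.trans_le (le_max_right _ _), le_max_left _ _, max_lt ?_ hy2⟩
    by_cases h : p.2.1 m = ⊥
    · rw [h]
      exact lt_of_le_of_lt bot_le (lt_nx B m)
    · exact (hp.l_nl m h).2
  obtain ⟨l', hm', hne⟩ : ∃ l' : Fn N K K, l' m = z ∧ ∀ k, k ≠ m → l' k = p.2.1 k :=
    ⟨⟨_, IF.ite (P := fun k => k = m) (f := fun _ => z) (g := fun k => p.2.1 k)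
      (IP.eq IF.id (IF.const m)) (IF.const z) (IF.app (IF.const _) IF.id)⟩, if_pos rfl,
      fun k hk => if_neg hk⟩
  have h := zero_ext B P hp l'
    (fun k => by
      by_cases hk : k = m
      · rw [hk, hm']
        exact hz2
      · exact (hne k hk).ge)
    (fun k hk => by
      by_cases hk2 : k = m
      · rw [hk2, hm']
        exact ⟨hm, hz3⟩
      · exact absurd (hne k hk2) hk)
    (by
      obtain ⟨e, he⟩ := hp.bdd
      obtain ⟨e2, he2, -⟩ := B.unb m
      refine ⟨max e e2, fun k hk => ?_⟩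
      have hk2 : k ≠ m := fun h0 => by
        rw [h0] at hk
        exact absurd (he2.trans_le ((le_max_right _ _).trans hk)) (lt_irrefl _)
      rw [hne k hk2]
      exact (he k ((le_max_left _ _).trans hk)).2.1)
    (fun k => k = m) (W_one B P m) hne
  exact ⟨_, h.1, h.2, lt_of_lt_of_eq hz1 hm'.symm, rfl⟩

end COD
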