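import Pool.Agent.COD.Ca
import Pool.Agent.COD.Qa
import Pool.Agent.COD.V3

/-! # Coding: raising all lengths above `m0`

(problem MP_328cd5_lc, coding part, package Fa; architect helper51; 1.0 h; other files are black boxes)

PROOFS. `Zr_val`: `zero_ext'` for `l' = (Zr m0 g p).2.1` (`Zr_l_pos`, `Zr_l_neg`; `Zr m0 g p` is definitionally `(p.1, l', p.2.2.1, p.2.2.2)`): `p.l m ≤ l' m`; if `l' m ≠ p.l m` then `p.l m ≠ ⊥`, so `NL m` (`Val.l_nl`), and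
`l' m = g m < nx m`; if `p.l m = ⊥` then `l' m = ⊥`. `EqB`: the lengths below `m0` are unchanged. `Zr_ge`: `p.l m < g m` or not. `Zr_ne`: `l' m ≠ ⊥ ↔ p.l m ≠ ⊥`. `Zr_one`: the lengths of `one` are `⊥`; `Prod.ext`, `Fn.ext`.
`ZrQ_VI`: countable support by `Zr_one`; `fin`: the level `⊥ < m0` is unchanged (`EqB.idle`). -/

set_option autoImplicit false

universe u v

namespace COD

open WCal WM

variable {N : Type u} [WM N] {K : Type v} [WTy N K] [KTy N K] {D : CPD N K} {m0 : K}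

theorem Zr_val (B : Bs N K) (P : CPP D) {g : Fn N K K} (hg : ∀ m, NL N m → m0 ≤ m → g m < nx N m) {p : Pre N K}
    (hp : Val D p) : Val D (Zr m0 g p) ∧ LeU D m0 (Zr m0 g p) p := by
  have h := zero_ext' B P hp (Zr m0 g p).2.1
    (fun m => by
      by_cases hc : m0 ≤ m ∧ p.2.1 m ≠ ⊥ ∧ p.2.1 m < g m
      · rw [Zr_l_pos hc.1 hc.2.1 hc.2.2]
        exact hc.2.2.le
      · rw [Zr_l_neg hc])
    (fun m hm => by
      by_cases hc : m0 ≤ m ∧ p.2.1 m ≠ ⊥ ∧ p.2.1 m < g m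
      · have hnl := (hp.l_nl m hc.2.1).1
        rw [Zr_l_pos hc.1 hc.2.1 hc.2.2]
        exact ⟨hnl, hg m hnl hc.1⟩
      · exact absurd (Zr_l_neg hc) hm)
    (fun m hm => by
      rw [Zr_l_neg fun h => h.2.1 hm]
      exact hm)
  exact ⟨h.1, h.2, fun _ _ => Iff.rfl, fun m hm => Zr_l_neg fun h => absurd h.1 (not_le.2 hm),
    fun _ _ _ => Iff.rfl, fun _ _ _ => Iff.rfl⟩

theorem Zr_ge {g : Fn N K K} {p : Pre N K} {m : K} (hm : m0 ≤ m) (h : p.2.1 m ≠ ⊥) : g m ≤ (Zr m0 g p).2.1 m := by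
  by_cases h1 : p.2.1 m < g m
  · rw [Zr_l_pos hm h h1]
  · rw [Zr_l_neg fun h2 => h1 h2.2.2]
    exact not_lt.1 h1

theorem Zr_ne {g : Fn N K K} {p : Pre N K} {m : K} : (Zr m0 g p).2.1 m ≠ ⊥ ↔ p.2.1 m ≠ ⊥ := by
  by_cases hc : m0 ≤ m ∧ p.2.1 m ≠ ⊥ ∧ p.2.1 m < g m
  · rw [Zr_l_pos hc.1 hc.2.1 hc.2.2]
    exact ⟨fun _ => hc.2.1, fun _ => ne_bot_of_gt hc.2.2⟩
  · rw [Zr_l_neg hc]

theorem Zr_one (m0 : K) (g : Fn N K K) : Zr m0 g (one : Pre N K) = one := by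
  refine Prod.ext rfl (Prod.ext (Fn.ext (funext fun m => ?_)) rfl)
  exact Zr_l_neg (p := (one : Pre N K)) fun h => h.2.1 rfl

theorem ZrQ_VI (B : Bs N K) (P : CPP D) (h1 : m0 ≠ ⊥) {g : Fn N K K} (hg : ∀ m, NL N m → m0 ≤ m → g m < nx N m)
    {I : St N K} {q : PQ N K} (hq : VI D I q) : VI D I (ZrQ m0 g q) ∧ LeUQ D m0 (ZrQ m0 g q) q := by
  have h : ∀ x, Val D (Zr m0 g (q x)) ∧ LeU D m0 (Zr m0 g (q x)) (q x) := fun x =>
    Zr_val B P hg (hq.1.val x)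
  have hone : ∀ x, q x = one → ZrQ m0 g q x = one := fun x hx => by
    change Zr m0 g (q x) = one
    rw [hx, Zr_one]
  refine ⟨⟨⟨fun x => (h x).1, ?_, ?_⟩, fun x hx => hone x (hq.2 x hx)⟩, fun x => (h x).2⟩
  · obtain ⟨J, hJ, hJ1⟩ := hq.1.cnt
    exact ⟨J, hJ, fun x hx => hone x (hJ1 x hx)⟩
  · refine hq.1.fin.subset fun x hx => ?_
    exact fun h2 => hx ((EqB.idle (h x).2.2 (bot_lt_iff_ne_bot.2 h1)).2 h2)

end COD
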