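import Pool.Agent.COD.Ca
import Pool.Agent.COD.Qa

/-! # Coding: unions of chains of conditions, first part

(problem MP_328cd5_lc, coding part, package Fb; architect helper51; 1.4 h; other files are black boxes)

`Chn D m0 p v j`: the conditions `v l`, `l < j`, are a decreasing chain below `p` (with the same data below `m0`). `Lm p v j`: the union (see Df.lean).
PROOFS. `Chn.le'`: `l ≤ l'`. `Chn.bd`: the lengths at `m` are bounded. If `m` is not `NL`: all lengths are `⊥` (`Val.l_nl`). If `m < m0`: all lengths are `p.l m` (`LeU`). If `NL m`, `m0 ≤ m`: `nx m` is regular (`reg_nx`, `nl_lv`), `j ≤ m0 ≤ m < nx m`,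
the lengths are `< nx m` for `l < j` (`Val.l_nl` or `⊥`); apply `Reg` to the internal function `x ↦ cit (x < j) ((v x).l m) ⊥`; take the maximum with `p.l m`. The bound is `< nx m` for `NL m`. `Lm_lt`: `Lm_l` with `Chn.bd`.
`Lm_l_lt`: for `NL m` the length of the union is `≤` the bound (`lt_lsp`, `lsp_spec`; if the bound `c < nx m` then all elements of `LmL` are `< c`) `< nx m`; otherwise it is `⊥`.
`Lm_low`: below `m0` the union has the data of `p`: `A, s, r` by `LeU`; lengths: `lt_lsp` for the initial segment `LmL p v j m`, two elements of `K` with the same elements below are equal. `Lm_bot`: the family is empty. `Lm_succ`: `k` is the largest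
index: `A`, `r`: `Le.A`, `Le.r` for `v k ≤ v l`; `s`: `(m, x) ∈ (v l).s` gives `x < (v l).l m` (`Val.s_lt`), so `(m, x) ∈ (v k).s` (`Le.s`); lengths: `y < (Lm).l m ↔ y < (v k).l m`. `Lm_congr`: clear. `Lm_one`: clear (`lsp` of the empty set is `⊥`).
`Lm_ext`: `(Lm p v j).l m ≥ (v l).l m`, and the bits below `(v l).l m` agree: `(m, x) ∈ (v l').s` with `l' ≤ l`: `x < (v l').l m` (`Val.s_lt`), `Le.s`; with `l ≤ l'`: `Le.s`. -/

set_option autoImplicit false

universe u v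

namespace COD

open WCal WM

variable {N : Type u} [WM N] {K : Type v} [WTy N K] [KTy N K]

/-- a decreasing chain below `p` -/
structure Chn (D : CPD N K) (m0 : K) (p : Pre N K) (v : Fn N K (Pre N K)) (j : K) : Prop where
  vp : Val D p
  val : ∀ l, l < j → Val D (v l)
  lep : ∀ l, l < j → LeU D m0 (v l) p
  le : ∀ l l', l < l' → l' < j → LeU D m0 (v l') (v l)

variable {D : CPD N K} {m0 : K} {p : Pre N K} {v : Fn N K (Pre N K)} {j : K}

theorem Chn.le' (h : Chn D m0 p v j) {l l' : K} (hl : l ≤ l') (hl' : l' < j) : LeU D m0 (v l') (v l) := by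
  rcases lt_or_eq_of_le hl with h1 | h1
  · exact h.le l l' h1 hl'
  · rw [h1]
    exact LeU.refl D m0 _

/-- lengths at levels which are not `NL` -/
private theorem fb_bot {q : Pre N K} (hq : Val D q) {m : K} (hm : ¬ NL N m) : q.2.1 m = ⊥ := by
  by_contra h
  exact hm (hq.l_nl m h).1

private theorem fb_lt (B : Bs N K) {q : Pre N K} (hq : Val D q) (m : K) : q.2.1 m < nx N m := by
  by_cases h : q.2.1 m = ⊥
  · rw [h]
    exact lt_of_le_of_lt bot_le (lt_nx B m)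
  · exact (hq.l_nl m h).2

/-- equality of conditions -/
private theorem fb_ext {q t : Pre N K} (h1 : ∀ m, m ∈ q.1 ↔ m ∈ t.1)
    (h2 : ∀ m y, y < q.2.1 m ↔ y < t.2.1 m) (h3 : ∀ m x, (m, x) ∈ q.2.2.1 ↔ (m, x) ∈ t.2.2.1)
    (h4 : ∀ m x, (m, x) ∈ q.2.2.2 ↔ (m, x) ∈ t.2.2.2) : q = t :=
  Prod.ext (St.ext (Set.ext h1)) (Prod.ext (Fn.ext (funext fun m =>
    eq_of_forall_lt_iff fun y => h2 m y)) (Prod.ext (St.ext (Set.ext fun z => h3 z.1 z.2))
      (St.ext (Set.ext fun z => h4 z.1 z.2))))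

theorem Chn.bd (B : Bs N K) (h : Chn D m0 p v j) (hj : j ≤ m0) (m : K) :
    ∃ c, p.2.1 m ≤ c ∧ (∀ l, l < j → (v l).2.1 m ≤ c) ∧ (NL N m → c < nx N m) ∧ (¬ NL N m → c = ⊥) := by
  by_cases hm : NL N m
  · rcases lt_or_ge m m0 with h1 | h1
    · exact ⟨p.2.1 m, le_rfl, fun l hl => ((h.lep l hl).2.2.1 m h1).le, fun _ => fb_lt B h.vp m,
        fun h2 => absurd hm h2⟩
    · have hF : IF N (fun x : K => (v x).2.1 m) :=
        IF.app (IF.fst' (IF.snd' (IF.app (IF.const v) IF.id))) (IF.const m)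
      obtain ⟨c, hc, hc'⟩ := (reg_nx B (nl_lv B hm)).2 j ((hj.trans h1).trans_lt (lt_nx B m))
        ⟨fun x => (v x).2.1 m, hF⟩ (fun x hx => fb_lt B (h.val x hx) m)
      exact ⟨max c (p.2.1 m), le_max_right _ _, fun l hl => (hc' l hl).le.trans (le_max_left _ _),
        fun _ => max_lt hc (fb_lt B h.vp m), fun h2 => absurd hm h2⟩
  · exact ⟨⊥, (fb_bot h.vp hm).le, fun l hl => (fb_bot (h.val l hl) hm).le,
      fun h2 => absurd h2 hm, fun _ => rfl⟩

theorem Lm_lt (B : Bs N K) (h : Chn D m0 p v j) (hj : j ≤ m0) (m y : K) :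
    y < (Lm p v j).2.1 m ↔ y < p.2.1 m ∨ ∃ l, l < j ∧ y < (v l).2.1 m := by
  obtain ⟨c, h1, h2, -⟩ := h.bd B hj m
  exact Lm_l ⟨c, h1, h2⟩ y

theorem Lm_l_lt (B : Bs N K) (h : Chn D m0 p v j) (hj : j ≤ m0) (m : K) :
    (NL N m → (Lm p v j).2.1 m < nx N m) ∧ (¬ NL N m → (Lm p v j).2.1 m = ⊥) := by
  obtain ⟨c, h1, h2, h3, h4⟩ := h.bd B hj m
  have h5 : ∀ y, y ∈ LmL p v j m → y < c := by
    rintro y (hy | ⟨l, hl, hy⟩)
    · exact lt_of_lt_of_le hy h1
    · exact lt_of_lt_of_le hy (h2 l hl)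
  have h6 : (Lm p v j).2.1 m ≤ c := (lsp_spec ⟨c, h5⟩).2 c h5
  refine ⟨fun hm => lt_of_le_of_lt h6 (h3 hm), fun hm => ?_⟩
  rw [h4 hm] at h6
  exact le_bot_iff.1 h6

theorem Lm_low (B : Bs N K) (h : Chn D m0 p v j) (hj : j ≤ m0) : EqB m0 (Lm p v j) p := by
  refine ⟨fun m hm => ⟨?_, Or.inl⟩, fun m hm => eq_of_forall_lt_iff fun y => ?_,
    fun m x hm => ⟨?_, Or.inl⟩, fun m x hm => ⟨?_, Or.inl⟩⟩
  · rintro (h1 | ⟨l, hl, h1⟩)
    · exact h1
    · exact ((h.lep l hl).2.1 m hm).1 h1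
  · rw [Lm_lt B h hj]
    constructor
    · rintro (h1 | ⟨l, hl, h1⟩)
      · exact h1
      · rw [(h.lep l hl).2.2.1 m hm] at h1
        exact h1
    · exact Or.inl
  · rintro (h1 | ⟨l, hl, h1⟩)
    · exact h1
    · exact ((h.lep l hl).2.2.2.1 m x hm).1 h1
  · rintro (h1 | ⟨l, hl, h1⟩)
    · exact h1
    · exact ((h.lep l hl).2.2.2.2 m x hm).1 h1

/-- lengths and bits of the union extend those of the members -/
theorem Lm_ext (B : Bs N K) (h : Chn D m0 p v j) (hj : j ≤ m0) {l : K} (hl : l < j) :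
    (∀ m, (v l).2.1 m ≤ (Lm p v j).2.1 m) ∧
      ∀ m x, x < (v l).2.1 m → ((m, x) ∈ (v l).2.2.1 ↔ (m, x) ∈ (Lm p v j).2.2.1) := by
  refine ⟨fun m => le_of_forall_lt fun y hy => (Lm_lt B h hj m y).2 (Or.inr ⟨l, hl, hy⟩),
    fun m x hx => ⟨fun h1 => Or.inr ⟨l, hl, h1⟩, ?_⟩⟩
  rintro (h1 | ⟨l', hl', h1⟩)
  · exact ((h.lep l hl).1.s m x (h.vp.s_lt m x h1)).1 h1
  · rcases le_total l' l with h2 | h2
    · exact ((h.le' h2 hl).1.s m x ((h.val l' hl').s_lt m x h1)).1 h1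
    · exact ((h.le' h2 hl').1.s m x hx).2 h1

theorem Lm_bot (p : Pre N K) (v : Fn N K (Pre N K)) : Lm p v ⊥ = p := by
  refine fb_ext (fun m => ⟨?_, Or.inl⟩) (fun m y => ?_) (fun m x => ⟨?_, Or.inl⟩)
    (fun m x => ⟨?_, Or.inl⟩)
  · rintro (h1 | ⟨l, hl, h1⟩)
    · exact h1
    · exact absurd hl not_lt_bot
  · rw [Lm_l ⟨p.2.1 m, le_rfl, fun l hl => absurd hl not_lt_bot⟩]
    constructor
    · rintro (h1 | ⟨l, hl, h1⟩)
      · exact h1
      · exact absurd hl not_lt_bot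
    · exact Or.inl
  · rintro (h1 | ⟨l, hl, h1⟩)
    · exact h1
    · exact absurd hl not_lt_bot
  · rintro (h1 | ⟨l, hl, h1⟩)
    · exact h1
    · exact absurd hl not_lt_bot

theorem Lm_succ (B : Bs N K) (h : Chn D m0 p v j) {k : K} (hk : k < j) (hm : ∀ l, l < j → l ≤ k) : Lm p v j = v k := by
  have hpk := (h.lep k hk).1
  have hlk : ∀ l, l < j → Le D (v k) (v l) := fun l hl => (h.le' (hm l hl) hk).1
  refine fb_ext (fun m => ⟨?_, fun h1 => Or.inr ⟨k, hk, h1⟩⟩) (fun m y => ?_)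
    (fun m x => ⟨?_, fun h1 => Or.inr ⟨k, hk, h1⟩⟩) (fun m x => ⟨?_, fun h1 => Or.inr ⟨k, hk, h1⟩⟩)
  · rintro (h1 | ⟨l, hl, h1⟩)
    · exact hpk.A m h1
    · exact (hlk l hl).A m h1
  · rw [Lm_l ⟨(v k).2.1 m, hpk.l m, fun l hl => (hlk l hl).l m⟩]
    constructor
    · rintro (h1 | ⟨l, hl, h1⟩)
      · exact lt_of_lt_of_le h1 (hpk.l m)
      · exact lt_of_lt_of_le h1 ((hlk l hl).l m)
    · exact fun h1 => Or.inr ⟨k, hk, h1⟩
  · rintro (h1 | ⟨l, hl, h1⟩)
    · exact (hpk.s m x (h.vp.s_lt m x h1)).1 h1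
    · exact ((hlk l hl).s m x ((h.val l hl).s_lt m x h1)).1 h1
  · rintro (h1 | ⟨l, hl, h1⟩)
    · exact hpk.r m x h1
    · exact (hlk l hl).r m x h1

theorem Lm_congr {v' : Fn N K (Pre N K)} (h : ∀ l, l < j → v l = v' l) : Lm p v j = Lm p v' j := by
  have hc : ∀ Q : Pre N K → Prop, (∃ l, l < j ∧ Q (v l)) ↔ ∃ l, l < j ∧ Q (v' l) := fun Q =>
    exists_congr fun l => and_congr_right fun hl => by rw [h l hl]
  have hL : ∀ m, LmL p v j m = LmL p v' j m := fun m =>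
    St.ext (Set.ext fun y => or_congr Iff.rfl (hc fun q => y < q.2.1 m))
  refine fb_ext (fun m => or_congr Iff.rfl (hc fun q => m ∈ q.1)) (fun m y => ?_)
    (fun m x => or_congr Iff.rfl (hc fun q => (m, x) ∈ q.2.2.1))
    (fun m x => or_congr Iff.rfl (hc fun q => (m, x) ∈ q.2.2.2))
  change y < lsp (LmL p v j m) ↔ y < lsp (LmL p v' j m)
  rw [hL m]

theorem Lm_one (h : ∀ l, l < j → v l = one) : Lm one v j = one := by
  refine fb_ext (fun m => ⟨?_, Or.inl⟩) (fun m y => ?_) (fun m x => ⟨?_, Or.inl⟩)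
    (fun m x => ⟨?_, Or.inl⟩)
  · rintro (h1 | ⟨l, hl, h1⟩)
    · exact h1
    · rw [h l hl] at h1
      exact h1
  · rw [Lm_l ⟨(one : Pre N K).2.1 m, le_rfl, fun l hl => by rw [h l hl]⟩]
    constructor
    · rintro (h1 | ⟨l, hl, h1⟩)
      · exact h1
      · rw [h l hl] at h1
        exact h1
    · exact Or.inl
  · rintro (h1 | ⟨l, hl, h1⟩)
    · exact h1
    · rw [h l hl] at h1
      exact h1
  · rintro (h1 | ⟨l, hl, h1⟩)
    · exact h1
    · rw [h l hl] at h1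
      exact h1

end COD
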