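import Pool.Agent.COD.Fb

/-! # Coding: unions of chains of conditions at limits, validity (all clauses except the last two)

(problem MP_328cd5_lc, coding part, package Fc; architect helper51; 1.3 h; other files are black boxes)

PROOFS. `u = Lm p v j`. `Lm_v1`: `l_nl`: `Lm_l_lt`. `Lm_v2`: `(m, x) ∈ p.s` or `(m, x) ∈ (v l).s`: `Val.s_lt` and `Lm_lt`. `Lm_v3`: `Lv m` from `Val.r_lt`, `n < (v l).l (nx m)`, `Lm_lt`. `Lm_v4`: `Val.r_A` for `v l` (or `p`).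
`Lm_v5`: `⊥ < m0`: the promises at `⊥` are those of `p` (`Lm_low`). `Lm_v6`: `m < m0`: those of `p`. `m0 ≤ m`: the union of `p` and of the `v l`, `l < j`; `Cov N m (fun l => l < j)` (the identity; `j ≤ m0 ≤ m`), so `Cov.iUnion` (with the
internal predicate `fun z : K × K => z.1 < j ∧ (m, z.2) ∈ (v z.1).r` or the like), and the union of two sets of size `m` (again `Cov.iUnion` over `Prop`; or: if `j = ⊥` only `p`, otherwise `p.r ⊂ (v ⊥).r`: `lep`, `Le.r`). `Lm_v7`: clear.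
`Lm_v8`: for every `l < j` there is a bound; the least bound is an internal function of `l`, `Bs.reg` gives a common bound (or `choice'`, `Bs.cov`); take the maximum with the bound of `p`; the lengths: `Lm_lt`, no `y < (Lm).l m`.
`Lm_v9`: `m ∈ (v l).A` (or `p.A`): `Val.A_pos` for it, `Lm_lt` with `y = ⊥` and `Ev.mono`. `Lm_gap`: let `i` be `InE`. If `i < m0`: everything below `m0` is as in `p` (`Lm_low`, `EqB.idle`), all `m ≤ h i c < i < m0` (`CPP.C_h`). `i = m0` is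
impossible (`not_nl_ll`). If `m0 < i`: choose internally for every `l < j` a club `E l` of `i` as in `Val.gap` for `v l` (`choice'`), and `E0` for `p`; intersect them (`Club.inter` with `b = m0` or `j`; `Reg` of `InE`; `nx ⊥ ≤ m0 < i`; index set: `l < j` with `E l`, and once more
with two sets); `Idle (v l) m` for all `l < j` and `Idle p m` give `Idle u m` (lengths by `Lm_lt`). -/

set_option autoImplicit false

universe u v

namespace COD

open WCal WM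

variable {N : Type u} [WM N] {K : Type v} [WTy N K] [KTy N K] {D : CPD N K} {m0 : K} {p : Pre N K}
  {v : Fn N K (Pre N K)} {j : K}

private theorem cov_or' (B : Bs N K) {m : K} (hm : Cd N m) {A A' : K → Prop} (hA : IP N A)
    (hA' : IP N A') (h : Cov N m A) (h' : Cov N m A') : Cov N m (fun a => A a ∨ A' a) := by
  have h1 : IP N (fun p : Prop × K => (p.1 ∧ A p.2) ∨ (¬ p.1 ∧ A' p.2)) :=
    IP.or (IP.and (IF.prop.1 IF.fst) (hA.comp IF.snd))
      (IP.and (IP.not (IF.prop.1 IF.fst)) (hA'.comp IF.snd))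
  have h2 : Cov N m (fun _ : Prop => True) := Cov.finite B hm (Set.toFinite _)
  refine Cov.mono ?_ (Cov.iUnion B hm h2 (A := fun (b : Prop) (a : K) => (b ∧ A a) ∨ (¬ b ∧ A' a))
    h1 fun b _ => ?_)
  · rintro a (ha | ha)
    · exact ⟨True, trivial, Or.inl ⟨trivial, ha⟩⟩
    · exact ⟨False, trivial, Or.inr ⟨fun h => h, ha⟩⟩
  · by_cases hb : b
    · exact Cov.mono (fun a ha => ha.elim (fun h => h.2) fun h => absurd hb h.1) h
    · exact Cov.mono (fun a ha => ha.elim (fun h => absurd h.1 hb) fun h => h.2) h'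

private theorem lm_idle (B : Bs N K) (h : Chn D m0 p v j) (hj : j ≤ m0) {m : K} (hp : Idle p m)
    (hv : ∀ l, l < j → Idle (v l) m) : Idle (Lm p v j) m := by
  refine ⟨?_, ?_, ?_⟩
  · rintro (hm | ⟨l, hl, hm⟩)
    · exact hp.1 hm
    · exact (hv l hl).1 hm
  · by_contra hne
    rcases (Lm_lt B h hj m ⊥).1 (bot_lt_iff_ne_bot.2 hne) with h1 | ⟨l, hl, h1⟩
    · rw [hp.2.1] at h1
      exact lt_irrefl _ h1
    · rw [(hv l hl).2.1] at h1
      exact lt_irrefl _ h1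
  · rintro n (hm | ⟨l, hl, hm⟩)
    · exact hp.2.2 n hm
    · exact (hv l hl).2.2 n hm

theorem Lm_v1 (B : Bs N K) (h : Chn D m0 p v j) (hj : j ≤ m0) :
    ∀ m, (Lm p v j).2.1 m ≠ ⊥ → NL N m ∧ (Lm p v j).2.1 m < nx N m := by
  intro m hm
  by_cases hn : NL N m
  · exact ⟨hn, (Lm_l_lt B h hj m).1 hn⟩
  · exact absurd ((Lm_l_lt B h hj m).2 hn) hm

theorem Lm_v2 (B : Bs N K) (h : Chn D m0 p v j) (hj : j ≤ m0) :
    ∀ m x, (m, x) ∈ (Lm p v j).2.2.1 → x < (Lm p v j).2.1 m := by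
  rintro m x (hx | ⟨l, hl, hx⟩)
  · exact (Lm_lt B h hj m x).2 (Or.inl (h.vp.s_lt m x hx))
  · exact (Lm_lt B h hj m x).2 (Or.inr ⟨l, hl, (h.val l hl).s_lt m x hx⟩)

theorem Lm_v3 (B : Bs N K) (h : Chn D m0 p v j) (hj : j ≤ m0) :
    ∀ m n, (m, n) ∈ (Lm p v j).2.2.2 → Lv N m ∧ n < (Lm p v j).2.1 (nx N m) := by
  rintro m n (hn | ⟨l, hl, hn⟩)
  · exact ⟨(h.vp.r_lt m n hn).1, (Lm_lt B h hj _ n).2 (Or.inl (h.vp.r_lt m n hn).2)⟩
  · exact ⟨((h.val l hl).r_lt m n hn).1,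
      (Lm_lt B h hj _ n).2 (Or.inr ⟨l, hl, ((h.val l hl).r_lt m n hn).2⟩)⟩

theorem Lm_v4 (h : Chn D m0 p v j) : ∀ m n, (m, n) ∈ (Lm p v j).2.2.2 → LL N m → m ∈ (Lm p v j).1 := by
  rintro m n (hn | ⟨l, hl, hn⟩) hm
  · exact Or.inl (h.vp.r_A m n hn hm)
  · exact Or.inr ⟨l, hl, (h.val l hl).r_A m n hn hm⟩

theorem Lm_v5 (B : Bs N K) (h1 : m0 ≠ ⊥) (h : Chn D m0 p v j) (hj : j ≤ m0) :
    {n | (⊥, n) ∈ (Lm p v j).2.2.2}.Finite :=
  h.vp.r_fin.subset fun n hn =>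
    ((Lm_low B h hj).2.2.2 ⊥ n (bot_lt_iff_ne_bot.2 h1)).1 hn

theorem Lm_v6 (B : Bs N K) (P : CPP D) (h : Chn D m0 p v j) (hj : j ≤ m0) :
    ∀ m, Cd N m → Cov N m (fun n : K => (m, n) ∈ (Lm p v j).2.2.2) := by
  intro m hm
  rcases lt_or_ge m m0 with h1 | h1
  · exact Cov.mono (fun n hn => ((Lm_low B h hj).2.2.2 m n h1).1 hn) (h.vp.r_sz m hm)
  · have h2 : Cov N m (fun l : K => l < j) := Cov.le (hj.trans h1) (LCA.cov_self j)
    have h3 : IP N (fun z : K × K => (m, z.2) ∈ (v z.1).2.2.2) :=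
      IP.mem (IF.pair (IF.const m) IF.snd)
        (IF.snd' (IF.snd' (IF.snd' (IF.app (IF.const v) IF.fst))))
    have h4 : Cov N m (fun n : K => ∃ l, l < j ∧ (m, n) ∈ (v l).2.2.2) :=
      Cov.iUnion B hm h2 (A := fun l n : K => (m, n) ∈ (v l).2.2.2) h3
        fun l hl => (h.val l hl).r_sz m hm
    have h5 : IP N (fun n : K => ∃ l, l < j ∧ (m, n) ∈ (v l).2.2.2) :=
      IP.ex (IP.and (ip_ltK IF.snd (IF.const j))
        (IP.mem (IF.pair (IF.const m) IF.fst)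
          (IF.snd' (IF.snd' (IF.snd' (IF.app (IF.const v) IF.snd))))))
    exact cov_or' B hm (IP.mem (IF.pair (IF.const m) IF.id) (IF.const p.2.2.2)) h5
      (h.vp.r_sz m hm) h4

theorem Lm_v7 (h : Chn D m0 p v j) : ∀ m, m ∈ (Lm p v j).1 → LL N m := by
  rintro m (hm | ⟨l, hl, hm⟩)
  · exact h.vp.A_LL m hm
  · exact (h.val l hl).A_LL m hm

theorem Lm_v8 (B : Bs N K) (P : CPP D) (h : Chn D m0 p v j) (hj : j ≤ m0) : ∃ e, ∀ m, e ≤ m → Idle (Lm p v j) m := by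
  have h1 : IF N (fun l : K => LCA.lst N (fun e : K => ∀ m, e ≤ m → Idle (v l) m)) :=
    LCA.if_lst (IP.all (IP.imp (ip_leK (IF.snd.comp IF.fst) IF.snd)
      (ip_Idle (IF.app (IF.const v) (IF.fst.comp IF.fst)) IF.snd)))
  obtain ⟨c, hc⟩ := B.cov (A := fun l : K => l < j) (LCA.cov_self j) h1
  obtain ⟨e, he⟩ := h.vp.bdd
  refine ⟨max c e, fun m hm => lm_idle B h hj (he m ((le_max_right _ _).trans hm))
    fun l hl => ?_⟩
  exact LCA.lst_spec (N := N) (P := fun e : K => ∀ m, e ≤ m → Idle (v l) m)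
    (h.val l hl).bdd m ((hc l hl).le.trans ((le_max_left _ _).trans hm))

theorem Lm_v9 (B : Bs N K) (h : Chn D m0 p v j) (hj : j ≤ m0) :
    ∀ m, m ∈ (Lm p v j).1 → Ev N m (D.S m) (fun k => ⊥ < (Lm p v j).2.1 k) := by
  rintro m (hm | ⟨l, hl, hm⟩)
  · exact (h.vp.A_pos m hm).mono fun k _ _ hk => (Lm_lt B h hj k ⊥).2 (Or.inl hk)
  · exact ((h.val l hl).A_pos m hm).mono fun k _ _ hk =>
      (Lm_lt B h hj k ⊥).2 (Or.inr ⟨l, hl, hk⟩)

end COD
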