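import Pool.Agent.COD.Fb

/-! # Coding: unions of chains of conditions at limits, the gaps

(problem MP_328cd5_lc, coding part, package Fcg; architect helper51; 1.2 h; other files are black boxes)

PROOF. `u = Lm p v j`. Let `i` be `InE`. If `i < m0`: everything below `m0` is as in `p` (`Lm_low`, `EqB.idle`), and for `c ∈ C i` all `m ≤ h i c < i < m0` (`CPP.C_h`): the club of `p` (`Val.gap`). `i = m0` is
impossible (`not_nl_ll`, `InE` is `LL`). If `m0 < i`: by `choice'` (the relation between `l` and `E : St N K`: `Club N i E` and the statement of `Val.gap` for `v l` is internal) there is an internal `F : K → St N K` such that for all `l < j` `F l` is a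
club of `i` as in `Val.gap` for `v l`. `Club.inter` with the index set `l < j` (`Cov N m0 (fun l => l < j)` by the identity; `i` is regular, `nx ⊥ ≤ m0 < i` (`om_le`)) gives a club `E1`; `E0`: the club for `p`; again
`Club.inter` for the two sets `E0, E1` (index type `Prop` or `K`, e.g. `x ↦ cit (x = ⊥) E0 E1`, `x < nx ⊥`). For `c` in the intersection and the levels `m` of the gap `Idle p m` and `Idle (v l) m` for all `l < j`; so `Idle u m`: `A`, `r`: clear,
lengths: no `y < u.l m` (`Lm_lt`). -/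

set_option autoImplicit false

universe u v

namespace COD

open WCal WM

variable {N : Type u} [WM N] {K : Type v} [WTy N K] [KTy N K] {D : CPD N K} {m0 : K} {p : Pre N K}
  {v : Fn N K (Pre N K)} {j : K}

private theorem idle_lm (B : Bs N K) (h : Chn D m0 p v j) (hj : j ≤ m0) {m : K} (hp : Idle p m)
    (hv : ∀ l, l < j → Idle (v l) m) : Idle (Lm p v j) m := by
  refine ⟨fun h1 => ?_, ?_, fun n h1 => ?_⟩
  · have h2 : m ∈ p.1 ∨ ∃ l, l < j ∧ m ∈ (v l).1 := h1
    rcases h2 with h2 | ⟨l, hl, h2⟩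
    · exact hp.1 h2
    · exact (hv l hl).1 h2
  · by_contra hne
    have h2 : (⊥ : K) < (Lm p v j).2.1 m := bot_lt_iff_ne_bot.2 hne
    rw [Lm_lt B h hj m] at h2
    rcases h2 with h2 | ⟨l, hl, h2⟩
    · rw [hp.2.1] at h2
      exact lt_irrefl _ h2
    · rw [(hv l hl).2.1] at h2
      exact lt_irrefl _ h2
  · have h2 : (m, n) ∈ p.2.2.2 ∨ ∃ l, l < j ∧ (m, n) ∈ (v l).2.2.2 := h1
    rcases h2 with h2 | ⟨l, hl, h2⟩
    · exact hp.2.2 n h2
    · exact (hv l hl).2.2 n h2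

/-- the intersection of two clubs -/
private theorem club_two (B : Bs N K) {i : K} (hi : InE N i) (hm : Cd N m0) (hmi : m0 < i)
    {E0 E1 : St N K} (h0 : Club N i E0) (h1 : Club N i E1) :
    ∃ E : St N K, Club N i E ∧ ∀ y, y ∈ E → y ∈ E0 ∧ y ∈ E1 := by
  obtain ⟨y, hy0, hym⟩ := (lim_cd B hm).2 ⊥ (bot_lt_iff_ne_bot.2 (cd_ne hm))
  obtain ⟨E, hE, hE2⟩ := Club.inter (β := K) B hi.2 (lt_of_le_of_lt (om_le B hm) hmi) hmi
    (I := fun x : K => x < m0) ⟨fun x => x, IF.id, fun a ha => ⟨a, ha, rfl⟩⟩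
    (E := fun x => cit (x = ⊥) E0 E1) (if_cit (IP.eq IF.id (IF.const ⊥)) (IF.const E0) (IF.const E1))
    (fun x _ => by
      by_cases hx : x = ⊥
      · rw [cit_pos hx]
        exact h0
      · rw [cit_neg hx]
        exact h1)
  refine ⟨E, hE, fun z hz => ⟨?_, ?_⟩⟩
  · have h2 := hE2 z hz ⊥ (bot_lt_iff_ne_bot.2 (cd_ne hm))
    rw [cit_pos rfl] at h2
    exact h2
  · have h2 := hE2 z hz y hym
    rw [cit_neg hy0.ne'] at h2
    exact h2

theorem Lm_gap (B : Bs N K) (P : CPP D) (h0 : NL N m0) (h1 : m0 ≠ ⊥) (h : Chn D m0 p v j) (hj : j ≤ m0) :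
    ∀ i, InE N i → ∃ E : St N K, Club N i E ∧ ∀ c, c ∈ D.C i → c ∈ E →
      ∀ m, Lv N m → c ≤ m → m ≤ D.h i c → m ≠ nx N c → Idle (Lm p v j) m := by
  intro i hi
  rcases lt_trichotomy i m0 with him | him | hmi
  · obtain ⟨E, hE, hE2⟩ := h.vp.gap i hi
    refine ⟨E, hE, fun c hc hcE m hm hcm hmh hmn => ?_⟩
    have hlt : m < m0 := (lt_of_le_of_lt hmh (P.C_h i hi c hc).2).trans him
    exact ((Lm_low B h hj).idle hlt).2 (hE2 c hc hcE m hm hcm hmh hmn)
  · exact (not_nl_ll (him ▸ h0 : NL N i) hi.1).elim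
  · have fB : Fact (Bs N K) := ⟨B⟩
    have fP : Fact (CPP D) := ⟨P⟩
    have hcd : Cd N m0 := by
      rcases h0 with h0 | ⟨b, hb, h0⟩
      · exact absurd h0 h1
      · rw [h0]
        exact cd_nx B b
    have hP : IP N (fun z : K × St N K => Club N i z.2 ∧ ∀ c, c ∈ D.C i → c ∈ z.2 →
        ∀ m, Lv N m → c ≤ m → m ≤ D.h i c → m ≠ nx N c → Idle (v z.1) m) := by
      refine IP.and (ip_Club (IF.const i) IF.snd) ?_
      simp (maxDischargeDepth := 99)
    obtain ⟨F, hF, hF2⟩ := choice' (P := fun (l : K) (E : St N K) => Club N i E ∧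
      ∀ c, c ∈ D.C i → c ∈ E → ∀ m, Lv N m → c ≤ m → m ≤ D.h i c → m ≠ nx N c → Idle (v l) m)
      hP (⟨∅, IP.const False⟩ : St N K)
    have hF3 : ∀ l, l < j → Club N i (F l) ∧ ∀ c, c ∈ D.C i → c ∈ F l →
        ∀ m, Lv N m → c ≤ m → m ≤ D.h i c → m ≠ nx N c → Idle (v l) m :=
      fun l hl => hF2 l ((h.val l hl).gap i hi)
    obtain ⟨E1, hE1, hE1'⟩ := Club.inter (β := K) B hi.2 (lt_of_le_of_lt (om_le B hcd) hmi) hmi
      (I := fun x : K => x < j) ⟨fun x => x, IF.id, fun a ha => ⟨a, lt_of_lt_of_le ha hj, rfl⟩⟩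
      (E := F) hF (fun l hl => (hF3 l hl).1)
    obtain ⟨E0, hE0, hE0'⟩ := h.vp.gap i hi
    obtain ⟨E, hE, hE'⟩ := club_two B hi hcd hmi hE0 hE1
    refine ⟨E, hE, fun c hc hcE m hm hcm hmh hmn => idle_lm B h hj ?_ fun l hl => ?_⟩
    · exact hE0' c hc (hE' c hcE).1 m hm hcm hmh hmn
    · exact (hF3 l hl).2 c hc (hE1' c (hE' c hcE).2 l hl) m hm hcm hmh hmn

end COD
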