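import Pool.Agent.COD.Fc
import Pool.Agent.COD.Fcg

/-! # Coding: unions of chains of conditions at limits, the order

(problem MP_328cd5_lc, coding part, package Fd; architect helper51; 1.4 h; other files are black
boxes)

`Exc`: exactness: every position of the union at an active level `m > m0` is a position of a
member of the chain.
PROOFS. `u = Lm p v j`, `j ≠ ⊥`. `Lm_act`: `m ∈ u.A` gives `m ∈ (v l).A` for some `l < j` (if `m ∈
p.A` take any `l < j`, e.g. `⊥`: `lep`, `Le.A`).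
`Lm_pos`: let `m` be `NL` or `m ∈ u.A`, `x < nx m`, `Pos u m x`, `l0 < j`. Then there is `l < j`,
`l0 ≤ l`, with `Pos (v l) m x` and (`NL m` or `m ∈ (v l).A`). `NL m`: `x < u.l m`: `Lm_lt`; if `x
< p.l m` take `l = l0`; if `x < (v l).l m` take
the maximum of `l`, `l0` (`Pos.mono`). `m ∈ u.A`, `m` is `LL` (`Lm_v7`): if `m < m0`: `Pos u m x ↔
Pos p m x ↔ Pos (v l0) m x` (`Lm_low`, `lep`, `EqB.ag`, `Ag.pos`), and `m ∈ p.A`. `m ≠ m0`. If `m0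
< m`: `Exc` gives `l`, `Lm_act` gives `l1` with `m ∈ (v l1).A`;
the maximum of `l, l1, l0`.
`Lm_dec`: by `Lm_pos` and `Val.dec` for `v l`: `Bit (v l) m x` or `Zer (v l) m x`; both go over to
`u`: by `Lm_ext` (as `Bit.mono`, `Zer.mono`: only the lengths and the bits below them are used;
unfold `Bit`, `Zer` for `LL m`).
`Lm_val`: all clauses: `Lm_v1`, ..., `Lm_v9`, `Lm_dec`, `Lm_gap`. `Lm_le`: `A, r`: clear; `l, s`:
`Lm_ext`. `pro`: let `(m, n) ∈ (v l).r`, `x ∈ b m n [(nx m, n) ∈ (v l).s]`, `Pos u m x`, not `Pos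
(v l) m x`. `m` is `NL` or
`m ∈ (v l).A` (`Val.r_lt`, `lv_cases`, `Val.r_A`), `x < nx m` (`CPP.b_lt`, `n < nx (nx m)`). By
`Lm_pos` there is `l' ≥ l` with `Pos (v l') m x`; not `Bit (v l') m x` by `Le.pro` (`le'`). If `NL
m`: `x < (v l').l m`, `(m, x) ∉ (v l').s`, so
`(m, x) ∉ u.s` (`Lm_ext`). If `LL m`: `m ∈ (v l').A`, so `Zer (v l') m x` (`Val.dec`), so `Zer u m
x`, so not `Bit u m x` (`Bit.not_zer`-argument: needs only the definition). `Lm_leU`: `Lm_low` and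
`lep`. `Lm_lep`: `Le.trans` through `v ⊥`. -/

set_option autoImplicit false

universe u v

namespace COD

open WCal WM

variable {N : Type u} [WM N] {K : Type v} [WTy N K] [KTy N K]

/-- exactness -/
def Exc (D : CPD N K) (m0 : K) (p : Pre N K) (v : Fn N K (Pre N K)) (j : K) : Prop :=
  ∀ m, m0 < m → LL N m → m ∈ (Lm p v j).1 → ∀ x, x < nx N m → Pos D (Lm p v j) m x → ∃ l, l < j ∧ Pos D (v l) m x

variable {D : CPD N K} {m0 : K} {p : Pre N K} {v : Fn N K (Pre N K)} {j : K}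

theorem Lm_act (h : Chn D m0 p v j) (hj' : j ≠ ⊥) {m : K} (hm : m ∈ (Lm p v j).1) : ∃ l, l < j ∧ m ∈ (v l).1 := by
  have hb : (⊥ : K) < j := bot_lt_iff_ne_bot.2 hj'
  rcases (hm : m ∈ p.1 ∨ ∃ l, l < j ∧ m ∈ (v l).1) with h1 | ⟨l, hl, h1⟩
  · exact ⟨⊥, hb, (h.lep ⊥ hb).1.A m h1⟩
  · exact ⟨l, hl, h1⟩

private theorem Lm_bit (B : Bs N K) (h : Chn D m0 p v j) (hj : j ≤ m0) {l : K} (hl : l < j)
    {m x : K} (hb : Bit D (v l) m x) : Bit D (Lm p v j) m x := by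
  obtain ⟨h1, h2⟩ := Lm_ext B h hj hl
  rcases hb with ⟨h3, h4⟩ | ⟨h3, h4⟩
  · exact Or.inl ⟨h3, (h2 m x ((h.val l hl).s_lt _ _ h4)).1 h4⟩
  · exact Or.inr ⟨h3, h4.mono fun k _ _ hk =>
      ⟨lt_of_lt_of_le hk.1 (h1 k), (h2 k _ hk.1).1 hk.2⟩⟩

private theorem Lm_zer (B : Bs N K) (h : Chn D m0 p v j) (hj : j ≤ m0) {l : K} (hl : l < j)
    {m x : K} (hb : Zer D (v l) m x) : Zer D (Lm p v j) m x := by
  obtain ⟨h1, h2⟩ := Lm_ext B h hj hl
  exact Fr.mono hb fun k _ _ hk =>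
    ⟨lt_of_lt_of_le hk.1 (h1 k), fun h3 => hk.2 ((h2 k _ hk.1).2 h3)⟩

theorem Lm_pos (B : Bs N K) (P : CPP D) (h0 : NL N m0) (h : Chn D m0 p v j) (hj : j ≤ m0) (he : Exc D m0 p v j)
    {l0 : K} (hl0 : l0 < j) {m x : K} (hm : NL N m ∨ m ∈ (Lm p v j).1) (hx : x < nx N m)
    (hp : Pos D (Lm p v j) m x) : ∃ l, l < j ∧ l0 ≤ l ∧ Pos D (v l) m x ∧ (NL N m ∨ m ∈ (v l).1) := by
  have hj' : j ≠ ⊥ := fun h1 => not_lt_bot (h1 ▸ hl0)
  rcases hm with hm | hm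
  · have h1 : x < (Lm p v j).2.1 m := by
      rcases hp with h2 | h2
      · exact h2.2
      · exact (not_nl_ll hm h2.1).elim
    rcases (Lm_lt B h hj m x).1 h1 with h2 | ⟨l, hl, h2⟩
    · exact ⟨l0, hl0, le_rfl, Or.inl ⟨hm, lt_of_lt_of_le h2 ((h.lep l0 hl0).1.l m)⟩,
        Or.inl hm⟩
    · have hmx : max l l0 < j := max_lt hl hl0
      exact ⟨max l l0, hmx, le_max_right _ _,
        Pos.mono (h.le' (le_max_left l l0) hmx).1 (Or.inl ⟨hm, h2⟩), Or.inl hm⟩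
  · have hLL : LL N m := Lm_v7 h m hm
    obtain ⟨l1, hl1, hA⟩ := Lm_act h hj' hm
    rcases lt_trichotomy m m0 with h1 | h1 | h1
    · refine ⟨l0, hl0, le_rfl, ?_, Or.inr ?_⟩
      · exact (((h.lep l0 hl0).2.ag P h1).pos x).2 ((((Lm_low B h hj).ag P h1).pos x).1 hp)
      · exact ((h.lep l0 hl0).2.1 m h1).2 (((Lm_low B h hj).1 m h1).1 hm)
    · exact (not_nl_ll h0 (h1 ▸ hLL)).elim
    · obtain ⟨l, hl, h2⟩ := he m h1 hLL hm x hx hp
      have ha : max l l1 < j := max_lt hl hl1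
      have hb : max (max l l1) l0 < j := max_lt ha hl0
      have hc : l ≤ max (max l l1) l0 := (le_max_left l l1).trans (le_max_left _ _)
      have hd : l1 ≤ max (max l l1) l0 := (le_max_right l l1).trans (le_max_left _ _)
      exact ⟨_, hb, le_max_right _ _, Pos.mono (h.le' hc hb).1 h2,
        Or.inr ((h.le' hd hb).1.A m hA)⟩

theorem Lm_dec (B : Bs N K) (P : CPP D) (h0 : NL N m0) (h : Chn D m0 p v j) (hj : j ≤ m0) (hj' : j ≠ ⊥)
    (he : Exc D m0 p v j) : ∀ m, m ∈ (Lm p v j).1 → ∀ x, x < nx N m → Pos D (Lm p v j) m x →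
      Bit D (Lm p v j) m x ∨ Zer D (Lm p v j) m x := by
  intro m hm x hx hp
  have hb : (⊥ : K) < j := bot_lt_iff_ne_bot.2 hj'
  obtain ⟨l, hl, -, h1, h2⟩ := Lm_pos B P h0 h hj he hb (Or.inr hm) hx hp
  have hLL : LL N m := Lm_v7 h m hm
  have hA : m ∈ (v l).1 := by
    rcases h2 with h3 | h3
    · exact (not_nl_ll h3 hLL).elim
    · exact h3
  rcases (h.val l hl).dec m hA x hx h1 with h3 | h3
  · exact Or.inl (Lm_bit B h hj hl h3)
  · exact Or.inr (Lm_zer B h hj hl h3)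

theorem Lm_val (B : Bs N K) (P : CPP D) (h0 : NL N m0) (h1 : m0 ≠ ⊥) (h : Chn D m0 p v j) (hj : j ≤ m0)
    (hj' : j ≠ ⊥) (he : Exc D m0 p v j) : Val D (Lm p v j) := by
  exact ⟨Lm_v1 B h hj, Lm_v2 B h hj, Lm_v3 B h hj, Lm_v4 h, Lm_v5 B h1 h hj, Lm_v6 B P h hj,
    Lm_v7 h, Lm_v8 B P h hj, Lm_v9 B h hj, Lm_dec B P h0 h hj hj' he, Lm_gap B P h0 h1 h hj⟩

theorem Lm_leU (B : Bs N K) (P : CPP D) (h0 : NL N m0) (h1 : m0 ≠ ⊥) (h : Chn D m0 p v j) (hj : j ≤ m0)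
    (he : Exc D m0 p v j) {l : K} (hl : l < j) : LeU D m0 (Lm p v j) (v l) := by
  obtain ⟨hel, hes⟩ := Lm_ext B h hj hl
  refine ⟨⟨fun m hm => Or.inr ⟨l, hl, hm⟩, hel, hes, fun m n hmn => Or.inr ⟨l, hl, hmn⟩, ?_⟩,
    (Lm_low B h hj).trans (h.lep l hl).2.symm⟩
  intro m n hmn x hx hpp hnp hbit
  have hv := h.val l hl
  obtain ⟨hLv, hn⟩ := hv.r_lt m n hmn
  have hm : NL N m ∨ m ∈ (Lm p v j).1 := by
    rcases lv_cases hLv with h2 | h2
    · exact Or.inl h2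
    · exact Or.inr (Or.inr ⟨l, hl, hv.r_A m n hmn h2⟩)
  have hne : (v l).2.1 (nx N m) ≠ ⊥ := fun h2 => by
    rw [h2] at hn
    exact not_lt_bot hn
  have hxm : x < nx N m := P.b_lt m n _ hLv (lt_trans hn (hv.l_nl _ hne).2) x hx
  obtain ⟨l', hl', hll', h2, h3⟩ := Lm_pos B P h0 h hj he hl hm hxm hpp
  have h4 : ¬ Bit D (v l') m x := (h.le' hll' hl').1.pro m n hmn x hx h2 hnp
  rcases h3 with h3 | h3
  · have h5 : x < (v l').2.1 m := by
      rcases h2 with h6 | h6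
      · exact h6.2
      · exact (not_nl_ll h3 h6.1).elim
    rcases hbit with h6 | h6
    · exact h4 (Or.inl ⟨h3, ((Lm_ext B h hj hl').2 m x h5).2 h6.2⟩)
    · exact not_nl_ll h3 h6.1
  · rcases (h.val l' hl').dec m h3 x hxm h2 with h5 | h5
    · exact h4 h5
    · exact Bit.not_zer P ((h.val l' hl').A_LL m h3) hbit (Lm_zer B h hj hl' h5)

theorem Lm_lep (B : Bs N K) (P : CPP D) (h0 : NL N m0) (h1 : m0 ≠ ⊥) (h : Chn D m0 p v j) (hj : j ≤ m0)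
    (hj' : j ≠ ⊥) (he : Exc D m0 p v j) : LeU D m0 (Lm p v j) p := by
  have hb : (⊥ : K) < j := bot_lt_iff_ne_bot.2 hj'
  exact LeU.trans P (h.val ⊥ hb) h.vp (Lm_leU B P h0 h1 h hj he hb) (h.lep ⊥ hb)

end COD
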