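import Pool.Agent.COD.Qa

/-! # Coding: bounds for families of conditions

(problem MP_328cd5_lc, coding part, package Fe; architect helper51; 1.5 h; other files are black boxes)

PROOFS. Let `q` be valid with the countable support `J` (`VQ.supp`); outside of `J` `q x = one` (`idle_one`). `J` is covered by `nx ⊥` (`cnt_iff_cov`).
`exists_lg`: for a level `m ≠ ⊥` (an infinite cardinal, `nx ⊥ ≤ m < nx m`, `om_le`) there is `c < nx m` with `(q x).l m ≤ c` for all `x`: the lengths are `< nx m` (`Val.l_nl`, or `⊥`), `nx m` is regular (`reg_nx`), `Reg.cov` with `b = m`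
(`Cov.le`). The relation `Q (q, m) c := (VQ D q ∧ Lv N m ∧ m ≠ ⊥ → (∀ x, (q x).l m ≤ c)) ∧ (Lv N m ∧ m ≠ ⊥ → c < nx N m)` is internal and total (if `q` is not valid take `c = ⊥`); `WCal.choice`.
`exists_bd`: for every `x` there is a bound (`Val.bdd`); the least bound is internal in `x` (`choice'`), `Bs.cov` over the countable `J`. Then `WCal.choice'` over `q`.
`exists_Dc`: let `l` be `InE` (so `nx ⊥ < l`: `l` is a limit level: `nx_lt_of_LL` for `⊥ < l`), regular. For every `x` choose a club as in `Val.gap` for `q x` (`choice'`, internal in `x`), intersect those with `x ∈ J` (`Club.inter` with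
`b = nx ⊥`). For non-valid `q` take `Iio' l` (a club: `lim_of_LL`). `WCal.choice` for the internal relation between `(q, l)` and `E`:
`(InE N l → Club N l E) ∧ (VQ D q → InE N l → ∀ c, c ∈ D.C l → c ∈ E → ∀ m, Lv N m → c ≤ m → m ≤ D.h l c → m ≠ nx N c → ∀ x, Idle (q x) m)`. -/

set_option autoImplicit false

universe u v

namespace COD

open WCal WM

variable {N : Type u} [WM N] {K : Type v} [WTy N K] [KTy N K] {D : CPD N K}

theorem exists_lg (B : Bs N K) (P : CPP D) : ∃ lg : PQ N K → K → K, IF N (fun z : PQ N K × K => lg z.1 z.2) ∧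
    (∀ q m, Lv N m → m ≠ ⊥ → lg q m < nx N m) ∧
    ∀ q, VQ D q → ∀ m, Lv N m → m ≠ ⊥ → ∀ x, (q x).2.1 m ≤ lg q m := by
  have : Fact (Bs N K) := ⟨B⟩
  have : Fact (CPP D) := ⟨P⟩
  have hP : IP N (fun p : (PQ N K × K) × K =>
      (Lv N p.1.2 → p.1.2 ≠ ⊥ → p.2 < nx N p.1.2) ∧
      (VQ D p.1.1 → Lv N p.1.2 → p.1.2 ≠ ⊥ → ∀ x, (p.1.1 x).2.1 p.1.2 ≤ p.2)) := by
    refine IP.and ?_ ?_
    · simp (maxDischargeDepth := 99)
    · simp (maxDischargeDepth := 99)
  obtain ⟨f, hf, hf'⟩ := choice (P := fun (z : PQ N K × K) (c : K) =>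
    (Lv N z.2 → z.2 ≠ ⊥ → c < nx N z.2) ∧
      (VQ D z.1 → Lv N z.2 → z.2 ≠ ⊥ → ∀ x, (z.1 x).2.1 z.2 ≤ c)) hP (by
    rintro ⟨q, m⟩
    by_cases hc : VQ D q ∧ Lv N m ∧ m ≠ ⊥
    · obtain ⟨hq, hm, hm0⟩ := hc
      obtain ⟨J, hJ, hJ1⟩ := hq.supp
      have hcd : Cd N m := hm.resolve_left hm0
      have hcov : Cov N m (fun x => x ∈ J) := Cov.le (om_le B hcd) ((cnt_iff_cov B).1 hJ)
      have hF : IF N (fun x => (q x).2.1 m) :=
        IF.app (IF.fst' (IF.snd' (IF.app (IF.const q) IF.id))) (IF.const m)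
      obtain ⟨c, hc, hc'⟩ := Reg.cov (reg_nx B hm) (lt_nx B m) hcov hF (fun x _ => by
        by_cases h0 : (q x).2.1 m = ⊥
        · rw [h0]
          exact lt_of_le_of_lt bot_le (lt_nx B m)
        · exact ((hq.val x).l_nl m h0).2)
      refine ⟨c, fun _ _ => hc, fun _ _ _ x => ?_⟩
      by_cases hx : x ∈ J
      · exact le_of_lt (hc' x hx)
      · have h1 : q x = COD.one := by
          by_contra h1
          exact hx ((hJ1 x).2 h1)
        show (q x).2.1 m ≤ c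
        rw [h1]
        exact bot_le
    · refine ⟨⊥, fun _ _ => lt_of_le_of_lt bot_le (lt_nx B m), fun h1 h2 h3 => ?_⟩
      exact absurd ⟨h1, h2, h3⟩ hc)
  exact ⟨fun q m => f (q, m), hf.congr fun z => rfl, fun q m h1 h2 => (hf' (q, m)).1 h1 h2,
    fun q hq m h1 h2 => (hf' (q, m)).2 hq h1 h2⟩

theorem exists_bd (B : Bs N K) (P : CPP D) : ∃ bd : PQ N K → K, IF N bd ∧
    ∀ q, VQ D q → ∀ x m, bd q ≤ m → Idle (q x) m := by
  have : Fact (Bs N K) := ⟨B⟩
  have : Fact (CPP D) := ⟨P⟩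
  have hP : IP N (fun p : PQ N K × K => ∀ x m, p.2 ≤ m → Idle (p.1 x) m) := by
    simp (maxDischargeDepth := 99)
  obtain ⟨f, hf, hf'⟩ := choice' (P := fun (q : PQ N K) (e : K) => ∀ x m, e ≤ m → Idle (q x) m)
    hP ⊥
  refine ⟨f, hf, fun q hq => hf' q ?_⟩
  obtain ⟨J, hJ, hJ1⟩ := hq.supp
  have hQ : IP N (fun p : K × K => ∀ m, p.2 ≤ m → Idle (q p.1) m) := by
    simp (maxDischargeDepth := 99)
  obtain ⟨F, hF, hF'⟩ := choice (P := fun (x e : K) => ∀ m, e ≤ m → Idle (q x) m) hQ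
    fun x => (hq.val x).bdd
  obtain ⟨c, hc⟩ := B.cov ((cnt_iff_cov B).1 hJ) hF
  refine ⟨c, fun x m hm => ?_⟩
  by_cases hx : x ∈ J
  · exact hF' x m ((le_of_lt (hc x hx)).trans hm)
  · have h1 : q x = COD.one := by
      by_contra h1
      exact hx ((hJ1 x).2 h1)
    rw [h1]
    exact idle_one m

theorem exists_Dc (B : Bs N K) (P : CPP D) : ∃ Dc : PQ N K → K → St N K,
    IF N (fun z : PQ N K × K => Dc z.1 z.2) ∧ (∀ q l, InE N l → Club N l (Dc q l)) ∧
    ∀ q, VQ D q → ∀ l, InE N l → ∀ c, c ∈ D.C l → c ∈ Dc q l → ∀ m, Lv N m → c ≤ m → m ≤ D.h l c → m ≠ nx N c →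
      ∀ x, Idle (q x) m := by
  have : Fact (Bs N K) := ⟨B⟩
  have : Fact (CPP D) := ⟨P⟩
  have hP : IP N (fun p : (PQ N K × K) × St N K =>
      (InE N p.1.2 → Club N p.1.2 p.2) ∧
      (VQ D p.1.1 → InE N p.1.2 → ∀ c, c ∈ D.C p.1.2 → c ∈ p.2 → ∀ m, Lv N m → c ≤ m →
        m ≤ D.h p.1.2 c → m ≠ nx N c → ∀ x, Idle (p.1.1 x) m)) := by
    refine IP.and ?_ ?_
    · simp (maxDischargeDepth := 99)
    · simp (maxDischargeDepth := 99)
  obtain ⟨f, hf, hf'⟩ := choice (P := fun (z : PQ N K × K) (E : St N K) =>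
    (InE N z.2 → Club N z.2 E) ∧
      (VQ D z.1 → InE N z.2 → ∀ c, c ∈ D.C z.2 → c ∈ E → ∀ m, Lv N m → c ≤ m →
        m ≤ D.h z.2 c → m ≠ nx N c → ∀ x, Idle (z.1 x) m)) hP (by
    rintro ⟨q, l⟩
    by_cases hl : InE N l
    · by_cases hq : VQ D q
      · obtain ⟨J, hJ, hJ1⟩ := hq.supp
        have h0 : nx N (⊥ : K) < l := nx_lt_of_LL B hl.1 (bot_lt_iff_ne_bot.2 (cd_ne hl.1.1))
        have hQ : IP N (fun p : K × St N K => Club N l p.2 ∧ ∀ c, c ∈ D.C l → c ∈ p.2 →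
            ∀ m, Lv N m → c ≤ m → m ≤ D.h l c → m ≠ nx N c → Idle (q p.1) m) := by
          refine IP.and ?_ ?_
          · simp (maxDischargeDepth := 99)
          · simp (maxDischargeDepth := 99)
        obtain ⟨F, hF, hF'⟩ := choice (P := fun (x : K) (E : St N K) => Club N l E ∧
          ∀ c, c ∈ D.C l → c ∈ E → ∀ m, Lv N m → c ≤ m → m ≤ D.h l c → m ≠ nx N c →
            Idle (q x) m) hQ fun x => (hq.val x).gap l hl
        obtain ⟨E, hE, hE'⟩ := Club.inter B hl.2 h0 h0 ((cnt_iff_cov B).1 hJ) hF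
          (fun x _ => (hF' x).1)
        refine ⟨E, fun _ => hE, fun _ _ c hc hcE m h1 h2 h3 h4 x => ?_⟩
        by_cases hx : x ∈ J
        · exact (hF' x).2 c hc (hE' c hcE x hx) m h1 h2 h3 h4
        · have h5 : q x = COD.one := by
            by_contra h5
            exact hx ((hJ1 x).2 h5)
          show Idle (q x) m
          rw [h5]
          exact idle_one m
      · refine ⟨⟨Set.univ, IP.const True⟩, fun _ => ⟨fun x hx => ?_, fun _ _ _ _ => trivial⟩,
          fun h1 => absurd h1 hq⟩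
        obtain ⟨y, hy, hy'⟩ := (lim_of_LL B hl.1).2 x hx
        exact ⟨y, trivial, hy, hy'⟩
    · exact ⟨⟨Set.univ, IP.const True⟩, fun h1 => absurd h1 hl, fun _ h1 => absurd h1 hl⟩)
  exact ⟨fun q l => f (q, l), hf.congr fun z => rfl, fun q l h1 => (hf' (q, l)).1 h1,
    fun q hq l hl => (hf' (q, l)).2 hq hl⟩

end COD
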