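import Pool.Agent.COD.Fd

/-! # Coding: unions of chains of families

(problem MP_328cd5_lc, coding part, package Ff; architect helper51; 1.3 h; other files are black boxes)

PROOFS. Coordinatewise: `(LmQ p V j) x = Lm (p x) (sl V x) j` and `sl V x l = V l x` by definition. `ChnQ.at`. `LmQ_bot`, `LmQ_succ`: `Lm_bot`, `Lm_succ`, `Fn.ext`, `funext`.
`LmQ_VI`: `j ≠ ⊥`: `val`: `Lm_val`. Support in `I`: outside of `I` all are `one`: `Lm_one` (`Lm_congr`). Countable support: if `I` is countable: `I`. If `m0 = nx ⊥` then `j ≤ nx ⊥`, so the index set `Iio' j` is countable (`cnt_iff_cov`, `Cov` by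
the identity); the supports `S l := {x | V l x ≠ one}` are an internal function of `l` and countable for `l < j` (`VQ.supp`, `Cnt.mono`); their union is countable (`Cnt.biUnion`), together with the support of `p` (`Cnt.union`); outside of it the union is `one`
(`Lm_one`). `fin`: `Idle (u x) ⊥ ↔ Idle (p x) ⊥` by `Lm_lep`, `EqB.idle`, `⊥ < m0`.
`LmQ_le`, `LmQ_lep`: `Lm_leU`, `Lm_lep`. -/

set_option autoImplicit false

universe u v

namespace COD

open WCal WM

variable {N : Type u} [WM N] {K : Type v} [WTy N K] [KTy N K]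

/-- a decreasing chain of families -/
structure ChnQ (D : CPD N K) (m0 : K) (I : St N K) (p : PQ N K) (V : Fn N K (PQ N K)) (j : K) : Prop where
  vp : VI D I p
  val : ∀ l, l < j → VI D I (V l)
  lep : ∀ l, l < j → LeUQ D m0 (V l) p
  le : ∀ l l', l < l' → l' < j → LeUQ D m0 (V l') (V l)

variable {D : CPD N K} {m0 : K} {I : St N K} {p : PQ N K} {V : Fn N K (PQ N K)} {j : K}

theorem ChnQ.at (h : ChnQ D m0 I p V j) (x : K) : Chn D m0 (p x) (sl V x) j := by
  exact ⟨h.vp.1.val x, fun l hl => (h.val l hl).1.val x, fun l hl => h.lep l hl x,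
    fun l l' hl hl' => h.le l l' hl hl' x⟩

theorem LmQ_bot (p : PQ N K) (V : Fn N K (PQ N K)) : LmQ p V ⊥ = p := by
  exact Fn.ext (funext fun x => Lm_bot (p x) (sl V x))

theorem LmQ_succ (B : Bs N K) (h : ChnQ D m0 I p V j) {k : K} (hk : k < j) (hm : ∀ l, l < j → l ≤ k) :
    LmQ p V j = V k := by
  exact Fn.ext (funext fun x => Lm_succ B (h.at x) hk hm)

theorem LmQ_congr {V' : Fn N K (PQ N K)} (h : ∀ l, l < j → V l = V' l) : LmQ p V j = LmQ p V' j := by
  exact Fn.ext (funext fun x => Lm_congr (v' := sl V' x) fun l hl => congrArg (fun q : PQ N K => q x) (h l hl))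

theorem LmQ_VI (B : Bs N K) (P : CPP D) (h0 : NL N m0) (h1 : m0 ≠ ⊥) (hI : Cnt I ∨ m0 = nx N (⊥ : K))
    (h : ChnQ D m0 I p V j) (hj : j ≤ m0) (hj' : j ≠ ⊥) (he : ∀ x, Exc D m0 (p x) (sl V x) j) :
    VI D I (LmQ p V j) := by
  have hone : ∀ x, p x = one → (∀ l, l < j → V l x = one) → LmQ p V j x = one := fun x hp hV => by
    change Lm (p x) (sl V x) j = one
    rw [hp]
    exact Lm_one hV
  refine ⟨⟨fun x => Lm_val B P h0 h1 (h.at x) hj hj' (he x), ?_, ?_⟩, fun x hx =>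
    hone x (h.vp.2 x hx) fun l hl => (h.val l hl).2 x hx⟩
  · rcases hI with hI | hI
    · exact ⟨I, hI, fun x hx => hone x (h.vp.2 x hx) fun l hl => (h.val l hl).2 x hx⟩
    · obtain ⟨J, hJ, hJ1⟩ := h.vp.1.cnt
      have hij : Cnt (Iio' j : St N K) := (cnt_iff_cov B).2
        ⟨fun x => x, IF.id, fun a ha => ⟨a, lt_of_lt_of_le ha (hI ▸ hj), rfl⟩⟩
      have hip : IP N (fun z : K × K => V z.1 z.2 ≠ one) :=
        IP.not (IP.eq (IF.app (IF.app (IF.const V) IF.fst) IF.snd) (IF.const one))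
      have hT0 : IP N (fun x : K => ∃ l, l < j ∧ V l x ≠ one) :=
        IP.ex (IP.and (ip_ltK IF.snd (IF.const j))
          (IP.not (IP.eq (IF.app (IF.app (IF.const V) IF.snd) IF.fst) (IF.const one))))
      have hT : Cnt (⟨{x | ∃ l, l < j ∧ V l x ≠ one}, hT0⟩ : St N K) := by
        refine Cnt.biUnion hij (S := fun l => ⟨{x | V l x ≠ one}, IP.sec hip l⟩) (IF.compr' hip)
          (fun l hl => ?_) fun x hx => hx
        obtain ⟨J', hJ', hJ1'⟩ := (h.val l hl).1.supp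
        exact Cnt.mono (fun x hx => (hJ1' x).2 hx) hJ'
      refine ⟨⟨{x | x ∈ J ∨ ∃ l, l < j ∧ V l x ≠ one}, IP.or (IP.mem IF.id (IF.const J)) hT0⟩,
        Cnt.union hJ hT fun a ha => ha, fun x hx => hone x (hJ1 x fun h2 => hx (Or.inl h2)) fun l hl => ?_⟩
      by_contra h2
      exact hx (Or.inr ⟨l, hl, h2⟩)
  · refine h.vp.1.fin.subset fun x hx => ?_
    exact fun h2 => hx ((EqB.idle (Lm_lep B P h0 h1 (h.at x) hj hj' (he x)).2 (bot_lt_iff_ne_bot.2 h1)).2 h2)

theorem LmQ_le (B : Bs N K) (P : CPP D) (h0 : NL N m0) (h1 : m0 ≠ ⊥) (h : ChnQ D m0 I p V j) (hj : j ≤ m0)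
    (he : ∀ x, Exc D m0 (p x) (sl V x) j) {l : K} (hl : l < j) : LeUQ D m0 (LmQ p V j) (V l) := by
  exact fun x => Lm_leU B P h0 h1 (h.at x) hj (he x) hl

theorem LmQ_lep (B : Bs N K) (P : CPP D) (h0 : NL N m0) (h1 : m0 ≠ ⊥) (h : ChnQ D m0 I p V j) (hj : j ≤ m0)
    (hj' : j ≠ ⊥) (he : ∀ x, Exc D m0 (p x) (sl V x) j) : LeUQ D m0 (LmQ p V j) p := by
  exact fun x => Lm_lep B P h0 h1 (h.at x) hj hj' (he x)

end COD
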