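import Pool.Agent.COD.Fd

/-! # Coding: the exact alternative of the chain lemma gives exactness

(problem MP_328cd5_lc, coding part, package Fg; architect helper51; 1.2 h; other files are black boxes)

PROOF. `u = Lm p v j`, `m` is `LL`, `m0 < m`, `m ∈ u.A`, `y < nx m`, `Pos u m y`. All lengths are considered at elements `k` of `S m` with `m0 ≤ k` (`NL k`, so `Lv k`: `nl_lv`, `CPP.S_lt`); large includes this. There is `l0 < j` with `m ∈ (v l0).A` (`Lm_act`; `j ≠ ⊥` by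
`Lim`). Let `z` be as in `hex`.
CASE `y < z`: there is `l < j` with `f m y k < g l k` for all large `k`. Let `l' = max l l0 < j`; `g l k ≤ g l' k` (`hgm`). By `Val.A_pos` for `v l0` `(v l0).l k ≠ ⊥` for all large `k`, so `(v l').l k ≠ ⊥` (`Chn.le'`, `Le.l`), so `g l' k ≤ (v l').l k` (`hge`).
So `f m y k < (v l').l k` for all large `k`, `Pos (v l') m y` (`CPP.fr`, `Fr`).
CASE `z ≤ y`: for large `k`: for all `l < j` there is `l'` with `l < l' < j` (`Lim`), so `(v l).l k < g l' k ≤ f m z k` (`hlt`, second part of `hex`); also `p.l k ≤ (v ⊥).l k` (`lep`). So `u.l k ≤ f m z k` (`Lm_lt`: every `x < u.l k` is `< f m z k`) `≤ f m y k`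
(`CPP.F1` or equality) for all large `k`: contradiction to `Pos u m y` (`not_fr` or `Fr.and_ev`). -/

set_option autoImplicit false

universe u v

namespace COD

open WCal WM

variable {N : Type u} [WM N] {K : Type v} [WTy N K] [KTy N K] {D : CPD N K} {m0 : K} {p : Pre N K}
  {v : Fn N K (Pre N K)} {j : K}

theorem exact_pos (B : Bs N K) (P : CPP D) (h : Chn D m0 p v j) (hj : j ≤ m0) (hlim : Lim N j) {g : K → Fn N K K}
    (hge : ∀ l, l < j → ∀ k, NL N k → m0 ≤ k → (v l).2.1 k ≠ ⊥ → g l k ≤ (v l).2.1 k)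
    (hgm : ∀ l l', l < l' → l' < j → ∀ k, Lv N k → m0 ≤ k → g l k < g l' k)
    (hlt : ∀ l l', l < l' → l' < j → ∀ k, Lv N k → m0 ≤ k → (v l).2.1 k < g l' k)
    {m : K} (hm : m0 < m) (hm' : LL N m) (hmA : m ∈ (Lm p v j).1)
    (hex : ∃ z, z < nx N m ∧ (∀ y, y < z → ∃ l, l < j ∧ Ev N m (D.S m) (fun k => D.f m y k < g l k)) ∧
        Ev N m (D.S m) (fun k => ∀ l, l < j → g l k ≤ D.f m z k)) {y : K} (hy : y < nx N m)
    (hpos : Pos D (Lm p v j) m y) : ∃ l, l < j ∧ Pos D (v l) m y := by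
  have hNL : ∀ k, k ∈ D.S m → NL N k := fun k hk => (P.S_lt m hm' k hk).2.1
  have hj0 : (⊥ : K) < j := bot_lt_iff_ne_bot.2 hlim.1
  have hm0 : Ev N m (D.S m) (fun k => m0 ≤ k) := ⟨m0, hm, fun k _ hk _ => hk⟩
  obtain ⟨l0, hl0, hl0A⟩ := Lm_act h hlim.1 hmA
  obtain ⟨z, hz, hz1, hz2⟩ := hex
  rcases lt_or_ge y z with hyz | hyz
  · obtain ⟨l, hl, hlE⟩ := hz1 y hyz
    have hl' : max l l0 < j := max_lt hl hl0
    refine ⟨max l l0, hl', Or.inr ⟨hm', P.fr hm' ?_⟩⟩
    have hA := (h.val l0 hl0).A_pos m hl0A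
    refine ((hlE.and hA).and hm0).mono fun k hkS _ hk => ?_
    have hk1 : D.f m y k < g l k := hk.1.1
    have hk2 : ⊥ < (v l0).2.1 k := hk.1.2
    have hk3 : m0 ≤ k := hk.2
    have hkN := hNL k hkS
    have h4 : (v (max l l0)).2.1 k ≠ ⊥ :=
      (hk2.trans_le ((h.le' (le_max_right l l0) hl').1.l k)).ne'
    have h5 : g l k ≤ g (max l l0) k := by
      rcases (le_max_left l l0).lt_or_eq with h6 | h6
      · exact (hgm l _ h6 hl' k (nl_lv B hkN) hk3).le
      · rw [← h6]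
    exact (hk1.trans_le h5).trans_le (hge _ hl' k hkN hk3 h4)
  · exfalso
    have hF : Fr N m (D.S m) (fun k => D.f m y k < (Lm p v j).2.1 k) := by
      rcases hpos with hpos | hpos
      · exact (not_nl_ll hpos.1 hm').elim
      · exact hpos.2
    have hzy : Ev N m (D.S m) (fun k => D.f m z k ≤ D.f m y k) := by
      rcases hyz.lt_or_eq with h6 | h6
      · exact (P.F1 m hm' z y h6 hy).mono fun k _ _ hk => hk.le
      · rw [h6]
        exact ⟨m0, hm, fun _ _ _ _ => le_rfl⟩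
    obtain ⟨k, hkS, -, -, hk1, ⟨hk2, hk3⟩, hk4⟩ := (hF.and_ev ((hz2.and hzy).and hm0)) m0 hm
    have hkL := nl_lv B (hNL k hkS)
    have key : ∀ l, l < j → ¬ D.f m y k < (v l).2.1 k := by
      intro l hl hc
      obtain ⟨l', h6, h7⟩ := hlim.2 l hl
      have h8 := hlt l l' h6 h7 k hkL hk4
      exact absurd (hc.trans h8) (not_lt.2 ((hk2 l' h7).trans hk3))
    rcases (Lm_lt B h hj k _).1 hk1 with h6 | ⟨l, hl, h6⟩
    · exact key ⊥ hj0 (h6.trans_le ((h.lep ⊥ hj0).1.l k))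
    · exact key l hl h6

end COD
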