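import Pool.Agent.COD.Df

/-! # Coding: the recursion of the fusion

(problem MP_328cd5_lc, coding part, package Fh; architect helper51; 1.6 h; other files are black boxes)

`ct d HH j`: the history `HH` cut at `j`; `Vf`: the family of the raised conditions `ZrQ m0 (g l) (e l .. (Q l)).1` computed from a history.
PROOF of `fus_rec`. Apply `ACL D (PQ N K × R)` to `m0`, the default `(d, const ⊥)`, `step j HH := (Q', (e j (ct d HH j) Q').2)` with `Q' := LmQ p (Vf e m0 d HH) j`, `aux := fun _ _ => d`, `lg (q, ρ) := lg q`, `Dc (q, ρ) := Dc q`,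
`bd (q, ρ) := bd q`. All are internal: `if_ct`, `if_Vf` below, `if_LmQ`, `he.comp`. Let `q, g, HH` be the result of `ACL` (`HH j l = (q l, g l)` for `l < j`, `= (d, const ⊥)` otherwise, `q j = step j (HH j)` for `j ≤ m0`); `Q j := (q j).1`,
`ρ j := (q j).2`, `H j := ct d (HH j) j`: so `H j l = (Q l, ρ l)` for `l < j`, `= d` otherwise. `V l := ZrQ m0 (g l) (e l (H l) (Q l)).1` (an internal function). For `l < j` `Vf e m0 d (HH j) l = V l`: `(HH j l) = (q l, g l)`, and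
`ct d (HH j) l = ct d (HH l) l` (`Fn.ext`, `funext`: for `l' < l` both are `q l'`, otherwise both are `d`). So `Q j = LmQ p (Vf .. (HH j)) j = LmQ p V j` (`LmQ` uses only the values at `l < j`: `Fn.ext`, unfold `LmQ`, `Lm`, `LmL`; the private lemma
`LmQ_congr'` below) and `ρ j = (e j (H j) (Q j)).2`. The remaining statements are those of `ACL`. -/

set_option autoImplicit false

universe u v w

namespace COD

open WCal WM

variable {N : Type u} [WM N] {K : Type v} [WTy N K] [KTy N K] {R : Type v} [WTy N R]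

theorem ct_int (d : PQ N K × R) (HH : Fn N K ((PQ N K × R) × Fn N K K)) (j : K) :
    IF N (fun l : K => cit (l < j) (HH l).1 d) := by
  exact if_cit (ip_ltK IF.id (IF.const j)) (IF.fst' (IF.app (IF.const HH) IF.id)) (IF.const d)

/-- the history cut at `j` -/
noncomputable def ct (d : PQ N K × R) (HH : Fn N K ((PQ N K × R) × Fn N K K)) (j : K) : Fn N K (PQ N K × R) :=
  ⟨fun l => cit (l < j) (HH l).1 d, ct_int d HH j⟩

theorem if_ct {α : Type w} [WTy N α] (d : PQ N K × R) {HH : α → Fn N K ((PQ N K × R) × Fn N K K)} {j : α → K}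
    (hH : IF N HH) (hj : IF N j) : IF N (fun a => ct d (HH a) (j a)) := by
  apply IF.lam'
  show IF N (fun z : α × K => cit (z.2 < j z.1) (HH z.1 z.2).1 d)
  exact if_cit (ip_ltK IF.snd (hj.comp IF.fst)) (IF.fst' (IF.app (hH.comp IF.fst) IF.snd)) (IF.const d)

theorem Vf_int {e : K → Fn N K (PQ N K × R) → PQ N K → PQ N K × R}
    (he : IF N (fun z : K × Fn N K (PQ N K × R) × PQ N K => e z.1 z.2.1 z.2.2)) (m0 : K) (d : PQ N K × R) :
    IF N (fun z : Fn N K ((PQ N K × R) × Fn N K K) × K =>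
      ZrQ m0 (z.1 z.2).2 (e z.2 (ct d z.1 z.2) (z.1 z.2).1.1).1) := by
  have h : IF N (fun z : Fn N K ((PQ N K × R) × Fn N K K) × K => z.1 z.2) := IF.app IF.fst IF.snd
  have h3 : IF N (fun z : Fn N K ((PQ N K × R) × Fn N K K) × K =>
      e z.2 (ct d z.1 z.2) (z.1 z.2).1.1) :=
    IF.comp3 he IF.snd (if_ct d IF.fst IF.snd) (IF.fst' (IF.fst' h))
  exact if_ZrQ (IF.const m0) (IF.snd' h) (IF.fst' h3)

private theorem Lm_congr {p : Pre N K} {v v' : Fn N K (Pre N K)} {j : K} (h : ∀ l, l < j → v l = v' l) :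
    Lm p v j = Lm p v' j := by
  have hL : ∀ m, LmL p v j m = LmL p v' j m := by
    intro m
    refine St.ext (Set.ext fun y => ?_)
    show (y < p.2.1 m ∨ ∃ l, l < j ∧ y < (v l).2.1 m) ↔ (y < p.2.1 m ∨ ∃ l, l < j ∧ y < (v' l).2.1 m)
    refine or_congr Iff.rfl (exists_congr fun l => and_congr_right fun hl => ?_)
    rw [h l hl]
  refine Prod.ext ?_ (Prod.ext ?_ (Prod.ext ?_ ?_))
  · refine St.ext (Set.ext fun y => ?_)
    show (y ∈ p.1 ∨ ∃ l, l < j ∧ y ∈ (v l).1) ↔ (y ∈ p.1 ∨ ∃ l, l < j ∧ y ∈ (v' l).1)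
    refine or_congr Iff.rfl (exists_congr fun l => and_congr_right fun hl => ?_)
    rw [h l hl]
  · refine Fn.ext (funext fun m => ?_)
    show lsp (LmL p v j m) = lsp (LmL p v' j m)
    rw [hL m]
  · refine St.ext (Set.ext fun y => ?_)
    show (y ∈ p.2.2.1 ∨ ∃ l, l < j ∧ y ∈ (v l).2.2.1) ↔ (y ∈ p.2.2.1 ∨ ∃ l, l < j ∧ y ∈ (v' l).2.2.1)
    refine or_congr Iff.rfl (exists_congr fun l => and_congr_right fun hl => ?_)
    rw [h l hl]
  · refine St.ext (Set.ext fun y => ?_)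
    show (y ∈ p.2.2.2 ∨ ∃ l, l < j ∧ y ∈ (v l).2.2.2) ↔ (y ∈ p.2.2.2 ∨ ∃ l, l < j ∧ y ∈ (v' l).2.2.2)
    refine or_congr Iff.rfl (exists_congr fun l => and_congr_right fun hl => ?_)
    rw [h l hl]

theorem LmQ_congr' {p : PQ N K} {V V' : Fn N K (PQ N K)} {j : K} (h : ∀ l, l < j → V l = V' l) :
    LmQ p V j = LmQ p V' j := by
  refine Fn.ext (funext fun x => ?_)
  show Lm (p x) (sl V x) j = Lm (p x) (sl V' x) j
  apply Lm_congr
  intro l hl
  show V l x = V' l x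
  rw [h l hl]

/-- the family of the raised conditions computed from a history -/
private noncomputable def Vh {e : K → Fn N K (PQ N K × R) → PQ N K → PQ N K × R}
    (he : IF N (fun z : K × Fn N K (PQ N K × R) × PQ N K => e z.1 z.2.1 z.2.2)) (m0 : K) (d : PQ N K × R)
    (HH : Fn N K ((PQ N K × R) × Fn N K K)) : Fn N K (PQ N K) :=
  ⟨fun l => ZrQ m0 (HH l).2 (e l (ct d HH l) (HH l).1.1).1,
    IF.comp (Vf_int he m0 d) (IF.pair (IF.const HH) IF.id)⟩

private theorem if_Vh {e : K → Fn N K (PQ N K × R) → PQ N K → PQ N K × R}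
    (he : IF N (fun z : K × Fn N K (PQ N K × R) × PQ N K => e z.1 z.2.1 z.2.2)) (m0 : K) (d : PQ N K × R) :
    IF N (fun HH : Fn N K ((PQ N K × R) × Fn N K K) => Vh he m0 d HH) := by
  apply IF.lam'
  exact Vf_int he m0 d

theorem fus_rec [B : Fact (Bs N K)] {D : CPD N K} (hA : ACL D (PQ N K × R)) {m0 : K} (h0 : NL N m0) (h1 : m0 ≠ ⊥)
    (p : PQ N K) (d : PQ N K × R) {e : K → Fn N K (PQ N K × R) → PQ N K → PQ N K × R}
    (he : IF N (fun z : K × Fn N K (PQ N K × R) × PQ N K => e z.1 z.2.1 z.2.2))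
    {lg : PQ N K → K → K} (hlg : IF N (fun z : PQ N K × K => lg z.1 z.2))
    (hlg' : ∀ q m, Lv N m → m ≠ ⊥ → lg q m < nx N m)
    {Dc : PQ N K → K → St N K} (hDc : IF N (fun z : PQ N K × K => Dc z.1 z.2))
    (hDc' : ∀ q l, InE N l → Club N l (Dc q l)) {bd : PQ N K → K} (hbd : IF N bd) :
    ∃ (Q : K → PQ N K) (ρ : K → R) (g : K → Fn N K K) (H : K → Fn N K (PQ N K × R)) (V : Fn N K (PQ N K)),
      IF N Q ∧ IF N ρ ∧ IF N g ∧ IF N H ∧ (∀ j l, l < j → H j l = (Q l, ρ l)) ∧ (∀ j l, ¬ l < j → H j l = d) ∧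
      (∀ l, V l = ZrQ m0 (g l) (e l (H l) (Q l)).1) ∧
      (∀ j, j ≤ m0 → Q j = LmQ p V j ∧ ρ j = (e j (H j) (Q j)).2) ∧
      (∀ j, j ≤ m0 → ∀ m, Lv N m → m0 ≤ m → g j m < nx N m ∧ lg (Q j) m < g j m ∧ ∀ l, l < j → g l m < g j m) ∧
      ∀ i, i ≤ m0 → Lim N i → ∀ l, LL N l → m0 < l →
        (∃ z, z < nx N l ∧ (∀ y, y < z → ∃ j, j < i ∧ Ev N l (D.S l) (fun m => D.f l y m < g j m)) ∧
          Ev N l (D.S l) (fun m => ∀ j, j < i → g j m ≤ D.f l z m)) ∨
        (∀ j, j < i → bd (Q j) ≤ l) ∨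
        ∃ l', InE N l' ∧ l < l' ∧ l ∈ D.C l' ∧ ∀ j, j < i → l ∈ Dc (Q j) l' := by
  have hstepQ : IF N (fun z : K × Fn N K ((PQ N K × R) × Fn N K K) => LmQ p (Vh he m0 d z.2) z.1) :=
    if_LmQ (IF.const p) (IF.comp (if_Vh he m0 d) IF.snd) IF.fst
  have hstep : IF N (fun z : K × Fn N K ((PQ N K × R) × Fn N K K) =>
      ((LmQ p (Vh he m0 d z.2) z.1, (e z.1 (ct d z.2 z.1) (LmQ p (Vh he m0 d z.2) z.1)).2) : PQ N K × R)) :=
    IF.pair hstepQ (IF.snd' (IF.comp3 he IF.fst (if_ct d IF.snd IF.fst) hstepQ))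
  obtain ⟨q, g, HH, hq, hg, hHH, hH1, hH2, hst, hgr, hfin⟩ :=
    hA m0 h0 h1 (d, ⟨fun _ => ⊥, IF.const ⊥⟩)
      (fun j HH => (LmQ p (Vh he m0 d HH) j, (e j (ct d HH j) (LmQ p (Vh he m0 d HH) j)).2))
      (fun _ _ => d) hstep (IF.const d)
      (fun t m => lg t.1 m) (IF.comp2 hlg (IF.fst' IF.fst) IF.snd) (fun t m => hlg' t.1 m)
      (fun t m => Dc t.1 m) (IF.comp2 hDc (IF.fst' IF.fst) IF.snd) (fun t l => hDc' t.1 l)
      (fun t => bd t.1) (hbd.comp IF.fst)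
  have hct : ∀ j l, l < j → ct d (HH j) l = ct d (HH l) l := by
    intro j l hl
    refine Fn.ext (funext fun l' => ?_)
    show cit (l' < l) (HH j l').1 d = cit (l' < l) (HH l l').1 d
    by_cases h' : l' < l
    · rw [cit_pos h', cit_pos h', hH1 j l' (h'.trans hl), hH1 l l' h']
    · rw [cit_neg h', cit_neg h']
  have hHint : IF N (fun j => ct d (HH j) j) := if_ct d hHH IF.id
  have hQint : IF N (fun j => (q j).1) := IF.fst' hq
  have hVint : IF N (fun l => ZrQ m0 (g l) (e l (ct d (HH l) l) (q l).1).1) :=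
    if_ZrQ (IF.const m0) hg (IF.fst' (IF.comp3 he IF.id hHint hQint))
  have hVeq : ∀ j l, l < j →
      Vh he m0 d (HH j) l = ZrQ m0 (g l) (e l (ct d (HH l) l) (q l).1).1 := by
    intro j l hl
    show ZrQ m0 (HH j l).2 (e l (ct d (HH j) l) (HH j l).1.1).1 = _
    rw [hct j l hl, hH1 j l hl]
  refine ⟨fun j => (q j).1, fun j => (q j).2, g, fun j => ct d (HH j) j,
    ⟨fun l => ZrQ m0 (g l) (e l (ct d (HH l) l) (q l).1).1, hVint⟩, hQint, IF.snd' hq, hg, hHint,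
    ?_, ?_, fun l => rfl, ?_, ?_, ?_⟩
  · intro j l hl
    show cit (l < j) (HH j l).1 d = ((q l).1, (q l).2)
    rw [cit_pos hl, hH1 j l hl]
  · intro j l hl
    show cit (l < j) (HH j l).1 d = d
    rw [cit_neg hl]
  · intro j hj
    have h2 := hst j hj
    have h3 : (q j).1 = LmQ p (Vh he m0 d (HH j)) j := by rw [h2]
    have h4 : (q j).2 = (e j (ct d (HH j) j) (LmQ p (Vh he m0 d (HH j)) j)).2 := by rw [h2]
    refine ⟨?_, ?_⟩
    · show (q j).1 = LmQ p ⟨fun l => ZrQ m0 (g l) (e l (ct d (HH l) l) (q l).1).1, hVint⟩ j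
      rw [h3]
      exact LmQ_congr' fun l hl => hVeq j l hl
    · show (q j).2 = (e j (ct d (HH j) j) (q j).1).2
      rw [h4, ← h3]
  · intro j hj m hm hmm
    obtain ⟨h2, h3, -, h4⟩ := hgr j hj m hm hmm
    exact ⟨h2, h3, h4⟩
  · exact hfin

end COD
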