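import Pool.Agent.COD.Fa
import Pool.Agent.COD.Fe
import Pool.Agent.COD.Ff
import Pool.Agent.COD.Fg
import Pool.Agent.COD.Fh

/-! # Coding: fusion (8.1)

(problem MP_328cd5_lc, coding part, package Fi; architect helper51; 1.6 h; other files are black boxes)

`FuD`: the data given by `fus_rec` and the functions of `Fe.lean` (everything needed for the induction).
PROOFS. `inv_lim`: let `j ≤ m0` and assume `Inv` for all `l < j` (`Inv l`: `Q l` is valid, below `p`, and below all `V l'`, `l' < l`). For `l < j`: `V l = ZrQ m0 (g l) (e l (H l) (Q l)).1`; `(e ..).1` is `VI`, `LeUQ` below `Q l` (`good`); `g l m < nx m` for `NL m`, `m0 ≤ m`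
(`gb`, `nl_lv`; `l ≤ m0`); so `V l` is `VI` and `LeUQ` below `(e ..).1` (`ZrQ_VI`), hence below `Q l` and `p` (`LeU.trans`). `ChnQ D m0 I p V j`: for `l < l' < j`: `V l' ≤ Q l' ≤ V l`. This is `inv_chn`.
`inv_exc` (`Lim N j`): for every `x` `Exc D m0 (p x) (sl V x) j`: let `m0 < m`, `LL m`, `m ∈ (Lm ..).A`, `Pos .. m y`. Use the alternative `alt` for `i = j`, `l = m`. (exact): `exact_pos` with `hge`: `Zr_ge`, `Zr_ne` (if `(V l x).l k ≠ ⊥` then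
`((e ..).1 x).l k ≠ ⊥`); `hgm`: `gb`; `hlt`: `(V l x).l k ≤ (Q l' x).l k` (`Inv l'`) `≤ lg (Q l') k < g l' k` (`lgq`, `gb`; `k ≠ ⊥` as `m0 ≤ k`, `m0 ≠ ⊥`: `bot_lt_iff_ne_bot`). The other two alternatives are impossible: `Lm_act` gives `l < j` with `m ∈ (V l x).A`, take `l'` with
`l < l' < j`; `m ∈ (Q l' x).A` (`Le.A`); but (second) `bd (Q l') ≤ m` gives `Idle (Q l' x) m`; (third) `m ∈ D.C l'' ∩ Dc (Q l') l''`, take `c = m` in `dcq`: `m ≤ D.h l'' m` and `m ≠ nx m` by `CPP.C_h`, `lt_nx`: `Idle (Q l' x) m`.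
`inv_step`: `Q j = LmQ p V j` (`rcq`). CASES (`K` is a well-order): `j = ⊥`: `LmQ_bot`. There is a largest `k < j`: `LmQ_succ`, `Q j = V k`, the chain gives `≤ V l` (`LeU.refl` for `l = k`), `≤ p`. Otherwise `Lim N j`: `LmQ_VI`, `LmQ_le`, `LmQ_lep` with `inv_exc`.
`inv_all`: strong induction (`WellFoundedLT.induction`). `fusion`: take `lg, bd, Dc` from `Fe.lean`, apply `fus_rec` (`haveI := Fact.mk B`); `LeUQ (Q j) (e l (H l) (Q l)).1` for `l < j`: `Q j ≤ V l ≤ (e ..).1` (`inv_all`, `ZrQ_VI`). Last clause: if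
`p x = one` and all `(e l (H l) (Q l)).1 x = one` for `l < j` then `V l x = one` (`Zr_one`), so `Q j x = Lm one (sl V x) j = one` (`Lm_one`). -/

set_option autoImplicit false

universe u v w

namespace COD

open WCal WM

variable {N : Type u} [WM N] {K : Type v} [WTy N K] [KTy N K] {R : Type v} [WTy N R]

/-- the data of the induction -/
structure FuD (D : CPD N K) (m0 : K) (I : St N K) (p : PQ N K)
    (e : K → Fn N K (PQ N K × R) → PQ N K → PQ N K × R) (lg : PQ N K → K → K) (Dc : PQ N K → K → St N K)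
    (bd : PQ N K → K) (Q : K → PQ N K) (g : K → Fn N K K) (H : K → Fn N K (PQ N K × R))
    (V : Fn N K (PQ N K)) : Prop where
  h0 : NL N m0
  h1 : m0 ≠ ⊥
  hI : Cnt I ∨ m0 = nx N (⊥ : K)
  hp : VI D I p
  good : ∀ j h q, VI D I q → VI D I (e j h q).1 ∧ LeUQ D m0 (e j h q).1 q
  lgq : ∀ q, VQ D q → ∀ m, Lv N m → m ≠ ⊥ → ∀ x, (q x).2.1 m ≤ lg q m
  bdq : ∀ q, VQ D q → ∀ x m, bd q ≤ m → Idle (q x) m
  dcq : ∀ q, VQ D q → ∀ l, InE N l → ∀ c, c ∈ D.C l → c ∈ Dc q l → ∀ m, Lv N m → c ≤ m → m ≤ D.h l c → m ≠ nx N c →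
      ∀ x, Idle (q x) m
  hV : ∀ l, V l = ZrQ m0 (g l) (e l (H l) (Q l)).1
  rcq : ∀ j, j ≤ m0 → Q j = LmQ p V j
  gb : ∀ j, j ≤ m0 → ∀ m, Lv N m → m0 ≤ m → g j m < nx N m ∧ lg (Q j) m < g j m ∧ ∀ l, l < j → g l m < g j m
  alt : ∀ i, i ≤ m0 → Lim N i → ∀ l, LL N l → m0 < l →
        (∃ z, z < nx N l ∧ (∀ y, y < z → ∃ j, j < i ∧ Ev N l (D.S l) (fun m => D.f l y m < g j m)) ∧
          Ev N l (D.S l) (fun m => ∀ j, j < i → g j m ≤ D.f l z m)) ∨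
        (∀ j, j < i → bd (Q j) ≤ l) ∨
        ∃ l', InE N l' ∧ l < l' ∧ l ∈ D.C l' ∧ ∀ j, j < i → l ∈ Dc (Q j) l'

/-- the invariant -/
def Inv (D : CPD N K) (m0 : K) (I : St N K) (p : PQ N K) (Q : K → PQ N K) (V : Fn N K (PQ N K)) (j : K) : Prop :=
  VI D I (Q j) ∧ LeUQ D m0 (Q j) p ∧ ∀ l, l < j → LeUQ D m0 (Q j) (V l)

private theorem leUQ_trans {D : CPD N K} (P : CPP D) {m0 : K} {p q t : PQ N K} (hq : VQ D q)
    (ht : VQ D t) (h : LeUQ D m0 p q) (h' : LeUQ D m0 q t) : LeUQ D m0 p t :=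
  fun x => LeU.trans P (hq.val x) (ht.val x) (h x) (h' x)

section

variable {D : CPD N K} {m0 : K} {I : St N K} {p : PQ N K}
    {e : K → Fn N K (PQ N K × R) → PQ N K → PQ N K × R} {lg : PQ N K → K → K} {Dc : PQ N K → K → St N K}
    {bd : PQ N K → K} {Q : K → PQ N K} {g : K → Fn N K K} {H : K → Fn N K (PQ N K × R)}
    {V : Fn N K (PQ N K)}

theorem V_le (B : Bs N K) (P : CPP D) (h : FuD D m0 I p e lg Dc bd Q g H V) {l : K} (hl : l ≤ m0)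
    (hi : Inv D m0 I p Q V l) : VI D I (V l) ∧ LeUQ D m0 (V l) (e l (H l) (Q l)).1 ∧ LeUQ D m0 (V l) (Q l) := by
  have hg : ∀ m, NL N m → m0 ≤ m → g l m < nx N m := fun m hm hm0 =>
    (h.gb l hl m (nl_lv B hm) hm0).1
  obtain ⟨h2, h3⟩ := h.good l (H l) (Q l) hi.1
  obtain ⟨h4, h5⟩ := ZrQ_VI B P h.h1 hg h2
  rw [h.hV l]
  exact ⟨h4, h5, leUQ_trans P h2.1 hi.1.1 h5 h3⟩

theorem inv_chn (B : Bs N K) (P : CPP D) (h : FuD D m0 I p e lg Dc bd Q g H V) {j : K} (hj : j ≤ m0)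
    (hi : ∀ l, l < j → Inv D m0 I p Q V l) : ChnQ D m0 I p V j := by
  have hv := fun l (hl : l < j) => V_le B P h (hl.le.trans hj) (hi l hl)
  exact ⟨h.hp, fun l hl => (hv l hl).1,
    fun l hl => leUQ_trans P (hi l hl).1.1 h.hp.1 (hv l hl).2.2 (hi l hl).2.1,
    fun l l' hll hl' => leUQ_trans P (hi l' hl').1.1 (hv l (hll.trans hl')).1.1 (hv l' hl').2.2
      ((hi l' hl').2.2 l hll)⟩

theorem inv_exc (B : Bs N K) (P : CPP D) (h : FuD D m0 I p e lg Dc bd Q g H V) {j : K} (hj : j ≤ m0)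
    (hi : ∀ l, l < j → Inv D m0 I p Q V l) (hlim : Lim N j) (x : K) : Exc D m0 (p x) (sl V x) j := by
  intro m hm hLL hmA y hy hpos
  have hc := (inv_chn B P h hj hi).at x
  have hact : ∃ l', l' < j ∧ m ∈ (Q l' x).1 := by
    obtain ⟨l, hl, hlA⟩ := Lm_act hc hlim.1 hmA
    obtain ⟨l', hll', hl'⟩ := hlim.2 l hl
    exact ⟨l', hl', (((hi l' hl').2.2 l hll') x).1.A m hlA⟩
  have hge : ∀ l, l < j → ∀ k, NL N k → m0 ≤ k → (sl V x l).2.1 k ≠ ⊥ →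
      g l k ≤ (sl V x l).2.1 k := by
    intro l hl k hk hk0 hne
    have hVx : V l x = Zr m0 (g l) ((e l (H l) (Q l)).1 x) := by
      rw [h.hV l]
      rfl
    change (V l x).2.1 k ≠ ⊥ at hne
    change g l k ≤ (V l x).2.1 k
    rw [hVx] at hne ⊢
    exact Zr_ge hk0 (Zr_ne.1 hne)
  have hgm : ∀ l l', l < l' → l' < j → ∀ k, Lv N k → m0 ≤ k → g l k < g l' k :=
    fun l l' hll hl' k hk hk0 => (h.gb l' (hl'.le.trans hj) k hk hk0).2.2 l hll
  have hlt : ∀ l l', l < l' → l' < j → ∀ k, Lv N k → m0 ≤ k → (sl V x l).2.1 k < g l' k := by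
    intro l l' hll hl' k hk hk0
    have h1 : (V l x).2.1 k ≤ (Q l' x).2.1 k := (((hi l' hl').2.2 l hll) x).1.l k
    have hk1 : k ≠ ⊥ := fun e => h.h1 (le_bot_iff.1 (e ▸ hk0))
    have h2 := h.lgq (Q l') (hi l' hl').1.1 k hk hk1 x
    exact (h1.trans h2).trans_lt (h.gb l' (hl'.le.trans hj) k hk hk0).2.1
  rcases h.alt j hj hlim m hLL hm with hex | hbd | ⟨l'', hE, -, hC, hDc⟩
  · exact exact_pos B P hc hj hlim hge hgm hlt hm hLL hmA hex hy hpos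
  · obtain ⟨l', hl', hA⟩ := hact
    exact absurd hA (h.bdq (Q l') (hi l' hl').1.1 x m (hbd l' hl')).1
  · obtain ⟨l', hl', hA⟩ := hact
    have h1 := (P.C_h l'' hE m hC).1
    exact absurd hA (h.dcq (Q l') (hi l' hl').1.1 l'' hE m hC (hDc l' hl') m (Or.inr hLL.1) le_rfl
      (((lt_nx B m).trans (lt_nx B _)).le.trans h1) (lt_nx B m).ne x).1

theorem inv_step (B : Bs N K) (P : CPP D) (h : FuD D m0 I p e lg Dc bd Q g H V) {j : K} (hj : j ≤ m0)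
    (hi : ∀ l, l < j → Inv D m0 I p Q V l) : Inv D m0 I p Q V j := by
  have hc := inv_chn B P h hj hi
  have hQ := h.rcq j hj
  unfold Inv
  by_cases hj0 : j = ⊥
  · rw [hj0, LmQ_bot] at hQ
    rw [hj0, hQ]
    exact ⟨h.hp, fun x => LeU.refl D m0 _, fun l hl => absurd hl not_lt_bot⟩
  by_cases hmax : ∃ k, k < j ∧ ∀ l, l < j → l ≤ k
  · obtain ⟨k, hk, hm⟩ := hmax
    rw [LmQ_succ B hc hk hm] at hQ
    rw [hQ]
    refine ⟨(V_le B P h (hk.le.trans hj) (hi k hk)).1, hc.lep k hk, fun l hl => ?_⟩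
    rcases (hm l hl).lt_or_eq with h3 | h3
    · exact hc.le l k h3 hk
    · rw [h3]
      exact fun x => LeU.refl D m0 _
  · have hlim : Lim N j := by
      refine ⟨hj0, fun x hx => ?_⟩
      by_contra hcon
      refine hmax ⟨x, hx, fun l hl => ?_⟩
      by_contra h3
      exact hcon ⟨l, not_le.1 h3, hl⟩
    have he : ∀ x, Exc D m0 (p x) (sl V x) j := inv_exc B P h hj hi hlim
    rw [hQ]
    exact ⟨LmQ_VI B P h.h0 h.h1 h.hI hc hj hj0 he, LmQ_lep B P h.h0 h.h1 hc hj hj0 he,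
      fun l hl => LmQ_le B P h.h0 h.h1 hc hj he hl⟩

theorem inv_all (B : Bs N K) (P : CPP D) (h : FuD D m0 I p e lg Dc bd Q g H V) : ∀ j, j ≤ m0 → Inv D m0 I p Q V j := by
  intro j
  induction j using WellFoundedLT.induction with
  | ind j ih => exact fun hj => inv_step B P h hj fun l hl => ih l hl (hl.le.trans hj)

end

/-- **fusion** -/
theorem fusion (B : Bs N K) {D : CPD N K} (P : CPP D) (hA : ACL D (PQ N K × R)) {m0 : K} (h0 : NL N m0)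
    (h1 : m0 ≠ ⊥) {I : St N K} (hI : Cnt I ∨ m0 = nx N (⊥ : K)) {p : PQ N K} (hp : VI D I p) (d : PQ N K × R)
    {e : K → Fn N K (PQ N K × R) → PQ N K → PQ N K × R}
    (he : IF N (fun z : K × Fn N K (PQ N K × R) × PQ N K => e z.1 z.2.1 z.2.2))
    (hgood : ∀ j h q, VI D I q → VI D I (e j h q).1 ∧ LeUQ D m0 (e j h q).1 q) :
    ∃ (Q : K → PQ N K) (ρ : K → R) (H : K → Fn N K (PQ N K × R)), IF N Q ∧ IF N ρ ∧ IF N H ∧
      (∀ j l, l < j → H j l = (Q l, ρ l)) ∧ (∀ j l, ¬ l < j → H j l = d) ∧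
      (∀ j, j ≤ m0 → VI D I (Q j) ∧ LeUQ D m0 (Q j) p ∧ ρ j = (e j (H j) (Q j)).2) ∧
      (∀ j l, j ≤ m0 → l < j → LeUQ D m0 (Q j) (e l (H l) (Q l)).1) ∧
      ∀ j x, j ≤ m0 → Q j x ≠ one → p x ≠ one ∨ ∃ l, l < j ∧ (e l (H l) (Q l)).1 x ≠ one := by
  have : Fact (Bs N K) := ⟨B⟩
  obtain ⟨lg, hlg, hlg1, hlg2⟩ := exists_lg (D := D) B P
  obtain ⟨bd, hbd, hbd1⟩ := exists_bd (D := D) B P
  obtain ⟨Dc, hDc, hDc1, hDc2⟩ := exists_Dc (D := D) B P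
  obtain ⟨Q, ρ, g, H, V, hQ, hρ, hg, hH, hH1, hH2, hV, hrc, hgb, halt⟩ :=
    fus_rec hA h0 h1 p d he hlg hlg1 hDc hDc1 hbd
  have h : FuD D m0 I p e lg Dc bd Q g H V := ⟨h0, h1, hI, hp, hgood, hlg2, hbd1, hDc2, hV,
    fun j hj => (hrc j hj).1, hgb, halt⟩
  have hinv := inv_all B P h
  refine ⟨Q, ρ, H, hQ, hρ, hH, hH1, hH2,
    fun j hj => ⟨(hinv j hj).1, (hinv j hj).2.1, (hrc j hj).2⟩, fun j l hj hl => ?_,
    fun j x hj hne => ?_⟩
  · have hl0 : l ≤ m0 := hl.le.trans hj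
    have h3 := V_le B P h hl0 (hinv l hl0)
    have h4 := (h.good l (H l) (Q l) (hinv l hl0).1).1
    exact leUQ_trans P h3.1.1 h4.1 ((hinv j hj).2.2 l hl) h3.2.1
  · by_contra hcon
    push Not at hcon
    obtain ⟨hp1, hl1⟩ := hcon
    apply hne
    rw [(hrc j hj).1]
    change Lm (p x) (sl V x) j = one
    rw [hp1]
    refine Lm_one fun l hl => ?_
    change V l x = one
    rw [hV l]
    change Zr m0 (g l) ((e l (H l) (Q l)).1 x) = one
    rw [hl1 l hl]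
    exact Zr_one m0 (g l)

end COD
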