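import Pool.Agent.COD.Gna

/-! # Coding: the generic subsets satisfy the decoding equations

(problem MP_328cd5_lc, coding part, package Gnb; architect helper51; 1.5 h; other files are black
boxes)

PROOFS. Let `q0 ∈ G` (`gen_ne`).
`D1`. `nx m` is `NL` (`nl_nx`). By `gen_pos` for the level `nx m` (and again for the level `m`, to
get `NL m ∨ m ∈ (q x).1`; both are inherited by extensions:
`Le.A`) there is `q ∈ G` with `n < (q x).l (nx m)`, `NL m ∨ m ∈ (q x).1`. `Dg D G x (nx m) n ↔ (nx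
m, n) ∈ (q x).s` (`Dg_iff`; `Pos`, `Bit` for `NL` levels by
`not_nl_ll`), and the same for all `q' ∈ G` below `q` (`Le.s`).
(a) Let `(nx m, n) ∈ (q x).s`. By `dens1` and `promise` there is `q1 ∈ G` below `q` with `(m, n) ∈
(q1 x).r`. By `pos_bdd` there is `e < nx m` with `y < e` for all positions
`y` of `q1 x` at `m`. Let `y ∈ b m n True`, `e ≤ y`; suppose `Dg D G x m y`, by `q2 ∈ G`. Let `r ∈
G` be below `q1`, `q2`; `Bit D (r x) m y` (`Bit.mono`), so `Pos D (r x) m y`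
(`Bit.pos`), `¬ Pos D (q1 x) m y`; `Le.pro` for `r x ≤ q1 x`, where `((nx m, n) ∈ (q1 x).s) =
True`: contradiction.
(b) Let `(nx m, n) ∉ (q x).s`. Suppose `e < nx m` and `¬ Dg D G x m y` for all `y ∈ b m n True`,
`e ≤ y`. By `dens1` and `bit` (with `v = True`) there are `q1 ∈ G` below `q`
and `y ∈ b m n True`, `e < y`, with `Bit D (q1 x) m y` (the predicate `fun p => ∃ y, e < y ∧ y ∈ b
m n True ∧ Bit D p m y` is internal; for extensions `p` of `q x` still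
`(nx m, n) ∉ p.s`, `n < p.l (nx m)`). `y < nx m` by `CPP.b_lt`. So `Dg D G x m y`, contradiction.
`D2`. By `gen_pos` there is `q ∈ G` with `l ∈ (q x).1`, `Pos D (q x) l n`. `Dg D G x l n ↔ Bit D
(q x) l n` (`Dg_iff`). If `Bit D (q x) l n` then for large `k ∈ S l`
`(k, f l n k) ∈ (q x).s`, `k` is `NL` (`CPP.S_lt`), so `Dg D G x k (f l n k)` (`f l n k < nx k`:
`CPP.f_lt`). If not, then `Zer D (q x) l n` (`Val.dec`), i.e.
`f l n k < (q x).l k`, `(k, f l n k) ∉ (q x).s` for unboundedly many `k ∈ S l`, for these `¬ Dg D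
G x k (f l n k)` (`Dg_iff`).
`D3`. `dens` for the predicate `fun q => ∃ x, n < (q x).l m ∧ (m, n) ∈ (q x).s ∧ ∀ y, y < n → (m,
y) ∉ (q x).s`: for a valid `q` choose `x` outside of the support
(`VQ.supp`, `exists_not_mem`) and `q' = upd q x p` for the `p` of `seed`; `q' ≤ q` since `q x =
one` (`le_one`). Then `Dg_iff` for `n` and for `n' < n`. -/

set_option autoImplicit false

universe u v

namespace COD

open WCal WM

variable {N : Type u} [WM N] {K : Type v} [WTy N K] [KTy N K] {D : CPD N K} {I : St N K} {G : Set (PQ N K)}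

private theorem vq (hG : TGen N (VI D I) (LeQ D) G) {q : PQ N K} (hq : q ∈ G) (x : K) :
    Val D (q x) := (hG.val q hq).1.val x

private theorem bit_nl {p : Pre N K} {m y : K} (hm : NL N m) :
    Bit D p m y ↔ (m, y) ∈ p.2.2.1 := by
  constructor
  · rintro (⟨-, h⟩ | ⟨h, -⟩)
    · exact h
    · exact (not_nl_ll hm h).elim
  · exact fun h => Or.inl ⟨hm, h⟩

private theorem pos_nl {p : Pre N K} {m y : K} (hm : NL N m) :
    Pos D p m y ↔ y < p.2.1 m := by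
  constructor
  · rintro (⟨-, h⟩ | ⟨h, -⟩)
    · exact h
    · exact (not_nl_ll hm h).elim
  · exact fun h => Or.inl ⟨hm, h⟩

theorem D1 (B : Bs N K) (P : CPP D) (hG : TGen N (VI D I) (LeQ D) G) {x : K} (hx : x ∈ I) {m n : K} (hm : Lv N m)
    (hn : n < nx N (nx N m)) : Dg D G x (nx N m) n ↔
      ∃ e, e < nx N m ∧ ∀ y, y ∈ D.b m n True → e ≤ y → ¬ Dg D G x m y := by
  have iB : Fact (Bs N K) := ⟨B⟩
  have iP : Fact (CPP D) := ⟨P⟩
  obtain ⟨q0, h0⟩ := gen_ne B hG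
  have hnm : NL N (nx N m) := nl_nx hm
  obtain ⟨q1, h1, -, -, h1p⟩ := gen_pos B P hG hx h0 (Or.inr (cd_nx B m)) hn
  obtain ⟨q, hq, hq1, hqA, -⟩ := gen_pos B P hG hx h1 hm
    (lt_of_le_of_lt (bot_le (a := m)) (lt_nx B m))
  have hnq : n < (q x).2.1 (nx N m) :=
    lt_of_lt_of_le ((pos_nl hnm).1 h1p) ((hq1 x).l (nx N m))
  have hD : Dg D G x (nx N m) n ↔ (nx N m, n) ∈ (q x).2.2.1 :=
    (Dg_iff P hG hq (Or.inl hnm) hn ((pos_nl hnm).2 hnq)).trans (bit_nl hnm)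
  rw [hD]
  constructor
  · intro hs
    obtain ⟨q2, hq2, hq2q, hr⟩ := dens1 B P hG hx hq (Q := fun p => (m, n) ∈ p.2.2.2)
      (IP.mem (IF.const _) (IF.snd' (IF.snd' (IF.snd' IF.id)))) (by
        intro p hp hpq
        exact promise B P hp (hqA.imp id (fun h => hpq.A m h))
          (lt_of_lt_of_le hnq (hpq.l (nx N m))))
    obtain ⟨e, he, hbd⟩ := pos_bdd B P (vq hG hq2 x) hm
    refine ⟨e, he, fun y hy hey hDg => ?_⟩
    obtain ⟨hyn, q3, hq3, -, hb3⟩ := hDg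
    obtain ⟨r, hrG, -, hr2, hr3⟩ := gen_two hG hq2 hq3
    have hb : Bit D (r x) m y := hb3.mono (vq hG hq3 x) (hr3 x)
    have hpos : Pos D (r x) m y := hb.pos P (vq hG hrG x)
    have hnpos : ¬ Pos D (q2 x) m y := fun h => absurd (hbd y h hyn) (not_lt.2 hey)
    have hs2 : (nx N m, n) ∈ (q2 x).2.2.1 := ((hq2q x).s _ _ hnq).1 hs
    have e1 : ((nx N m, n) ∈ (q2 x).2.2.1) = True := propext ⟨fun _ => trivial, fun _ => hs2⟩
    exact (hr2 x).pro m n hr y (by rw [e1]; exact hy) hpos hnpos hb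
  · rintro ⟨e, he, hall⟩
    by_contra hs
    obtain ⟨q2, hq2, hq2q, y, hey, hyb, hbit⟩ := dens1 B P hG hx hq
      (Q := fun p => ∃ y, e < y ∧ y ∈ D.b m n True ∧ Bit D p m y)
      (IP.ex (IP.and (ip_ltK (IF.const _) IF.snd) (IP.and (IP.mem IF.snd (IF.const _))
        (ip_Bit IF.fst (IF.const _) IF.snd)))) (by
        intro p hp hpq
        have hnp : n < p.2.1 (nx N m) := lt_of_lt_of_le hnq (hpq.l (nx N m))
        have hsp : (nx N m, n) ∉ p.2.2.1 := fun h => hs (((hpq.s _ _ hnq)).2 h)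
        have hv : True ≠ ((nx N m, n) ∈ p.2.2.1) := fun h => hsp (h ▸ trivial)
        obtain ⟨p', hp', hpp', y, hy1, hy2, hy3⟩ := bit B P hp
          (hqA.imp id (fun h => hpq.A m h)) hnp hv he
        exact ⟨p', hp', hpp', y, hy1, hy2, hy3⟩)
    refine hall y hyb hey.le ⟨P.b_lt m n True hm hn y hyb, q2, hq2, fun hLL => ?_, hbit⟩
    rcases hqA with h | h
    · exact (not_nl_ll h hLL).elim
    · exact (hq2q x).A m h

theorem D2 (B : Bs N K) (P : CPP D) (hG : TGen N (VI D I) (LeQ D) G) {x : K} (hx : x ∈ I) {l n : K} (hl : LL N l)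
    (hn : n < nx N l) : Dg D G x l n ↔ Ev N l (D.S l) (fun k => Dg D G x k (D.f l n k)) := by
  obtain ⟨q0, h0⟩ := gen_ne B hG
  obtain ⟨q, hq, -, hqA, hqp⟩ := gen_pos B P hG hx h0 (Or.inr hl.1) hn
  have hA : l ∈ (q x).1 := by
    rcases hqA with h | h
    · exact (not_nl_ll h hl).elim
    · exact h
  rw [Dg_iff P hG hq hqA hn hqp]
  constructor
  · rintro (⟨h, -⟩ | ⟨-, h⟩)
    · exact (not_nl_ll h hl).elim
    · refine h.mono fun k hk _ hk1 => ?_
      have hkn := (P.S_lt l hl k hk).2.1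
      exact ⟨P.f_lt l hl n hn k hk, q, hq, fun h => (not_nl_ll hkn h).elim,
        Or.inl ⟨hkn, hk1.2⟩⟩
  · intro hEv
    rcases (vq hG hq x).dec l hA n hn hqp with h | h
    · exact h
    · exfalso
      obtain ⟨k, hk, -, -, ⟨h1, h2⟩, h3⟩ := (Fr.and_ev h hEv) ⊥
        (bot_lt_iff_ne_bot.2 (cd_ne hl.1))
      have hkn := (P.S_lt l hl k hk).2.1
      exact h2 ((bit_nl hkn).1 ((Dg_iff P hG hq (Or.inl hkn) (P.f_lt l hl n hn k hk)
        ((pos_nl hkn).2 h1)).1 h3))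

theorem D3 (B : Bs N K) (P : CPP D) (hI : ∀ x, x ∈ I) (hG : TGen N (VI D I) (LeQ D) G) {m n : K} (hm : NL N m)
    (hn : n < nx N m) : ∃ x, Dg D G x m n ∧ ∀ n', n' < n → ¬ Dg D G x m n' := by
  have iB : Fact (Bs N K) := ⟨B⟩
  have iP : Fact (CPP D) := ⟨P⟩
  obtain ⟨q0, h0⟩ := gen_ne B hG
  obtain ⟨q, hq, -, x, hx1, hx2, hx3⟩ := dens B P hG h0
    (Q := fun q => ∃ x, n < (q x).2.1 m ∧ (m, n) ∈ (q x).2.2.1 ∧
      ∀ y, y < n → (m, y) ∉ (q x).2.2.1) (by simp (maxDischargeDepth := 99)) (by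
      intro q hq _
      obtain ⟨J, hJ, hJ1⟩ := hq.1.supp
      obtain ⟨x, hxJ⟩ := exists_not_mem B hJ
      have hqx : q x = one := by
        by_contra h
        exact hxJ ((hJ1 x).2 h)
      obtain ⟨p, hp, hp1, hp2, hp3⟩ := seed B P hm hn
      refine ⟨upd q x p, hq.upd hp (hI x), LeQ.upd (by rw [hqx]; exact le_one p), x, ?_⟩
      rw [upd_same]
      exact ⟨hp1, hp2, fun y hy => hp3 y hy.ne⟩)
  refine ⟨x, (Dg_iff P hG hq (Or.inl hm) hn ((pos_nl hm).2 hx1)).2 ((bit_nl hm).2 hx2),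
    fun n' hn' h => ?_⟩
  exact hx3 n' hn' ((bit_nl hm).1 ((Dg_iff P hG hq (Or.inl hm) (hn'.trans hn)
    ((pos_nl hm).2 (hn'.trans hx1))).1 h))

end COD
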