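import Pool.Agent.COD.Gna

/-! # Coding: the generic reals are new (P7)

(problem MP_328cd5_lc, coding part, package Gp; architect helper51; 1.0 h; other files are black boxes)

PROOFS. `split`: `⊥` is `NL`, `nx ⊥` is `NL`. Let `e < nx ⊥`. By `raise` at `nx ⊥` (and `y` = the old length `p.l (nx ⊥)`, which is `< nx (nx ⊥)` by `Val.l_nl`, or `⊥`)
there is a valid `p' ≤ p` with `n := p.l (nx ⊥) < p'.l (nx ⊥)`. Let `e' < nx ⊥` be above `e` and `p'.l ⊥` (`lim_cd`). `bit` for `p'`, the level `⊥`, `n`,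
`v := ¬ ((nx ⊥, n) ∈ p'.s)` (as a proposition different from `(nx ⊥, n) ∈ p'.s`) and `e'` gives `p1 ≤ p'` and `x > e'` with `Bit D p1 ⊥ x`, that is
`(⊥, x) ∈ p1.s` (`not_nl_ll`), and `x < p1.l ⊥ < nx ⊥` (`Val.s_lt`, `Val.l_nl`). `raise` for `p'`, `⊥`, `x` gives `p0 ≤ p'` with `x < p0.l ⊥`. It may happen that `(⊥, x) ∈ p0.s`? To exclude
this use `zero_ext` directly (as in the proof of `raise`): `p0 = (p'.1, l', p'.s, p'.r)` with `l' = p'.l` updated at `⊥` to some `y'` with `x < y' < nx ⊥`; then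
`(⊥, x) ∉ p'.s = p0.s` as `p'.l ⊥ ≤ x` (`Val.s_lt`). `W = (· = ⊥)`, `W_one`.
`new_real`: (for a set `X` of the model and a coordinate `x ∈ I`) the set of all `q` with: there is `n < nx ⊥` with `n < (q x).l ⊥` and `(⊥, n) ∈ (q x).s ↔ n ∉ X` is dense by
`split`; then `Dg_iff`. -/

set_option autoImplicit false

universe u v

namespace COD

open WCal WM

variable {N : Type u} [WM N] {K : Type v} [WTy N K] [KTy N K] {D : CPD N K} {I : St N K} {G : Set (PQ N K)}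

private theorem gp_l_lt (B : Bs N K) {p : Pre N K} (hp : Val D p) (m : K) : p.2.1 m < nx N m := by
  by_cases h : p.2.1 m = ⊥
  · rw [h]
    exact lt_of_le_of_lt bot_le (lt_nx B m)
  · exact (hp.l_nl m h).2

theorem split (B : Bs N K) (P : CPP D) {p : Pre N K} (hp : Val D p) {e : K} (he : e < nx N (⊥ : K)) :
    ∃ (x : K) (p0 p1 : Pre N K), e < x ∧ x < nx N (⊥ : K) ∧ Val D p0 ∧ Le D p0 p ∧ Val D p1 ∧ Le D p1 p ∧
      x < p0.2.1 ⊥ ∧ (⊥, x) ∉ p0.2.2.1 ∧ x < p1.2.1 ⊥ ∧ (⊥, x) ∈ p1.2.2.1 := by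
  have hb : NL N (⊥ : K) := Or.inl rfl
  have hnb : NL N (nx N (⊥ : K)) := Or.inr ⟨⊥, Or.inl rfl, rfl⟩
  obtain ⟨p', hv', hle', hlt', -⟩ := raise B P hp hnb (gp_l_lt B hp (nx N (⊥ : K)))
  have he' : max e (p'.2.1 ⊥) < nx N (⊥ : K) := max_lt he (gp_l_lt B hv' ⊥)
  obtain ⟨p1, hv1, hle1, x, hx, -, hbit⟩ := bit B P hv' (Or.inl hb) hlt'
    (v := ¬ ((nx N (⊥ : K), p.2.1 (nx N ⊥)) ∈ p'.2.2.1)) (fun h => iff_not_self (iff_of_eq h).symm) he'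
  have hex : e < x := lt_of_le_of_lt (le_max_left _ _) hx
  have hpx : p'.2.1 ⊥ < x := lt_of_le_of_lt (le_max_right _ _) hx
  have hmem : ((⊥ : K), x) ∈ p1.2.2.1 := by
    rcases hbit with h | h
    · exact h.2
    · exact (not_nl_ll hb h.1).elim
  have hx1 : x < p1.2.1 ⊥ := hv1.s_lt ⊥ x hmem
  have hxn : x < nx N (⊥ : K) := hx1.trans (gp_l_lt B hv1 ⊥)
  obtain ⟨z, hz1, hz2⟩ := (lim_cd B (cd_nx B (⊥ : K))).2 x hxn
  obtain ⟨l', hm', hne⟩ : ∃ l' : Fn N K K, l' ⊥ = z ∧ ∀ k, k ≠ ⊥ → l' k = p'.2.1 k :=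
    ⟨⟨_, IF.ite (P := fun k => k = (⊥ : K)) (f := fun _ => z) (g := fun k => p'.2.1 k)
      (IP.eq IF.id (IF.const (⊥ : K))) (IF.const z) (IF.app (IF.const _) IF.id)⟩, if_pos rfl,
      fun k hk => if_neg hk⟩
  have h := zero_ext B P hv' l'
    (fun k => by
      by_cases hk : k = ⊥
      · rw [hk, hm']
        exact (hpx.trans hz1).le
      · exact (hne k hk).ge)
    (fun k hk => by
      by_cases hk2 : k = ⊥
      · rw [hk2, hm']
        exact ⟨hb, hz2⟩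
      · exact absurd (hne k hk2) hk)
    (by
      obtain ⟨e1, he1⟩ := hv'.bdd
      obtain ⟨e2, he2, -⟩ := B.unb (⊥ : K)
      refine ⟨max e1 e2, fun k hk => ?_⟩
      have hk2 : k ≠ ⊥ := fun h0 => by
        rw [h0] at hk
        exact absurd (he2.trans_le ((le_max_right _ _).trans hk)) (lt_irrefl _)
      rw [hne k hk2]
      exact (he1 k ((le_max_left _ _).trans hk)).2.1)
    (fun k => k = ⊥) (W_one B P ⊥) hne
  exact ⟨x, _, p1, hex, hxn, h.1, Le.trans P hv' hp h.2 hle', hv1, Le.trans P hv' hp hle1 hle', lt_of_lt_of_eq hz1 hm'.symm,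
    fun h0 => lt_asymm hpx (hv'.s_lt ⊥ x h0), hx1, hmem⟩

theorem new_real (B : Bs N K) (P : CPP D) (hG : TGen N (VI D I) (LeQ D) G) {x : K} (hx : x ∈ I) (X : St N K) :
    ¬ ∀ n, n < nx N (⊥ : K) → (Dg D G x ⊥ n ↔ n ∈ X) := by
  intro h
  obtain ⟨q0, h0⟩ := gen_ne B hG
  have hQ : IP N (fun p : Pre N K => ∃ n, n < nx N (⊥ : K) ∧ n < p.2.1 ⊥ ∧
      ((⊥, n) ∈ p.2.2.1 ↔ n ∉ X)) := by
    have : Fact (Bs N K) := ⟨B⟩
    have : Fact (CPP D) := ⟨P⟩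
    simp (maxDischargeDepth := 99)
  obtain ⟨q, hq, -, n, hn, hnl, hnX⟩ := dens1 B P hG hx h0 hQ (fun p hp _ => by
    obtain ⟨y, p0, p1, -, hy, hv0, hle0, hv1, hle1, h3, h4, h5, h6⟩ := split B P hp (lt_nx B (⊥ : K))
    by_cases hyX : y ∈ X
    · exact ⟨p0, hv0, hle0, y, hy, h3, iff_of_false h4 (not_not.2 hyX)⟩
    · exact ⟨p1, hv1, hle1, y, hy, h5, iff_of_true h6 hyX⟩)
  have hb : NL N (⊥ : K) := Or.inl rfl
  have h1 := (Dg_iff P hG hq (Or.inl hb) hn (Or.inl ⟨hb, hnl⟩)).symm.trans (h n hn)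
  have h2 : Bit D (q x) ⊥ n ↔ (⊥, n) ∈ (q x).2.2.1 :=
    ⟨fun h3 => h3.elim (fun h4 => h4.2) fun h4 => (not_nl_ll hb h4.1).elim, fun h3 => Or.inl ⟨hb, h3⟩⟩
  exact iff_not_self ((h1.symm.trans h2).trans hnX)

end COD
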