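import Pool.Agent.COD.Defs

/-! # Coding: the notions are internal

(problem MP_328cd5_lc; architect helper51; no sorry in this file)

All lemmas are simp lemmas for goals `IP N (fun a => ...)`, `IF N (fun a => ...)`; for predicates which depend on a predicate of
elements (`Ev`, `Fr`, `Cov`) the premise is the internality of the predicate of pairs. -/

set_option autoImplicit false

universe u v w x

namespace COD

open WCal WM

variable {N : Type u} [WM N] {K : Type v} [WTy N K] [KTy N K] {α : Type w} [WTy N α] {β : Type x} [WTy N β]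

@[simp] theorem ip_Cov {m : β → K} {A : β → α → Prop} (hm : IF N m) (hA : IP N (fun p : β × α => A p.1 p.2)) :
    IP N (fun b => Cov N (m b) (A b)) := by
  have h1 : IP N (fun b => ∃ F : Fn N K α, ∀ a, A b a → ∃ x, x < m b ∧ F x = a) := by
    simp (maxDischargeDepth := 99) [hm.comp, hA.comp2]
  refine IP.congr (fun b => ?_) h1
  constructor
  · rintro ⟨F, hF⟩
    exact ⟨F, F.int, hF⟩
  · rintro ⟨f, hf, h⟩
    exact ⟨⟨f, hf⟩, h⟩

/-- the initial segment -/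
def Iio' (a : K) : St N K := ⟨{x | x < a}, ip_ltK IF.id (IF.const a)⟩

omit [KTy N K] in
theorem mem_Iio' [KTy N K] {a x : K} : x ∈ (Iio' a : St N K) ↔ x < a := Iff.rfl

@[simp] theorem if_Iio' {f : α → K} (hf : IF N f) : IF N (fun a => (Iio' (f a) : St N K)) := by
  apply IF.compr'
  exact ip_ltK IF.snd (hf.comp IF.fst)

@[simp] theorem ip_Cd {f : α → K} (hf : IF N f) : IP N (fun a => Cd N (f a)) := by
  have h1 : IP N (fun a : K => Cd N a) :=
    IP.and (IP.not (IP.fin (if_Iio' IF.id))) (IP.all (IP.imp (ip_ltK IF.snd IF.fst)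
      (IP.not (ip_Cov IF.snd (ip_ltK IF.snd (IF.fst.comp IF.fst))))))
  exact IP.comp h1 hf

@[simp] theorem ip_Lv {f : α → K} (hf : IF N f) : IP N (fun a => Lv N (f a)) :=
  IP.or (IP.eq hf (IF.const _)) (ip_Cd hf)

theorem nx_iff (B : Bs N K) (a b : K) : (a < b ∧ Cd N b ∧ ∀ c, a < c → Cd N c → b ≤ c) ↔ nx N a = b := by
  constructor
  · rintro ⟨h1, h2, h3⟩
    exact le_antisymm (nx_le B h1 h2) (h3 _ (nx_spec B a).1 (nx_spec B a).2)
  · rintro rfl
    exact ⟨(nx_spec B a).1, (nx_spec B a).2, fun c hc hc' => nx_le B hc hc'⟩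

@[simp] theorem if_nx [B : Fact (Bs N K)] {f : α → K} (hf : IF N f) : IF N (fun a => nx N (f a)) := by
  have h1 : IF N (fun a : K => nx N a) := by
    refine IF.ofP (Q := fun a b => a < b ∧ Cd N b ∧ ∀ c, a < c → Cd N c → b ≤ c) ?_ (nx_iff B.out)
    exact IP.and KTy.ip_lt (IP.and (ip_Cd IF.snd) (IP.all (IP.imp (ip_ltK (IF.fst.comp IF.fst) IF.snd)
        (IP.imp (ip_Cd IF.snd) (ip_leK (IF.snd.comp IF.fst) IF.snd)))))
  exact IF.comp h1 hf

@[simp] theorem ip_NL [B : Fact (Bs N K)] {f : α → K} (hf : IF N f) : IP N (fun a => NL N (f a)) := by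
  unfold NL
  simp (maxDischargeDepth := 99) [hf.comp]

@[simp] theorem ip_LL [B : Fact (Bs N K)] {f : α → K} (hf : IF N f) : IP N (fun a => LL N (f a)) := by
  unfold LL
  simp (maxDischargeDepth := 99) [hf.comp]

@[simp] theorem ip_Reg {f : α → K} (hf : IF N f) : IP N (fun a => Reg N (f a)) := by
  unfold Reg
  simp (maxDischargeDepth := 99) [hf.comp]

@[simp] theorem ip_InE [B : Fact (Bs N K)] {f : α → K} (hf : IF N f) : IP N (fun a => InE N (f a)) := by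
  unfold InE
  simp (maxDischargeDepth := 99) [hf]

@[simp] theorem ip_Lim {f : α → K} (hf : IF N f) : IP N (fun a => Lim N (f a)) := by
  unfold Lim
  simp (maxDischargeDepth := 99) [hf.comp]

@[simp] theorem ip_Ev {f : α → K} {S : α → St N K} {P : α → K → Prop} (hf : IF N f) (hS : IF N S)
    (hP : IP N (fun p : α × K => P p.1 p.2)) : IP N (fun a => Ev N (f a) (S a) (P a)) := by
  unfold Ev
  simp (maxDischargeDepth := 99) [hf.comp, hS.comp, hP.comp2]

@[simp] theorem ip_Fr {f : α → K} {S : α → St N K} {P : α → K → Prop} (hf : IF N f) (hS : IF N S)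
    (hP : IP N (fun p : α × K => P p.1 p.2)) : IP N (fun a => Fr N (f a) (S a) (P a)) := by
  unfold Fr
  simp (maxDischargeDepth := 99) [hf.comp, hS.comp, hP.comp2]

@[simp] theorem ip_Club {f : α → K} {S : α → St N K} (hf : IF N f) (hS : IF N S) :
    IP N (fun a => Club N (f a) (S a)) := by
  unfold Club
  simp (maxDischargeDepth := 99) [hf.comp, hS.comp]

@[simp] theorem ip_Idle {p : α → Pre N K} {m : α → K} (hp : IF N p) (hm : IF N m) :
    IP N (fun a => Idle (p a) (m a)) := by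
  unfold Idle
  simp (maxDischargeDepth := 99) [hp.comp, hm.comp]

section

variable {D : CPD N K} [P : Fact (CPP D)]

@[simp] theorem if_S {f : α → K} (hf : IF N f) : IF N (fun a => D.S (f a)) := P.out.iS.comp hf

@[simp] theorem if_C {f : α → K} (hf : IF N f) : IF N (fun a => D.C (f a)) := P.out.iC.comp hf

@[simp] theorem if_h {f g : α → K} (hf : IF N f) (hg : IF N g) : IF N (fun a => D.h (f a) (g a)) :=
  IF.comp2 (h := D.h) P.out.ih hf hg

@[simp] theorem if_f {f g h : α → K} (hf : IF N f) (hg : IF N g) (hh : IF N h) :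
    IF N (fun a => D.f (f a) (g a) (h a)) := IF.comp3 (h := D.f) P.out.if' hf hg hh

@[simp] theorem if_b {f g : α → K} {h : α → Prop} (hf : IF N f) (hg : IF N g) (hh : IP N h) :
    IF N (fun a => D.b (f a) (g a) (h a)) := IF.comp3 (h := D.b) P.out.ib hf hg (IF.prop.2 hh)

variable [B : Fact (Bs N K)]

@[simp] theorem ip_Pos {p : α → Pre N K} {m x : α → K} (hp : IF N p) (hm : IF N m) (hx : IF N x) :
    IP N (fun a => Pos D (p a) (m a) (x a)) := by
  unfold Pos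
  simp (maxDischargeDepth := 99) [hp.comp, hm.comp, hx.comp]

@[simp] theorem ip_Bit {p : α → Pre N K} {m x : α → K} (hp : IF N p) (hm : IF N m) (hx : IF N x) :
    IP N (fun a => Bit D (p a) (m a) (x a)) := by
  unfold Bit
  simp (maxDischargeDepth := 99) [hp.comp, hm.comp, hx.comp]

@[simp] theorem ip_Zer {p : α → Pre N K} {m x : α → K} (hp : IF N p) (hm : IF N m) (hx : IF N x) :
    IP N (fun a => Zer D (p a) (m a) (x a)) := by
  unfold Zer
  simp (maxDischargeDepth := 99) [hp.comp, hm.comp, hx.comp]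

/-- the finite part of the validity as an internal predicate -/
theorem ip_finr {α : Type w} [WTy N α] {p : α → Pre N K} {m : α → K} (hp : IF N p) (hm : IF N m) :
    IP N (fun a => {n | (m a, n) ∈ (p a).2.2.2}.Finite) := by
  have h0 : ∀ a, IP N (fun n => (m a, n) ∈ (p a).2.2.2) := fun a =>
    IP.mem (IF.pair (IF.const _) IF.id) (IF.const _)
  have h : IF N (fun a => (⟨{n | (m a, n) ∈ (p a).2.2.2}, h0 a⟩ : St N K)) := by
    apply IF.compr'
    show IP N (fun q : α × K => (m q.1, q.2) ∈ (p q.1).2.2.2)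
    exact IP.mem (IF.pair (hm.comp IF.fst) IF.snd) (IF.snd' (IF.snd' (IF.snd' (hp.comp IF.fst))))
  exact IP.fin h

theorem Val_iff (p : Pre N K) : Val D p ↔
    (∀ m, p.2.1 m ≠ ⊥ → NL N m ∧ p.2.1 m < nx N m) ∧ (∀ m x, (m, x) ∈ p.2.2.1 → x < p.2.1 m) ∧
    (∀ m n, (m, n) ∈ p.2.2.2 → Lv N m ∧ n < p.2.1 (nx N m)) ∧
    (∀ m n, (m, n) ∈ p.2.2.2 → LL N m → m ∈ p.1) ∧ {n | (⊥, n) ∈ p.2.2.2}.Finite ∧
    (∀ m, Cd N m → Cov N m (fun n : K => (m, n) ∈ p.2.2.2)) ∧ (∀ m, m ∈ p.1 → LL N m) ∧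
    (∃ e, ∀ m, e ≤ m → Idle p m) ∧ (∀ m, m ∈ p.1 → Ev N m (D.S m) (fun k => ⊥ < p.2.1 k)) ∧
    (∀ m, m ∈ p.1 → ∀ x, x < nx N m → Pos D p m x → Bit D p m x ∨ Zer D p m x) ∧
    ∀ l, InE N l → ∃ E : St N K, Club N l E ∧ ∀ c, c ∈ D.C l → c ∈ E →
      ∀ m, Lv N m → c ≤ m → m ≤ D.h l c → m ≠ nx N c → Idle p m :=
  ⟨fun h => ⟨h.1, h.2, h.3, h.4, h.5, h.6, h.7, h.8, h.9, h.10, h.11⟩,
    fun ⟨h1, h2, h3, h4, h5, h6, h7, h8, h9, h10, h11⟩ => ⟨h1, h2, h3, h4, h5, h6, h7, h8, h9, h10, h11⟩⟩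

theorem ip_Val {α : Type w} [WTy N α] {p : α → Pre N K} (hp : IF N p) : IP N (fun a => Val D (p a)) := by
  have h : IP N (fun p : Pre N K => Val D p) := by
    refine IP.congr (fun p => (Val_iff p).symm) ?_
    have h0 := ip_finr (N := N) (K := K) (p := fun p : Pre N K => p) (m := fun _ => ⊥) IF.id (IF.const _)
    refine IP.and ?_ (IP.and ?_ (IP.and ?_ (IP.and ?_ (IP.and h0 (IP.and ?_ (IP.and ?_ (IP.and ?_ (IP.and ?_
      (IP.and ?_ ?_)))))))))
    all_goals simp (maxDischargeDepth := 99)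
  exact IP.comp h hp

theorem Le_iff (p q : Pre N K) : Le D p q ↔
    (∀ m, m ∈ q.1 → m ∈ p.1) ∧ (∀ m, q.2.1 m ≤ p.2.1 m) ∧
    (∀ m x, x < q.2.1 m → ((m, x) ∈ q.2.2.1 ↔ (m, x) ∈ p.2.2.1)) ∧
    (∀ m n, (m, n) ∈ q.2.2.2 → (m, n) ∈ p.2.2.2) ∧
    ∀ m n, (m, n) ∈ q.2.2.2 → ∀ x, x ∈ D.b m n ((nx N m, n) ∈ q.2.2.1) → Pos D p m x →
      ¬ Pos D q m x → ¬ Bit D p m x :=
  ⟨fun h => ⟨h.1, h.2, h.3, h.4, h.5⟩, fun ⟨h1, h2, h3, h4, h5⟩ => ⟨h1, h2, h3, h4, h5⟩⟩

theorem ip_Le {α : Type w} [WTy N α] {p q : α → Pre N K} (hp : IF N p) (hq : IF N q) :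
    IP N (fun a => Le D (p a) (q a)) := by
  have h : IP N (fun p : Pre N K × Pre N K => Le D p.1 p.2) := by
    refine IP.congr (fun p => (Le_iff p.1 p.2).symm) ?_
    refine IP.and ?_ (IP.and ?_ (IP.and ?_ (IP.and ?_ ?_)))
    all_goals simp (maxDischargeDepth := 99)
  exact IP.comp2 (P := Le D) h hp hq

theorem ip_fin0 {α : Type w} [WTy N α] {q : α → PQ N K} (hq : IF N q) :
    IP N (fun a => {x | ¬ Idle ((q a) x) ⊥}.Finite) := by
  have h0 : ∀ a, IP N (fun x => ¬ Idle ((q a) x) ⊥) := fun a =>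
    IP.not (ip_Idle (IF.app (IF.const _) IF.id) (IF.const _))
  have h : IF N (fun a => (⟨{x | ¬ Idle ((q a) x) ⊥}, h0 a⟩ : St N K)) := by
    apply IF.compr'
    show IP N (fun r : α × K => ¬ Idle ((q r.1) r.2) ⊥)
    exact IP.not (ip_Idle (IF.app (hq.comp IF.fst) IF.snd) (IF.const _))
  exact IP.fin h

theorem VQ_iff (q : PQ N K) : VQ D q ↔ (∀ x, Val D (q x)) ∧
    (∃ J : St N K, Cnt J ∧ ∀ x, x ∉ J → q x = one) ∧ {x | ¬ Idle (q x) ⊥}.Finite :=
  ⟨fun h => ⟨h.1, h.2, h.3⟩, fun ⟨h1, h2, h3⟩ => ⟨h1, h2, h3⟩⟩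

theorem ip_VQ {α : Type w} [WTy N α] {q : α → PQ N K} (hq : IF N q) : IP N (fun a => VQ D (q a)) := by
  refine IP.congr (fun a => (VQ_iff (q a)).symm) ?_
  refine IP.and (IP.all (ip_Val (IF.app (hq.comp IF.fst) IF.snd))) (IP.and ?_ (ip_fin0 hq))
  refine IP.ex (IP.and (IP.cnt IF.snd) ?_)
  simp (maxDischargeDepth := 99) [hq.comp]

theorem ip_LeQ {α : Type w} [WTy N α] {p q : α → PQ N K} (hp : IF N p) (hq : IF N q) :
    IP N (fun a => LeQ D (p a) (q a)) :=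
  IP.all (ip_Le (IF.app (hp.comp IF.fst) IF.snd) (IF.app (hq.comp IF.fst) IF.snd))

attribute [simp] ip_Val ip_Le ip_VQ ip_LeQ

end

end COD
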