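import Pool.Agent.COD.Kcb

/-! # Coding: kappa-c.c.

(problem MP_328cd5_lc, coding part; helper69) -/

set_option autoImplicit false

universe u v

namespace COD

open WCal WM

variable {N : Type u} [WM N] {K : Type v} [WTy N K] [KTy N K] {D : CPD N K}

theorem kcc (B : Bs N K) (P : CPP D) {A : St N (PQ N K)} (hA : ∀ p, p ∈ A → VQ D p)
    (hA' : ∀ p q, p ∈ A → q ∈ A → p ≠ q → ¬ Cpt D p q) : ∃ c : K, Cov N c (fun p => p ∈ A) := by
  obtain ⟨H, hH⟩ := exists_H B P A
  obtain ⟨l, hl, hl', he⟩ := P.guess H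
  obtain ⟨c, hc⟩ := cov_bd B P l
  have hA'' : ∀ p q, p ∈ A → q ∈ A → Cpt D p q → p = q := fun p q hp hq h => by
    by_contra hne
    exact hA' p q hp hq hne h
  exact ⟨c, hc.mono fun p hp => ⟨hA p hp, claim B P hA hA'' hH hl hl' he hp⟩⟩

end COD
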