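import Pool.Agent.COD.Nd
import Pool.Agent.COD.Ck

/-! # Coding: kappa-c.c., bounds

(problem MP_328cd5_lc, coding part, package Kca; helper69; 0.9 h; other files are black boxes; section 9 of /team-store/COD_h51.md)

`have : Fact (Bs N K) := ⟨B⟩`, `have : Fact (CPP D) := ⟨P⟩`. Write `c2 := nx (nx c)`.

`vq_bdd`: by `VQ.val`, `Val.bdd` every `q x` is idle at all levels `≥ e x`; choose `e` internal (`WCal.choice`, the relation `fun x e => ∀ m, e ≤ m → Idle (q x) m` is internal), bound the `e x`, `x ∈ J` (`J` the countable support; `cnt_iff_cov`,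
`Bs.cov`), and `J` (`cnt_bdd`); for `x ∉ J`: `q x = one` is idle everywhere (`idle_one`). Take the maximum.

`exists_H`: let `Q c p' := VQ D p' ∧ (∀ x, c2 ≤ x → p' x = one) ∧ ∀ x m, c2 ≤ m → Idle (p' x) m`, and `W p' d := ∃ a, a ∈ A ∧ ∃ t, VQ D t ∧ LeQ D t p' ∧ LeQ D t a ∧ (∀ x m, d ≤ m → Idle (t x) m) ∧ ∀ x, d ≤ x → t x = one` (internal).
If `a ∈ A` and `Cpt D p' a` there is `d` with `W p' d` (`vq_bdd`). For `c` there is `h` with `c2 ≤ h` and `W p' h` for all `p'` with `Q c p'` which are compatible with an element of `A`: by `cov_bd` (`e = c2`) the set `Q c` is `Cov N b`; `choice'` gives an internal `d : PQ N K → K` with `W p' (d p')` if there is such a `d`;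
`Bs.cov` bounds the `d p'`; `W p' d` and `d ≤ h` imply `W p' h`. Now `choice` for the internal relation between `c` and `h` gives `H`. -/

set_option autoImplicit false

universe u v

namespace COD

open WCal WM

variable {N : Type u} [WM N] {K : Type v} [WTy N K] [KTy N K] {D : CPD N K}

theorem vq_bdd (B : Bs N K) (P : CPP D) {q : PQ N K} (hq : VQ D q) :
    ∃ e : K, (∀ x, e ≤ x → q x = one) ∧ ∀ x m, e ≤ m → Idle (q x) m := by
  have : Fact (Bs N K) := ⟨B⟩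
  have : Fact (CPP D) := ⟨P⟩
  have hP : IP N (fun p : K × K => ∀ m, p.2 ≤ m → Idle (q p.1) m) := by
    simp (maxDischargeDepth := 99)
  obtain ⟨e, he, hel⟩ := choice (P := fun (x : K) (e : K) => ∀ m, e ≤ m → Idle (q x) m)
    hP (fun x => (hq.val x).bdd)
  obtain ⟨J, hJ, h1⟩ := hq.cnt
  obtain ⟨c1, h2⟩ := B.cov ((cnt_iff_cov B).1 hJ) he
  obtain ⟨c2, h3⟩ := cnt_bdd B hJ
  refine ⟨max c1 c2, fun x hx => ?_, fun x m hm => ?_⟩
  · refine h1 x fun hxJ => ?_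
    exact absurd (h3 x hxJ) (not_lt.2 ((le_max_right _ _).trans hx))
  · by_cases hxJ : x ∈ J
    · exact hel x m ((h2 x hxJ).le.trans ((le_max_left _ _).trans hm))
    · rw [h1 x hxJ]
      exact idle_one m

/-- the set of the conditions bounded by `c` -/
private def QQ (D : CPD N K) (c : K) (p' : PQ N K) : Prop :=
  VQ D p' ∧ (∀ x, nx N (nx N c) ≤ x → p' x = one) ∧ ∀ x m, nx N (nx N c) ≤ m → Idle (p' x) m

/-- a common extension bounded by `d` -/
private def WW (D : CPD N K) (A : St N (PQ N K)) (p' : PQ N K) (d : K) : Prop :=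
  ∃ a, a ∈ A ∧ ∃ t, VQ D t ∧ LeQ D t p' ∧ LeQ D t a ∧ (∀ x m, d ≤ m → Idle (t x) m) ∧
    ∀ x, d ≤ x → t x = one

private theorem WW.mono {A : St N (PQ N K)} {p' : PQ N K} {d e : K} (h : WW D A p' d)
    (hde : d ≤ e) : WW D A p' e := by
  obtain ⟨a, h1, t, h2, h3, h4, h5, h6⟩ := h
  exact ⟨a, h1, t, h2, h3, h4, fun x m hm => h5 x m (hde.trans hm), fun x hx => h6 x (hde.trans hx)⟩

theorem exists_H (B : Bs N K) (P : CPP D) (A : St N (PQ N K)) :
    ∃ H : Fn N K K, ∀ c, nx N (nx N c) ≤ H c ∧ ∀ p', VQ D p' → (∀ x, nx N (nx N c) ≤ x → p' x = one) →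
      (∀ x m, nx N (nx N c) ≤ m → Idle (p' x) m) → (∃ a, a ∈ A ∧ Cpt D p' a) →
      ∃ a, a ∈ A ∧ ∃ t, VQ D t ∧ LeQ D t p' ∧ LeQ D t a ∧ (∀ x m, H c ≤ m → Idle (t x) m) ∧
        ∀ x, H c ≤ x → t x = one := by
  have : Fact (Bs N K) := ⟨B⟩
  have : Fact (CPP D) := ⟨P⟩
  have hW : IP N (fun p : PQ N K × K => WW D A p.1 p.2) := by
    unfold WW
    simp (maxDischargeDepth := 99)
  obtain ⟨d, hd, hdW⟩ := choice' (P := fun (p' : PQ N K) (e : K) => WW D A p' e) hW ⊥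
  have key : ∀ c : K, ∃ h, nx N (nx N c) ≤ h ∧ ∀ p' : PQ N K, QQ D c p' →
      (∃ a, a ∈ A ∧ Cpt D p' a) → WW D A p' h := by
    intro c
    obtain ⟨b, hb⟩ := cov_bd B P (nx N (nx N c))
    obtain ⟨h0, hh0⟩ := B.cov hb hd
    refine ⟨max (nx N (nx N c)) h0, le_max_left _ _, ?_⟩
    rintro p' hp' ⟨a, ha, t, h1, h2, h3⟩
    obtain ⟨e, h4, h5⟩ := vq_bdd B P h1
    have h6 : WW D A p' (d p') := hdW p' ⟨e, a, ha, t, h1, h2, h3, h5, h4⟩
    exact h6.mono ((hh0 p' hp').le.trans (le_max_right _ _))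
  have hR : IP N (fun p : K × K => nx N (nx N p.1) ≤ p.2 ∧ ∀ p' : PQ N K, QQ D p.1 p' →
      (∃ a, a ∈ A ∧ Cpt D p' a) → WW D A p' p.2) := by
    unfold QQ WW
    simp (maxDischargeDepth := 99)
  obtain ⟨H, hH, hHH⟩ := choice (P := fun (c h : K) => nx N (nx N c) ≤ h ∧ ∀ p' : PQ N K,
    QQ D c p' → (∃ a, a ∈ A ∧ Cpt D p' a) → WW D A p' h) hR key
  refine ⟨⟨H, hH⟩, fun c => ⟨(hHH c).1, fun p' h1 h2 h3 h4 => ?_⟩⟩
  exact (hHH c).2 p' ⟨h1, h2, h3⟩ h4

end COD
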