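import Pool.Agent.COD.Kca

/-! # Coding: kappa-c.c., the claim

(problem MP_328cd5_lc, coding part, package Kcb; helper69; 1.5 h; other files are black boxes; section 9 of /team-store/COD_h51.md)

`have : Fact (Bs N K) := ⟨B⟩`, `have : Fact (CPP D) := ⟨P⟩`. Write `c2 := nx (nx c)`.

`claim` (one element `p ∈ A`, `l ∈ E` with `H x < l` for `x < l` and `Ev N l (D.C l) (fun c => H c ≤ D.h l c)`): `p` is idle at all `m ≥ l` and `p x = one` for `x ≥ l`. Let `J` be the countable support of `p` (`VQ.cnt`), `Cov N (nx ⊥) (· ∈ J)`. `nx ⊥ < l` (`om_le`, and `l ≠ nx ⊥` since `LL l`).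
(1) CLUBS: `Val.gap` for every `x` gives a club `E x` of `l`; choose `E` internal (`choice`). `Club.inter` (`Reg l`) gives a club `E'` of `l` contained in all `E x`, `x ∈ J`; `Club.inter` again (or with `C_club`) with `D.C l`: a club `E''` contained in `E'` and `D.C l`. [`Club.inter` for the
family `fun b : Bool => ..`, or for `fun i : K => cit (i = ⊥) E' (D.C l)` with `I i := i < nx ⊥`.]
(2) `J` below `l` is bounded: `Reg.cov` with `A x := x ∈ J ∧ x < l`: there is `c0 < l` with `x < c0` for all `x ∈ J`, `x < l`. Let `e < l` be from `Ev`. Choose `c ∈ E''` with `max c0 e < c < l` (`Club`). So `c ∈ D.C l`, `LL c` (`C_LL`), `c2 ≤ D.h l c < l` (`C_h`), `H c ≤ D.h l c`,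
and for all `x` (`x ∈ J` by `E x`, `x ∉ J` by `idle_one`): `∀ m, Lv m → c ≤ m → m ≤ D.h l c → m ≠ nx c → Idle (p x) m`.
(3) `p' := mixQ c2 p oneQ` on `{x | x < l}`, `oneQ` elsewhere (`glu (Iio' l)`). `NL c2`, `c2 ≠ ⊥`. `p x` is idle at `c2` (`c < nx c < c2 ≤ D.h l c`), so `cut` gives `Val D (mix c2 (p x) one)`, `Le D (p x) (mix c2 (p x) one)`. `p'` is valid: `val`: `cut`, `one_val`; countable support `J` (`mix_self`); `fin`: `Idle (mix c2 (p x) one) ⊥ ↔ Idle (p x) ⊥`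
(`EqB.idle`, `mix_EqB`). `p' x = one` for `c2 ≤ x`: if `x < l` then `x ∉ J` (elements of `J` below `l` are `< c0 < c2`), `mix_self`. Idle at all `m ≥ c2` (`EqU.idle`, `mix_EqU`, `idle_one`). `LeQ D p p'` (`cut`, `le_one`). So `Cpt D p' p` (by `p`; `LeQ.refl`), and `W p' (H c)`: `a ∈ A`, `t` valid, `t ≤ p'`, `t ≤ a`, `t` idle at
all `m ≥ H c`, `t x = one` for `x ≥ H c`, in particular for `x ≥ l`.
(4) `m2 := nx (D.h l c)`: `NL m2` (`exists_lv`: `nx b = nx (D.h l c)` with `Lv b`; `nl_nx`). `c2 < m2`. For `x < l` apply `merge` with `m1 = c2`: `t x` is idle at all `m ≥ m2` (`H c ≤ D.h l c < m2`); `p x` is idle at all levels `m` with `c2 ≤ m < m2`: `m ≤ D.h l c` (else `D.h l c < m`, `Cd m`, `m2 ≤ m`), `m ≠ nx c`;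
`Le D (t x) (mix c2 (p x) one)` is `t ≤ p'`. So `u := glu (Iio' l) (mixQ m2 t p) p` satisfies: valid (`fin`: `EqB.idle`, `mix_EqB`: `Idle (u x) ⊥` if `Idle (t x) ⊥`, `Idle (p x) ⊥`), `u ≤ p` (`Le.refl`), `u ≤ t` (`x ≥ l`: `t x = one`, `le_one`). So `u ≤ a` (`LeQ.trans`) and `Cpt D a p`, hence `a = p` (`hA'`), so `t ≤ p`.
(5) `Idle (t x) m → Idle (p x) m` (`Idle.le`) for `m ≥ l > H c`; `p x = one` for `x ≥ l`: `eq_one`, `t x = one`. -/

set_option autoImplicit false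

universe u v

namespace COD

open WCal WM

variable {N : Type u} [WM N] {K : Type v} [WTy N K] [KTy N K] {D : CPD N K}

theorem claim (B : Bs N K) (P : CPP D) {A : St N (PQ N K)} (hA : ∀ p, p ∈ A → VQ D p)
    (hA' : ∀ p q, p ∈ A → q ∈ A → Cpt D p q → p = q) {H : Fn N K K}
    (hH : ∀ c, nx N (nx N c) ≤ H c ∧ ∀ p', VQ D p' → (∀ x, nx N (nx N c) ≤ x → p' x = one) →
      (∀ x m, nx N (nx N c) ≤ m → Idle (p' x) m) → (∃ a, a ∈ A ∧ Cpt D p' a) →
      ∃ a, a ∈ A ∧ ∃ t, VQ D t ∧ LeQ D t p' ∧ LeQ D t a ∧ (∀ x m, H c ≤ m → Idle (t x) m) ∧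
        ∀ x, H c ≤ x → t x = one)
    {l : K} (hl : InE N l) (hl' : ∀ x, x < l → H x < l) (he : Ev N l (D.C l) (fun c => H c ≤ D.h l c))
    {p : PQ N K} (hp : p ∈ A) : (∀ x, l ≤ x → p x = one) ∧ ∀ x m, l ≤ m → Idle (p x) m := by
  have iB : Fact (Bs N K) := ⟨B⟩
  have iP : Fact (CPP D) := ⟨P⟩
  have hv : VQ D p := hA p hp
  obtain ⟨J, hJ, hJ1⟩ := hv.cnt
  have hJc : Cov N (nx N (⊥ : K)) (fun x => x ∈ J) := (cnt_iff_cov B).1 hJ
  have hlb : (⊥ : K) < l := bot_lt_iff_ne_bot.2 (cd_ne hl.1.1)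
  have h0l : nx N (⊥ : K) < l := nx_lt_of_LL B hl.1 hlb
  -- clubs
  have hgI : IP N (fun z : K × St N K => Club N l z.2 ∧ ∀ c, c ∈ D.C l → c ∈ z.2 →
      ∀ m, Lv N m → c ≤ m → m ≤ D.h l c → m ≠ nx N c → Idle (p z.1) m) := by
    simp (maxDischargeDepth := 99)
  obtain ⟨E, hE, hE'⟩ := choice (P := fun (x : K) (E : St N K) => Club N l E ∧
    ∀ c, c ∈ D.C l → c ∈ E → ∀ m, Lv N m → c ≤ m → m ≤ D.h l c → m ≠ nx N c → Idle (p x) m)
    hgI (fun x => (hv.val x).gap l hl)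
  obtain ⟨E1, hE1, hE1'⟩ := Club.inter B hl.2 h0l h0l hJc hE (fun x _ => (hE' x).1)
  obtain ⟨E2, hE2, hE2'⟩ := Club.inter B hl.2 h0l h0l (I := fun _ : Bool => True)
    (Cov.finite B (cd_nx B ⊥) (Set.toFinite _)) (E := fun b : Bool => cond b E1 (D.C l))
    (IF.finite _) (fun i _ => by
      cases i
      · exact P.C_club l hl
      · exact hE1)
  obtain ⟨c0, hc0l, hc0⟩ := Reg.cov hl.2 h0l (A := fun x : K => x ∈ J ∧ x < l)
    (Cov.mono (fun a ha => ha.1) hJc) (F := fun x : K => x) IF.id (fun x hx => hx.2)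
  obtain ⟨e, hel, he1⟩ := he
  obtain ⟨c, hcE2, hcm, hcl⟩ := hE2.1 (max c0 e) (max_lt hc0l hel)
  have hcC : c ∈ D.C l := hE2' c hcE2 false trivial
  have hcE : ∀ x, x ∈ J → c ∈ E x := hE1' c (hE2' c hcE2 true trivial)
  have hc0c : c0 < c := lt_of_le_of_lt (le_max_left _ _) hcm
  have hHc : H c ≤ D.h l c := he1 c hcC (le_of_lt (lt_of_le_of_lt (le_max_right _ _) hcm)) hcl
  obtain ⟨hh1, hh2⟩ := P.C_h l hl c hcC
  have hidle : ∀ x m, Lv N m → c ≤ m → m ≤ D.h l c → m ≠ nx N c → Idle (p x) m := by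
    intro x m h1 h2 h3 h4
    by_cases hx : x ∈ J
    · exact (hE' x).2 c hcC (hcE x hx) m h1 h2 h3 h4
    · rw [hJ1 x hx]
      exact idle_one m
  -- the cut condition
  have hlt1 : c < nx N c := lt_nx B c
  have hlt2 : nx N c < nx N (nx N c) := lt_nx B (nx N c)
  have hc2 : NL N (nx N (nx N c)) := nl_nx (Or.inr (cd_nx B c))
  have hc2' : nx N (nx N c) ≠ ⊥ := cd_ne (cd_nx B _)
  have hid2 : ∀ x, Idle (p x) (nx N (nx N c)) := fun x =>
    hidle x _ (Or.inr (cd_nx B _)) (hlt1.trans hlt2).le hh1 (ne_of_gt hlt2)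
  have hcut : ∀ x, Val D (mix (nx N (nx N c)) (p x) one) ∧
      Le D (p x) (mix (nx N (nx N c)) (p x) one) := fun x => cut B P hc2 hc2' (hv.val x) (hid2 x)
  have hmixv : VQ D (mixQ (nx N (nx N c)) p oneQ) :=
    mixQ_val B P hc2 hc2' hv (oneQ_val B) (fun x m n _ hm hmn => by
      have h1 := ((hv.val x).r_lt m n hmn).2
      rw [hm, (hid2 x).2.1] at h1
      exact absurd h1 not_lt_bot)
  have hpv : VQ D (glu (Iio' l) (mixQ (nx N (nx N c)) p oneQ) oneQ) := VQ.glu hmixv (oneQ_val B)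
  have hp1 : ∀ x, x < l → (glu (Iio' l) (mixQ (nx N (nx N c)) p oneQ) oneQ) x =
      mix (nx N (nx N c)) (p x) one := fun x hx => glu_mem _ _ (mem_Iio'.2 hx)
  have hp2 : ∀ x, ¬ x < l → (glu (Iio' l) (mixQ (nx N (nx N c)) p oneQ) oneQ) x = one :=
    fun x hx => glu_not _ _ (fun h => hx (mem_Iio'.1 h))
  obtain ⟨a, ha, t, ht, htp', hta, htm, htx⟩ := (hH c).2
    (glu (Iio' l) (mixQ (nx N (nx N c)) p oneQ) oneQ) hpv
    (fun x hx => by
      by_cases hxl : x < l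
      · have hxJ : x ∉ J := fun hxJ => absurd (hc0 x ⟨hxJ, hxl⟩)
          (not_lt.2 ((hc0c.trans (hlt1.trans hlt2)).le.trans hx))
        rw [hp1 x hxl, hJ1 x hxJ, mix_self]
      · exact hp2 x hxl)
    (fun x m hm => by
      by_cases hxl : x < l
      · rw [hp1 x hxl]
        exact ((mix_EqU _ (p x) one).idle hm).2 (idle_one m)
      · rw [hp2 x hxl]
        exact idle_one m)
    ⟨p, hp, p, hv, fun x => by
      by_cases hxl : x < l
      · rw [hp1 x hxl]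
        exact (hcut x).2
      · rw [hp2 x hxl]
        exact le_one _, LeQ.refl p⟩
  -- merging
  obtain ⟨b, -, hb2, hb3⟩ := exists_lv B (D.h l c)
  have hm2 : NL N (nx N (D.h l c)) := by
    rw [← hb3]
    exact nl_nx hb2
  have hm2' : nx N (D.h l c) ≠ ⊥ := cd_ne (cd_nx B _)
  have hhm : D.h l c < nx N (D.h l c) := lt_nx B _
  have h12 : nx N (nx N c) < nx N (D.h l c) := lt_of_le_of_lt hh1 hhm
  have hmerge : ∀ x, x < l → Val D (mix (nx N (D.h l c)) (t x) (p x)) ∧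
      Le D (mix (nx N (D.h l c)) (t x) (p x)) (t x) ∧
      Le D (mix (nx N (D.h l c)) (t x) (p x)) (p x) := fun x hx =>
    merge B P hc2 hc2' hm2 h12 (ht.val x) (hv.val x)
      (fun m hm => htm x m (hHc.trans (hhm.le.trans hm)))
      (fun m hlv h1 h2 => hidle x m hlv ((hlt1.trans hlt2).le.trans h1) (by
        by_contra hcon
        refine absurd (nx_le B (not_le.1 hcon) (hlv.resolve_left ?_)) (not_le.2 h2)
        exact ne_of_gt (lt_of_lt_of_le (bot_lt_iff_ne_bot.2 hc2') h1))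
        (ne_of_gt (lt_of_lt_of_le hlt2 h1)))
      (by
        have h1 := htp' x
        rw [hp1 x hx] at h1
        exact h1)
  have hmv : VQ D (mixQ (nx N (D.h l c)) t p) :=
    mixQ_val B P hm2 hm2' ht hv (fun x m n _ hm hmn => by
      have h1 := ((ht.val x).r_lt m n hmn).2
      rw [hm, (htm x _ (hHc.trans hhm.le)).2.1] at h1
      exact absurd h1 not_lt_bot)
  have hu1 : ∀ x, x < l → (glu (Iio' l) (mixQ (nx N (D.h l c)) t p) p) x =
      mix (nx N (D.h l c)) (t x) (p x) := fun x hx => glu_mem _ _ (mem_Iio'.2 hx)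
  have hu2 : ∀ x, ¬ x < l → (glu (Iio' l) (mixQ (nx N (D.h l c)) t p) p) x = p x :=
    fun x hx => glu_not _ _ (fun h => hx (mem_Iio'.1 h))
  have hup : LeQ D (glu (Iio' l) (mixQ (nx N (D.h l c)) t p) p) p := by
    intro x
    by_cases hxl : x < l
    · rw [hu1 x hxl]
      exact (hmerge x hxl).2.2
    · rw [hu2 x hxl]
      exact Le.refl _
  have hut : LeQ D (glu (Iio' l) (mixQ (nx N (D.h l c)) t p) p) t := by
    intro x
    by_cases hxl : x < l
    · rw [hu1 x hxl]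
      exact (hmerge x hxl).2.1
    · rw [htx x (hHc.trans (hh2.le.trans (not_lt.1 hxl)))]
      exact le_one _
  have hap : a = p := hA' a p ha hp ⟨_, VQ.glu hmv hv, LeQ.trans P ht (hA a ha) hut hta, hup⟩
  rw [hap] at hta
  exact ⟨fun x hx => LeQ.eq_one hv hta (htx x (hHc.trans (hh2.le.trans hx))),
    fun x m hm => Idle.le (hta x) (htm x m (hHc.trans (hh2.le.trans hm)))⟩

end COD
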