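import Pool.Agent.COD.Ip
import Pool.Agent.LCA.KGch
import Pool.Agent.LCA.KClub
import Pool.Agent.LCA.KReg

/-! # Coding: cardinal arithmetic of `K` inside the model (facts used in the coding part)

(problem MP_328cd5_lc; statements by helper51; proofs: library LCA of helper18)

All statements are about an arbitrary pair `(N, K)` with `Bs N K`. -/

set_option autoImplicit false

universe u v w x

namespace COD

open WCal WM

variable {N : Type u} [WM N] {K : Type v} [WTy N K] [KTy N K] {α : Type w} [WTy N α] {β : Type x} [WTy N β]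

/-! ## Levels -/

theorem cd_nx (B : Bs N K) (a : K) : Cd N (nx N a) := (nx_spec B a).2

theorem lt_nx (B : Bs N K) (a : K) : a < nx N a := (nx_spec B a).1

theorem nx_mono (B : Bs N K) {a b : K} (h : a ≤ b) : nx N a ≤ nx N b :=
  nx_le B (lt_of_le_of_lt h (lt_nx B b)) (cd_nx B b)

theorem nl_nx {a : K} (h : Lv N a) : NL N (nx N a) := Or.inr ⟨a, h, rfl⟩

/-- infinite cardinals are not `⊥` -/
theorem cd_ne {m : K} (h : Cd N m) : m ≠ ⊥ := by
  rintro rfl
  have h1 : (Set.Iio (⊥ : K)) = ∅ := Set.Iio_bot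
  exact h.1 (h1 ▸ Set.finite_empty)

theorem lv_cases {m : K} (h : Lv N m) : NL N m ∨ LL N m := by
  rcases h with h | h
  · exact Or.inl (Or.inl h)
  · by_cases h' : ∃ b, Lv N b ∧ m = nx N b
    · exact Or.inl (Or.inr h')
    · exact Or.inr ⟨h, fun b hb he => h' ⟨b, hb, he⟩⟩

theorem not_nl_ll {m : K} (h : NL N m) (h' : LL N m) : False := by
  rcases h with rfl | ⟨b, hb, h⟩
  · exact cd_ne h'.1 rfl
  · exact h'.2 b hb h

theorem nl_lv (B : Bs N K) {m : K} (h : NL N m) : Lv N m := by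
  rcases h with h | ⟨b, -, rfl⟩
  · exact Or.inl h
  · exact Or.inr (cd_nx B b)

/-- `ω` is the least infinite cardinal -/
theorem om_le (B : Bs N K) {m : K} (h : Cd N m) : nx N (⊥ : K) ≤ m := nx_le B (bot_lt_iff_ne_bot.2 (cd_ne h)) h

/-- Every `a` lies between a level and the next one. [Let `b` be the least element with `nx b = nx a`. If `b ≠ ⊥` is not a level then
either `Iio b` is finite, then `nx b = nx ⊥` (no infinite cardinal `≤ b`), or there are `c < b` and an internal map of `Iio c` onto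
`Iio b`; then no `d` with `c < d ≤ b` is a cardinal, so `nx c = nx b`, contradiction.] -/
theorem exists_lv (B : Bs N K) (a : K) : ∃ b, b ≤ a ∧ Lv N b ∧ nx N b = nx N a := by
  obtain ⟨m, h1, h2, -, h3⟩ := LCA.exists_lv B.pk a
  exact ⟨m, h2, h1, h3⟩

theorem nx_lt_of_LL (B : Bs N K) {l m : K} (hl : LL N l) (h : m < l) : nx N m < l :=
  LCA.ll_nx_lt B.pk hl h

/-- infinite cardinals are limits -/
theorem lim_cd (B : Bs N K) {l : K} (hl : Cd N l) : Lim N l :=
  LCA.cd_lim B.pk hl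

theorem lim_of_LL (B : Bs N K) {l : K} (hl : LL N l) : Lim N l := lim_cd B hl.1

/-! ## Sizes -/

theorem Cov.le {m m' : K} {A : α → Prop} (h : m ≤ m') (hA : Cov N m A) : Cov N m' A := by
  obtain ⟨f, hf, h1⟩ := hA
  exact ⟨f, hf, fun a ha => by
    obtain ⟨x, hx, h2⟩ := h1 a ha
    exact ⟨x, lt_of_lt_of_le hx h, h2⟩⟩

theorem Cov.mono {m : K} {A A' : α → Prop} (h : ∀ a, A' a → A a) (hA : Cov N m A) : Cov N m A' := by
  obtain ⟨f, hf, h1⟩ := hA
  exact ⟨f, hf, fun a ha => h1 a (h a ha)⟩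

theorem Cov.image {m : K} {A : α → Prop} (hA : Cov N m A) {f : α → β} (hf : IF N f) :
    Cov N m (fun b => ∃ a, A a ∧ f a = b) :=
  LCA.cov_img hA hf fun _ hb => hb

/-- a union of at most `m` sets with at most `m` elements has at most `m` elements (`m` an infinite cardinal) -/
theorem Cov.iUnion (B : Bs N K) {m : K} (hm : Cd N m) [Nonempty α] {I : β → Prop} (hI : Cov N m I)
    {A : β → α → Prop} (hA : IP N (fun p : β × α => A p.1 p.2)) (h : ∀ i, I i → Cov N m (A i)) :
    Cov N m (fun a => ∃ i, I i ∧ A i a) :=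
  LCA.cov_union B.pk hm hI hA h

theorem Cov.prod (B : Bs N K) {m : K} (hm : Cd N m) {A : α → Prop} {A' : β → Prop} (hA : Cov N m A)
    (hA' : Cov N m A') : Cov N m (fun p : α × β => A p.1 ∧ A' p.2) :=
  LCA.cov_prod B.pk hm hA hA'

theorem Cov.finite (B : Bs N K) {m : K} (hm : Cd N m) [Nonempty α] {A : α → Prop} (h : {a | A a}.Finite) :
    Cov N m A :=
  LCA.cov_of_finite B.pk hm h

/-- countable sets -/
theorem cnt_iff_cov (B : Bs N K) [Nonempty α] {S : St N α} : Cnt S ↔ Cov N (nx N (⊥ : K)) (fun a => a ∈ S) :=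
  ⟨fun h => LCA.cov_of_cnt B.pk (cd_nx B ⊥) h, fun h => LCA.cnt_of_cov B.pk h⟩

/-- ordinals below the successor cardinal -/
theorem cov_Iio (B : Bs N K) {m a : K} (hm : Cd N m) (h : a < nx N m) : Cov N m (fun x : K => x < a) :=
  LCA.sur_of_lt_nx B.pk hm h

/-- an ordinal below `ω` is finite -/
theorem finite_Iio (B : Bs N K) {a : K} (h : a < nx N (⊥ : K)) : (Set.Iio a).Finite :=
  (LCA.lt_om B.pk).1 h

/-- successor cardinals (and `ω = nx ⊥`) are regular -/
theorem reg_nx (B : Bs N K) {m : K} (hm : Lv N m) : Reg N (nx N m) :=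
  LCA.reg_nx B.pk hm

/-- regular cardinals: small unions of bounded sets are bounded -/
theorem Reg.cov {a b : K} (ha : Reg N a) (hb : b < a) {A : α → Prop} (hA : Cov N b A) {F : α → K} (hF : IF N F)
    (h : ∀ x, A x → F x < a) : ∃ c, c < a ∧ ∀ x, A x → F x < c := by
  obtain ⟨c, hc, h1⟩ := LCA.reg_bdd ha hb (Cov.image hA hF) (by
    rintro x ⟨y, hy, rfl⟩
    exact h y hy)
  exact ⟨c, hc, fun x hx => h1 _ ⟨x, hx, rfl⟩⟩

theorem Bs.cov (B : Bs N K) {b : K} {A : α → Prop} (hA : Cov N b A) {F : α → K} (hF : IF N F) :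
    ∃ c, ∀ x, A x → F x < c := by
  obtain ⟨f, hf, h1⟩ := hA
  obtain ⟨c, hc⟩ := B.reg b ⟨fun x => F (f x), IF.comp hF hf⟩
  refine ⟨c, fun x hx => ?_⟩
  obtain ⟨y, hy, rfl⟩ := h1 x hx
  exact hc y hy

/-! ## Clubs -/

/-- the intersection of fewer than `a` clubs -/
theorem Club.inter (B : Bs N K) {a b : K} (ha : Reg N a) (h0 : nx N (⊥ : K) < a) (hb : b < a) {I : β → Prop}
    (hI : Cov N b I) {E : β → St N K} (hE : IF N E) (h : ∀ i, I i → Club N a (E i)) :
    ∃ D : St N K, Club N a D ∧ ∀ y, y ∈ D → ∀ i, I i → y ∈ E i :=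
  LCA.club_fam B.pk ha h0 hb hI hE h

theorem Club.tail {a : K} {D : St N K} (h : Club N a D) {e : K} (he : e < a) :
    ∃ D' : St N K, Club N a D' ∧ ∀ y, y ∈ D' → y ∈ D ∧ e ≤ y :=
  LCA.club_tail h he

/-! ## Pairing, counting -/

/-- pairing functions -/
theorem exists_pair (B : Bs N K) {m : K} (hm : Cd N m) : ∃ g : K → K → K, IF N (fun p : K × K => g p.1 p.2) ∧
    (∀ x y, x < m → y < m → g x y < m) ∧
    ∀ x y x' y', x < m → y < m → x' < m → y' < m → g x y = g x' y' → x = x' ∧ y = y' :=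
  LCA.hess B.pk hm

/-- bookkeeping: every triple is listed at a stage which is at least its first component -/
theorem exists_bk (B : Bs N K) {m : K} (hm : Cd N m) : ∃ g : K → K × K × K, IF N g ∧
    ∀ x y z, x < m → y < m → z < m → ∃ j, j < m ∧ x ≤ j ∧ g j = (x, y, z) := by
  have h1 : Cov N m (fun x : K => x < m) := LCA.cov_self m
  obtain ⟨f, hf, h2⟩ := Cov.prod B hm h1 (Cov.prod B hm h1 (Cov.prod B hm h1 h1))
  refine ⟨fun j => ((f j).1, (f j).2.1, (f j).2.2.1), IF.pair (IF.fst.comp hf) (IF.pair (IF.fst.comp (IF.snd.comp hf))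
    (IF.fst.comp (IF.snd.comp (IF.snd.comp hf)))), fun x y z hx hy hz => ?_⟩
  by_contra hc
  push Not at hc
  refine hm.2 x hx ⟨fun j => (f j).2.2.2, IF.snd.comp (IF.snd.comp (IF.snd.comp hf)), fun w hw => ?_⟩
  obtain ⟨j, hj, hfj⟩ := h2 (x, y, z, w) ⟨hx, hy, hz, hw⟩
  refine ⟨j, ?_, congrArg (fun t => t.2.2.2) hfj⟩
  by_contra hjx
  exact hc j hj (not_lt.1 hjx) (by rw [hfj])

/-- GCH: the subsets of an ordinal `a < m^+` -/
theorem cov_sub (B : Bs N K) {m a : K} (hm : Cd N m) (h : a < nx N m) :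
    Cov N (nx N m) (fun A : St N K => ∀ x, x ∈ A → x < a) :=
  LCA.cov_sub' B.pk B.gch hm h

/-- GCH: a set with at most `m^+` elements has at most `m^+` subsets with at most `m` elements -/
theorem cov_pow (B : Bs N K) {m : K} (hm : Cd N m) [Nonempty α] {A : α → Prop} (hA : Cov N (nx N m) A) :
    Cov N (nx N m) (fun X : St N α => (∀ x, x ∈ X → A x) ∧ Cov N m (fun x => x ∈ X)) :=
  LCA.cov_pow B.pk B.gch hm hA

/-- GCH: a set with at most `m` elements has at most `m^+` subsets -/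
theorem cov_pow' (B : Bs N K) {m : K} (hm : Cd N m) [Nonempty α] {A : α → Prop} (hA : Cov N m A) :
    Cov N (nx N m) (fun X : St N α => ∀ x, x ∈ X → A x) :=
  LCA.cov_pow' B.pk B.gch hm hA

/-- a set with at most `m` elements has at most `m` finite subsets -/
theorem cov_fin (B : Bs N K) {m : K} (hm : Cd N m) [Nonempty α] {A : α → Prop} (hA : Cov N m A) :
    Cov N m (fun X : St N α => X.s.Finite ∧ ∀ x, x ∈ X → A x) :=
  LCA.cov_fin B.pk hm hA

end COD
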