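import Pool.Agent.COD.Nf

/-! # Coding: counting the codes

(problem MP_328cd5_lc, coding part, package Na; helper69; 1.3 h; other files are black boxes)

PROOFS. `cov_cod`. It suffices to cover each of the four components (`Cov.prod` three times at `nx m`, `cd_nx`, then `Cov.mono`). Each component is a set `X` of pairs or triples with `∀ z ∈ X, A z` and `Cov N m (· ∈ X)` where `A` has at most
`nx m` elements: `cov_pow` (at `m`), with `A (x, k) := x ∈ J ∧ k < a` for the first, `A (x, k, y) := x ∈ J ∧ k < nx m ∧ y < nx m` for the others (`J` is countable, so `Cov N m (· ∈ J)`: `cnt_iff_cov`, `om_le`, `Cov.le`;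
`Cov N (nx m) (· < nx m)`: the identity; `Cov.prod` at `nx m`). Let `t` be valid.
FACT: if `Lv k` and `k < nx m` then `k ≤ m` (else `m < k`, `Cd k`, `nx m ≤ k`, `nx_le`); so `nx k ≤ nx m` (`nx_mono`).
* first: `(x, k)` with `k ∈ (t x).A`, `k < a ≤ nx m`: `LL k` (`Val.A_LL`), so `k ≤ m`: `X` is a subset of `J × {k | k ≤ m}`, `Cov N m` (`Cov.prod`; `{k | k ≤ m}`: `cov_Iio` for an ordinal `b`
  with `m < b < nx m`, e.g. from `lim_cd (cd_nx m)`; then `k ≤ m → k < b`).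
* second: `(x, k, y)`, `y = (t x).l k ≠ ⊥`: `NL k`, `y < nx k` (`Val.l_nl`), `k ≤ m`, so `y < nx m`. `X` is contained in the image of `J × {k ≤ m}` under the internal function `(x, k) ↦ (x, k, (t x).l k)` (`Cov.image`).
* third: `(k, y) ∈ (t x).s`: `y < (t x).l k` (`Val.s_lt`), so `(t x).l k ≠ ⊥`, `NL k`, `y < nx k ≤ nx m`. `X` is the union over `(x, k) ∈ J × {k ≤ m}` of the sets `{(x, k, y) | y < (t x).l k}`, each
  `Cov N m` (`cov_Iio`: `(t x).l k < nx k ≤ nx m`; image of it): `Cov.iUnion` (with `β = K × K`, `A i z := z.1 = i.1 ∧ z.2.1 = i.2 ∧ z.2.2 < (t i.1).l i.2`).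
* fourth: `(k, n) ∈ (t x).r`, `k ∈ Z`: `Lv k`, `n < (t x).l (nx k)` (`Val.r_lt`), `nx k ≤ m` (`hZ`), `(t x).l (nx k) < nx (nx k) ≤ nx m`, `k < nx k ≤ m`. For every `(x, k)` with `x ∈ J`, `k < m` the set `{n | (k, n) ∈ (t x).r}` is
  `Cov N m`: `k = ⊥`: finite (`Val.r_fin`, `Cov.finite`); `Cd k`: `Val.r_sz` and `Cov.le`; not a level: empty (`Val.r_lt`). Union as before.
`cov_cod0`. Same scheme at `ω = nx ⊥` with `cov_fin` (at `nx ⊥`). A level `k < nx ⊥` is `⊥` (`om_le`). First component: empty (`LL k` and `k < nx ⊥` is impossible). Let `F = {x | ¬ Idle (t x) ⊥}`, finite (`VQ.fin`). Second: `k = ⊥`, `(t x).l ⊥ ≠ ⊥` so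
`x ∈ F`: `X ⊆` the image of `F` under `x ↦ (x, ⊥, (t x).l ⊥)`, finite; `y < nx ⊥`. Third: `X ⊆ ⋃ x ∈ F, {(x, ⊥, y) | y < (t x).l ⊥}` finite (`finite_Iio`). Fourth: empty (`hZ`). All elements lie in
`{(x, k, y) | x ∈ J, k < nx ⊥, y < nx ⊥}`, `Cov N (nx ⊥)`. -/

set_option autoImplicit false

universe u v w x

namespace COD

open WCal WM

variable {N : Type u} [WM N] {K : Type v} [WTy N K] [KTy N K] {D : CPD N K}

theorem Cov.of_inj {α : Type w} [WTy N α] {β : Type x} [WTy N β] [Nonempty α] {m : K} {A : α → Prop} (hA : IP N A)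
    {F : α → β} (hF : IF N F) (hi : ∀ a a', A a → A a' → F a = F a' → a = a')
    (h : Cov N m (fun b => ∃ a, A a ∧ F a = b)) : Cov N m A := by
  obtain ⟨f, hf, h1⟩ := h
  obtain ⟨a0⟩ := ‹Nonempty α›
  have hP : IP N (fun p : K × α => A p.2 ∧ F p.2 = f p.1) :=
    IP.and (hA.comp IF.snd) (IP.eq (hF.comp IF.snd) (hf.comp IF.fst))
  obtain ⟨g, hg, h2⟩ := choice' (P := fun (x : K) (a : α) => A a ∧ F a = f x) hP a0
  refine ⟨g, hg, fun a ha => ?_⟩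
  obtain ⟨x, hx, hfx⟩ := h1 (F a) ⟨a, ha, rfl⟩
  have h3 := h2 x ⟨a, ha, hfx.symm⟩
  exact ⟨x, hx, hi _ _ h3.1 ha (h3.2.trans hfx)⟩

private theorem na_lv (B : Bs N K) {m k : K} (hk : Lv N k) (h : k < nx N m) : k ≤ m := by
  by_contra hc
  have h1 : m < k := not_le.1 hc
  rcases hk with h2 | h2
  · rw [h2] at h1
    exact not_lt_bot h1
  · exact absurd h (not_lt.2 (nx_le B h1 h2))

private theorem na_len (B : Bs N K) {t : Pre N K} (ht : Val D t) {m k : K} (hk : k ≤ m) :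
    t.2.1 k < nx N m := by
  by_cases h : t.2.1 k = ⊥
  · rw [h]
    exact lt_of_le_of_lt bot_le (lt_nx B m)
  · exact (ht.l_nl k h).2.trans_le (nx_mono B hk)

private theorem na_le (B : Bs N K) {m : K} (hm : Cd N m) : Cov N m (fun k : K => k ≤ m) := by
  obtain ⟨b, hb1, hb2⟩ := (lim_cd B (cd_nx B m)).2 m (lt_nx B m)
  exact (cov_Iio B hm hb2).mono fun k hk => lt_of_le_of_lt hk hb1

private theorem na_self (m : K) : Cov N m (fun k : K => k < m) :=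
  ⟨fun k => k, IF.id, fun a ha => ⟨a, ha, rfl⟩⟩

private theorem na_fib {m : K} {X : K → Prop} (hX : Cov N m X) (a b : K) :
    Cov N m (fun z : K × K × K => z.1 = a ∧ z.2.1 = b ∧ X z.2.2) := by
  refine (hX.image (f := fun y : K => ((a, b, y) : K × K × K))
    (IF.pair (IF.const a) (IF.pair (IF.const b) IF.id))).mono ?_
  rintro ⟨x, k, y⟩ ⟨h1, h2, h3⟩
  exact ⟨y, h3, Prod.ext h1.symm (Prod.ext h2.symm rfl)⟩

private theorem na_r (B : Bs N K) {t : Pre N K} (ht : Val D t) {m k : K} (hm : Cd N m)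
    (hk : k ≤ m) : Cov N m (fun n : K => (k, n) ∈ t.2.2.2) := by
  have : Nonempty K := ⟨⊥⟩
  by_cases hL : Lv N k
  · rcases hL with h1 | h1
    · rw [h1]
      exact Cov.finite B hm ht.r_fin
    · exact (ht.r_sz k h1).le hk
  · refine Cov.finite B hm (Set.finite_empty.subset ?_)
    intro n hn
    exact (hL (ht.r_lt k n hn).1).elim

private theorem na_2 (B : Bs N K) {m : K} (hm : Cd N m) {J : St N K}
    (hJ : Cov N m (fun x : K => x ∈ J)) (t : PQ N K) (ht : VQ D t) (a : K) (Z : St N K)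
    (ha : a ≤ nx N m) : Cov N m (fun z => z ∈ (cod J a Z t).2.1) := by
  have hF : IF N (fun i : K × K => ((i.1, i.2, (t i.1).2.1 i.2) : K × K × K)) :=
    IF.pair IF.fst (IF.pair IF.snd (IF.app (IF.fst' (IF.snd' (IF.app (IF.const t) IF.fst))) IF.snd))
  refine ((Cov.prod B hm hJ (na_le B hm)).image hF).mono ?_
  rintro ⟨x, k, y⟩ hz
  obtain ⟨h1, h2, h3, h4⟩ := mem_codL.1 hz
  have hk := na_lv B (nl_lv B ((ht.val x).l_nl k h3).1) (h2.trans_le ha)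
  exact ⟨(x, k), ⟨h1, hk⟩, by rw [h4]⟩

private theorem na_3 (B : Bs N K) {m : K} (hm : Cd N m) {J : St N K}
    (hJ : Cov N m (fun x : K => x ∈ J)) (t : PQ N K) (ht : VQ D t) (a : K) (Z : St N K)
    (ha : a ≤ nx N m) : Cov N m (fun z => z ∈ (cod J a Z t).2.2.1) := by
  have : Nonempty K := ⟨⊥⟩
  have hA : IP N (fun p : (K × K) × K × K × K => p.2.1 = p.1.1 ∧ p.2.2.1 = p.1.2 ∧
      p.2.2.2 < (t p.1.1).2.1 p.1.2) :=
    IP.and (IP.eq (IF.fst' IF.snd) (IF.fst' IF.fst)) (IP.and (IP.eq (IF.fst' (IF.snd' IF.snd))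
      (IF.snd' IF.fst)) (ip_ltK (IF.snd' (IF.snd' IF.snd))
      (IF.app (IF.fst' (IF.snd' (IF.app (IF.const t) (IF.fst' IF.fst)))) (IF.snd' IF.fst))))
  refine (Cov.iUnion B hm (Cov.prod B hm hJ (na_le B hm))
    (A := fun (i : K × K) (z : K × K × K) => z.1 = i.1 ∧ z.2.1 = i.2 ∧ z.2.2 < (t i.1).2.1 i.2) hA
    (fun i hi => na_fib (cov_Iio B hm (na_len B (ht.val i.1) hi.2)) i.1 i.2)).mono ?_
  rintro ⟨x, k, y⟩ hz
  obtain ⟨h1, h2, h3⟩ := mem_codS.1 hz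
  have h4 := (ht.val x).s_lt k y h3
  have hk := na_lv B (nl_lv B ((ht.val x).l_nl k (ne_bot_of_gt h4)).1) (h2.trans_le ha)
  exact ⟨(x, k), ⟨h1, hk⟩, rfl, rfl, h4⟩

private theorem na_4 (B : Bs N K) {m : K} (hm : Cd N m) {J : St N K}
    (hJ : Cov N m (fun x : K => x ∈ J)) (t : PQ N K) (ht : VQ D t) (a : K) (Z : St N K)
    (hZ : ∀ k, k ∈ Z → nx N k ≤ m) : Cov N m (fun z => z ∈ (cod J a Z t).2.2.2) := by
  have : Nonempty K := ⟨⊥⟩
  have hA : IP N (fun p : (K × K) × K × K × K => p.2.1 = p.1.1 ∧ p.2.2.1 = p.1.2 ∧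
      (p.1.2, p.2.2.2) ∈ (t p.1.1).2.2.2) :=
    IP.and (IP.eq (IF.fst' IF.snd) (IF.fst' IF.fst)) (IP.and (IP.eq (IF.fst' (IF.snd' IF.snd))
      (IF.snd' IF.fst)) (IP.mem (IF.pair (IF.snd' IF.fst) (IF.snd' (IF.snd' IF.snd)))
      (IF.snd' (IF.snd' (IF.snd' (IF.app (IF.const t) (IF.fst' IF.fst)))))))
  refine (Cov.iUnion B hm (Cov.prod B hm hJ (na_le B hm))
    (A := fun (i : K × K) (z : K × K × K) => z.1 = i.1 ∧ z.2.1 = i.2 ∧
      (i.2, z.2.2) ∈ (t i.1).2.2.2) hA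
    (fun i hi => na_fib (na_r B (ht.val i.1) hm hi.2) i.1 i.2)).mono ?_
  rintro ⟨x, k, y⟩ hz
  obtain ⟨h1, h2, h3⟩ := mem_codR.1 hz
  exact ⟨(x, k), ⟨h1, (lt_nx B k).le.trans (hZ k h2)⟩, rfl, rfl, h3⟩

theorem cov_cod (B : Bs N K) (P : CPP D) {m a : K} {J Z : St N K} (hm : Cd N m) (hJ : Cnt J) (ha : a ≤ nx N m)
    (hZ : ∀ k, k ∈ Z → nx N k ≤ m) : Cov N (nx N m) (fun c : Cde N K => ∃ t, VQ D t ∧ cod J a Z t = c) := by
  have : Nonempty K := ⟨⊥⟩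
  have hJm : Cov N m (fun x : K => x ∈ J) := ((cnt_iff_cov B).1 hJ).le (om_le B hm)
  have hJn : Cov N (nx N m) (fun x : K => x ∈ J) := hJm.le (lt_nx B m).le
  have hcd := cd_nx B m
  have hI : Cov N (nx N m) (fun k : K => k < nx N m) := na_self _
  have h2 := cov_pow B hm (Cov.prod B hcd hJn hI)
  have h3 := cov_pow B hm (Cov.prod B hcd hJn (Cov.prod B hcd hI hI))
  refine (Cov.prod B hcd h2 (Cov.prod B hcd h3 (Cov.prod B hcd h3 h3))).mono ?_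
  rintro c ⟨t, ht, rfl⟩
  refine ⟨⟨?_, ?_⟩, ⟨?_, na_2 B hm hJm t ht a Z ha⟩, ⟨?_, na_3 B hm hJm t ht a Z ha⟩,
    ⟨?_, na_4 B hm hJm t ht a Z hZ⟩⟩
  · rintro ⟨x, k⟩ hz
    obtain ⟨h4, h5, -⟩ := mem_codA.1 hz
    exact ⟨h4, h5.trans_le ha⟩
  · refine (Cov.prod B hm hJm (na_le B hm)).mono ?_
    rintro ⟨x, k⟩ hz
    obtain ⟨h4, h5, h6⟩ := mem_codA.1 hz
    exact ⟨h4, na_lv B (Or.inr ((ht.val x).A_LL k h6).1) (h5.trans_le ha)⟩
  · rintro ⟨x, k, y⟩ hz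
    obtain ⟨h4, h5, h6, h7⟩ := mem_codL.1 hz
    have hk := na_lv B (nl_lv B ((ht.val x).l_nl k h6).1) (h5.trans_le ha)
    refine ⟨h4, h5.trans_le ha, ?_⟩
    show y < nx N m
    rw [h7]
    exact na_len B (ht.val x) hk
  · rintro ⟨x, k, y⟩ hz
    obtain ⟨h4, h5, h6⟩ := mem_codS.1 hz
    have h7 := (ht.val x).s_lt k y h6
    have hk := na_lv B (nl_lv B ((ht.val x).l_nl k (ne_bot_of_gt h7)).1) (h5.trans_le ha)
    exact ⟨h4, h5.trans_le ha, h7.trans (na_len B (ht.val x) hk)⟩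
  · rintro ⟨x, k, y⟩ hz
    obtain ⟨h4, h5, h6⟩ := mem_codR.1 hz
    have h7 := hZ k h5
    exact ⟨h4, ((lt_nx B k).trans_le h7).trans (lt_nx B m),
      ((ht.val x).r_lt k y h6).2.trans (na_len B (ht.val x) h7)⟩

theorem cov_cod0 (B : Bs N K) (P : CPP D) {J Z : St N K} (hJ : Cnt J) (hZ : ∀ k, k ∉ Z) :
    Cov N (nx N (⊥ : K)) (fun c : Cde N K => ∃ t, VQ D t ∧ cod J (nx N ⊥) Z t = c) := by
  have : Nonempty K := ⟨⊥⟩
  have hcd := cd_nx B (⊥ : K)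
  have hJm : Cov N (nx N (⊥ : K)) (fun x : K => x ∈ J) := (cnt_iff_cov B).1 hJ
  have hI : Cov N (nx N (⊥ : K)) (fun k : K => k < nx N (⊥ : K)) := na_self _
  have h2 := cov_fin B hcd (Cov.prod B hcd hJm hI)
  have h3 := cov_fin B hcd (Cov.prod B hcd hJm (Cov.prod B hcd hI hI))
  have hlv : ∀ k : K, Lv N k → k < nx N (⊥ : K) → k = ⊥ := fun k hk hk2 =>
    le_bot_iff.1 (na_lv B hk hk2)
  refine (Cov.prod B hcd h2 (Cov.prod B hcd h3 (Cov.prod B hcd h3 h3))).mono ?_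
  rintro c ⟨t, ht, rfl⟩
  have hF : ∀ x, (t x).2.1 ⊥ ≠ ⊥ → x ∈ {x | ¬ Idle (t x) ⊥} := fun x hx h => hx h.2.1
  refine ⟨⟨?_, ?_⟩, ⟨?_, ?_⟩, ⟨?_, ?_⟩, ⟨?_, ?_⟩⟩
  · refine Set.finite_empty.subset ?_
    rintro ⟨x, k⟩ hz
    obtain ⟨h4, h5, h6⟩ := mem_codA.1 hz
    exact absurd h5 (not_lt.2 (om_le B ((ht.val x).A_LL k h6).1))
  · rintro ⟨x, k⟩ hz
    obtain ⟨h4, h5, h6⟩ := mem_codA.1 hz
    exact ⟨h4, h5⟩
  · refine (ht.fin.image fun x => ((x, ⊥, (t x).2.1 ⊥) : K × K × K)).subset ?_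
    rintro ⟨x, k, y⟩ hz
    obtain ⟨h4, h5, h6, h7⟩ := mem_codL.1 hz
    have hk := hlv k (nl_lv B ((ht.val x).l_nl k h6).1) h5
    subst hk
    exact ⟨x, hF x h6, by rw [h7]⟩
  · rintro ⟨x, k, y⟩ hz
    obtain ⟨h4, h5, h6, h7⟩ := mem_codL.1 hz
    have hk := hlv k (nl_lv B ((ht.val x).l_nl k h6).1) h5
    refine ⟨h4, h5, ?_⟩
    show y < nx N ⊥
    rw [h7, hk]
    exact na_len B (ht.val x) le_rfl
  · refine (ht.fin.biUnion (t := fun x => (fun y => ((x, ⊥, y) : K × K × K)) ''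
      Set.Iio ((t x).2.1 ⊥)) fun x _ =>
        (finite_Iio B (na_len B (ht.val x) le_rfl)).image _).subset ?_
    rintro ⟨x, k, y⟩ hz
    obtain ⟨h4, h5, h6⟩ := mem_codS.1 hz
    have h7 := (ht.val x).s_lt k y h6
    have hk := hlv k (nl_lv B ((ht.val x).l_nl k (ne_bot_of_gt h7)).1) h5
    subst hk
    exact Set.mem_biUnion (hF x (ne_bot_of_gt h7)) ⟨y, h7, rfl⟩
  · rintro ⟨x, k, y⟩ hz
    obtain ⟨h4, h5, h6⟩ := mem_codS.1 hz
    have h7 := (ht.val x).s_lt k y h6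
    have hk := hlv k (nl_lv B ((ht.val x).l_nl k (ne_bot_of_gt h7)).1) h5
    refine ⟨h4, h5, ?_⟩
    subst hk
    exact h7.trans (na_len B (ht.val x) le_rfl)
  · refine Set.finite_empty.subset ?_
    rintro ⟨x, k, y⟩ hz
    exact (hZ k (mem_codR.1 hz).2.1).elim
  · rintro ⟨x, k, y⟩ hz
    exact (hZ k (mem_codR.1 hz).2.1).elim

end COD
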