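import Pool.Agent.COD.Na

/-! # Coding: bounded families are a set of size below kappa

(problem MP_328cd5_lc, coding part, package Nd; helper69; 0.9 h; other files are black boxes)

PROOF. `have : Fact (Bs N K) := ⟨B⟩`, `have : Fact (CPP D) := ⟨P⟩`. Let `A q` be the predicate of the statement (internal), `m := nx e` (`cd_nx`), `I := Iio' e` (`Ip.lean`, `mem_Iio'`). `Cov.of_inj` with `F q := cod I e I q`, bound `nx m`.
Injective: `q, q'` with `A` and the same code. For `e ≤ x` both are `one`. For `x < e`: data at levels `k < e` are equal by `cod_iff`; at levels `k ≥ e` both are idle, and `(k, y) ∈ (q x).s` is impossible (`Val.s_lt`: `y < (q x).l k = ⊥`). `Fn.ext`, `funext`, `Prod.ext`, `St.ext`,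
`Fn.ext` (or `ext_pre` with `EqB e`, `EqU e`).
Image: each component of the code is a set of pairs or triples of ordinals below `m`: `x < e < m`, `k < e < m`; `y = (q x).l k ≠ ⊥`: `y < nx k ≤ nx e = m` (`Val.l_nl`, `nx_mono`); `(k, y) ∈ s`: `y < (q x).l k < m`; `(k, n) ∈ r`, `k < e`: `n < (q x).l (nx k)` (`Val.r_lt`), so `(q x).l (nx k) ≠ ⊥`, so
`nx k < e` (else idle), `(q x).l (nx k) < nx (nx k) ≤ nx e = m`. The sets of pairs / triples below `m` are `Cov N m` (`Cov.prod`, the identity), so their internal subsets are `Cov N (nx m)` (`cov_pow'`); product of four (`Cov.prod` at `nx m`). -/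

set_option autoImplicit false

universe u v

namespace COD

open WCal WM

variable {N : Type u} [WM N] {K : Type v} [WTy N K] [KTy N K] {D : CPD N K}

theorem cov_bd (B : Bs N K) (P : CPP D) (e : K) : ∃ c : K,
    Cov N c (fun q : PQ N K => VQ D q ∧ (∀ x, e ≤ x → q x = one) ∧ ∀ x m, e ≤ m → Idle (q x) m) := by
  have : Fact (Bs N K) := ⟨B⟩
  have : Fact (CPP D) := ⟨P⟩
  have : Nonempty (PQ N K) := ⟨oneQ⟩
  have hm : Cd N (nx N e) := cd_nx B e
  have hA : IP N (fun q : PQ N K => VQ D q ∧ (∀ x, e ≤ x → q x = one) ∧ ∀ x m, e ≤ m → Idle (q x) m) :=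
    IP.and (ip_VQ IF.id) (IP.and (IP.all (IP.imp (ip_leK (IF.const e) IF.snd)
      (IP.eq (IF.app IF.fst IF.snd) (IF.const one))))
      (IP.all (IP.all (IP.imp (ip_leK (IF.const e) IF.snd)
        (ip_Idle (IF.app (IF.fst.comp IF.fst) (IF.snd.comp IF.fst)) IF.snd)))))
  have hF : IF N (fun q : PQ N K => cod (Iio' e) e (Iio' e) q) :=
    if_cod (IF.const _) (IF.const _) (IF.const _) IF.id
  refine ⟨nx N (nx N e), Cov.of_inj hA hF ?_ ?_⟩
  · rintro q q' ⟨hv, ho, hi⟩ ⟨hv', ho', hi'⟩ h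
    have h1 := cod_iff.1 h
    refine Fn.ext (funext fun x => ?_)
    rcases lt_or_ge x e with hx | hx
    · have h2 := h1 x (mem_Iio'.2 hx)
      refine ext_pre (m0 := e) ⟨h2.1, h2.2.1, h2.2.2.1, fun k n hk => h2.2.2.2 k n (mem_Iio'.2 hk)⟩
        ⟨fun k hk => ?_, fun k hk => ?_, fun k y hk => ?_, fun k n hk => ?_⟩
      · exact ⟨fun h3 => absurd h3 (hi x k hk).1, fun h3 => absurd h3 (hi' x k hk).1⟩
      · rw [(hi x k hk).2.1, (hi' x k hk).2.1]
      · refine ⟨fun h3 => absurd ((hv.val x).s_lt k y h3) ?_, fun h3 => absurd ((hv'.val x).s_lt k y h3) ?_⟩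
        · rw [(hi x k hk).2.1]
          exact not_lt_bot
        · rw [(hi' x k hk).2.1]
          exact not_lt_bot
      · exact ⟨fun h3 => absurd h3 ((hi x k hk).2.2 n), fun h3 => absurd h3 ((hi' x k hk).2.2 n)⟩
    · rw [ho x hx, ho' x hx]
  · have hL : Cov N (nx N e) (fun x : K => x < nx N e) := ⟨fun x => x, IF.id, fun a ha => ⟨a, ha, rfl⟩⟩
    have h2 := Cov.prod B hm hL hL
    have h3 := Cov.prod B hm hL h2
    have hp2 := cov_pow' B hm h2
    have hp3 := cov_pow' B hm h3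
    have hc := cd_nx B (nx N e)
    refine Cov.mono ?_ (Cov.prod B hc hp2 (Cov.prod B hc hp3 (Cov.prod B hc hp3 hp3)))
    rintro b ⟨q, ⟨hv, ho, hi⟩, rfl⟩
    have hlen : ∀ x k, (q x).2.1 k ≠ ⊥ → (q x).2.1 k < nx N e := fun x k hne => by
      have hk : k < e := by
        by_contra hc
        exact hne (hi x k (not_lt.1 hc)).2.1
      exact lt_of_lt_of_le ((hv.val x).l_nl k hne).2 (nx_mono B hk.le)
    refine ⟨?_, ?_, ?_, ?_⟩
    · rintro ⟨x, k⟩ hz
      obtain ⟨hx, hk, -⟩ := mem_codA.1 hz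
      exact ⟨lt_trans hx (lt_nx B e), lt_trans hk (lt_nx B e)⟩
    · rintro ⟨x, k, y⟩ hz
      obtain ⟨hx, hk, hne, hy⟩ := mem_codL.1 hz
      refine ⟨lt_trans hx (lt_nx B e), lt_trans hk (lt_nx B e), ?_⟩
      change y < nx N e
      rw [hy]
      exact hlen x k hne
    · rintro ⟨x, k, y⟩ hz
      obtain ⟨hx, hk, hy⟩ := mem_codS.1 hz
      have h4 := (hv.val x).s_lt k y hy
      exact ⟨lt_trans hx (lt_nx B e), lt_trans hk (lt_nx B e), h4.trans (hlen x k (ne_bot_of_gt h4))⟩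
    · rintro ⟨x, k, n⟩ hz
      obtain ⟨hx, hk, hn⟩ := mem_codR.1 hz
      have h4 := ((hv.val x).r_lt k n hn).2
      exact ⟨lt_trans hx (lt_nx B e), lt_trans hk (lt_nx B e), h4.trans (hlen x _ (ne_bot_of_gt h4))⟩

end COD
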