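import Pool.Agent.COD.Qa
import Pool.Agent.COD.Ca

/-! # Coding: codes of families (definitions for the counting lemmas)

(problem MP_328cd5_lc, coding part; helper69; definitions and rules, no sorry in this file)

`cod J a Z t`: the data of the family `t` at the coordinates in `J`: the active limit levels, the nonzero lengths and the bits
at the levels below `a`, the promises at the levels in `Z`. `cod_iff`: two families have the same code if and only if these data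
are equal. -/

set_option autoImplicit false

universe u v w

namespace COD

open WCal WM

/-- codes of families -/
abbrev Cde (N : Type u) [WM N] (K : Type v) [WTy N K] : Type v :=
  St N (K × K) × St N (K × K × K) × St N (K × K × K) × St N (K × K × K)

variable {N : Type u} [WM N] {K : Type v} [WTy N K] [KTy N K]

section

variable {α : Type w} [WTy N α]

theorem codA_int {J : α → St N K} {a : α → K} {t : α → PQ N K} (hJ : IF N J) (ha : IF N a) (ht : IF N t) :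
    IP N (fun z : α × K × K => z.2.1 ∈ J z.1 ∧ z.2.2 < a z.1 ∧ z.2.2 ∈ (t z.1 z.2.1).1) :=
  IP.and (IP.mem (IF.fst' IF.snd) (hJ.comp IF.fst)) (IP.and (ip_ltK (IF.snd' IF.snd) (ha.comp IF.fst))
    (IP.mem (IF.snd' IF.snd) (IF.fst' (IF.app (ht.comp IF.fst) (IF.fst' IF.snd)))))

theorem codL_int {J : α → St N K} {a : α → K} {t : α → PQ N K} (hJ : IF N J) (ha : IF N a) (ht : IF N t) :
    IP N (fun z : α × K × K × K => z.2.1 ∈ J z.1 ∧ z.2.2.1 < a z.1 ∧ (t z.1 z.2.1).2.1 z.2.2.1 ≠ ⊥ ∧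
      z.2.2.2 = (t z.1 z.2.1).2.1 z.2.2.1) := by
  have h1 : IF N (fun z : α × K × K × K => (t z.1 z.2.1).2.1 z.2.2.1) :=
    IF.app (IF.fst' (IF.snd' (IF.app (ht.comp IF.fst) (IF.fst' IF.snd)))) (IF.fst' (IF.snd' IF.snd))
  exact IP.and (IP.mem (IF.fst' IF.snd) (hJ.comp IF.fst)) (IP.and (ip_ltK (IF.fst' (IF.snd' IF.snd)) (ha.comp IF.fst))
    (IP.and (IP.not (IP.eq h1 (IF.const ⊥))) (IP.eq (IF.snd' (IF.snd' IF.snd)) h1)))

theorem codS_int {J : α → St N K} {a : α → K} {t : α → PQ N K} (hJ : IF N J) (ha : IF N a) (ht : IF N t) :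
    IP N (fun z : α × K × K × K => z.2.1 ∈ J z.1 ∧ z.2.2.1 < a z.1 ∧ z.2.2 ∈ (t z.1 z.2.1).2.2.1) :=
  IP.and (IP.mem (IF.fst' IF.snd) (hJ.comp IF.fst)) (IP.and (ip_ltK (IF.fst' (IF.snd' IF.snd)) (ha.comp IF.fst))
    (IP.mem (IF.snd' IF.snd) (IF.fst' (IF.snd' (IF.snd' (IF.app (ht.comp IF.fst) (IF.fst' IF.snd)))))))

theorem codR_int {J Z : α → St N K} {t : α → PQ N K} (hJ : IF N J) (hZ : IF N Z) (ht : IF N t) :
    IP N (fun z : α × K × K × K => z.2.1 ∈ J z.1 ∧ z.2.2.1 ∈ Z z.1 ∧ z.2.2 ∈ (t z.1 z.2.1).2.2.2) :=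
  IP.and (IP.mem (IF.fst' IF.snd) (hJ.comp IF.fst)) (IP.and (IP.mem (IF.fst' (IF.snd' IF.snd)) (hZ.comp IF.fst))
    (IP.mem (IF.snd' IF.snd) (IF.snd' (IF.snd' (IF.snd' (IF.app (ht.comp IF.fst) (IF.fst' IF.snd)))))))

end

/-- the code of the family `t` -/
def cod (J : St N K) (a : K) (Z : St N K) (t : PQ N K) : Cde N K :=
  (⟨{z | z.1 ∈ J ∧ z.2 < a ∧ z.2 ∈ (t z.1).1},
      IP.sec (codA_int (α := K) (IF.const J) (IF.const a) (IF.const t)) a⟩,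
    ⟨{z | z.1 ∈ J ∧ z.2.1 < a ∧ (t z.1).2.1 z.2.1 ≠ ⊥ ∧ z.2.2 = (t z.1).2.1 z.2.1},
      IP.sec (codL_int (α := K) (IF.const J) (IF.const a) (IF.const t)) a⟩,
    ⟨{z | z.1 ∈ J ∧ z.2.1 < a ∧ z.2 ∈ (t z.1).2.2.1},
      IP.sec (codS_int (α := K) (IF.const J) (IF.const a) (IF.const t)) a⟩,
    ⟨{z | z.1 ∈ J ∧ z.2.1 ∈ Z ∧ z.2 ∈ (t z.1).2.2.2},
      IP.sec (codR_int (α := K) (IF.const J) (IF.const Z) (IF.const t)) a⟩)

@[simp] theorem if_cod {α : Type w} [WTy N α] {J : α → St N K} {a : α → K} {Z : α → St N K} {t : α → PQ N K}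
    (hJ : IF N J) (ha : IF N a) (hZ : IF N Z) (ht : IF N t) : IF N (fun i => cod (J i) (a i) (Z i) (t i)) :=
  IF.pair (IF.compr' (codA_int hJ ha ht)) (IF.pair (IF.compr' (codL_int hJ ha ht))
    (IF.pair (IF.compr' (codS_int hJ ha ht)) (IF.compr' (codR_int hJ hZ ht))))

section

variable {J : St N K} {a : K} {Z : St N K} {t : PQ N K}

theorem mem_codA {x k : K} : (x, k) ∈ (cod J a Z t).1 ↔ x ∈ J ∧ k < a ∧ k ∈ (t x).1 := Iff.rfl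

theorem mem_codL {x k y : K} : (x, k, y) ∈ (cod J a Z t).2.1 ↔ x ∈ J ∧ k < a ∧ (t x).2.1 k ≠ ⊥ ∧ y = (t x).2.1 k := Iff.rfl

theorem mem_codS {x k y : K} : (x, k, y) ∈ (cod J a Z t).2.2.1 ↔ x ∈ J ∧ k < a ∧ (k, y) ∈ (t x).2.2.1 := Iff.rfl

theorem mem_codR {x k n : K} : (x, k, n) ∈ (cod J a Z t).2.2.2 ↔ x ∈ J ∧ k ∈ Z ∧ (k, n) ∈ (t x).2.2.2 := Iff.rfl

/-- the code determines the data -/
theorem cod_iff {t' : PQ N K} : cod J a Z t = cod J a Z t' ↔ ∀ x, x ∈ J →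
    (∀ k, k < a → (k ∈ (t x).1 ↔ k ∈ (t' x).1)) ∧ (∀ k, k < a → (t x).2.1 k = (t' x).2.1 k) ∧
    (∀ k y, k < a → ((k, y) ∈ (t x).2.2.1 ↔ (k, y) ∈ (t' x).2.2.1)) ∧
    ∀ k n, k ∈ Z → ((k, n) ∈ (t x).2.2.2 ↔ (k, n) ∈ (t' x).2.2.2) := by
  constructor
  · intro h x hx
    have h1 : (cod J a Z t).1 = (cod J a Z t').1 := congrArg (fun c => c.1) h
    have h2 : (cod J a Z t).2.1 = (cod J a Z t').2.1 := congrArg (fun c => c.2.1) h
    have h3 : (cod J a Z t).2.2.1 = (cod J a Z t').2.2.1 := congrArg (fun c => c.2.2.1) h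
    have h4 : (cod J a Z t).2.2.2 = (cod J a Z t').2.2.2 := congrArg (fun c => c.2.2.2) h
    refine ⟨fun k hk => ?_, fun k hk => ?_, fun k y hk => ?_, fun k n hk => ?_⟩
    · have h5 : (x, k) ∈ (cod J a Z t).1 ↔ (x, k) ∈ (cod J a Z t').1 := by rw [h1]
      rw [mem_codA, mem_codA] at h5
      exact ⟨fun h' => (h5.1 ⟨hx, hk, h'⟩).2.2, fun h' => (h5.2 ⟨hx, hk, h'⟩).2.2⟩
    · have h5 : ∀ y, (x, k, y) ∈ (cod J a Z t).2.1 ↔ (x, k, y) ∈ (cod J a Z t').2.1 := fun y => by rw [h2]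
      by_cases h6 : (t x).2.1 k = ⊥
      · by_cases h7 : (t' x).2.1 k = ⊥
        · rw [h6, h7]
        · exact (mem_codL.1 ((h5 _).2 (mem_codL.2 ⟨hx, hk, h7, rfl⟩))).2.2.2.symm
      · exact (mem_codL.1 ((h5 _).1 (mem_codL.2 ⟨hx, hk, h6, rfl⟩))).2.2.2
    · have h5 : (x, k, y) ∈ (cod J a Z t).2.2.1 ↔ (x, k, y) ∈ (cod J a Z t').2.2.1 := by rw [h3]
      rw [mem_codS, mem_codS] at h5
      exact ⟨fun h' => (h5.1 ⟨hx, hk, h'⟩).2.2, fun h' => (h5.2 ⟨hx, hk, h'⟩).2.2⟩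
    · have h5 : (x, k, n) ∈ (cod J a Z t).2.2.2 ↔ (x, k, n) ∈ (cod J a Z t').2.2.2 := by rw [h4]
      rw [mem_codR, mem_codR] at h5
      exact ⟨fun h' => (h5.1 ⟨hx, hk, h'⟩).2.2, fun h' => (h5.2 ⟨hx, hk, h'⟩).2.2⟩
  · intro h
    refine Prod.ext (St.ext (Set.ext ?_)) (Prod.ext (St.ext (Set.ext ?_)) (Prod.ext (St.ext (Set.ext ?_))
      (St.ext (Set.ext ?_))))
    · rintro ⟨x, k⟩
      show (x ∈ J ∧ k < a ∧ k ∈ (t x).1) ↔ (x ∈ J ∧ k < a ∧ k ∈ (t' x).1)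
      constructor
      · rintro ⟨h1, h2, h3⟩
        exact ⟨h1, h2, ((h x h1).1 k h2).1 h3⟩
      · rintro ⟨h1, h2, h3⟩
        exact ⟨h1, h2, ((h x h1).1 k h2).2 h3⟩
    · rintro ⟨x, k, y⟩
      show (x ∈ J ∧ k < a ∧ (t x).2.1 k ≠ ⊥ ∧ y = (t x).2.1 k) ↔
        (x ∈ J ∧ k < a ∧ (t' x).2.1 k ≠ ⊥ ∧ y = (t' x).2.1 k)
      constructor
      · rintro ⟨h1, h2, h3⟩
        rw [(h x h1).2.1 k h2] at h3
        exact ⟨h1, h2, h3⟩
      · rintro ⟨h1, h2, h3⟩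
        rw [← (h x h1).2.1 k h2] at h3
        exact ⟨h1, h2, h3⟩
    · rintro ⟨x, k, y⟩
      show (x ∈ J ∧ k < a ∧ (k, y) ∈ (t x).2.2.1) ↔ (x ∈ J ∧ k < a ∧ (k, y) ∈ (t' x).2.2.1)
      constructor
      · rintro ⟨h1, h2, h3⟩
        exact ⟨h1, h2, ((h x h1).2.2.1 k y h2).1 h3⟩
      · rintro ⟨h1, h2, h3⟩
        exact ⟨h1, h2, ((h x h1).2.2.1 k y h2).2 h3⟩
    · rintro ⟨x, k, n⟩
      show (x ∈ J ∧ k ∈ Z ∧ (k, n) ∈ (t x).2.2.2) ↔ (x ∈ J ∧ k ∈ Z ∧ (k, n) ∈ (t' x).2.2.2)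
      constructor
      · rintro ⟨h1, h2, h3⟩
        exact ⟨h1, h2, ((h x h1).2.2.2 k n h2).1 h3⟩
      · rintro ⟨h1, h2, h3⟩
        exact ⟨h1, h2, ((h x h1).2.2.2 k n h2).2 h3⟩

end

end COD
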