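import Pool.Agent.COD.Kf

/-! # Coding: monotonicity of positions and bits

(problem MP_328cd5_lc, coding part, package V0; architect helper51; 0.7 h; other files are black boxes)

PROOFS. `Ev`, `Fr` are quantifiers over large elements of `S` below `a`; everything is unfolding. `Ev.fr`: `S` is unbounded. `Bit.pos`: for `NL m`
use `Val.s_lt`; for `LL m`: `Bit` gives `Ev (f < l)`, so `Fr` (`CPP.fr`). `Pos.mono`, `Zer.mono`, `Bit.mono`: `q.l k ≤ p.l k`, and for `f < q.l k` the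
memberships in the `s`-parts agree (`Le.s`). `Bit.not_zer`: an element of `S m` beyond the bound of `Ev` given by `Fr`. `Le.bit`: `→` for `LL m`: `q` is
decided at `(m, x)` (`Val.dec`); if `Zer D q m x` then `Zer D p m x`, contradiction with `Bit D p m x` (`Bit.not_zer`). For `NL m`: `Pos D q m x` is
`x < q.l m` (`not_nl_ll`), `Le.s`. -/

set_option autoImplicit false

universe u v

namespace COD

open WCal WM

variable {N : Type u} [WM N] {K : Type v} [WTy N K] [KTy N K]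

theorem Ev.mono {a : K} {S : St N K} {P P' : K → Prop} (h : Ev N a S P) (h' : ∀ m, m ∈ S → m < a → P m → P' m) :
    Ev N a S P' := by
  obtain ⟨e, he, h1⟩ := h
  exact ⟨e, he, fun m hm hem hma => h' m hm hma (h1 m hm hem hma)⟩

theorem Ev.and {a : K} {S : St N K} {P P' : K → Prop} (h : Ev N a S P) (h' : Ev N a S P') :
    Ev N a S (fun m => P m ∧ P' m) := by
  obtain ⟨e, he, h1⟩ := h
  obtain ⟨e', he', h2⟩ := h'
  exact ⟨max e e', max_lt he he', fun m hm hem hma =>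
    ⟨h1 m hm (le_trans (le_max_left _ _) hem) hma, h2 m hm (le_trans (le_max_right _ _) hem) hma⟩⟩

theorem Fr.mono {a : K} {S : St N K} {P P' : K → Prop} (h : Fr N a S P) (h' : ∀ m, m ∈ S → m < a → P m → P' m) :
    Fr N a S P' := by
  intro e he
  obtain ⟨m, hm, hem, hma, h1⟩ := h e he
  exact ⟨m, hm, hem, hma, h' m hm hma h1⟩

theorem Fr.and_ev {a : K} {S : St N K} {P P' : K → Prop} (h : Fr N a S P) (h' : Ev N a S P') :
    Fr N a S (fun m => P m ∧ P' m) := by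
  intro e he
  obtain ⟨e', he', h2⟩ := h'
  obtain ⟨m, hm, hem, hma, h1⟩ := h (max e e') (max_lt he he')
  exact ⟨m, hm, le_trans (le_max_left _ _) hem, hma, h1,
    h2 m hm (le_trans (le_max_right _ _) hem) hma⟩

theorem not_fr {a : K} {S : St N K} {P : K → Prop} : ¬ Fr N a S P ↔ Ev N a S (fun m => ¬ P m) := by
  unfold Fr Ev
  push Not
  rfl

variable {D : CPD N K}

theorem CPP.fr (P : CPP D) {l : K} (hl : LL N l) {Q : K → Prop} (h : Ev N l (D.S l) Q) : Fr N l (D.S l) Q := by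
  obtain ⟨e', he', h2⟩ := h
  intro e he
  obtain ⟨m, hm, hem⟩ := P.S_unb l hl (max e e') (max_lt he he')
  have hml := (P.S_lt l hl m hm).1
  exact ⟨m, hm, le_trans (le_max_left _ _) hem, hml,
    h2 m hm (le_trans (le_max_right _ _) hem) hml⟩

theorem Bit.pos (P : CPP D) {p : Pre N K} (hp : Val D p) {m x : K} (h : Bit D p m x) : Pos D p m x := by
  rcases h with ⟨h1, h2⟩ | ⟨h1, h2⟩
  · exact Or.inl ⟨h1, hp.s_lt _ _ h2⟩
  · exact Or.inr ⟨h1, P.fr h1 (h2.mono fun _ _ _ h => h.1)⟩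

theorem Bit.not_zer (P : CPP D) {p : Pre N K} {m x : K} (hm : LL N m) (h : Bit D p m x) : ¬ Zer D p m x := by
  intro hz
  rcases h with ⟨h1, -⟩ | ⟨h1, h2⟩
  · exact not_nl_ll h1 hm
  · obtain ⟨k, -, -, -, h3, h4⟩ := (Fr.and_ev hz h2) ⊥ (bot_lt_iff_ne_bot.2 (cd_ne hm.1))
    exact h3.2 h4.2

theorem Pos.mono {p q : Pre N K} (h : Le D p q) {m x : K} (hx : Pos D q m x) : Pos D p m x := by
  rcases hx with ⟨h1, h2⟩ | ⟨h1, h2⟩
  · exact Or.inl ⟨h1, lt_of_lt_of_le h2 (h.l m)⟩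
  · exact Or.inr ⟨h1, h2.mono fun k _ _ hk => lt_of_lt_of_le hk (h.l k)⟩

theorem Zer.mono {p q : Pre N K} (h : Le D p q) {m x : K} (hx : Zer D q m x) : Zer D p m x := by
  exact Fr.mono hx fun k _ _ hk => ⟨lt_of_lt_of_le hk.1 (h.l k), fun h1 => hk.2 ((h.s k _ hk.1).2 h1)⟩

theorem Bit.mono {p q : Pre N K} (hq : Val D q) (h : Le D p q) {m x : K} (hx : Bit D q m x) : Bit D p m x := by
  rcases hx with ⟨h1, h2⟩ | ⟨h1, h2⟩
  · exact Or.inl ⟨h1, (h.s m x (hq.s_lt _ _ h2)).1 h2⟩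
  · exact Or.inr ⟨h1, h2.mono fun k _ _ hk => ⟨lt_of_lt_of_le hk.1 (h.l k), (h.s k _ hk.1).1 hk.2⟩⟩

/-- bits at old positions of active levels do not change -/
theorem Le.bit (P : CPP D) {p q : Pre N K} (hq : Val D q) (h : Le D p q) {m x : K} (hm : NL N m ∨ m ∈ q.1)
    (hx : x < nx N m) (hpos : Pos D q m x) : Bit D p m x ↔ Bit D q m x := by
  refine ⟨fun hb => ?_, fun hb => hb.mono hq h⟩
  rcases hm with hm | hm
  · rcases hpos with ⟨-, h2⟩ | ⟨h1, -⟩
    · rcases hb with ⟨-, h4⟩ | ⟨h3, -⟩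
      · exact Or.inl ⟨hm, (h.s m x h2).2 h4⟩
      · exact (not_nl_ll hm h3).elim
    · exact (not_nl_ll hm h1).elim
  · rcases hq.dec m hm x hx hpos with h1 | h1
    · exact h1
    · exact (hb.not_zer P (hq.A_LL m hm) (h1.mono h)).elim

end COD
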