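import Pool.Agent.COD.V3

/-! # Coding: one bit at a nonlimit level, promises, seeds

(problem MP_328cd5_lc, coding part, package V5; architect helper51; 1.3 h; other files are black boxes)

PROOFS. `bitN` (7.7, `NL`): choose `y'` with `y < y' < nx m` (`lim_cd`), `l'` = `p.l` updated at `m` to `y'` (`p.l m ≤ y < y'`), `s' = p.s ∪ {(m, y)}`,
`p' = (p.1, l', s', p.r)`. `dec` at `a ∈ p.1`: `ext_old`; `hn`: for all large `k ∈ S a` we have `k ≠ m` (if `m < a`: `k > m`, use `lim_of_LL`; else `k < a ≤ m`), and then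
`(k, x) ∈ s'` means `(k, x) ∈ p.s`, so `x < p.l k`. `gap`: `gap_ext`, `W = (· = m)`, `W_one`. `Le.s`: the new pair has `y ≥ p.l m`. `Le.pro`: let `(k, n) ∈ p.r`,
`x ∈ b k n v`, `Pos p' k x`, not `Pos p k x`. `NL k`: if `(k, x) ∈ s'`: either `(k, x) ∈ p.s`, then `x < p.l k`, contradiction, or `k = m`, `x = y`, excluded by
`hr`. `LL k`: `ext_old`, second part (`Val.r_A`; `x < nx k` by `CPP.b_lt`).
`promise` (7.6): `p' = (p.1, p.l, p.s, p.r ∪ {(m, n)})`. `Pos`, `Bit`, `Zer` do not depend on `r`, so `dec`, `A_pos` are those of `p`. `r_fin`: insert. `r_sz`: for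
`Cd k` the predicate is contained in the union of the old one and `{n}`: `Cov.iUnion` over `Prop`/`Bool`-many sets or directly (`k` is infinite:
`Cov.finite` for `Bool` and `Cov.iUnion`). `gap`: `W_one`. `bdd`: beyond `m`. `Le.pro`: no new positions.
`seed` (7.8): `p = (∅, l, {(m, n)}, ∅)`, `l` = `⊥` updated at `m` to some `n'` with `n < n' < nx m`; `gap`: `gap_ext` from `one` (`one_val`) with `W_one`. -/

set_option autoImplicit false

universe u v

namespace COD

open WCal WM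

variable {N : Type u} [WM N] {K : Type v} [WTy N K] [KTy N K] {D : CPD N K}

/-- a function changed at one place -/
private noncomputable def upd (F : Fn N K K) (m y : K) : Fn N K K :=
  ⟨fun k => @ite _ (k = m) (Classical.propDecidable _) y (F k),
    IF.ite (IP.eq IF.id (IF.const m)) (IF.const y) F.int⟩

omit [KTy N K] in
private theorem upd_self (F : Fn N K K) (m y : K) : (upd F m y : Fn N K K) m = y :=
  @if_pos _ (Classical.propDecidable _) rfl _ _ _

omit [KTy N K] in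
private theorem upd_ne (F : Fn N K K) {m k : K} (y : K) (h : k ≠ m) :
    (upd F m y : Fn N K K) k = F k :=
  @if_neg _ (Classical.propDecidable _) h _ _ _

/-- a set with one more element -/
private def ins {α : Type*} [WTy N α] (S : St N α) (a : α) : St N α :=
  ⟨{x | x ∈ S ∨ x = a}, IP.or S.int (IP.eq IF.id (IF.const a))⟩

private theorem mem_ins {α : Type*} [WTy N α] {S : St N α} {a x : α} :
    x ∈ ins S a ↔ x ∈ S ∨ x = a := Iff.rfl

/-- the levels beyond a given one -/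
private theorem bdd_one (B : Bs N K) {p : Pre N K} (hp : Val D p) (m : K) :
    ∃ e, ∀ k, e ≤ k → Idle p k ∧ k ≠ m := by
  obtain ⟨e, he⟩ := hp.bdd
  obtain ⟨b, hb, -⟩ := B.unb m
  refine ⟨max e b, fun k hk => ⟨he k ((le_max_left _ _).trans hk), ?_⟩⟩
  rintro rfl
  exact absurd (hb.trans_le ((le_max_right _ _).trans hk)) (lt_irrefl _)

theorem bitN (B : Bs N K) (P : CPP D) {p : Pre N K} (hp : Val D p) {m : K} (hm : NL N m) {y : K}
    (hy : y < nx N m) (h : ¬ y < p.2.1 m)
    (hr : ∀ n, (m, n) ∈ p.2.2.2 → y ∉ D.b m n ((nx N m, n) ∈ p.2.2.1)) :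
    ∃ p' : Pre N K, Val D p' ∧ Le D p' p ∧ Bit D p' m y := by
  obtain ⟨y', hy1, hy2⟩ := (lim_cd B (cd_nx B m)).2 y hy
  have hly : p.2.1 m ≤ y := not_lt.1 h
  have hl : ∀ k, p.2.1 k ≤ (upd p.2.1 m y' : Fn N K K) k := by
    intro k
    by_cases hk : k = m
    · subst hk
      rw [upd_self]
      exact hly.trans hy1.le
    · rw [upd_ne _ _ hk]
  have hs : ∀ k x, x < p.2.1 k → ((k, x) ∈ p.2.2.1 ↔ (k, x) ∈ ins p.2.2.1 (m, y)) := by
    intro k x hx
    rw [mem_ins]
    refine ⟨Or.inl, fun h1 => h1.elim id fun h2 => ?_⟩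
    obtain ⟨rfl, rfl⟩ := Prod.mk.inj h2
    exact absurd hx h
  have hn : ∀ a, a ∈ p.1 → Ev N a (D.S a) (fun k => ∀ x, x < nx N a → p.2.1 k ≤ D.f a x k →
      D.f a x k < (upd p.2.1 m y' : Fn N K K) k → (k, D.f a x k) ∉ ins p.2.2.1 (m, y)) := by
    intro a ha
    have hLL : LL N a := hp.A_LL a ha
    have hlim : Lim N a := lim_of_LL B hLL
    have key : Ev N a (D.S a) (fun k => k ≠ m) := by
      by_cases hma : m < a
      · obtain ⟨e, h1, h2⟩ := hlim.2 m hma
        refine ⟨e, h2, ?_⟩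
        rintro k - hek - rfl
        exact absurd (h1.trans_le hek) (lt_irrefl _)
      · refine ⟨⊥, bot_lt_iff_ne_bot.2 hlim.1, ?_⟩
        rintro k - - hka rfl
        exact hma hka
    refine key.mono fun k _ _ hk x _ hx1 _ hx2 => ?_
    rcases mem_ins.1 hx2 with h1 | h1
    · exact absurd (hp.s_lt _ _ h1) (not_lt.2 hx1)
    · exact hk (Prod.mk.inj h1).1
  let p' : Pre N K := (p.1, upd p.2.1 m y', ins p.2.2.1 (m, y), p.2.2.2)
  have hval : Val D p' := by
    refine ⟨?_, ?_, ?_, hp.r_A, hp.r_fin, hp.r_sz, hp.A_LL, ?_, ?_, ?_, ?_⟩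
    · intro k hk
      by_cases hkm : k = m
      · subst hkm
        refine ⟨hm, ?_⟩
        show (upd p.2.1 k y' : Fn N K K) k < nx N k
        rw [upd_self]
        exact hy2
      · have h1 : (upd p.2.1 m y' : Fn N K K) k = p.2.1 k := upd_ne _ _ hkm
        have hk' : (upd p.2.1 m y' : Fn N K K) k ≠ ⊥ := hk
        rw [h1] at hk'
        obtain ⟨h2, h3⟩ := hp.l_nl k hk'
        refine ⟨h2, ?_⟩
        show (upd p.2.1 m y' : Fn N K K) k < nx N k
        rw [h1]
        exact h3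
    · intro k x hx
      rcases mem_ins.1 hx with h1 | h1
      · exact (hp.s_lt _ _ h1).trans_le (hl k)
      · obtain ⟨rfl, rfl⟩ := Prod.mk.inj h1
        show x < (upd p.2.1 k y' : Fn N K K) k
        rw [upd_self]
        exact hy1
    · intro k n hkn
      obtain ⟨h1, h2⟩ := hp.r_lt k n hkn
      exact ⟨h1, h2.trans_le (hl _)⟩
    · obtain ⟨e, he⟩ := bdd_one B hp m
      refine ⟨e, fun k hk => ?_⟩
      obtain ⟨⟨h1, h2, h3⟩, h4⟩ := he k hk
      exact ⟨h1, (upd_ne _ _ h4).trans h2, h3⟩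
    · intro a ha
      exact (hp.A_pos a ha).mono fun k _ _ hk => lt_of_lt_of_le hk (hl k)
    · intro a ha
      exact (ext_old (p' := p') P hp hl hs ha (hn a ha)).1
    · refine gap_ext P hp (fun k => k = m) (W_one B P m) fun k _ hk hid => ?_
      exact ⟨hid.1, (upd_ne _ _ hk).trans hid.2.1, hid.2.2⟩
  refine ⟨p', hval, ⟨fun _ h => h, hl, hs, fun _ _ h => h, ?_⟩,
    Or.inl ⟨hm, mem_ins.2 (Or.inr rfl)⟩⟩
  intro k n hkn x hx h1 h2
  obtain ⟨hLv, hn1⟩ := hp.r_lt k n hkn
  rcases lv_cases hLv with h3 | h3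
  · rintro (⟨-, h4⟩ | ⟨h4, -⟩)
    · rcases mem_ins.1 h4 with h5 | h5
      · exact h2 (Or.inl ⟨h3, hp.s_lt _ _ h5⟩)
      · obtain ⟨rfl, rfl⟩ := Prod.mk.inj h5
        exact hr n hkn hx
    · exact not_nl_ll h3 h4
  · have hk : k ∈ p.1 := hp.r_A k n hkn h3
    have hne : p.2.1 (nx N k) ≠ ⊥ := by
      intro h4
      rw [h4] at hn1
      exact not_lt_bot hn1
    exact (ext_old (p' := p') P hp hl hs hk (hn k hk)).2 x
      (P.b_lt k n _ hLv (hn1.trans (hp.l_nl _ hne).2) x hx) h1 h2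

theorem promise (B : Bs N K) (P : CPP D) {p : Pre N K} (hp : Val D p) {m : K} (hm : NL N m ∨ m ∈ p.1) {n : K}
    (hn : n < p.2.1 (nx N m)) : ∃ p' : Pre N K, Val D p' ∧ Le D p' p ∧ (m, n) ∈ p'.2.2.2 := by
  have hLv : Lv N m := by
    rcases hm with h1 | h1
    · exact nl_lv B h1
    · exact Or.inr (hp.A_LL m h1).1
  let p' : Pre N K := (p.1, p.2.1, p.2.2.1, ins p.2.2.2 (m, n))
  have hval : Val D p' := by
    refine ⟨hp.l_nl, hp.s_lt, ?_, ?_, ?_, ?_, hp.A_LL, ?_, hp.A_pos, hp.dec, ?_⟩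
    · intro k x hkx
      rcases mem_ins.1 hkx with h1 | h1
      · exact hp.r_lt k x h1
      · obtain ⟨rfl, rfl⟩ := Prod.mk.inj h1
        exact ⟨hLv, hn⟩
    · intro k x hkx hk
      rcases mem_ins.1 hkx with h1 | h1
      · exact hp.r_A k x h1 hk
      · obtain ⟨rfl, rfl⟩ := Prod.mk.inj h1
        exact hm.resolve_left fun h2 => not_nl_ll h2 hk
    · refine (hp.r_fin.union (Set.finite_singleton n)).subset ?_
      intro x hx
      rcases mem_ins.1 hx with h1 | h1
      · exact Or.inl h1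
      · exact Or.inr (Prod.mk.inj h1).2
    · intro k hk
      have h1 : Cov N k (fun _ : Prop => True) := Cov.finite B hk (Set.toFinite _)
      have h2 := Cov.iUnion (α := K) B hk h1
        (A := fun b x => (b ∧ (k, x) ∈ p.2.2.2) ∨ (¬ b ∧ x = n))
        (IP.or (IP.and (IF.prop.1 IF.fst)
          (IP.mem (IF.pair (IF.const k) IF.snd) (IF.const p.2.2.2)))
          (IP.and (IP.not (IF.prop.1 IF.fst)) (IP.eq IF.snd (IF.const n))))
        (fun b _ => by
          by_cases hb : b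
          · refine (hp.r_sz k hk).mono fun x hx => ?_
            rcases hx with h3 | h3
            · exact h3.2
            · exact absurd hb h3.1
          · refine (Cov.finite B hk (Set.finite_singleton n)).mono fun x hx => ?_
            rcases hx with h3 | h3
            · exact absurd h3.1 hb
            · exact h3.2)
      refine h2.mono fun x hx => ?_
      rcases mem_ins.1 hx with h3 | h3
      · exact ⟨True, trivial, Or.inl ⟨trivial, h3⟩⟩
      · exact ⟨False, trivial, Or.inr ⟨fun h => h, (Prod.mk.inj h3).2⟩⟩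
    · obtain ⟨e, he⟩ := bdd_one B hp m
      refine ⟨e, fun k hk => ?_⟩
      obtain ⟨⟨h1, h2, h3⟩, h4⟩ := he k hk
      refine ⟨h1, h2, fun x hx => ?_⟩
      rcases mem_ins.1 hx with h5 | h5
      · exact h3 x h5
      · exact h4 (Prod.mk.inj h5).1
    · refine gap_ext P hp (fun k => k = m) (W_one B P m) fun k _ hk hid => ?_
      refine ⟨hid.1, hid.2.1, fun x hx => ?_⟩
      rcases mem_ins.1 hx with h5 | h5
      · exact hid.2.2 x h5
      · exact hk (Prod.mk.inj h5).1
  exact ⟨p', hval, ⟨fun _ h => h, fun _ => le_rfl, fun _ _ _ => Iff.rfl, fun _ _ h => Or.inl h,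
    fun _ _ _ _ _ h h' => absurd h h'⟩, Or.inr rfl⟩

theorem seed (B : Bs N K) (P : CPP D) {m : K} (hm : NL N m) {n : K} (hn : n < nx N m) :
    ∃ p : Pre N K, Val D p ∧ n < p.2.1 m ∧ (m, n) ∈ p.2.2.1 ∧ ∀ y, y ≠ n → (m, y) ∉ p.2.2.1 := by
  obtain ⟨y', hy1, hy2⟩ := (lim_cd B (cd_nx B m)).2 n hn
  have h1 : Val D (one : Pre N K) := one_val B
  have hns : ∀ q : K × K, q ∉ (one : Pre N K).2.2.1 := fun _ h => h
  have hnr : ∀ q : K × K, q ∉ (one : Pre N K).2.2.2 := fun _ h => h
  have hnA : ∀ k : K, k ∉ (one : Pre N K).1 := fun _ h => h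
  have hl0 : ∀ k : K, (one : Pre N K).2.1 k = ⊥ := fun _ => rfl
  let p : Pre N K := ((one : Pre N K).1, upd (one : Pre N K).2.1 m y',
    ins (one : Pre N K).2.2.1 (m, n), (one : Pre N K).2.2.2)
  have hself : p.2.1 m = y' := upd_self _ _ _
  have hval : Val D p := by
    refine ⟨?_, ?_, fun k x h => absurd h (hnr _), fun k x h => absurd h (hnr _), h1.r_fin,
      h1.r_sz, h1.A_LL, ?_, fun k h => absurd h (hnA k), fun k h => absurd h (hnA k), ?_⟩
    · intro k hk
      by_cases hkm : k = m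
      · subst hkm
        rw [hself]
        exact ⟨hm, hy2⟩
      · exact absurd ((upd_ne _ _ hkm).trans (hl0 k)) hk
    · intro k x hx
      rcases mem_ins.1 hx with h2 | h2
      · exact absurd h2 (hns _)
      · obtain ⟨rfl, rfl⟩ := Prod.mk.inj h2
        rw [hself]
        exact hy1
    · obtain ⟨e, he⟩ := bdd_one B h1 m
      refine ⟨e, fun k hk => ?_⟩
      obtain ⟨⟨h2, h3, h4⟩, h5⟩ := he k hk
      exact ⟨h2, (upd_ne _ _ h5).trans h3, h4⟩
    · refine gap_ext P h1 (fun k => k = m) (W_one B P m) fun k _ hk hid => ?_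
      exact ⟨hid.1, (upd_ne _ _ hk).trans hid.2.1, hid.2.2⟩
  refine ⟨p, hval, ?_, mem_ins.2 (Or.inr rfl), fun y hy h2 => ?_⟩
  · rw [hself]
    exact hy1
  · rcases mem_ins.1 h2 with h3 | h3
    · exact hns _ h3
    · exact hy (Prod.mk.inj h3).2

end COD
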